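import Pool.Agent.Lib.MP_7946c7_pr.D.Hub
import Pool.Agent.Lib.MP_7946c7_pr.H.HDefs

/-!
# MP_7946c7_pr, stream D, job Det: deterministic part of D11
-/

open Finset

namespace RST.D

variable {V : Type} [Fintype V]

open Classical in
/-- Deterministic part of D11. `G0 ≤ G1 ≤ G2` are `G(-h2) ≤ G(x) ≤ G(1.01 x)`, the hubs are the vertices
of `gg G0 univ k` (component of `G0` of size at least `k`).
Proof. Let `D₀ = (8 clog n + 8) (lm + 1)`.
(a) By `hub_conn` any two hub vertices are joined by a walk of `G1` of length at most `D₀`. So for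
a hub vertex `w`, `gg G0 univ k ⊆ cmp G1 univ w`, and by `hkg` `w ∈ gg G1 univ kg`.
(b) Claim: for `z ∈ gg G1 univ kg` there is a hub vertex `w` with `WkLe G2 (R + lm + 1) z w`. There is
a hub vertex `w₀` (`hne`), and `Rch G1 univ z w₀` by `hconn` and (a). If `WkLe G1 R z w₀` done.
Otherwise `long_geodesic` gives a self-avoiding walk of `G1` of length more than `R` from `z` to `w₀`;
let `γ` be its initial piece of length `R` (`saw_take`), `Q` its vertex set. By `hR1`,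
`V₀ < |expl G0 Q (univ \ Q)|`. Every `w ∈ expl G0 Q (univ \ Q)` is in `ball G1 z (R + lm)`: it is in `Q`, or
it is reached in `G0` from some `γ i ∈ Q` (one `G0` edge, then `Rch G0`), so `w ∈ cmp G0 univ (γ i)`,
`WkLe G0 lm (γ i) w` (`cmp_wk`), `WkLe G1 R z (γ i)`. So `V₀ < |ball G1 z (R + lm)|`, and by
`hspr` some `u ∈ ball G1 z (R + lm)` is a hub vertex or is joined by a `G2` edge to a hub vertex.
(c) For `u, v ∈ gg G1 univ kg`: `u` to a hub vertex, to a hub vertex, to `v`; then `WkLe.saw`. -/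
theorem giant_diam_det (G0 G1 G2 : V → V → Prop) (h0 : ∀ u v, G0 u v → G0 v u)
    (h1 : ∀ u v, G1 u v → G1 v u) (h2 : ∀ u v, G2 u v → G2 v u)
    (h01 : ∀ u v, G0 u v → G1 u v) (h12 : ∀ u v, G1 u v → G2 u v) (k kg lm R V₀ : ℕ)
    (hk : 1 ≤ k) (hlm : ∀ (γ : ℕ → V) (ℓ : ℕ), IsSAW G0 γ ℓ → ℓ < lm)
    (hexp : ∀ X ⊆ bigs G0 univ k, 2 * X.card ≤ (bigs G0 univ k).card →
      X.card ≤ 2 * ((bigs G0 univ k \ X).filter fun Q => ∃ P ∈ X, cadj G1 P Q).card)
    (hne : (gg G0 univ k).Nonempty) (hkg : kg ≤ (gg G0 univ k).card)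
    (hR1 : ∀ γ : ℕ → V, IsSAW G1 γ R →
      V₀ < (expl G0 ((range (R + 1)).image γ) (univ \ (range (R + 1)).image γ)).card)
    (hspr : ∀ z, V₀ < (ball G1 z (R + lm)).card → ∃ u ∈ ball G1 z (R + lm),
      ∃ w ∈ gg G0 univ k, u = w ∨ G2 u w)
    (hconn : ∀ u ∈ gg G1 univ kg, ∀ v ∈ gg G1 univ kg, Rch G1 univ u v) (u v : V)
    (hu : u ∈ gg G1 univ kg) (hv : v ∈ gg G1 univ kg) :
    ∃ (γ : ℕ → V) (ℓ : ℕ), IsSAW G2 γ ℓ ∧ γ 0 = u ∧ γ ℓ = v ∧
      ℓ ≤ 2 * (R + lm + 1) + (8 * Nat.clog 2 (Fintype.card V) + 8) * (lm + 1) := by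
  classical
  have mem_gg : ∀ (R : V → V → Prop) (k : ℕ) (x : V),
      x ∈ gg R univ k ↔ k ≤ (cmp R univ x).card := by
    intro R k x
    unfold gg
    simp
  obtain ⟨D₀, hD₀⟩ : ∃ D₀, D₀ = (8 * Nat.clog 2 (Fintype.card V) + 8) * (lm + 1) := ⟨_, rfl⟩
  have hA : ∀ x ∈ gg G0 univ k, ∀ y ∈ gg G0 univ k, WkLe G1 D₀ x y := by
    intro x hx y hy
    rw [hD₀]
    exact hub_conn G0 G1 h0 h1 h01 k lm hk hlm hexp x y ((mem_gg _ _ _).1 hx)
      ((mem_gg _ _ _).1 hy)
  have hA2 : ∀ w ∈ gg G0 univ k, w ∈ gg G1 univ kg := by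
    intro w hw
    rw [mem_gg]
    refine hkg.trans (card_le_card ?_)
    intro y hy
    rw [mem_cmp]
    exact (hA w hw y hy).rch
  have hB : ∀ z ∈ gg G1 univ kg, ∃ w ∈ gg G0 univ k, WkLe G2 (R + lm + 1) z w := by
    intro z hz
    obtain ⟨w₀, hw₀⟩ := hne
    have hr := hconn z hz w₀ (hA2 w₀ hw₀)
    by_cases hR : WkLe G1 R z w₀
    · exact ⟨w₀, hw₀, hR.mono h12 (by omega)⟩
    · obtain ⟨γ, ℓ, hℓ, hγ0, hγℓ, hsaw, _⟩ := long_geodesic hr hR
      have hsaw' := saw_take hsaw hℓ.le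
      have hV := hR1 γ hsaw'
      have hwalk : ∀ i ≤ R, WkLe G1 R z (γ i) := fun i hi =>
        ⟨γ, i, hi, hγ0, rfl, fun j hj => hsaw'.1 j (by omega)⟩
      have hsub : expl G0 ((range (R + 1)).image γ) (univ \ (range (R + 1)).image γ) ⊆
          ball G1 z (R + lm) := by
        intro w hw
        rw [mem_ball]
        unfold expl at hw
        rw [mem_union] at hw
        rcases hw with hw | hw
        · rw [mem_image] at hw
          obtain ⟨i, hi, rfl⟩ := hw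
          rw [mem_range] at hi
          exact (hwalk i (by omega)).mono (fun _ _ h => h) (by omega)
        · rw [mem_filter] at hw
          obtain ⟨_, q, hq, u, hu, hqu, huw⟩ := hw
          rw [mem_image] at hq
          obtain ⟨i, hi, rfl⟩ := hq
          rw [mem_range] at hi
          have h3 : w ∈ cmp G0 univ (γ i) := by
            rw [mem_cmp]
            refine Relation.ReflTransGen.head ⟨hqu, mem_univ _, mem_univ _⟩ ?_
            exact Relation.ReflTransGen.mono (fun _ _ h => ⟨h.1, mem_univ _, mem_univ _⟩) _ _ huw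
          have h4 := cmp_wk hlm h3
          exact (hwalk i (by omega)).trans (h4.mono h01 le_rfl)
      obtain ⟨u, hu, w, hw, huw⟩ := hspr z (hV.trans_le (card_le_card hsub))
      rw [mem_ball] at hu
      refine ⟨w, hw, ?_⟩
      rcases huw with rfl | huw
      · exact hu.mono h12 (by omega)
      · exact (hu.mono h12 le_rfl).trans (WkLe.single huw)
  obtain ⟨w, hw, hw'⟩ := hB u hu
  obtain ⟨w', hw1, hw1'⟩ := hB v hv
  have h5 : WkLe G2 ((R + lm + 1) + (D₀ + (R + lm + 1))) u v :=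
    hw'.trans (((hA w hw w' hw1).mono h12 le_rfl).trans (hw1'.symm h2))
  obtain ⟨γ, ℓ, h6, h7, h8, h9⟩ := h5.saw
  refine ⟨γ, ℓ, h9, h7, h8, ?_⟩
  rw [← hD₀]
  omega

end RST.D
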