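import Pool.Agent.Lib.MP_7946c7_pr.IfB
import Pool.Agent.Lib.MP_7946c7_pr.IfG

/-!
# MP_7946c7_pr, stream D, job Saw: self-avoiding walks, first moments
-/

open Finset

namespace RST.D

variable {V : Type} [Fintype V] {B : Type} [Fintype B] [DecidableEq B]

private theorem Saw_aux {q : B → ℝ} (hq : IsLaw q) (ℓ : ℕ) (A : ℕ → Finset B) :
    PP q {b : Sym2 V → B | ∃ γ : Fin (ℓ + 1) → V, Function.Injective γ ∧
      ∀ i : Fin ℓ, b s(γ i.castSucc, γ i.succ) ∈ A i} ≤
      Fintype.card V * ∏ i ∈ range ℓ, (Fintype.card V * qs q (A i)) := by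
  classical
  have h1 := saw_count (V := V) hq ℓ A
  refine le_trans ?_ h1
  have h2 : PP q {b : Sym2 V → B | ∃ γ : Fin (ℓ + 1) → V, Function.Injective γ ∧
      ∀ i : Fin ℓ, b s(γ i.castSucc, γ i.succ) ∈ A i} ≤
      EE q (fun b : Sym2 V → B => ∑ γ : Fin (ℓ + 1) → V,
      if Function.Injective γ ∧ ∀ i : Fin ℓ, b s(γ i.castSucc, γ i.succ) ∈ A i
        then (1 : ℝ) else 0) := by
    unfold PP
    refine EE_mono hq fun b => ?_
    split_ifs with hb
    · obtain ⟨γ, h3, h4⟩ := hb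
      have h5 := Finset.single_le_sum (s := (univ : Finset (Fin (ℓ + 1) → V)))
        (f := fun γ => if Function.Injective γ ∧ ∀ i : Fin ℓ, b s(γ i.castSucc, γ i.succ) ∈ A i
          then (1 : ℝ) else 0) (fun γ _ => by
            split_ifs
            · norm_num
            · exact le_rfl) (Finset.mem_univ γ)
      simp only [if_pos (And.intro h3 h4)] at h5
      exact h5
    · refine Finset.sum_nonneg fun γ _ => ?_
      split_ifs
      · norm_num
      · exact le_rfl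
  convert h2 using 1

omit [Fintype V] in
private theorem Saw_walk {R : V → V → Prop} {γ : ℕ → V} {ℓ m : ℕ} (hm : m ≤ ℓ)
    (h : IsSAW R γ ℓ) : Function.Injective (fun i : Fin (m + 1) => γ i) := by
  intro i j hij
  have hi := i.2
  have hj := j.2
  exact Fin.ext (h.2 i (by omega) j (by omega) hij)

/-- Proof. A self-avoiding walk of length `ℓ ≥ m` has an initial piece of length `m`, hence there is
an injective `γ : Fin (m+1) → V` with `b s(γ i, γ (i+1)) ∈ A` for all `i : Fin m`, and the indicator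
of the event is at most the sum over `γ` in `saw_count` (with `A i = A` for all `i`):
`EE ≤ n * ∏ i ∈ range m, (n * q(A))`. -/
theorem saw_exists {q : B → ℝ} (hq : IsLaw q) (A : Finset B) (m : ℕ) :
    PP q {b : Sym2 V → B | ∃ (γ : ℕ → V) (ℓ : ℕ), m ≤ ℓ ∧ IsSAW (adj A b) γ ℓ} ≤
      Fintype.card V * (Fintype.card V * qs q A) ^ m := by
  have h1 := Saw_aux (V := V) hq m (fun _ => A)
  rw [Finset.prod_const, Finset.card_range] at h1
  refine le_trans (PP_mono hq ?_) h1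
  rintro b ⟨γ, ℓ, hm, hγ⟩
  refine ⟨fun i => γ i, Saw_walk hm hγ, fun i => ?_⟩
  have hi := i.2
  have h2 := hγ.1 i (by omega)
  exact h2.2

open Classical in
/-- Walks with many edges in the window. Proof. Let `x = n q(A')`, `w = n (q(A') - q(A))`. For the
walk `γ` and its length `ℓ ≤ R` choose a set `I ⊆ range ℓ` with exactly `k` elements contained in the
filter: then `b s(γ i, γ (i+1)) ∈ A' \ A` for `i ∈ I` (as `γ i ≠ γ (i+1)`, not `adj A b` means
`b s(..) ∉ A`) and `∈ A'` for the other `i < ℓ`. So the event is contained in the union over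
`ℓ ∈ range (R+1)` and `I ∈ powersetCard k (range ℓ)` of the event that an injective
`γ : Fin (ℓ+1) → V` with `b s(..) ∈ A_i` exists, `A_i = A' \ A` if `i ∈ I` and `A'` otherwise; by
`saw_count` its probability is at most `n * ∏ i ∈ range ℓ, (n * qs q (A_i)) = n x^(ℓ-k) w^k ≤
n X^R w^k` (`0 ≤ x ≤ X`, `1 ≤ X`, `qs q (A' \ A) = qs q A' - qs q A`). The number of `I` is
`ℓ.choose k ≤ R ^ k / k!` (`Nat.choose_le_pow_div`). -/
theorem window_saw {q : B → ℝ} (hq : IsLaw q) (A A' : Finset B) (hA : A ⊆ A') (k R : ℕ) (X : ℝ)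
    (hX1 : 1 ≤ X) (hX : Fintype.card V * qs q A' ≤ X) :
    PP q {b : Sym2 V → B | ∃ (γ : ℕ → V) (ℓ : ℕ), ℓ ≤ R ∧ IsSAW (adj A' b) γ ℓ ∧
      k ≤ ((range ℓ).filter fun i => ¬ adj A b (γ i) (γ (i + 1))).card} ≤
      (R + 1) * (Fintype.card V * X ^ R *
        ((R * (Fintype.card V * (qs q A' - qs q A))) ^ k / k.factorial)) := by
  obtain ⟨n, hn⟩ : ∃ n : ℝ, n = (Fintype.card V : ℝ) := ⟨_, rfl⟩
  have hn0 : 0 ≤ n := by rw [hn]; positivity
  obtain ⟨w, hw⟩ : ∃ w, w = n * (qs q A' - qs q A) := ⟨_, rfl⟩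
  obtain ⟨x, hx⟩ : ∃ x, x = n * qs q A' := ⟨_, rfl⟩
  have hqs : qs q (A' \ A) = qs q A' - qs q A := by
    unfold qs
    rw [eq_sub_iff_add_eq]
    exact Finset.sum_sdiff hA
  have hqs0 : ∀ D : Finset B, 0 ≤ qs q D := fun D => Finset.sum_nonneg fun y _ => hq.nonneg y
  have hx0 : 0 ≤ x := by rw [hx]; exact mul_nonneg hn0 (hqs0 _)
  have hxX : x ≤ X := by rw [hx, hn]; exact hX
  have hw0 : 0 ≤ w := by
    rw [hw, ← hqs]
    exact mul_nonneg hn0 (hqs0 _)
  set T : ℕ → Finset ℕ → Set (Sym2 V → B) := fun ℓ I =>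
    {b : Sym2 V → B | ∃ γ : Fin (ℓ + 1) → V, Function.Injective γ ∧
      ∀ i : Fin ℓ, b s(γ i.castSucc, γ i.succ) ∈ (if (i : ℕ) ∈ I then A' \ A else A')} with hT
  have hTb : ∀ ℓ ≤ R, ∀ I ∈ powersetCard k (range ℓ), PP q (T ℓ I) ≤ n * X ^ R * w ^ k := by
    intro ℓ hℓ I hI
    rw [Finset.mem_powersetCard] at hI
    have h1 := Saw_aux (V := V) hq ℓ (fun i => if i ∈ I then A' \ A else A')
    refine le_trans h1 ?_
    rw [← hn]
    have h2 : ∏ i ∈ range ℓ, (n * qs q (if i ∈ I then A' \ A else A')) =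
        ∏ i ∈ range ℓ, (if i ∈ I then w else x) := by
      refine Finset.prod_congr rfl fun i _ => ?_
      split_ifs
      · rw [hqs, hw]
      · rw [hx]
    have h3 : (range ℓ).filter (fun i => i ∈ I) = I := by
      ext i
      rw [Finset.mem_filter]
      exact ⟨fun h => h.2, fun h => ⟨hI.1 h, h⟩⟩
    rw [h2, Finset.prod_ite, Finset.prod_const, Finset.prod_const, h3, hI.2]
    have h4 : x ^ ((range ℓ).filter (fun i => i ∉ I)).card ≤ X ^ R := by
      have h5 : ((range ℓ).filter (fun i => i ∉ I)).card ≤ R := by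
        refine (Finset.card_filter_le _ _).trans ?_
        rw [Finset.card_range]
        exact hℓ
      calc x ^ ((range ℓ).filter (fun i => i ∉ I)).card
          ≤ X ^ ((range ℓ).filter (fun i => i ∉ I)).card := pow_le_pow_left₀ hx0 hxX _
        _ ≤ X ^ R := pow_le_pow_right₀ hX1 h5
    calc n * (w ^ k * x ^ ((range ℓ).filter (fun i => i ∉ I)).card)
        ≤ n * (w ^ k * X ^ R) :=
          mul_le_mul_of_nonneg_left (mul_le_mul_of_nonneg_left h4 (by positivity)) hn0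
      _ = n * X ^ R * w ^ k := by ring
  have hsub : {b : Sym2 V → B | ∃ (γ : ℕ → V) (ℓ : ℕ), ℓ ≤ R ∧ IsSAW (adj A' b) γ ℓ ∧
      k ≤ ((range ℓ).filter fun i => ¬ adj A b (γ i) (γ (i + 1))).card} ⊆
      {b | ∃ ℓ ∈ range (R + 1), b ∈ {b | ∃ I ∈ powersetCard k (range ℓ), b ∈ T ℓ I}} := by
    rintro b ⟨γ, ℓ, hℓ, hγ, hk⟩
    obtain ⟨I, hI, hIk⟩ := Finset.exists_subset_card_eq hk
    refine ⟨ℓ, Finset.mem_range.2 (by omega), I, Finset.mem_powersetCard.2 ⟨?_, hIk⟩, ?_⟩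
    · exact fun i hi => (Finset.mem_filter.1 (hI hi)).1
    · refine ⟨fun i => γ i, Saw_walk le_rfl hγ, fun i => ?_⟩
      have h2 := hγ.1 i i.2
      have h3 : b s(γ (i : ℕ), γ ((i : ℕ) + 1)) ∈ A' := h2.2
      split_ifs with hiI
      · have h4 := (Finset.mem_filter.1 (hI hiI)).2
        refine Finset.mem_sdiff.2 ⟨h3, fun h5 => h4 ⟨h2.1, h5⟩⟩
      · exact h3
  have hR : (0 : ℝ) ≤ R := Nat.cast_nonneg R
  have hXR : 0 ≤ X ^ R := by positivity
  have hinner : ∀ ℓ ∈ range (R + 1), PP q {b | ∃ I ∈ powersetCard k (range ℓ), b ∈ T ℓ I} ≤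
      n * X ^ R * ((R * w) ^ k / k.factorial) := by
    intro ℓ hℓ
    have hℓR : ℓ ≤ R := by
      have := Finset.mem_range.1 hℓ
      omega
    calc PP q {b | ∃ I ∈ powersetCard k (range ℓ), b ∈ T ℓ I}
        ≤ ∑ I ∈ powersetCard k (range ℓ), PP q (T ℓ I) := PP_exists_le hq _ _
      _ ≤ ∑ I ∈ powersetCard k (range ℓ), n * X ^ R * w ^ k :=
          Finset.sum_le_sum (hTb ℓ hℓR)
      _ = (ℓ.choose k : ℝ) * (n * X ^ R * w ^ k) := by
          rw [Finset.sum_const, Finset.card_powersetCard, Finset.card_range, nsmul_eq_mul]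
      _ ≤ ((R : ℝ) ^ k / k.factorial) * (n * X ^ R * w ^ k) := by
          refine mul_le_mul_of_nonneg_right ?_ (by positivity)
          refine (Nat.choose_le_pow_div (α := ℝ) k ℓ).trans ?_
          gcongr
      _ = n * X ^ R * ((R * w) ^ k / k.factorial) := by
          rw [mul_pow]
          ring
  calc PP q {b : Sym2 V → B | ∃ (γ : ℕ → V) (ℓ : ℕ), ℓ ≤ R ∧ IsSAW (adj A' b) γ ℓ ∧
      k ≤ ((range ℓ).filter fun i => ¬ adj A b (γ i) (γ (i + 1))).card}
      ≤ PP q {b | ∃ ℓ ∈ range (R + 1), b ∈ {b | ∃ I ∈ powersetCard k (range ℓ), b ∈ T ℓ I}} :=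
        PP_mono hq hsub
    _ ≤ ∑ ℓ ∈ range (R + 1), PP q {b | ∃ I ∈ powersetCard k (range ℓ), b ∈ T ℓ I} :=
        PP_exists_le hq _ _
    _ ≤ ∑ ℓ ∈ range (R + 1), n * X ^ R * ((R * w) ^ k / k.factorial) :=
        Finset.sum_le_sum hinner
    _ = (R + 1) * (n * X ^ R * ((R * w) ^ k / k.factorial)) := by
        rw [Finset.sum_const, Finset.card_range, nsmul_eq_mul]
        push_cast
        ring
    _ = _ := by rw [hw, hn]

end RST.D
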