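import Pool.Agent.Lib.MP_7946c7_pr.DefsW
import Pool.Agent.Lib.MP_7946c7_pr.G.Defs

/-!
# MP_7946c7_pr, stream D, job Wk: walks
-/

open Finset

namespace RST.D

variable {V : Type}

/-- There is a walk of length at most `m` from `u` to `v`. -/
def WkLe (R : V → V → Prop) (m : ℕ) (u v : V) : Prop :=
  ∃ (γ : ℕ → V) (ℓ : ℕ), ℓ ≤ m ∧ γ 0 = u ∧ γ ℓ = v ∧ ∀ i < ℓ, R (γ i) (γ (i + 1))

theorem WkLe.refl (R : V → V → Prop) (m : ℕ) (u : V) : WkLe R m u u :=
  ⟨fun _ => u, 0, Nat.zero_le m, rfl, rfl, fun i hi => absurd hi (Nat.not_lt_zero i)⟩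

theorem WkLe.mono {R S : V → V → Prop} (h : ∀ u v, R u v → S u v) {m m' : ℕ} (hm : m ≤ m')
    {u v : V} (hw : WkLe R m u v) : WkLe S m' u v := by
  obtain ⟨γ, ℓ, h1, h2, h3, h4⟩ := hw
  exact ⟨γ, ℓ, h1.trans hm, h2, h3, fun i hi => h _ _ (h4 i hi)⟩

theorem WkLe.trans {R : V → V → Prop} {m m' : ℕ} {u v w : V} (h : WkLe R m u v)
    (h' : WkLe R m' v w) : WkLe R (m + m') u w := by
  obtain ⟨γ, ℓ, h1, h2, h3, h4⟩ := h
  obtain ⟨γ', ℓ', h1', h2', h3', h4'⟩ := h'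
  obtain ⟨δ, hδ⟩ : ∃ δ : ℕ → V, δ = fun i => if i ≤ ℓ then γ i else γ' (i - ℓ) := ⟨_, rfl⟩
  have hle : ∀ i ≤ ℓ, δ i = γ i := fun i hi => by rw [hδ]; exact if_pos hi
  have hge : ∀ i, ℓ ≤ i → δ i = γ' (i - ℓ) := by
    intro i hi
    rcases Nat.eq_or_lt_of_le hi with rfl | hlt
    · rw [hle _ le_rfl, h3, Nat.sub_self, h2']
    · rw [hδ]
      exact if_neg (by omega)
  refine ⟨δ, ℓ + ℓ', by omega, ?_, ?_, ?_⟩
  · rw [hle 0 (Nat.zero_le _), h2]
  · rw [hge _ (by omega), Nat.add_sub_cancel_left, h3']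
  · intro i hi
    by_cases h5 : i < ℓ
    · rw [hle i h5.le, hle (i + 1) h5]
      exact h4 i h5
    · rw [hge i (by omega), hge (i + 1) (by omega), show i + 1 - ℓ = i - ℓ + 1 by omega]
      exact h4' _ (by omega)

theorem WkLe.symm {R : V → V → Prop} (hR : ∀ u v, R u v → R v u) {m : ℕ} {u v : V}
    (h : WkLe R m u v) : WkLe R m v u := by
  obtain ⟨γ, ℓ, h1, h2, h3, h4⟩ := h
  refine ⟨fun i => γ (ℓ - i), ℓ, h1, by simpa using h3, by simpa using h2, ?_⟩
  intro i hi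
  have h5 := hR _ _ (h4 (ℓ - (i + 1)) (by omega))
  rw [show ℓ - (i + 1) + 1 = ℓ - i by omega] at h5
  exact h5

theorem WkLe.single {R : V → V → Prop} {u v : V} (h : R u v) : WkLe R 1 u v := by
  refine ⟨fun i => if i = 0 then u else v, 1, le_rfl, by simp, by simp, ?_⟩
  intro i hi
  obtain rfl : i = 0 := by omega
  simpa using h

/-- A walk of minimal length is self-avoiding. (Cut a cycle.) -/
theorem WkLe.saw {R : V → V → Prop} {m : ℕ} {u v : V} (h : WkLe R m u v) :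
    ∃ (γ : ℕ → V) (ℓ : ℕ), ℓ ≤ m ∧ γ 0 = u ∧ γ ℓ = v ∧ IsSAW R γ ℓ := by
  classical
  obtain ⟨γ, ℓ, h1, h2, h3, h4⟩ := h
  have hex : ∃ ℓ, ∃ γ : ℕ → V, γ 0 = u ∧ γ ℓ = v ∧ ∀ i < ℓ, R (γ i) (γ (i + 1)) :=
    ⟨ℓ, γ, h2, h3, h4⟩
  obtain ⟨δ, hd1, hd2, hd3⟩ := Nat.find_spec hex
  have hmin : Nat.find hex ≤ ℓ := Nat.find_min' hex ⟨γ, h2, h3, h4⟩
  have key : ∀ i j, i < j → j ≤ Nat.find hex → δ i = δ j → False := by
    intro i j hij hj he
    apply Nat.find_min hex (m := Nat.find hex - (j - i)) (by omega)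
    obtain ⟨η, hη⟩ : ∃ η : ℕ → V, η = fun k => if k ≤ i then δ k else δ (k + (j - i)) := ⟨_, rfl⟩
    have hle : ∀ k ≤ i, η k = δ k := fun k hk => by rw [hη]; exact if_pos hk
    have hge : ∀ k, i ≤ k → η k = δ (k + (j - i)) := by
      intro k hk
      rcases Nat.eq_or_lt_of_le hk with rfl | hlt
      · rw [hle _ le_rfl, he]
        congr 1
        omega
      · rw [hη]
        exact if_neg (by omega)
    refine ⟨η, ?_, ?_, ?_⟩
    · rw [hle 0 (Nat.zero_le _), hd1]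
    · rw [hge _ (by omega)]
      rw [show Nat.find hex - (j - i) + (j - i) = Nat.find hex by omega, hd2]
    · intro k hk
      by_cases h5 : k < i
      · rw [hle k h5.le, hle (k + 1) h5]
        exact hd3 k (by omega)
      · rw [hge k (by omega), hge (k + 1) (by omega),
          show k + 1 + (j - i) = k + (j - i) + 1 by omega]
        exact hd3 _ (by omega)
  refine ⟨δ, Nat.find hex, hmin.trans h1, hd1, hd2, hd3, ?_⟩
  intro i hi j hj he
  rcases Nat.lt_trichotomy i j with hlt | heq | hgt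
  · exact absurd he (fun he => key i j hlt hj he)
  · exact heq
  · exact absurd he (fun he => key j i hgt hi he.symm)

private theorem wk_of_rch {R : V → V → Prop} {W : Finset V} {u v : V} (h : Rch R W u v) :
    ∃ m, WkLe (fun x y => R x y ∧ x ∈ W ∧ y ∈ W) m u v := by
  unfold Rch at h
  induction h with
  | refl => exact ⟨0, WkLe.refl _ _ _⟩
  | tail _ h ih =>
    obtain ⟨m, hm⟩ := ih
    exact ⟨m + 1, hm.trans (WkLe.single h)⟩

private theorem rch_of_steps {R : V → V → Prop} {γ : ℕ → V} {ℓ : ℕ} {W : Finset V}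
    (h : ∀ i < ℓ, R (γ i) (γ (i + 1)) ∧ γ i ∈ W ∧ γ (i + 1) ∈ W) :
    ∀ i ≤ ℓ, Rch R W (γ 0) (γ i) := by
  intro i
  induction i with
  | zero => intro _; exact Relation.ReflTransGen.refl
  | succ i ih =>
    intro hi
    exact Relation.ReflTransGen.tail (ih (by omega)) (h i (by omega))

/-- If `v` is reachable from `u` but not by a walk of length at most `m` then there is a
self-avoiding walk of length more than `m` from `u` to `v`, all of whose initial pieces are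
geodesics: `γ i` is not at distance less than `i` from `u`. (Take a walk of minimal length.) -/
theorem long_geodesic {R : V → V → Prop} {W : Finset V} {m : ℕ} {u v : V} (h : Rch R W u v)
    (h' : ¬ WkLe R m u v) :
    ∃ (γ : ℕ → V) (ℓ : ℕ), m < ℓ ∧ γ 0 = u ∧ γ ℓ = v ∧ IsSAW R γ ℓ ∧
      (∀ i ≤ ℓ, Rch R W u (γ i)) := by
  obtain ⟨m', hm'⟩ := wk_of_rch h
  obtain ⟨γ, ℓ, h1, h2, h3, h4, h5⟩ := hm'.saw
  refine ⟨γ, ℓ, ?_, h2, h3, ⟨fun i hi => (h4 i hi).1, h5⟩, ?_⟩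
  · by_contra hcon
    exact h' ⟨γ, ℓ, not_lt.1 hcon, h2, h3, fun i hi => (h4 i hi).1⟩
  · intro i hi
    have := rch_of_steps (R := R) (W := W) h4 i hi
    rwa [h2] at this

theorem WkLe.rch [Fintype V] {R : V → V → Prop} {m : ℕ} {u v : V} (h : WkLe R m u v) :
    Rch R univ u v := by
  obtain ⟨γ, ℓ, h1, h2, h3, h4⟩ := h
  have := rch_of_steps (R := R) (W := univ)
    (fun i hi => ⟨h4 i hi, mem_univ _, mem_univ _⟩) ℓ le_rfl
  rwa [h2, h3] at this

/-- Membership in a component. -/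
private theorem wk_mem_cmp [Fintype V] {R : V → V → Prop} {u v : V} :
    v ∈ cmp R univ u ↔ Rch R univ u v := by
  classical
  unfold cmp
  simp

/-- If all self-avoiding walks of `R` have length less than `lm`, then any `v ∈ cmp R univ u` is at
distance less than `lm` from `u`. -/
theorem cmp_wk [Fintype V] {R : V → V → Prop} {lm : ℕ}
    (hlm : ∀ (γ : ℕ → V) (ℓ : ℕ), IsSAW R γ ℓ → ℓ < lm) {u v : V} (hv : v ∈ cmp R univ u) :
    WkLe R lm u v := by
  obtain ⟨m, hm⟩ := wk_of_rch (wk_mem_cmp.1 hv)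
  obtain ⟨γ, ℓ, h1, h2, h3, h4⟩ := (hm.mono (S := R) (fun _ _ h => h.1) le_rfl).saw
  exact ⟨γ, ℓ, (hlm γ ℓ h4).le, h2, h3, h4.1⟩

/-- An initial piece of a self-avoiding walk. -/
theorem saw_take {R : V → V → Prop} {γ : ℕ → V} {ℓ m : ℕ} (h : IsSAW R γ ℓ) (hm : m ≤ ℓ) :
    IsSAW R γ m :=
  ⟨fun i hi => h.1 i (by omega), fun i hi j hj he => h.2 i (by omega) j (by omega) he⟩

/-- Membership in the ball. -/
theorem mem_ball [Fintype V] {R : V → V → Prop} {v w : V} {r : ℕ} :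
    w ∈ ball R v r ↔ WkLe R r v w := by
  classical
  unfold ball WkLe
  simp

theorem cmp_symm [Fintype V] {R : V → V → Prop} (hR : ∀ u v, R u v → R v u) {u v : V}
    (h : v ∈ cmp R univ u) : cmp R univ v = cmp R univ u := by
  rw [wk_mem_cmp] at h
  have hsymm : ∀ x y, Rch R univ x y → Rch R univ y x := by
    intro x y hxy
    unfold Rch at hxy ⊢
    induction hxy with
    | refl => exact Relation.ReflTransGen.refl
    | tail _ h ih => exact Relation.ReflTransGen.head ⟨hR _ _ h.1, h.2.2, h.2.1⟩ ih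
  ext w
  rw [wk_mem_cmp, wk_mem_cmp]
  exact ⟨fun hw => Relation.ReflTransGen.trans h hw,
    fun hw => Relation.ReflTransGen.trans (hsymm _ _ h) hw⟩

theorem mem_cmp_self [Fintype V] (R : V → V → Prop) (u : V) : u ∈ cmp R univ u :=
  wk_mem_cmp.2 Relation.ReflTransGen.refl

theorem mem_cmp [Fintype V] {R : V → V → Prop} {u v : V} :
    v ∈ cmp R univ u ↔ Rch R univ u v := wk_mem_cmp

/-- Members of `bigs`. -/
private theorem wk_mem_bigs [Fintype V] {R : V → V → Prop} {k : ℕ} {P : Finset V} :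
    P ∈ bigs R univ k ↔ k ≤ P.card ∧ ∃ v, cmp R univ v = P := by
  classical
  unfold bigs
  simp only [mem_filter, mem_image, mem_univ, true_and]
  exact and_comm

/-- Distinct components are disjoint. -/
theorem bigs_disj [Fintype V] {R : V → V → Prop} (hR : ∀ u v, R u v → R v u) (k : ℕ) :
    ∀ P ∈ bigs R univ k, ∀ Q ∈ bigs R univ k, P ≠ Q → Disjoint P Q := by
  intro P hP Q hQ hne
  rw [wk_mem_bigs] at hP hQ
  obtain ⟨_, v, rfl⟩ := hP
  obtain ⟨_, w, rfl⟩ := hQ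
  rw [Finset.disjoint_left]
  intro x hx hx'
  exact hne ((cmp_symm hR hx).symm.trans (cmp_symm hR hx'))

/-- Members of `bigs`. -/
theorem mem_bigs [Fintype V] {R : V → V → Prop} {k : ℕ} {P : Finset V} :
    P ∈ bigs R univ k ↔ k ≤ P.card ∧ ∃ v, cmp R univ v = P := wk_mem_bigs

end RST.D
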