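import Pool.Agent.Lib.MP_7946c7_pr.D.Ind
import Pool.Agent.Lib.MP_7946c7_pr.D.Saw
import Pool.Agent.Lib.MP_7946c7_pr.D.Wk

/-!
# MP_7946c7_pr, stream D, job F1: D1 (length of walks), size of components, number of big components
-/

open Finset

namespace RST.D

variable {V : Type} [Fintype V] {B : Type} [Fintype B] [DecidableEq B]

/-- From `saw_exists` and `(1 - h) ^ m ≤ exp (- h m)`. -/
theorem d1_bound {q : B → ℝ} (hq : IsLaw q) (A : Finset B) (h : ℝ) (h1 : h ≤ 1)
    (hp : Fintype.card V * qs q A ≤ 1 - h) (m : ℕ) :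
    PP q {b : Sym2 V → B | ∃ (γ : ℕ → V) (ℓ : ℕ), m ≤ ℓ ∧ IsSAW (adj A b) γ ℓ} ≤
      Fintype.card V * Real.exp (-(h * m)) := by
  refine (saw_exists hq A m).trans (mul_le_mul_of_nonneg_left ?_ (by positivity))
  have h2 : (0 : ℝ) ≤ Fintype.card V * qs q A := mul_nonneg (by positivity) (qs_nonneg hq A)
  calc ((Fintype.card V : ℝ) * qs q A) ^ m ≤ (Real.exp (-h)) ^ m := by
        refine pow_le_pow_left₀ h2 (hp.trans ?_) m
        have := Real.add_one_le_exp (-h)
        linarith
    _ = Real.exp (-(h * m)) := by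
        rw [← Real.exp_nat_mul]
        congr 1
        ring

/-- From `subcrit_tail` (after `PP_marg`, `adj_eq_bg`) and the union bound. -/
theorem size_bound {q : B → ℝ} (hq : IsLaw q) (A : Finset B) (h : ℝ) (h0 : 0 < h) (h1 : h ≤ 1)
    (hp : Fintype.card V * qs q A ≤ 1 - h) (s : ℝ) :
    PP q {b : Sym2 V → B | ∃ v, s ≤ ((cmp (adj A b) univ v).card : ℝ)} ≤
      Fintype.card V * (2 * Real.exp (-(h ^ 2 * s / 2))) := by
  classical
  have hW : qs q A * ((univ : Finset V).card : ℝ) ≤ 1 - h := by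
    rw [Finset.card_univ, mul_comm]; exact hp
  have hsub : {b : Sym2 V → B | ∃ v, s ≤ ((cmp (adj A b) univ v).card : ℝ)} ⊆
      {b : Sym2 V → B | ∃ v ∈ (univ : Finset V),
        b ∈ {b : Sym2 V → B | s ≤ ((cmp (adj A b) univ v).card : ℝ)}} := by
    rintro b ⟨v, hv⟩
    exact ⟨v, Finset.mem_univ v, hv⟩
  calc PP q {b : Sym2 V → B | ∃ v, s ≤ ((cmp (adj A b) univ v).card : ℝ)}
      ≤ ∑ v : V, PP q {b : Sym2 V → B | s ≤ ((cmp (adj A b) univ v).card : ℝ)} :=
        (PP_mono hq hsub).trans (PP_exists_le hq _ _)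
    _ ≤ ∑ v : V, 2 * Real.exp (-(h ^ 2 * s / 2)) := by
        refine Finset.sum_le_sum fun v _ => ?_
        have e : {b : Sym2 V → B | s ≤ ((cmp (adj A b) univ v).card : ℝ)} =
            {b : Sym2 V → B | (fun e => decide (b e ∈ A)) ∈
              {ξ : Sym2 V → Bool | s ≤ ((cmp (bg ξ) univ v).card : ℝ)}} := by
          ext b
          simp only [Set.mem_ofPred_eq, adj_eq_bg]
        rw [e, PP_marg hq]
        exact subcrit_tail (qs q A) h (qs_nonneg hq A) (qs_le_one hq A) h0 h1 univ hW v s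
    _ = Fintype.card V * (2 * Real.exp (-(h ^ 2 * s / 2))) := by
        rw [Finset.sum_const, nsmul_eq_mul, Finset.card_univ]

/-- `∑ v |cmp v|` has mean at most `n / h` (`subcrit_mean`). -/
theorem mean_sum_cmp {q : B → ℝ} (hq : IsLaw q) (A : Finset B) (h : ℝ) (h0 : 0 < h) (h1 : h ≤ 1)
    (hp : Fintype.card V * qs q A ≤ 1 - h) :
    EE q (fun b : Sym2 V → B => ∑ v, ((cmp (adj A b) univ v).card : ℝ)) ≤ Fintype.card V / h := by
  classical
  have hW : qs q A * ((univ : Finset V).card : ℝ) ≤ 1 - h := by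
    rw [Finset.card_univ, mul_comm]; exact hp
  rw [EE_sum q univ (fun v (b : Sym2 V → B) => ((cmp (adj A b) univ v).card : ℝ))]
  calc ∑ v : V, EE q (fun b : Sym2 V → B => ((cmp (adj A b) univ v).card : ℝ))
      ≤ ∑ v : V, 1 / h := by
        refine Finset.sum_le_sum fun v _ => ?_
        have e := marginal (ι := Sym2 V) hq A (fun ξ => ((cmp (bg ξ) univ v).card : ℝ))
        have e2 : (fun b : Sym2 V → B => ((cmp (adj A b) univ v).card : ℝ)) =
            fun b => ((cmp (bg (fun e => decide (b e ∈ A))) univ v).card : ℝ) := by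
          funext b
          rw [adj_eq_bg]
        rw [e2, e]
        exact subcrit_mean (qs q A) h (qs_nonneg hq A) (qs_le_one hq A) h0 h1 univ hW v
    _ = Fintype.card V / h := by
        rw [Finset.sum_const, nsmul_eq_mul, Finset.card_univ]
        ring

/-- `tail_crit` after `PP_marg`. -/
theorem tail_bin {q : B → ℝ} (hq : IsLaw q) (A : Finset B) (hp : Fintype.card V * qs q A ≤ 1)
    (h4 : qs q A ≤ 1 / 4) (k : ℕ) (hk : 1 ≤ k) (v : V) :
    PP q {b : Sym2 V → B | k ≤ (cmp (adj A b) univ v).card} ≤ 4 / Real.sqrt k := by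
  classical
  have hW : qs q A * ((univ : Finset V).card : ℝ) ≤ 1 := by
    rw [Finset.card_univ, mul_comm]; exact hp
  have e : {b : Sym2 V → B | k ≤ (cmp (adj A b) univ v).card} =
      {b : Sym2 V → B | (fun e => decide (b e ∈ A)) ∈
        {ξ : Sym2 V → Bool | k ≤ (cmp (bg ξ) univ v).card}} := by
    ext b
    simp only [Set.mem_ofPred_eq, adj_eq_bg]
  rw [e, PP_marg hq]
  exact tail_crit (qs q A) (qs_nonneg hq A) h4 univ hW v k hk

/-- Number of big components. Proof. The elements of `bigs R univ k` are pairwise disjoint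
(`bigs_disj`), of size at least `k`, and contained in `{v | k ≤ |cmp v|}`
(a vertex `v` of the component `P` has `cmp v = P`). So (`card_disj`)
`k * |bigs| ≤ ∑ v, 1{k ≤ |cmp v|}`, whose mean is at most `n * 4 / √k` by `tail_bin`. -/
theorem bigs_mean {q : B → ℝ} (hq : IsLaw q) (A : Finset B) (hp : Fintype.card V * qs q A ≤ 1)
    (h4 : qs q A ≤ 1 / 4) (k : ℕ) (hk : 1 ≤ k) :
    k * EE q (fun b : Sym2 V → B => ((bigs (adj A b) univ k).card : ℝ)) ≤
      Fintype.card V * (4 / Real.sqrt k) := by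
  classical
  rw [← EE_mul_left]
  have hsymm : ∀ b : Sym2 V → B, ∀ u v, adj A b u v → adj A b v u := by
    rintro b u v ⟨h1, h2⟩
    exact ⟨h1.symm, by rw [Sym2.eq_swap]; exact h2⟩
  have hpt : ∀ b : Sym2 V → B, (k : ℝ) * ((bigs (adj A b) univ k).card : ℝ) ≤
      ∑ v : V, (if b ∈ {b : Sym2 V → B | k ≤ (cmp (adj A b) univ v).card} then (1 : ℝ) else 0) := by
    intro b
    have h2 := card_disj (bigs (adj A b) univ k) k (bigs_disj (hsymm b) k)
      fun P hP => (mem_bigs.1 hP).1
    have h3 : ((bigs (adj A b) univ k).biUnion id) ⊆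
        univ.filter fun v => k ≤ (cmp (adj A b) univ v).card := by
      intro v hv
      obtain ⟨P, hP, hvP⟩ := Finset.mem_biUnion.1 hv
      obtain ⟨hP1, u, hu⟩ := mem_bigs.1 hP
      refine Finset.mem_filter.2 ⟨Finset.mem_univ v, ?_⟩
      have h5 : cmp (adj A b) univ v = cmp (adj A b) univ u := by
        refine cmp_symm (hsymm b) ?_
        rw [hu]
        exact hvP
      rw [h5, hu]
      exact hP1
    have h4 := h2.trans (Finset.card_le_card h3)
    calc (k : ℝ) * ((bigs (adj A b) univ k).card : ℝ)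
        ≤ ((univ.filter fun v => k ≤ (cmp (adj A b) univ v).card).card : ℝ) := by
          exact_mod_cast h4
      _ = ∑ v : V, (if b ∈ {b : Sym2 V → B | k ≤ (cmp (adj A b) univ v).card}
            then (1 : ℝ) else 0) := by
          rw [Finset.card_filter]
          push_cast
          rfl
  calc EE q (fun b : Sym2 V → B => (k : ℝ) * ((bigs (adj A b) univ k).card : ℝ))
      ≤ EE q (fun b : Sym2 V → B => ∑ v : V,
          (if b ∈ {b : Sym2 V → B | k ≤ (cmp (adj A b) univ v).card} then (1 : ℝ) else 0)) :=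
        EE_mono hq hpt
    _ = ∑ v : V, PP q {b : Sym2 V → B | k ≤ (cmp (adj A b) univ v).card} := by
        rw [EE_sum q univ (fun v (b : Sym2 V → B) =>
          (if b ∈ {b : Sym2 V → B | k ≤ (cmp (adj A b) univ v).card} then (1 : ℝ) else 0))]
        refine Finset.sum_congr rfl fun v _ => ?_
        unfold PP
        congr 1
        funext b
        congr
    _ ≤ ∑ v : V, 4 / Real.sqrt k :=
        Finset.sum_le_sum fun v _ => tail_bin hq A hp h4 k hk v
    _ = Fintype.card V * (4 / Real.sqrt k) := by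
        rw [Finset.sum_const, nsmul_eq_mul, Finset.card_univ]

end RST.D
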