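import Pool.Agent.Lib.MP_7946c7_pr.D.Ind
import Pool.Agent.Lib.MP_7946c7_pr.D.Wk

/-!
# MP_7946c7_pr, stream D, job F10: fact D10 (arms inside big components)
-/

open Finset

namespace RST.D

variable {V : Type} [Fintype V] {B : Type} [Fintype B] [DecidableEq B]

/-- Proof. Some `w ∈ cmp R univ v` is not in the ball; by `long_geodesic` (`m = r`, `W = univ`) there is a
self-avoiding walk of length more than `r` from `v`; its initial piece of length `r` is an arm. -/
theorem arm_of_ball (R : V → V → Prop) (v : V) (r : ℕ)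
    (h : (ball R v r).card < (cmp R univ v).card) : Arm R univ v r := by
  classical
  obtain ⟨w, hw, hw'⟩ := Finset.exists_mem_notMem_of_card_lt_card h
  rw [mem_ball] at hw'
  obtain ⟨γ, ℓ, hm, h0, -, hS, -⟩ := long_geodesic (mem_cmp.mp hw) hw'
  exact ⟨γ, h0, saw_take hS hm.le, fun i _ => Finset.mem_univ _⟩

/-- D10. Proof: if the event holds for `v` then `k ≤ |cmp v| ≤ |ball v r|` by `arm_of_ball`; union
bound over `v` and `ball_growth` with `s = k` (after `PP_marg`, `adj_eq_bg`). -/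
theorem d10_bound {q : B → ℝ} (hq : IsLaw q) (A : Finset B) (hp : qs q A * Fintype.card V ≤ 1)
    (r k : ℕ) (hr : 1 ≤ r) :
    PP q {b : Sym2 V → B | ∃ v, k ≤ (cmp (adj A b) univ v).card ∧ ¬ Arm (adj A b) univ v r} ≤
      Fintype.card V * (2 * Real.exp (-(k / (32 * (r : ℝ) ^ 2)))) := by
  classical
  have h1 : PP q {b : Sym2 V → B | ∃ v, k ≤ (cmp (adj A b) univ v).card ∧
      ¬ Arm (adj A b) univ v r} ≤
      PP q {b : Sym2 V → B | ∃ v ∈ (univ : Finset V), b ∈ {b : Sym2 V → B |
        (fun e => decide (b e ∈ A)) ∈ {ξ : Sym2 V → Bool |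
          ((k : ℕ) : ℝ) ≤ (ball (bg ξ) v r).card}}} := by
    refine PP_mono hq ?_
    rintro b ⟨v, hk, hv⟩
    refine ⟨v, Finset.mem_univ v, ?_⟩
    have h2 : (cmp (adj A b) univ v).card ≤ (ball (adj A b) v r).card := by
      by_contra hc
      exact hv (arm_of_ball _ v r (not_le.mp hc))
    change ((k : ℕ) : ℝ) ≤ ((ball (bg fun e => decide (b e ∈ A)) v r).card : ℝ)
    rw [← adj_eq_bg]
    exact_mod_cast hk.trans h2
  refine h1.trans ((PP_exists_le hq univ _).trans ?_)
  have h3 : ∀ v ∈ (univ : Finset V), PP q {b : Sym2 V → B |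
        (fun e => decide (b e ∈ A)) ∈ {ξ : Sym2 V → Bool |
          ((k : ℕ) : ℝ) ≤ (ball (bg ξ) v r).card}} ≤ 2 * Real.exp (-(k / (32 * (r : ℝ) ^ 2))) := by
    intro v _
    rw [PP_marg hq]
    exact ball_growth (qs q A) (qs_nonneg hq A) (qs_le_one hq A) hp v r hr k
  refine (Finset.sum_le_sum h3).trans (le_of_eq ?_)
  rw [Finset.sum_const, Finset.card_univ, nsmul_eq_mul]

end RST.D
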