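import Pool.Agent.Lib.MP_7946c7_pr.D.Ind

/-!
# MP_7946c7_pr, stream D, job Fac: conditioning on a component
-/

open Finset

namespace RST.D

variable {V : Type} [Fintype V] {B : Type} [Fintype B] [DecidableEq B]

/-- Proof. `cmp R univ v` is the set of the `w` with `Rch R univ v w`. If it equals `D`: `v ∈ D`
(reflexivity), no `R`-step leaves `D` (`u ∈ D`, `R u w` gives `Rch R univ v w`, so `w ∈ D`), and a
walk from `v` to `w ∈ D` stays in `D` (induction on `ReflTransGen`), so `cmp R D v = D`. Conversely,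
if no step leaves `D ∋ v` then the vertices reached from `v` are in `D` by induction, and the vertices
of `D` are reached inside `D`, hence reached. -/
theorem cmp_eq_iff (R : V → V → Prop) (v : V) (D : Finset V) :
    cmp R univ v = D ↔ v ∈ D ∧ cmp R D v = D ∧ ∀ u ∈ D, ∀ w ∉ D, ¬ R u w := by
  classical
  have hmem : ∀ (W : Finset V) (w : V), w ∈ cmp R W v ↔ w ∈ W ∧ v ∈ W ∧ Rch R W v w := by
    intro W w
    unfold cmp
    rw [Finset.mem_filter]
  constructor
  · intro h
    subst h
    have h1 : ∀ w, w ∈ cmp R univ v ↔ Rch R univ v w := by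
      intro w
      rw [hmem]
      exact ⟨fun h => h.2.2, fun h => ⟨Finset.mem_univ _, Finset.mem_univ _, h⟩⟩
    have hv : v ∈ cmp R univ v := (h1 v).mpr Relation.ReflTransGen.refl
    refine ⟨hv, ?_, ?_⟩
    · ext w
      rw [hmem]
      constructor
      · exact fun h => h.1
      · intro hw
        refine ⟨hw, hv, ?_⟩
        have hw' : Rch R univ v w := (h1 w).mp hw
        unfold Rch at hw' ⊢
        clear hw
        induction hw' with
        | refl => exact Relation.ReflTransGen.refl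
        | tail hab hbc ih =>
          refine ih.tail ⟨hbc.1, (h1 _).mpr hab, (h1 _).mpr (hab.tail hbc)⟩
    · intro u hu w hw hR
      apply hw
      rw [h1] at hu ⊢
      exact Relation.ReflTransGen.tail hu ⟨hR, Finset.mem_univ _, Finset.mem_univ _⟩
  · rintro ⟨hv, hc, hcl⟩
    ext w
    rw [hmem]
    constructor
    · rintro ⟨-, -, h⟩
      unfold Rch at h
      induction h with
      | refl => exact hv
      | tail hab hbc ih =>
        by_contra hcon
        exact hcl _ ih _ hcon hbc.1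
    · intro hw
      refine ⟨Finset.mem_univ _, Finset.mem_univ _, ?_⟩
      rw [← hc, hmem] at hw
      have h := hw.2.2
      unfold Rch at h ⊢
      refine Relation.ReflTransGen.mono ?_ _ _ h
      intro x y hxy
      exact ⟨hxy.1, Finset.mem_univ _, Finset.mem_univ _⟩

omit [DecidableEq B] in
private theorem Fac_PP (q : B → ℝ) (P : (Sym2 V → B) → Prop) [DecidablePred P] :
    PP q {b | P b} = EE q (fun b => if P b then (1 : ℝ) else 0) := by
  unfold PP
  congr 1
  funext b
  by_cases h : P b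
  · rw [if_pos h]
    exact if_pos h
  · rw [if_neg h]
    exact if_neg h

omit [Fintype V] [Fintype B] [DecidableEq B] in
private theorem Fac_cmp_congr (R R' : V → V → Prop) (W : Finset V) (v : V)
    (h : ∀ u ∈ W, ∀ w ∈ W, R u w ↔ R' u w) : cmp R W v = cmp R' W v := by
  have hrel : (fun x y => R x y ∧ x ∈ W ∧ y ∈ W) = fun x y => R' x y ∧ x ∈ W ∧ y ∈ W := by
    funext x y
    apply propext
    constructor
    · rintro ⟨h1, h2, h3⟩
      exact ⟨(h x h2 y h3).mp h1, h2, h3⟩
    · rintro ⟨h1, h2, h3⟩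
      exact ⟨(h x h2 y h3).mpr h1, h2, h3⟩
  unfold cmp Rch
  rw [hrel]

open Classical in
/-- boundary of `D` -/
private noncomputable def Fac_Bd (D : Finset V) : Finset (Sym2 V) :=
  univ.filter fun e => ∃ u ∈ D, ∃ w ∉ D, e = s(u, w)

omit [Fintype B] [DecidableEq B] in
private theorem Fac_mem_Bd (D : Finset V) (e : Sym2 V) :
    e ∈ Fac_Bd D ↔ ∃ u ∈ D, ∃ w ∉ D, e = s(u, w) := by
  classical
  unfold Fac_Bd
  rw [Finset.mem_filter]
  exact ⟨fun h => h.2, fun h => ⟨Finset.mem_univ _, h⟩⟩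

open Classical in
private theorem Fac_gen {q : B → ℝ} (hq : IsLaw q) (A : Finset B) (v : V) (D : Finset V)
    (T : Sym2 V → Finset B)
    (F : (Sym2 V → B) → ℝ) (hdep : DependsOn F {e | ∀ u ∈ D, u ∉ e}) :
    EE q (fun b => if (v ∈ D ∧ cmp (adj A b) D v = D) ∧ ∀ e ∈ Fac_Bd D, b e ∈ T e
      then F b else 0) =
      PP q {b : Sym2 V → B | v ∈ D ∧ cmp (adj A b) D v = D} * (∏ e ∈ Fac_Bd D, qs q (T e)) *
        EE q F := by
  have h1 : ∀ b : Sym2 V → B,
      (if (v ∈ D ∧ cmp (adj A b) D v = D) ∧ ∀ e ∈ Fac_Bd D, b e ∈ T e then F b else 0) =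
      (if (v ∈ D ∧ cmp (adj A b) D v = D) then (1 : ℝ) else 0) *
        ((if ∀ e ∈ Fac_Bd D, b e ∈ T e then (1 : ℝ) else 0) * F b) := by
    intro b
    by_cases ha : (v ∈ D ∧ cmp (adj A b) D v = D)
    · by_cases hb : ∀ e ∈ Fac_Bd D, b e ∈ T e
      · rw [if_pos ⟨ha, hb⟩, if_pos ha, if_pos hb, one_mul, one_mul]
      · rw [if_neg (fun h => hb h.2), if_neg hb, zero_mul, mul_zero]
    · rw [if_neg (fun h => ha h.1), if_neg ha, zero_mul]
  have h1' : (fun b : Sym2 V → B =>
      if (v ∈ D ∧ cmp (adj A b) D v = D) ∧ ∀ e ∈ Fac_Bd D, b e ∈ T e then F b else 0) =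
      fun b => (if (v ∈ D ∧ cmp (adj A b) D v = D) then (1 : ℝ) else 0) *
        ((if ∀ e ∈ Fac_Bd D, b e ∈ T e then (1 : ℝ) else 0) * F b) := funext h1
  rw [h1']
  have hx : ∀ e : Sym2 V, ∃ x, x ∈ e := by
    intro e
    induction e using Sym2.ind with
    | _ x y => exact ⟨x, Sym2.mem_mk_left x y⟩
  rw [EE_indep hq {e : Sym2 V | ∀ x ∈ e, x ∈ D}
    (fun b => if (v ∈ D ∧ cmp (adj A b) D v = D) then (1 : ℝ) else 0)
    (fun b => (if ∀ e ∈ Fac_Bd D, b e ∈ T e then (1 : ℝ) else 0) * F b)]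
  · rw [EE_indep hq {e : Sym2 V | e ∈ Fac_Bd D}
      (fun b => if ∀ e ∈ Fac_Bd D, b e ∈ T e then (1 : ℝ) else 0) F]
    · rw [← PP_all hq (Fac_Bd D) T, mul_assoc, Fac_PP, Fac_PP]
    · intro b b' h
      have hiff : (∀ e ∈ Fac_Bd D, b e ∈ T e) ↔ ∀ e ∈ Fac_Bd D, b' e ∈ T e := by
        refine forall₂_congr fun e he => ?_
        rw [h e he]
      simp only [hiff]
    · intro b b' h
      refine hdep ?_
      intro e he
      apply h
      intro hcon
      obtain ⟨u, hu, w, _, rfl⟩ := (Fac_mem_Bd D e).mp hcon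
      exact he u hu (Sym2.mem_mk_left u w)
  · intro b b' h
    have : cmp (adj A b) D v = cmp (adj A b') D v := by
      refine Fac_cmp_congr _ _ _ _ fun u hu w hw => ?_
      have he : b s(u, w) = b' s(u, w) := by
        apply h
        intro x hx
        rcases Sym2.mem_iff.mp hx with h1 | h1
        · rw [h1]; exact hu
        · rw [h1]; exact hw
      unfold adj
      rw [he]
    simp only [this]
  · intro b b' h
    have h2 : F b = F b' := by
      refine hdep ?_
      intro e he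
      apply h
      intro hcon
      obtain ⟨x, hx⟩ := hx e
      exact he x (hcon x hx) hx
    have hiff : (∀ e ∈ Fac_Bd D, b e ∈ T e) ↔ ∀ e ∈ Fac_Bd D, b' e ∈ T e := by
      refine forall₂_congr fun e he => ?_
      rw [h e]
      intro hcon
      obtain ⟨u, _, w, hw, rfl⟩ := (Fac_mem_Bd D e).mp he
      exact hw (hcon w (Sym2.mem_mk_right u w))
    simp only [hiff, h2]

omit [Fintype B] [DecidableEq B] in
private theorem Fac_event (A : Finset B) (b : Sym2 V → B) (v : V) (D : Finset V) :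
    cmp (adj A b) univ v = D ↔
      (v ∈ D ∧ cmp (adj A b) D v = D) ∧ ∀ e ∈ Fac_Bd D, b e ∉ A := by
  rw [cmp_eq_iff]
  constructor
  · rintro ⟨h1, h2, h3⟩
    refine ⟨⟨h1, h2⟩, ?_⟩
    intro e he hcon
    obtain ⟨u, hu, w, hw, rfl⟩ := (Fac_mem_Bd D e).mp he
    refine h3 u hu w hw ⟨?_, hcon⟩
    intro h
    exact hw (h ▸ hu)
  · rintro ⟨⟨h1, h2⟩, h3⟩
    refine ⟨h1, h2, ?_⟩
    intro u hu w hw hcon
    exact h3 s(u, w) ((Fac_mem_Bd D _).mpr ⟨u, hu, w, hw, rfl⟩) hcon.2

private theorem Fac_qs_compl {q : B → ℝ} (hq : IsLaw q) (A : Finset B) :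
    qs q Aᶜ = 1 - qs q A := by
  unfold qs
  rw [← hq.sum_one, ← Finset.sum_compl_add_sum A]
  ring

open Classical in
/-- Conditionally on `{component of v = D}`, the edges from `D` to its complement with bin in `A'`
have the window probability `p' = (q(A') - q(A)) / (1 - q(A))` independently, and are independent of the
edges which avoid `D` (equality holds, only `≤` is needed).
Proof. If `v ∉ D` the left side is 0. Let `Bd` be the set of the edges `s(u, w)` with `u ∈ D`, `w ∉ D`;
`S ⊆ Bd`. By `cmp_eq_iff`, the event `cmp (adj A b) univ v = D` is `I(b) ∩ {∀ e ∈ Bd, b e ∉ A}` where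
`I(b) = {cmp (adj A b) D v = D}` depends on the edges inside `D` (a step of `Rch (adj A b) D` uses
an edge with both endpoints in `D`). Hence, with `1 - q(A) = qs q Aᶜ` and `q(A') - q(A) = qs q (A' \ A)`,
`P(cmp = D) = P(I) (1 - q(A)) ^ |Bd|` (`EE_indep` + `PP_all`), and the left side is
`E[1_I * 1{∀ e ∈ Bd \ S, b e ∉ A} * 1{∀ e ∈ S, b e ∈ A' \ A} * F]
  = P(I) * (1 - q(A)) ^ |Bd \ S| * (q(A') - q(A)) ^ |S| * E F`:
the first factor depends on the edges inside `D`, the next two on the edges of `Bd` (`PP_all` with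
`A e = Aᶜ` for `e ∈ Bd \ S` and `A' \ A` for `e ∈ S`), `F` on the edges which avoid `D`.
Use `EE_indep` with `s = {e | some vertex of D is in e}` (for `F` against the rest), then with
`s = Bd`. -/
theorem fac_window {q : B → ℝ} (hq : IsLaw q) (A A' : Finset B) (hA : A ⊆ A') (h1 : qs q A < 1)
    (v : V) (D : Finset V) (S : Finset (Sym2 V)) (hS : ∀ e ∈ S, ∃ u ∈ D, ∃ w ∉ D, e = s(u, w))
    (F : (Sym2 V → B) → ℝ) (hF : ∀ b, 0 ≤ F b) (hdep : DependsOn F {e | ∀ u ∈ D, u ∉ e}) :
    EE q (fun b => if cmp (adj A b) univ v = D ∧ ∀ e ∈ S, b e ∈ A' then F b else 0) ≤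
      PP q {b | cmp (adj A b) univ v = D} * ((qs q A' - qs q A) / (1 - qs q A)) ^ S.card *
        EE q F := by
  have hSB : S ⊆ Fac_Bd D := fun e he => (Fac_mem_Bd D e).mpr (hS e he)
  -- the left side
  have hL : EE q (fun b => if cmp (adj A b) univ v = D ∧ ∀ e ∈ S, b e ∈ A' then F b else 0) =
      PP q {b : Sym2 V → B | v ∈ D ∧ cmp (adj A b) D v = D} *
        (∏ e ∈ Fac_Bd D, qs q (if e ∈ S then A' \ A else Aᶜ)) * EE q F := by
    rw [← Fac_gen hq A v D (fun e => if e ∈ S then A' \ A else Aᶜ) F hdep]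
    congr 1
    funext b
    refine if_congr ?_ rfl rfl
    rw [Fac_event]
    constructor
    · rintro ⟨⟨ha, hb⟩, hc⟩
      refine ⟨ha, fun e he => ?_⟩
      by_cases heS : e ∈ S
      · rw [if_pos heS, Finset.mem_sdiff]
        exact ⟨hc e heS, hb e he⟩
      · rw [if_neg heS, Finset.mem_compl]
        exact hb e he
    · rintro ⟨ha, hb⟩
      refine ⟨⟨ha, fun e he => ?_⟩, fun e he => ?_⟩
      · have := hb e he
        by_cases heS : e ∈ S
        · rw [if_pos heS, Finset.mem_sdiff] at this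
          exact this.2
        · rw [if_neg heS, Finset.mem_compl] at this
          exact this
      · have := hb e (hSB he)
        rw [if_pos he, Finset.mem_sdiff] at this
        exact this.1
  have hP : PP q {b : Sym2 V → B | cmp (adj A b) univ v = D} =
      PP q {b : Sym2 V → B | v ∈ D ∧ cmp (adj A b) D v = D} *
        (∏ e ∈ Fac_Bd D, qs q Aᶜ) := by
    have h := Fac_gen hq A v D (fun _ => Aᶜ) (fun _ => (1 : ℝ)) (fun _ _ _ => rfl)
    rw [EE_const hq, mul_one] at h
    rw [← h, Fac_PP]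
    congr 1
    funext b
    refine if_congr ?_ rfl rfl
    rw [Fac_event]
    refine and_congr Iff.rfl (forall₂_congr fun e _ => ?_)
    rw [Finset.mem_compl]
  have ha : 0 < 1 - qs q A := by linarith
  have hprod : (∏ e ∈ Fac_Bd D, qs q (if e ∈ S then A' \ A else Aᶜ)) =
      (∏ e ∈ Fac_Bd D, qs q Aᶜ) * ((qs q A' - qs q A) / (1 - qs q A)) ^ S.card := by
    have h2 : ∀ e ∈ Fac_Bd D, qs q (if e ∈ S then A' \ A else Aᶜ) =
        qs q Aᶜ * (if e ∈ S then ((qs q A' - qs q A) / (1 - qs q A)) else 1) := by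
      intro e _
      by_cases heS : e ∈ S
      · rw [if_pos heS, if_pos heS, qs_sdiff hA, Fac_qs_compl hq]
        field_simp
      · rw [if_neg heS, if_neg heS, mul_one]
    rw [Finset.prod_congr rfl h2, Finset.prod_mul_distrib]
    congr 1
    rw [Finset.prod_ite, Finset.prod_const, Finset.prod_const_one, mul_one]
    congr 2
    ext e
    rw [Finset.mem_filter]
    exact ⟨fun h => h.2, fun h => ⟨hSB h, h⟩⟩
  rw [hL, hP, hprod]
  apply le_of_eq
  ring

/-- The components partition the probability space. -/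
theorem sum_cmp {q : B → ℝ} (hq : IsLaw q) (A : Finset B) (v : V) :
    ∑ D : Finset V, PP q {b : Sym2 V → B | cmp (adj A b) univ v = D} = 1 := by
  classical
  rw [Finset.sum_congr rfl fun D _ => Fac_PP q (fun b => cmp (adj A b) univ v = D), ← EE_sum]
  have h : (fun b : Sym2 V → B => ∑ D : Finset V,
      if cmp (adj A b) univ v = D then (1 : ℝ) else 0) = fun _ => 1 := by
    funext b
    rw [Finset.sum_eq_single (cmp (adj A b) univ v)]
    · exact if_pos rfl
    · intro D _ hD
      exact if_neg (fun h => hD (Eq.symm h))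
    · intro h
      exact absurd (Finset.mem_univ _) h
  rw [h]
  exact EE_const hq 1

/-- `∑ D, P(cmp = D) |D| = E |cmp|`. -/
theorem sum_cmp_card {q : B → ℝ} (A : Finset B) (v : V) :
    ∑ D : Finset V, PP q {b : Sym2 V → B | cmp (adj A b) univ v = D} * (D.card : ℝ) =
      EE q fun b : Sym2 V → B => ((cmp (adj A b) univ v).card : ℝ) := by
  classical
  have h1 : ∀ D : Finset V, PP q {b : Sym2 V → B | cmp (adj A b) univ v = D} * (D.card : ℝ) =
      EE q fun b : Sym2 V → B => (D.card : ℝ) *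
        if cmp (adj A b) univ v = D then (1 : ℝ) else 0 := by
    intro D
    rw [EE_mul_left, mul_comm, Fac_PP]
  rw [Finset.sum_congr rfl fun D _ => h1 D, ← EE_sum]
  congr 1
  funext b
  rw [Finset.sum_eq_single (cmp (adj A b) univ v)]
  · rw [if_pos rfl, mul_one]
  · intro D _ hD
    rw [if_neg (fun h => hD (Eq.symm h)), mul_zero]
  · intro h
    exact absurd (Finset.mem_univ _) h

open Classical in
/-- Disjoint arms outside `D`, as a function of the edges avoiding `D`. Proof: a walk with all its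
vertices in `univ \ D` uses edges avoiding `D` only. The bound is `disj_arms` after `PP_marg`
(`adj A' b = bg (fun e => decide (b e ∈ A'))`). -/
theorem arms_outside {q : B → ℝ} (hq : IsLaw q) (A' : Finset B) (x : ℝ) (hx0 : 0 ≤ x)
    (hx1 : x ≤ 1 / 4) (hn : 16 ≤ Fintype.card V) (hp : qs q A' * Fintype.card V ≤ 1 + x)
    (D ws : Finset V) (r : ℕ) (hr : 1 ≤ r) :
    DependsOn (fun b : Sym2 V → B => if DisjArms (adj A' b) (univ \ D) ws r then (1 : ℝ) else 0)
      {e | ∀ u ∈ D, u ∉ e} ∧
    (EE q fun b : Sym2 V → B => if DisjArms (adj A' b) (univ \ D) ws r then (1 : ℝ) else 0) ≤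
      armB (Fintype.card V) x r ^ ws.card := by
  constructor
  · intro b b' h
    have key : ∀ b b' : Sym2 V → B, (∀ e ∈ {e : Sym2 V | ∀ u ∈ D, u ∉ e}, b e = b' e) →
        DisjArms (adj A' b) (univ \ D) ws r → DisjArms (adj A' b') (univ \ D) ws r := by
      rintro b b' h ⟨γ, hγ, hd⟩
      refine ⟨γ, fun w hw => ?_, hd⟩
      obtain ⟨h0, hs, hin⟩ := hγ w hw
      refine ⟨h0, ⟨fun i hi => ?_, hs.2⟩, hin⟩
      have hadj := hs.1 i hi
      refine ⟨hadj.1, ?_⟩
      rw [← h]
      · exact hadj.2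
      · intro u hu hcon
        rcases Sym2.mem_iff.mp hcon with h1 | h1
        · exact (Finset.mem_sdiff.mp (hin i hi.le)).2 (h1 ▸ hu)
        · exact (Finset.mem_sdiff.mp (hin (i + 1) hi)).2 (h1 ▸ hu)
    have hiff : DisjArms (adj A' b) (univ \ D) ws r ↔ DisjArms (adj A' b') (univ \ D) ws r :=
      ⟨key b b' h, key b' b fun e he => (h e he).symm⟩
    simp only [hiff]
  · have h1 : (EE q fun b : Sym2 V → B =>
        if DisjArms (adj A' b) (univ \ D) ws r then (1 : ℝ) else 0) =
        PP q {b : Sym2 V → B | (fun e => decide (b e ∈ A')) ∈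
          {ξ : Sym2 V → Bool | DisjArms (bg ξ) (univ \ D) ws r}} := by
      rw [Fac_PP]
      congr 1
      funext b
      refine if_congr ?_ rfl rfl
      rw [adj_eq_bg]
      rfl
    rw [h1, PP_marg hq]
    exact disj_arms (qs q A') x (qs_nonneg hq A') hx0 hx1 hn hp (univ \ D) ws r hr

end RST.D
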