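import Pool.Agent.Lib.MP_7946c7_pr.D.F1
import Pool.Agent.Lib.MP_7946c7_pr.D.Fac

/-!
# MP_7946c7_pr, stream D, job F4: fact D4 (number of disjoint arms attached to a component)
-/

open Finset

namespace RST.D

variable {V : Type} [Fintype V] {B : Type} [Fintype B] [DecidableEq B]

open Classical in
/-- the event for fixed `v, D, ws, u` -/
private def F4_ev (A A' : Finset B) (r : ℕ) (v : V) (D ws : Finset V) (u : ∀ w ∈ ws, V) :
    Set (Sym2 V → B) :=
  {b | (cmp (adj A b) univ v = D ∧ ∀ e ∈ ws.attach.image (fun w => s(u w.1 w.2, w.1)), b e ∈ A') ∧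
    DisjArms (adj A' b) (univ \ D) ws r}

open Classical in
private lemma F4_term {q : B → ℝ} (hq : IsLaw q) (A A' : Finset B) (hA : A ⊆ A')
    (hlt : qs q A < 1) (x : ℝ) (hx0 : 0 ≤ x) (hx1 : x ≤ 1 / 4) (hn : 16 ≤ Fintype.card V)
    (hp' : qs q A' * Fintype.card V ≤ 1 + x) (r : ℕ) (hr : 1 ≤ r) (v : V) (D ws : Finset V)
    (hws : ∀ w ∈ ws, w ∉ D) (u : ∀ w ∈ ws, V) (hu : ∀ w hw, u w hw ∈ D) :
    PP q (F4_ev A A' r v D ws u) ≤
      PP q {b : Sym2 V → B | cmp (adj A b) univ v = D} *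
        (((qs q A' - qs q A) / (1 - qs q A)) ^ ws.card * armB (Fintype.card V) x r ^ ws.card) := by
  obtain ⟨hdep, hb⟩ := arms_outside hq A' x hx0 hx1 hn hp' D ws r hr
  set S : Finset (Sym2 V) := ws.attach.image (fun w => s(u w.1 w.2, w.1)) with hSdef
  have hScard : S.card = ws.card := by
    rw [hSdef, Finset.card_image_of_injective, Finset.card_attach]
    intro w w' he
    rcases Sym2.eq_iff.1 he with ⟨_, h4⟩ | ⟨h3, _⟩
    · exact Subtype.ext h4
    · exact absurd (h3 ▸ hu w.1 w.2) (hws w'.1 w'.2)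
  have hS : ∀ e ∈ S, ∃ a ∈ D, ∃ w ∉ D, e = s(a, w) := by
    intro e he
    obtain ⟨w, _, rfl⟩ := Finset.mem_image.1 he
    exact ⟨_, hu w.1 w.2, w.1, hws w.1 w.2, rfl⟩
  have h2 := fac_window hq A A' hA hlt v D S hS
    (fun b : Sym2 V → B => if DisjArms (adj A' b) (univ \ D) ws r then (1 : ℝ) else 0)
    (fun b => by split_ifs <;> norm_num) hdep
  have e1 : PP q (F4_ev A A' r v D ws u) =
      EE q (fun b : Sym2 V → B => if cmp (adj A b) univ v = D ∧ ∀ e ∈ S, b e ∈ A' then
        (if DisjArms (adj A' b) (univ \ D) ws r then (1 : ℝ) else 0) else 0) := by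
    unfold PP
    congr 1
    funext b
    by_cases g1 : cmp (adj A b) univ v = D ∧ ∀ e ∈ S, b e ∈ A'
    · by_cases g2 : DisjArms (adj A' b) (univ \ D) ws r
      · rw [if_pos g1, if_pos g2, if_pos (show b ∈ F4_ev A A' r v D ws u from ⟨g1, g2⟩)]
      · rw [if_pos g1, if_neg g2, if_neg (show b ∉ F4_ev A A' r v D ws u from fun h => g2 h.2)]
    · rw [if_neg g1, if_neg (show b ∉ F4_ev A A' r v D ws u from fun h => g1 h.1)]
  rw [e1]
  refine h2.trans ?_
  obtain ⟨w0, w1, _⟩ := win_mem hq hA hlt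
  rw [hScard, mul_assoc]
  exact mul_le_mul_of_nonneg_left (mul_le_mul_of_nonneg_left hb (by positivity)) (PP_nonneg hq _)

open Classical in
/-- D4. `p' = (q(A') - q(A)) / (1 - q(A))` is the window probability, `α = armB n x r`.
Proof. If the event holds with `(v, ws)` then it holds with a subset of `ws` of cardinality exactly `k`
(`DisjArms` restricts). If `|cmp v| < s` for all `v` (the other event has probability at most the first
term, `size_bound`), there are `v`, `D` with `|D| < s`, `ws ⊆ univ \ D` with `|ws| = k` and a function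
`u` on `ws` with values in `D` such that `cmp (adj A b) univ v = D`, `b s(u w, w) ∈ A'` for `w ∈ ws`
and `DisjArms (adj A' b) (univ \ D) ws r`. For fixed `v, D, ws, u` apply `fac_window` with
`S = ws.image fun w => s(u w, w)` (`|S| = k`: the `s(u w, w)` are distinct because `u w ∈ D`,
`w ∉ D`) and `F` = indicator of `DisjArms` (`arms_outside`): the probability is at most
`P(cmp v = D) * p' ^ k * α ^ k`. The number of `u` is `|D| ^ k ≤ s ^ k`
(`Finset.pi` / `Fintype.piFinset`, or functions `Fin k → D` after enumerating `ws`), the number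
of `ws` is `n.choose k ≤ n ^ k / k!`, `∑ D, P(cmp v = D) = 1` (`sum_cmp`), and there are `n` vertices `v`.
Total `n * (s * n * p' * α) ^ k / k!`. -/
theorem d4_bound {q : B → ℝ} (hq : IsLaw q) (A A' : Finset B) (hA : A ⊆ A') (h : ℝ) (h0 : 0 < h)
    (h1 : h ≤ 1) (hp : Fintype.card V * qs q A ≤ 1 - h) (hlt : qs q A < 1) (x : ℝ) (hx0 : 0 ≤ x)
    (hx1 : x ≤ 1 / 4) (hn : 16 ≤ Fintype.card V) (hp' : qs q A' * Fintype.card V ≤ 1 + x) (r k : ℕ)
    (hr : 1 ≤ r) (s : ℝ) (hs : 0 ≤ s) :
    PP q {b : Sym2 V → B | ∃ (v : V) (ws : Finset V), k ≤ ws.card ∧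
      (∀ w ∈ ws, w ∉ cmp (adj A b) univ v ∧ ∃ u ∈ cmp (adj A b) univ v, adj A' b u w) ∧
      DisjArms (adj A' b) (univ \ cmp (adj A b) univ v) ws r} ≤
      Fintype.card V * (2 * Real.exp (-(h ^ 2 * s / 2))) +
        Fintype.card V * ((s * (Fintype.card V * ((qs q A' - qs q A) / (1 - qs q A))) *
          armB (Fintype.card V) x r) ^ k / k.factorial) := by
  obtain ⟨w0, w1, _⟩ := win_mem hq hA hlt
  set p' := (qs q A' - qs q A) / (1 - qs q A) with hp'def
  set α := armB (Fintype.card V) x r with hα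
  have hα0 : 0 ≤ α := by rw [hα]; unfold armB; positivity
  set 𝒟 : Finset (Finset V) := univ.filter fun D => (D.card : ℝ) ≤ s with h𝒟
  set E₁ : Set (Sym2 V → B) := {b | ∃ v, s ≤ ((cmp (adj A b) univ v).card : ℝ)} with hE₁
  set E₂ : Set (Sym2 V → B) := {b | ∃ v ∈ (univ : Finset V), b ∈ {b | ∃ D ∈ 𝒟,
    b ∈ {b | ∃ ws ∈ Finset.powersetCard k (univ \ D), b ∈ {b : Sym2 V → B |
      ∃ u ∈ ws.pi (fun _ => D), b ∈ F4_ev A A' r v D ws u}}}} with hE₂
  have hsub : {b : Sym2 V → B | ∃ (v : V) (ws : Finset V), k ≤ ws.card ∧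
      (∀ w ∈ ws, w ∉ cmp (adj A b) univ v ∧ ∃ u ∈ cmp (adj A b) univ v, adj A' b u w) ∧
      DisjArms (adj A' b) (univ \ cmp (adj A b) univ v) ws r} ⊆ E₁ ∪ E₂ := by
    rintro b ⟨v, ws, hk, hws, hd⟩
    by_cases hbig : ∃ v, s ≤ ((cmp (adj A b) univ v).card : ℝ)
    · exact Or.inl hbig
    · right
      push Not at hbig
      obtain ⟨ws', hws', hcard⟩ := Finset.exists_subset_card_eq hk
      have hu : ∀ w ∈ ws', ∃ u ∈ cmp (adj A b) univ v, adj A' b u w :=
        fun w hw => (hws w (hws' hw)).2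
      refine ⟨v, Finset.mem_univ v, cmp (adj A b) univ v,
        Finset.mem_filter.2 ⟨Finset.mem_univ _, (hbig v).le⟩, ws',
        Finset.mem_powersetCard.2 ⟨fun w hw => Finset.mem_sdiff.2
          ⟨Finset.mem_univ w, (hws w (hws' hw)).1⟩, hcard⟩,
        fun w hw => (hu w hw).choose, Finset.mem_pi.2 fun w hw => (hu w hw).choose_spec.1,
        ⟨rfl, ?_⟩, ?_⟩
      · intro e he
        obtain ⟨w, _, rfl⟩ := Finset.mem_image.1 he
        exact (hu w.1 w.2).choose_spec.2.2
      · obtain ⟨γ, hγ1, hγ2⟩ := hd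
        exact ⟨γ, fun w hw => hγ1 w (hws' hw), fun w hw w' hw' => hγ2 w (hws' hw) w' (hws' hw')⟩
  have hE2 : PP q E₂ ≤ Fintype.card V *
      ((s * (Fintype.card V * p') * α) ^ k / k.factorial) := by
    set c : ℝ := (s * (Fintype.card V * p') * α) ^ k / k.factorial with hc
    have hc0 : 0 ≤ c := by rw [hc]; positivity
    have step : ∀ v : V, PP q {b | ∃ D ∈ 𝒟,
        b ∈ {b | ∃ ws ∈ Finset.powersetCard k (univ \ D), b ∈ {b : Sym2 V → B |
          ∃ u ∈ ws.pi (fun _ => D), b ∈ F4_ev A A' r v D ws u}}} ≤ c := by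
      intro v
      have stepD : ∀ D ∈ 𝒟, PP q {b | ∃ ws ∈ Finset.powersetCard k (univ \ D),
          b ∈ {b : Sym2 V → B | ∃ u ∈ ws.pi (fun _ => D), b ∈ F4_ev A A' r v D ws u}} ≤
          PP q {b : Sym2 V → B | cmp (adj A b) univ v = D} * c := by
        intro D hD
        have hDs : (D.card : ℝ) ≤ s := (Finset.mem_filter.1 hD).2
        set P := PP q {b : Sym2 V → B | cmp (adj A b) univ v = D} with hP
        have hP0 : 0 ≤ P := PP_nonneg hq _
        calc PP q {b | ∃ ws ∈ Finset.powersetCard k (univ \ D),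
              b ∈ {b : Sym2 V → B | ∃ u ∈ ws.pi (fun _ => D), b ∈ F4_ev A A' r v D ws u}}
            ≤ ∑ ws ∈ Finset.powersetCard k (univ \ D), PP q {b : Sym2 V → B |
                ∃ u ∈ ws.pi (fun _ => D), b ∈ F4_ev A A' r v D ws u} := PP_exists_le hq _ _
          _ ≤ ∑ ws ∈ Finset.powersetCard k (univ \ D), (s ^ k * (P * (p' ^ k * α ^ k))) := by
              refine Finset.sum_le_sum fun ws hws => ?_
              obtain ⟨hw1, hw2⟩ := Finset.mem_powersetCard.1 hws
              calc PP q {b : Sym2 V → B | ∃ u ∈ ws.pi (fun _ => D), b ∈ F4_ev A A' r v D ws u}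
                  ≤ ∑ u ∈ ws.pi (fun _ => D), PP q (F4_ev A A' r v D ws u) :=
                    PP_exists_le hq _ _
                _ ≤ ∑ u ∈ ws.pi (fun _ => D), (P * (p' ^ k * α ^ k)) := by
                    refine Finset.sum_le_sum fun u hu => ?_
                    have := F4_term hq A A' hA hlt x hx0 hx1 hn hp' r hr v D ws
                      (fun w hw => (Finset.mem_sdiff.1 (hw1 hw)).2) u
                      (fun w hw => Finset.mem_pi.1 hu w hw)
                    rwa [hw2] at this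
                _ = (D.card : ℝ) ^ k * (P * (p' ^ k * α ^ k)) := by
                    rw [Finset.sum_const, nsmul_eq_mul, Finset.card_pi, Finset.prod_const, hw2]
                    push_cast
                    rfl
                _ ≤ s ^ k * (P * (p' ^ k * α ^ k)) := by
                    refine mul_le_mul_of_nonneg_right ?_ (by positivity)
                    exact pow_le_pow_left₀ (by positivity) hDs k
          _ = (((univ \ D).card.choose k : ℕ) : ℝ) * (s ^ k * (P * (p' ^ k * α ^ k))) := by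
              rw [Finset.sum_const, nsmul_eq_mul, Finset.card_powersetCard]
          _ ≤ ((Fintype.card V : ℝ) ^ k / k.factorial) * (s ^ k * (P * (p' ^ k * α ^ k))) := by
              refine mul_le_mul_of_nonneg_right ?_ (by positivity)
              refine le_trans ?_ (Nat.choose_le_pow_div k (Fintype.card V))
              exact_mod_cast Nat.choose_le_choose k (Finset.card_le_univ _)
          _ = P * c := by
              rw [hc, mul_pow, mul_pow, mul_pow]
              ring
      calc PP q {b | ∃ D ∈ 𝒟, b ∈ {b | ∃ ws ∈ Finset.powersetCard k (univ \ D),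
            b ∈ {b : Sym2 V → B | ∃ u ∈ ws.pi (fun _ => D), b ∈ F4_ev A A' r v D ws u}}}
          ≤ ∑ D ∈ 𝒟, PP q {b | ∃ ws ∈ Finset.powersetCard k (univ \ D),
            b ∈ {b : Sym2 V → B | ∃ u ∈ ws.pi (fun _ => D), b ∈ F4_ev A A' r v D ws u}} :=
            PP_exists_le hq _ _
        _ ≤ ∑ D ∈ 𝒟, PP q {b : Sym2 V → B | cmp (adj A b) univ v = D} * c :=
            Finset.sum_le_sum stepD
        _ ≤ ∑ D : Finset V, PP q {b : Sym2 V → B | cmp (adj A b) univ v = D} * c :=
            Finset.sum_le_sum_of_subset_of_nonneg (Finset.subset_univ _)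
              fun D _ _ => mul_nonneg (PP_nonneg hq _) hc0
        _ = c := by rw [← Finset.sum_mul, sum_cmp hq A v, one_mul]
    calc PP q E₂ ≤ ∑ v : V, PP q {b | ∃ D ∈ 𝒟,
        b ∈ {b | ∃ ws ∈ Finset.powersetCard k (univ \ D), b ∈ {b : Sym2 V → B |
          ∃ u ∈ ws.pi (fun _ => D), b ∈ F4_ev A A' r v D ws u}}} := PP_exists_le hq _ _
      _ ≤ ∑ _v : V, c := Finset.sum_le_sum fun v _ => step v
      _ = Fintype.card V * c := by rw [Finset.sum_const, nsmul_eq_mul, Finset.card_univ]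
  calc _ ≤ PP q (E₁ ∪ E₂) := PP_mono hq hsub
    _ ≤ PP q E₁ + PP q E₂ := PP_union_le hq _ _
    _ ≤ _ := add_le_add (size_bound hq A h h0 h1 hp s) hE2

end RST.D
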