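import Pool.Agent.Lib.MP_7946c7_pr.D.Ind

/-!
# MP_7946c7_pr, stream D, job F6a: expansion given the big components
-/

open Finset

namespace RST.D

variable {V : Type} [Fintype V]

open Classical in
/-- Number of small subsets: a set of cardinality at most `n`, `n ≥ 3`, has at most `n ^ j` subsets
`Y` with `2 |Y| < j`, for `j ≥ 1`. Proof: the number of subsets with at most `m` elements is at most
`(n + 1) ^ m` (map `Fin m → Option F` onto them, or induction), `m = (j - 1) / 2` and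
`(n + 1) ^ m ≤ n ^ (2 m) ≤ n ^ j` since `n + 1 ≤ n ^ 2`. -/
theorem small_subsets (F : Finset (Finset V)) (n j : ℕ) (hn : 3 ≤ n) (hF : F.card ≤ n)
    (hj : 1 ≤ j) : (F.powerset.filter fun Y => 2 * Y.card < j).card ≤ n ^ j := by
  set m := (j - 1) / 2 with hm
  have hsub : (F.powerset.filter fun Y => 2 * Y.card < j) ⊆
      (range (m + 1)).biUnion fun i => Finset.powersetCard i F := by
    intro Y hY
    obtain ⟨hY1, hY2⟩ := Finset.mem_filter.1 hY
    refine Finset.mem_biUnion.2 ⟨Y.card, Finset.mem_range.2 (by omega), ?_⟩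
    exact Finset.mem_powersetCard.2 ⟨Finset.mem_powerset.1 hY1, rfl⟩
  calc (F.powerset.filter fun Y => 2 * Y.card < j).card
      ≤ ((range (m + 1)).biUnion fun i => Finset.powersetCard i F).card := Finset.card_le_card hsub
    _ ≤ ∑ i ∈ range (m + 1), (Finset.powersetCard i F).card := Finset.card_biUnion_le
    _ = ∑ i ∈ range (m + 1), F.card.choose i :=
        Finset.sum_congr rfl fun i _ => Finset.card_powersetCard i F
    _ ≤ ∑ i ∈ range (m + 1), n ^ i * 1 ^ (m - i) * m.choose i := by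
        refine Finset.sum_le_sum fun i hi => ?_
        have him : i ≤ m := by have := Finset.mem_range.1 hi; omega
        have h1 : F.card.choose i ≤ n ^ i :=
          (Nat.choose_le_pow _ _).trans (Nat.pow_le_pow_left hF i)
        have h2 : 1 ≤ m.choose i := Nat.choose_pos him
        calc F.card.choose i ≤ n ^ i * 1 := by rw [mul_one]; exact h1
          _ ≤ n ^ i * m.choose i := Nat.mul_le_mul_left _ h2
          _ = n ^ i * 1 ^ (m - i) * m.choose i := by rw [one_pow, mul_one]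
    _ = (n + 1) ^ m := (add_pow n 1 m).symm
    _ ≤ (n ^ 2) ^ m := Nat.pow_le_pow_left (by nlinarith) m
    _ = n ^ (2 * m) := by rw [← pow_mul]
    _ ≤ n ^ j := Nat.pow_le_pow_right (by omega) (by omega)

open Classical in
private lemma F6a_card_pairs (U Z : Finset V) (hUZ : Disjoint U Z) :
    ((U ×ˢ Z).image fun x => s(x.1, x.2)).card = U.card * Z.card := by
  rw [Finset.card_image_of_injOn, Finset.card_product]
  intro x hx y hy he
  obtain ⟨hx1, hx2⟩ := Finset.mem_product.1 (Finset.mem_coe.1 hx)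
  obtain ⟨hy1, hy2⟩ := Finset.mem_product.1 (Finset.mem_coe.1 hy)
  rcases Sym2.eq_iff.1 he with ⟨h1, h2⟩ | ⟨h1, h2⟩
  · exact Prod.ext h1 h2
  · exact absurd (h1 ▸ hx1) (Finset.disjoint_right.1 hUZ hy2)

open Classical in
private lemma F6a_fixed (p : ℝ) (h0 : 0 ≤ p) (h1 : p ≤ 1) (k : ℕ)
    (F : Finset (Finset V)) (hd : ∀ P ∈ F, ∀ Q ∈ F, P ≠ Q → Disjoint P Q)
    (hk : ∀ P ∈ F, k ≤ P.card) (hn : 3 ≤ Fintype.card V)
    (hp : 16 * Real.log (Fintype.card V) ≤ p * (k : ℝ) ^ 2 * F.card)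
    (X Y : Finset (Finset V)) (hX : X ⊆ F) (hXF : 2 * X.card ≤ F.card) (hY : 2 * Y.card < X.card) :
    PP (bern p) {ζ : Sym2 V → Bool |
      ((F \ X).filter fun Q => ∃ P ∈ X, cadj (bg ζ) P Q) = Y} ≤
      ((1 : ℝ) / (Fintype.card V : ℝ) ^ 4) ^ X.card := by
  have hn0 : (0 : ℝ) < Fintype.card V := by
    have : 0 < Fintype.card V := by omega
    exact_mod_cast this
  set Z := (F \ X) \ Y with hZ
  set U := X.biUnion id with hU
  set T := Z.biUnion id with hT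
  have hUT : Disjoint U T := by
    rw [hU, hT, Finset.disjoint_biUnion_left]
    intro P hP
    rw [Finset.disjoint_biUnion_right]
    intro Q hQ
    have hQ' := Finset.mem_sdiff.1 (Finset.mem_sdiff.1 hQ).1
    refine hd P (hX hP) Q hQ'.1 fun h => hQ'.2 (h ▸ hP)
  have hUc : k * X.card ≤ U.card :=
    card_disj X k (fun P hP Q hQ => hd P (hX hP) Q (hX hQ)) fun P hP => hk P (hX hP)
  have hZF : ∀ Q ∈ Z, Q ∈ F := fun Q hQ => (Finset.mem_sdiff.1 (Finset.mem_sdiff.1 hQ).1).1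
  have hTc : k * Z.card ≤ T.card :=
    card_disj Z k (fun P hP Q hQ => hd P (hZF P hP) Q (hZF Q hQ)) fun P hP => hk P (hZF P hP)
  have hZc : F.card ≤ 4 * Z.card := by
    have e1 : (F \ X).card = F.card - X.card := Finset.card_sdiff_of_subset hX
    have e2 : (F \ X).card ≤ Z.card + Y.card := by
      have := Finset.le_card_sdiff Y (F \ X)
      rw [← hZ] at this
      omega
    omega
  set S := (U ×ˢ T).image fun x => s(x.1, x.2) with hS
  have hSc : S.card = U.card * T.card := F6a_card_pairs U T hUT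
  have hsub : {ζ : Sym2 V → Bool | ((F \ X).filter fun Q => ∃ P ∈ X, cadj (bg ζ) P Q) = Y} ⊆
      {ζ : Sym2 V → Bool | ∀ e ∈ S, ζ e = false} := by
    intro ζ hζ e he
    have hζ' : ((F \ X).filter fun Q => ∃ P ∈ X, cadj (bg ζ) P Q) = Y := hζ
    obtain ⟨⟨u, w⟩, hx, rfl⟩ := Finset.mem_image.1 he
    obtain ⟨hu, hw⟩ := Finset.mem_product.1 hx
    obtain ⟨P, hP, huP⟩ := Finset.mem_biUnion.1 hu
    obtain ⟨Q, hQ, hwQ⟩ := Finset.mem_biUnion.1 hw
    by_contra hne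
    have htrue : ζ s(u, w) = true := by
      cases h : ζ s(u, w)
      · exact absurd h hne
      · rfl
    have huw : u ≠ w := fun h => Finset.disjoint_left.1 hUT hu (h ▸ hw)
    obtain ⟨hQ1, hQ2⟩ := Finset.mem_sdiff.1 hQ
    refine hQ2 (hζ' ▸ Finset.mem_filter.2 ⟨hQ1, P, hP, u, huP, w, hwQ, huw, htrue⟩)
  have hPP : PP (bern p) {ζ : Sym2 V → Bool |
      ((F \ X).filter fun Q => ∃ P ∈ X, cadj (bg ζ) P Q) = Y} ≤ Real.exp (-(p * S.card)) :=
    (PP_mono (isLaw_bern h0 h1) hsub).trans (PP_none h0 h1 S)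
  refine hPP.trans ?_
  have hlog : Real.exp (-(4 * Real.log (Fintype.card V))) = 1 / (Fintype.card V : ℝ) ^ 4 := by
    rw [Real.exp_neg, show (4 : ℝ) * Real.log (Fintype.card V) =
      ((4 : ℕ) : ℝ) * Real.log (Fintype.card V) by norm_num, Real.exp_nat_mul,
      Real.exp_log hn0, one_div]
  rw [← hlog, ← Real.exp_nat_mul]
  apply Real.exp_le_exp.2
  have c1 : ((k : ℝ) * X.card) * ((k : ℝ) * Z.card) ≤ (S.card : ℝ) := by
    rw [hSc]
    push_cast
    have a1 : (k : ℝ) * X.card ≤ U.card := by exact_mod_cast hUc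
    have a2 : (k : ℝ) * Z.card ≤ T.card := by exact_mod_cast hTc
    exact mul_le_mul a1 a2 (by positivity) (by positivity)
  have c2 : (F.card : ℝ) ≤ 4 * Z.card := by exact_mod_cast hZc
  have c3 : p * (((k : ℝ) * X.card) * ((k : ℝ) * Z.card)) ≤ p * (S.card : ℝ) :=
    mul_le_mul_of_nonneg_left c1 h0
  have c4 : p * (k : ℝ) ^ 2 * F.card ≤ p * (k : ℝ) ^ 2 * (4 * Z.card) :=
    mul_le_mul_of_nonneg_left c2 (by positivity)
  have c5 : (X.card : ℝ) * (16 * Real.log (Fintype.card V)) ≤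
      X.card * (p * (k : ℝ) ^ 2 * (4 * Z.card)) :=
    mul_le_mul_of_nonneg_left (hp.trans c4) (by positivity)
  have c6 : (X.card : ℝ) * (p * (k : ℝ) ^ 2 * (4 * Z.card)) =
      4 * (p * (((k : ℝ) * X.card) * ((k : ℝ) * Z.card))) := by ring
  linarith

open Classical in
/-- Expansion. Proof. Let `n = |V|`, `N = |F| ≤ n` (`card_disj` with `k = 1`). If the event holds for
`X`, `j = |X| ≥ 1` (strict inequality), put `Y = (F \ X).filter (∃ P ∈ X, cadj ..)`, `2 |Y| < j`, and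
`Z = F \ X \ Y`: no edge of `ζ` joins `⋃ X` and `⋃ Z`. The number of pairs is
`|⋃ X| |⋃ Z| ≥ (j k) (k (N - j - |Y|)) ≥ j k^2 N / 4` because `j ≤ N / 2`, `|Y| ≤ j / 2`; the map
`(u, w) ↦ s(u, w)` is injective on `⋃ X × ⋃ Z` (disjoint sets). So for fixed `X, Y` the probability
is at most `exp (- p j k^2 N / 4) ≤ exp (- 4 j log n) = n ^ (-4 j)` (`PP_none`). Union bound: by
`small_subsets` the number of `Y` is at most `n ^ j`, so the sum is at most
`∑ X ⊆ F, X ≠ ∅, n ^ (-3 |X|) = (1 + n ^ (-3)) ^ N - 1 ≤ exp (N n ^ (-3)) - 1 ≤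
exp (n ^ (-2)) - 1 ≤ 2 / n ^ 2` (`Finset.sum_pow_mul_eq_add_pow` or `Finset.prod_one_add`;
`Real.add_one_le_exp`; `exp t ≤ 1 + 2 t` for `0 ≤ t ≤ 1`). -/
theorem expander_fixed (p : ℝ) (h0 : 0 ≤ p) (h1 : p ≤ 1) (k : ℕ) (hk1 : 1 ≤ k)
    (F : Finset (Finset V)) (hd : ∀ P ∈ F, ∀ Q ∈ F, P ≠ Q → Disjoint P Q)
    (hk : ∀ P ∈ F, k ≤ P.card) (hn : 3 ≤ Fintype.card V)
    (hp : 16 * Real.log (Fintype.card V) ≤ p * (k : ℝ) ^ 2 * F.card) :
    PP (bern p) {ζ : Sym2 V → Bool | ∃ X ⊆ F, 2 * X.card ≤ F.card ∧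
      2 * ((F \ X).filter fun Q => ∃ P ∈ X, cadj (bg ζ) P Q).card < X.card} ≤
      2 / (Fintype.card V : ℝ) ^ 2 := by
  have hL := isLaw_bern h0 h1
  have hnR : (3 : ℝ) ≤ Fintype.card V := by exact_mod_cast hn
  set n : ℝ := (Fintype.card V : ℝ) with hnn
  have hn0 : 0 < n := by linarith
  have hFn : F.card ≤ Fintype.card V := by
    have h2 := card_disj F 1 hd fun P hP => hk1.trans (hk P hP)
    rw [one_mul] at h2
    exact h2.trans (Finset.card_le_univ _)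
  set 𝒳 := F.powerset.filter fun X => 1 ≤ X.card ∧ 2 * X.card ≤ F.card with h𝒳
  set 𝒴 : Finset (Finset V) → Finset (Finset (Finset V)) :=
    fun X => F.powerset.filter fun Y => 2 * Y.card < X.card with h𝒴
  set E : Finset (Finset V) → Finset (Finset V) → Set (Sym2 V → Bool) := fun X Y =>
    {ζ : Sym2 V → Bool | ((F \ X).filter fun Q => ∃ P ∈ X, cadj (bg ζ) P Q) = Y} with hE
  have hsub : {ζ : Sym2 V → Bool | ∃ X ⊆ F, 2 * X.card ≤ F.card ∧
      2 * ((F \ X).filter fun Q => ∃ P ∈ X, cadj (bg ζ) P Q).card < X.card} ⊆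
      {ζ : Sym2 V → Bool | ∃ X ∈ 𝒳, ζ ∈ {ζ : Sym2 V → Bool | ∃ Y ∈ 𝒴 X, ζ ∈ E X Y}} := by
    rintro ζ ⟨X, hXF, hX2, hX3⟩
    refine ⟨X, Finset.mem_filter.2 ⟨Finset.mem_powerset.2 hXF, by omega, hX2⟩, ?_⟩
    refine ⟨(F \ X).filter fun Q => ∃ P ∈ X, cadj (bg ζ) P Q, ?_, rfl⟩
    refine Finset.mem_filter.2 ⟨Finset.mem_powerset.2 ?_, hX3⟩
    exact (Finset.filter_subset _ _).trans Finset.sdiff_subset
  have hstep : ∀ X ∈ 𝒳, PP (bern p) {ζ : Sym2 V → Bool | ∃ Y ∈ 𝒴 X, ζ ∈ E X Y} ≤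
      (1 / n ^ 3) ^ X.card := by
    intro X hX
    obtain ⟨hX1, hX2, hX3⟩ := Finset.mem_filter.1 hX
    have hX1' := Finset.mem_powerset.1 hX1
    calc PP (bern p) {ζ : Sym2 V → Bool | ∃ Y ∈ 𝒴 X, ζ ∈ E X Y}
        ≤ ∑ Y ∈ 𝒴 X, PP (bern p) (E X Y) := PP_exists_le hL _ _
      _ ≤ ∑ Y ∈ 𝒴 X, (1 / n ^ 4) ^ X.card := by
          refine Finset.sum_le_sum fun Y hY => ?_
          exact F6a_fixed p h0 h1 k F hd hk hn hp X Y hX1' hX3 (Finset.mem_filter.1 hY).2
      _ = ((𝒴 X).card : ℝ) * (1 / n ^ 4) ^ X.card := by rw [Finset.sum_const, nsmul_eq_mul]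
      _ ≤ n ^ X.card * (1 / n ^ 4) ^ X.card := by
          refine mul_le_mul_of_nonneg_right ?_ (by positivity)
          have h5 : (𝒴 X).card ≤ (Fintype.card V) ^ X.card :=
            small_subsets F (Fintype.card V) X.card hn hFn hX2
          rw [hnn]
          exact_mod_cast h5
      _ = (1 / n ^ 3) ^ X.card := by
          rw [← mul_pow]
          congr 1
          field_simp
  have hpow : ∑ X ∈ 𝒳, ((1 : ℝ) / n ^ 3) ^ X.card ≤ (1 / n ^ 3 + 1) ^ F.card - 1 := by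
    have e1 : ∑ X ∈ F.powerset, ((1 : ℝ) / n ^ 3) ^ X.card * 1 ^ (F.card - X.card) =
        (1 / n ^ 3 + 1) ^ F.card := Finset.sum_pow_mul_eq_add_pow _ _ _
    simp only [one_pow, mul_one] at e1
    rw [← e1]
    have e2 : ∅ ∈ F.powerset := Finset.empty_mem_powerset F
    rw [← Finset.add_sum_erase _ _ e2, Finset.card_empty, pow_zero, add_sub_cancel_left]
    refine Finset.sum_le_sum_of_subset_of_nonneg ?_ fun _ _ _ => by positivity
    intro X hX
    obtain ⟨hX1, hX2, _⟩ := Finset.mem_filter.1 hX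
    refine Finset.mem_erase.2 ⟨?_, hX1⟩
    rintro rfl
    simp at hX2
  have hexp : (1 / n ^ 3 + 1) ^ F.card - 1 ≤ 2 / n ^ 2 := by
    have a1 : (1 / n ^ 3 + 1) ^ F.card ≤ Real.exp (1 / n ^ 2) := by
      calc (1 / n ^ 3 + 1) ^ F.card ≤ (Real.exp (1 / n ^ 3)) ^ F.card :=
            pow_le_pow_left₀ (by positivity) (Real.add_one_le_exp _) _
        _ = Real.exp (F.card * (1 / n ^ 3)) := (Real.exp_nat_mul _ _).symm
        _ ≤ Real.exp (1 / n ^ 2) := by
            apply Real.exp_le_exp.2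
            have : (F.card : ℝ) ≤ n := by rw [hnn]; exact_mod_cast hFn
            calc (F.card : ℝ) * (1 / n ^ 3) ≤ n * (1 / n ^ 3) :=
                  mul_le_mul_of_nonneg_right this (by positivity)
              _ = 1 / n ^ 2 := by field_simp
    have a2 : |1 / n ^ 2| ≤ 1 := by
      rw [abs_of_pos (by positivity), div_le_one (by positivity)]
      nlinarith
    have a3 := Real.abs_exp_sub_one_le a2
    have a4 : Real.exp (1 / n ^ 2) - 1 ≤ 2 * |1 / n ^ 2| := (le_abs_self _).trans a3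
    rw [abs_of_pos (show 0 < 1 / n ^ 2 by positivity)] at a4
    have a5 : 2 * (1 / n ^ 2) = 2 / n ^ 2 := by ring
    linarith
  calc PP (bern p) {ζ : Sym2 V → Bool | ∃ X ⊆ F, 2 * X.card ≤ F.card ∧
      2 * ((F \ X).filter fun Q => ∃ P ∈ X, cadj (bg ζ) P Q).card < X.card}
      ≤ PP (bern p) {ζ : Sym2 V → Bool | ∃ X ∈ 𝒳,
          ζ ∈ {ζ : Sym2 V → Bool | ∃ Y ∈ 𝒴 X, ζ ∈ E X Y}} := PP_mono hL hsub
    _ ≤ ∑ X ∈ 𝒳, PP (bern p) {ζ : Sym2 V → Bool | ∃ Y ∈ 𝒴 X, ζ ∈ E X Y} :=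
        PP_exists_le hL _ _
    _ ≤ ∑ X ∈ 𝒳, ((1 : ℝ) / n ^ 3) ^ X.card := Finset.sum_le_sum hstep
    _ ≤ (1 / n ^ 3 + 1) ^ F.card - 1 := hpow
    _ ≤ 2 / n ^ 2 := hexp

end RST.D
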