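import Pool.Agent.Lib.MP_7946c7_pr.IfB
import Pool.Agent.Lib.MP_7946c7_pr.IfG

/-!
# MP_7946c7_pr, stream D, job Rounds: two and three rounds exposure
-/

open Finset

namespace RST.D

variable {ι B : Type} [Fintype ι] [DecidableEq ι] [Fintype B] [DecidableEq B]

omit [DecidableEq B] in
private lemma Rounds_EE (q : B → ℝ) (F : (ι → B) → ℝ) :
    EE q F = ∑ b : ι → B, (∏ e, q (b e)) * F b := by
  unfold EE
  exact Finset.sum_congr (by ext; simp) fun b _ => rfl

/-- Image law. Proof: group the sum over `b : ι → B` by `c = fun e => g (b e)`; for fixed `c` the sum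
of `∏ e, q (b e)` over the `b` with `g (b e) = c e` for all `e` is `∏ e, ∑ x with g x = c e, q x`
(`Finset.prod_univ_sum` with `Fintype.piFinset`). -/
theorem EE_map {B' : Type} [Fintype B'] [DecidableEq B'] (q : B → ℝ) (g : B → B')
    (F : (ι → B') → ℝ) :
    EE q (fun b : ι → B => F (fun e => g (b e))) =
      EE (fun y : B' => ∑ x ∈ univ.filter (fun x => g x = y), q x) F := by
  classical
  have hL : EE q (fun b : ι → B => F (fun e => g (b e))) =
      ∑ b : ι → B, (∏ e, q (b e)) * F (fun e => g (b e)) := by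
    unfold EE
    exact Finset.sum_congr (by ext; simp) fun b _ => rfl
  have hR : EE (fun y : B' => ∑ x ∈ univ.filter (fun x => g x = y), q x) F =
      ∑ c : ι → B', (∏ e, ∑ x ∈ univ.filter (fun x => g x = c e), q x) * F c := by
    unfold EE
    exact Finset.sum_congr (by ext; simp) fun b _ => rfl
  rw [hL, hR, ← Finset.sum_fiberwise (univ : Finset (ι → B)) (fun b e => g (b e))]
  refine Finset.sum_congr rfl fun c _ => ?_
  rw [Finset.prod_univ_sum, Finset.sum_mul]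
  refine Finset.sum_congr ?_ ?_
  · ext b
    simp only [Finset.mem_filter, Finset.mem_univ, true_and, Fintype.mem_piFinset]
    exact funext_iff
  · intro b hb
    simp only [Fintype.mem_piFinset, Finset.mem_filter, Finset.mem_univ, true_and] at hb
    rw [show (fun e => g (b e)) = c from funext hb]

/-- Product law. Proof: the equivalence `(ι → B₁ × B₂) ≃ (ι → B₁) × (ι → B₂)`
(`Equiv.arrowProdEquivProdArrow`), `Fintype.sum_prod_type`, `Finset.prod_mul_distrib`. -/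
theorem EE_prod {B₁ B₂ : Type} [Fintype B₁] [Fintype B₂] (q₁ : B₁ → ℝ) (q₂ : B₂ → ℝ)
    (F : (ι → B₁) → (ι → B₂) → ℝ) :
    EE (fun y : B₁ × B₂ => q₁ y.1 * q₂ y.2)
      (fun b : ι → B₁ × B₂ => F (fun e => (b e).1) (fun e => (b e).2)) =
      EE q₁ fun b₁ => EE q₂ fun b₂ => F b₁ b₂ := by
  rw [Rounds_EE (ι := ι) (fun y : B₁ × B₂ => q₁ y.1 * q₂ y.2), Rounds_EE q₁]
  have h : ∀ b₁ : ι → B₁, EE q₂ (fun b₂ => F b₁ b₂) =
      ∑ b₂ : ι → B₂, (∏ e, q₂ (b₂ e)) * F b₁ b₂ := fun b₁ => Rounds_EE q₂ _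
  simp only [h]
  rw [← (Equiv.arrowProdEquivProdArrow ι (fun _ => B₁) (fun _ => B₂)).symm.sum_comp,
    Fintype.sum_prod_type]
  refine Finset.sum_congr rfl fun b₁ _ => ?_
  rw [Finset.mul_sum]
  refine Finset.sum_congr rfl fun b₂ _ => ?_
  simp only [Equiv.arrowProdEquivProdArrow_symm_apply]
  rw [Finset.prod_mul_distrib]
  ring

private lemma Rounds_law (q : B → ℝ) (hq : IsLaw q) (A₀ A₁ A₂ : Finset B) (h01 : A₀ ⊆ A₁)
    (h12 : A₁ ⊆ A₂) (h1 : qs q A₁ < 1) (y : Bool × Bool × Bool) :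
    (∑ x ∈ univ.filter (fun x => ((decide (x ∈ A₀), decide (x ∈ A₁), decide (x ∈ A₂)) :
      Bool × Bool × Bool) = y), q x) =
    ∑ p ∈ univ.filter (fun p : Bool × Bool × Bool => ((p.1, p.1 || p.2.1, p.1 || p.2.1 || p.2.2) :
      Bool × Bool × Bool) = y), bern (qs q A₀) p.1 *
        (bern ((qs q A₁ - qs q A₀) / (1 - qs q A₀)) p.2.1 *
          bern ((qs q A₂ - qs q A₁) / (1 - qs q A₁)) p.2.2) := by
  have hle : qs q A₀ ≤ qs q A₁ := Finset.sum_le_sum_of_subset_of_nonneg h01 fun x _ _ => hq.nonneg x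
  have hA0 : 1 - qs q A₀ ≠ 0 := by
    have : 0 < 1 - qs q A₀ := by linarith
    exact this.ne'
  have hA1 : 1 - qs q A₁ ≠ 0 := by
    have : 0 < 1 - qs q A₁ := by linarith
    exact this.ne'
  have e1 : ∑ x ∈ A₁ \ A₀, q x = qs q A₁ - qs q A₀ := by
    have := Finset.sum_sdiff (f := q) h01
    unfold qs
    linarith
  have e2 : ∑ x ∈ A₂ \ A₁, q x = qs q A₂ - qs q A₁ := by
    have := Finset.sum_sdiff (f := q) h12
    unfold qs
    linarith
  have e3 : ∑ x ∈ univ \ A₂, q x = 1 - qs q A₂ := by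
    have := Finset.sum_sdiff (f := q) (Finset.subset_univ A₂)
    have h := hq.sum_one
    unfold qs
    linarith
  have f0 : univ.filter (fun x => x ∈ A₀ ∧ x ∈ A₁ ∧ x ∈ A₂) = A₀ := by
    ext x
    simp only [Finset.mem_filter, Finset.mem_univ, true_and]
    exact ⟨fun h => h.1, fun h => ⟨h, h01 h, h12 (h01 h)⟩⟩
  have f1 : univ.filter (fun x => x ∉ A₀ ∧ x ∈ A₁ ∧ x ∈ A₂) = A₁ \ A₀ := by
    ext x
    simp only [Finset.mem_filter, Finset.mem_univ, true_and, Finset.mem_sdiff]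
    exact ⟨fun h => ⟨h.2.1, h.1⟩, fun h => ⟨h.2, h.1, h12 h.1⟩⟩
  have f2 : univ.filter (fun x => x ∉ A₀ ∧ x ∉ A₁ ∧ x ∈ A₂) = A₂ \ A₁ := by
    ext x
    simp only [Finset.mem_filter, Finset.mem_univ, true_and, Finset.mem_sdiff]
    exact ⟨fun h => ⟨h.2.2, h.2.1⟩, fun h => ⟨fun h' => h.2 (h01 h'), h.2, h.1⟩⟩
  have f3 : univ.filter (fun x => x ∉ A₀ ∧ x ∉ A₁ ∧ x ∉ A₂) = univ \ A₂ := by
    ext x
    simp only [Finset.mem_filter, Finset.mem_univ, true_and, Finset.mem_sdiff]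
    exact ⟨fun h => h.2.2, fun h => ⟨fun h' => h (h12 (h01 h')), fun h' => h (h12 h'), h⟩⟩
  have f4 : univ.filter (fun x => x ∈ A₀ ∧ x ∉ A₁ ∧ x ∈ A₂) = ∅ := by
    ext x
    simp only [Finset.mem_filter, Finset.mem_univ, true_and, Finset.notMem_empty, iff_false]
    exact fun h => h.2.1 (h01 h.1)
  have f5 : univ.filter (fun x => x ∈ A₀ ∧ x ∉ A₁ ∧ x ∉ A₂) = ∅ := by
    ext x
    simp only [Finset.mem_filter, Finset.mem_univ, true_and, Finset.notMem_empty, iff_false]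
    exact fun h => h.2.1 (h01 h.1)
  have f6 : univ.filter (fun x => x ∈ A₀ ∧ x ∈ A₁ ∧ x ∉ A₂) = ∅ := by
    ext x
    simp only [Finset.mem_filter, Finset.mem_univ, true_and, Finset.notMem_empty, iff_false]
    exact fun h => h.2.2 (h12 h.2.1)
  have f7 : univ.filter (fun x => x ∉ A₀ ∧ x ∈ A₁ ∧ x ∉ A₂) = ∅ := by
    ext x
    simp only [Finset.mem_filter, Finset.mem_univ, true_and, Finset.notMem_empty, iff_false]
    exact fun h => h.2.2 (h12 h.2.1)
  have e0 : ∑ x ∈ A₀, q x = qs q A₀ := rfl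
  rcases y with ⟨_ | _, _ | _, _ | _⟩ <;>
    simp only [Prod.mk.injEq, decide_eq_false_iff_not, decide_eq_true_eq, f0, f1, f2, f3, f4, f5,
      f6, f7, e0, e1, e2, e3, Finset.sum_empty] <;>
    rw [Finset.sum_filter] <;> simp [Fintype.sum_prod_type, bern] <;> field_simp <;> ring

/-- Three rounds exposure. Proof: both sides are images of the same law on `Bool × Bool × Bool`:
left: `EE_map` with `g x = (decide (x ∈ A₀), decide (x ∈ A₁), decide (x ∈ A₂))`; right: `EE_prod`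
twice, then `EE_map` with `g (x, y, z) = (x, x || y, x || y || z)`. The two image laws agree on the
8 elements: they give `(true, true, true)` the mass `q(A₀)`, `(false, true, true)` the mass
`q(A₁) - q(A₀)`, `(false, false, true)` the mass `q(A₂) - q(A₁)`, `(false, false, false)` the mass
`1 - q(A₂)` and 0 to the others. (If `q(A₀) = q(A₁)` etc. nothing special happens; `q(A₁) < 1`.) -/
theorem three_rounds {q : B → ℝ} (hq : IsLaw q) (A₀ A₁ A₂ : Finset B) (h01 : A₀ ⊆ A₁)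
    (h12 : A₁ ⊆ A₂) (h1 : qs q A₁ < 1) (F : (ι → Bool) → (ι → Bool) → (ι → Bool) → ℝ) :
    EE q (fun b : ι → B => F (fun e => decide (b e ∈ A₀)) (fun e => decide (b e ∈ A₁))
      (fun e => decide (b e ∈ A₂))) =
      EE (bern (qs q A₀)) fun ξ : ι → Bool =>
        EE (bern ((qs q A₁ - qs q A₀) / (1 - qs q A₀))) fun ζ : ι → Bool =>
          EE (bern ((qs q A₂ - qs q A₁) / (1 - qs q A₁))) fun η : ι → Bool =>
            F ξ (fun e => ξ e || ζ e) (fun e => ξ e || ζ e || η e) := by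
  have hL := EE_map (ι := ι) q (fun x => ((decide (x ∈ A₀), decide (x ∈ A₁), decide (x ∈ A₂)) :
    Bool × Bool × Bool))
    (fun c => F (fun e => (c e).1) (fun e => (c e).2.1) (fun e => (c e).2.2))
  have hR := EE_map (ι := ι) (fun p : Bool × Bool × Bool => bern (qs q A₀) p.1 *
        (bern ((qs q A₁ - qs q A₀) / (1 - qs q A₀)) p.2.1 *
          bern ((qs q A₂ - qs q A₁) / (1 - qs q A₁)) p.2.2))
    (fun p : Bool × Bool × Bool => ((p.1, p.1 || p.2.1, p.1 || p.2.1 || p.2.2) :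
      Bool × Bool × Bool))
    (fun c => F (fun e => (c e).1) (fun e => (c e).2.1) (fun e => (c e).2.2))
  simp only at hL hR
  rw [hL, funext (Rounds_law q hq A₀ A₁ A₂ h01 h12 h1), ← hR]
  have hP := EE_prod (ι := ι) (bern (qs q A₀)) (fun p : Bool × Bool =>
    bern ((qs q A₁ - qs q A₀) / (1 - qs q A₀)) p.1 *
          bern ((qs q A₂ - qs q A₁) / (1 - qs q A₁)) p.2)
    (fun ξ c => F ξ (fun e => ξ e || (c e).1) (fun e => ξ e || (c e).1 || (c e).2))
  simp only at hP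
  rw [hP]
  congr 1
  funext ξ
  exact EE_prod (ι := ι) (bern ((qs q A₁ - qs q A₀) / (1 - qs q A₀)))
    (bern ((qs q A₂ - qs q A₁) / (1 - qs q A₁)))
    (fun ζ η => F ξ (fun e => ξ e || ζ e) (fun e => ξ e || ζ e || η e))

/-- A bound which holds conditionally on the first round (from `two_rounds`, `EE_mono`,
`EE_const`). -/
theorem two_rounds_le {q : B → ℝ} (hq : IsLaw q) (A A' : Finset B) (hA : A ⊆ A')
    (h1 : qs q A < 1) (S : Set ((ι → Bool) × (ι → Bool))) (c : ℝ)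
    (h : ∀ ξ : ι → Bool, PP (bern ((qs q A' - qs q A) / (1 - qs q A)))
      {ζ : ι → Bool | (ξ, fun e => ξ e || ζ e) ∈ S} ≤ c) :
    PP q {b : ι → B | ((fun e => decide (b e ∈ A)), fun e => decide (b e ∈ A')) ∈ S} ≤ c := by
  classical
  have h2 := two_rounds (ι := ι) hq A A' hA h1 (fun ξ ξ' => if (ξ, ξ') ∈ S then (1 : ℝ) else 0)
  have h3 : PP q {b : ι → B | ((fun e => decide (b e ∈ A)), fun e => decide (b e ∈ A')) ∈ S} =
      EE q (fun b : ι → B => if ((fun e => decide (b e ∈ A)), fun e => decide (b e ∈ A')) ∈ S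
        then (1 : ℝ) else 0) := by
    unfold PP
    congr 1
  have hA0 : 0 ≤ qs q A := Finset.sum_nonneg fun x _ => hq.nonneg x
  have hlaw : IsLaw (bern (qs q A)) := isLaw_bern hA0 h1.le
  rw [h3, h2]
  refine (EE_mono hlaw (G := fun _ => c) fun ξ => ?_).trans (le_of_eq (EE_const hlaw c))
  refine le_trans (le_of_eq ?_) (h ξ)
  unfold PP
  congr 1

/-- A bound which holds conditionally on the first two rounds. -/
theorem three_rounds_le {q : B → ℝ} (hq : IsLaw q) (A₀ A₁ A₂ : Finset B) (h01 : A₀ ⊆ A₁)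
    (h12 : A₁ ⊆ A₂) (h1 : qs q A₁ < 1) (S : Set ((ι → Bool) × (ι → Bool) × (ι → Bool))) (c : ℝ)
    (h : ∀ ξ ζ : ι → Bool, PP (bern ((qs q A₂ - qs q A₁) / (1 - qs q A₁)))
      {η : ι → Bool | (ξ, (fun e => ξ e || ζ e), fun e => ξ e || ζ e || η e) ∈ S} ≤ c) :
    PP q {b : ι → B | ((fun e => decide (b e ∈ A₀)), (fun e => decide (b e ∈ A₁)),
      fun e => decide (b e ∈ A₂)) ∈ S} ≤ c := by
  classical
  have h2 := three_rounds (ι := ι) hq A₀ A₁ A₂ h01 h12 h1
    (fun ξ ξ' ξ'' => if (ξ, ξ', ξ'') ∈ S then (1 : ℝ) else 0)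
  have h3 : PP q {b : ι → B | ((fun e => decide (b e ∈ A₀)), (fun e => decide (b e ∈ A₁)),
      fun e => decide (b e ∈ A₂)) ∈ S} =
      EE q (fun b : ι → B => if ((fun e => decide (b e ∈ A₀)), (fun e => decide (b e ∈ A₁)),
        fun e => decide (b e ∈ A₂)) ∈ S then (1 : ℝ) else 0) := by
    unfold PP
    congr 1
  have hA0 : 0 ≤ qs q A₀ := Finset.sum_nonneg fun x _ => hq.nonneg x
  have hle : qs q A₀ ≤ qs q A₁ :=
    Finset.sum_le_sum_of_subset_of_nonneg h01 fun x _ _ => hq.nonneg x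
  have hle2 : qs q A₂ ≤ 1 := by
    rw [← hq.sum_one]
    exact Finset.sum_le_sum_of_subset_of_nonneg (Finset.subset_univ _) fun x _ _ => hq.nonneg x
  have hlaw : IsLaw (bern (qs q A₀)) := isLaw_bern hA0 (by linarith)
  have hlaw2 : IsLaw (bern ((qs q A₁ - qs q A₀) / (1 - qs q A₀))) := by
    refine isLaw_bern (div_nonneg (by linarith) (by linarith)) ?_
    rw [div_le_one (by linarith)]
    linarith
  rw [h3, h2]
  refine (EE_mono hlaw (G := fun _ => c) fun ξ => ?_).trans (le_of_eq (EE_const hlaw c))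
  refine (EE_mono hlaw2 (G := fun _ => c) fun ζ => ?_).trans (le_of_eq (EE_const hlaw2 c))
  refine le_trans (le_of_eq ?_) (h ξ ζ)
  unfold PP
  congr 1

end RST.D
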