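import Pool.Agent.Lib.MP_7946c7_pr.D.F6a
import Pool.Agent.Lib.MP_7946c7_pr.D.Rounds
import Pool.Agent.Lib.MP_7946c7_pr.D.Wk

/-!
# MP_7946c7_pr, stream D, job F6b: fact D6 (expansion), for bins
-/

open Finset

namespace RST.D

variable {V : Type} [Fintype V] {B : Type} [Fintype B] [DecidableEq B]

private lemma F6b_bg_symm (ξ : Sym2 V → Bool) : ∀ u v, bg ξ u v → bg ξ v u := by
  rintro u v ⟨h1, h2⟩
  exact ⟨h1.symm, by rw [Sym2.eq_swap]; exact h2⟩

open Classical in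
/-- D6. Proof. `two_rounds_le` with the set `S` of the pairs `(ξ, η)` for which the event holds with
`adj A b` replaced by `bg ξ` and `adj A' b` by `bg η` (`adj_eq_bg`). For fixed `ξ`: if
`N₀ ≤ |F|` for `F = bigs (bg ξ) univ k` then `expander_fixed` applies (`bigs_disj`, `mem_bigs`)
with `p = (q(A') - q(A)) / (1 - q(A))`, because `cadj (bg ζ) P Q` implies `cadj (bg η) P Q` for
`η e = ξ e || ζ e`; otherwise the event is empty. -/
theorem expander {q : B → ℝ} (hq : IsLaw q) (A A' : Finset B) (hA : A ⊆ A') (h1 : qs q A < 1)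
    (k : ℕ) (hk1 : 1 ≤ k) (hn : 3 ≤ Fintype.card V) (N₀ : ℝ)
    (hp : 16 * Real.log (Fintype.card V) ≤
      (qs q A' - qs q A) / (1 - qs q A) * (k : ℝ) ^ 2 * N₀) :
    PP q {b : Sym2 V → B | N₀ ≤ ((bigs (adj A b) univ k).card : ℝ) ∧
      ¬ ∀ X ⊆ bigs (adj A b) univ k, 2 * X.card ≤ (bigs (adj A b) univ k).card →
      X.card ≤ 2 * ((bigs (adj A b) univ k \ X).filter fun Q => ∃ P ∈ X,
        cadj (adj A' b) P Q).card} ≤ 2 / (Fintype.card V : ℝ) ^ 2 := by
  obtain ⟨w0, w1, _⟩ := win_mem hq hA h1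
  set p := (qs q A' - qs q A) / (1 - qs q A) with hpdef
  set S : Set ((Sym2 V → Bool) × (Sym2 V → Bool)) :=
    {x | N₀ ≤ ((bigs (bg x.1) univ k).card : ℝ) ∧
      ¬ ∀ X ⊆ bigs (bg x.1) univ k, 2 * X.card ≤ (bigs (bg x.1) univ k).card →
      X.card ≤ 2 * ((bigs (bg x.1) univ k \ X).filter fun Q => ∃ P ∈ X,
        cadj (bg x.2) P Q).card} with hS
  have key := two_rounds_le (ι := Sym2 V) hq A A' hA h1 S (2 / (Fintype.card V : ℝ) ^ 2) ?_
  · have e : {b : Sym2 V → B | N₀ ≤ ((bigs (adj A b) univ k).card : ℝ) ∧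
      ¬ ∀ X ⊆ bigs (adj A b) univ k, 2 * X.card ≤ (bigs (adj A b) univ k).card →
      X.card ≤ 2 * ((bigs (adj A b) univ k \ X).filter fun Q => ∃ P ∈ X,
        cadj (adj A' b) P Q).card} =
      {b : Sym2 V → B | ((fun e => decide (b e ∈ A)), fun e => decide (b e ∈ A')) ∈ S} := by
      ext b
      simp only [Set.mem_ofPred_eq, adj_eq_bg, hS]
    rw [e]
    exact key
  · intro ξ
    by_cases hN : N₀ ≤ ((bigs (bg ξ) univ k).card : ℝ)
    · have hp' : 16 * Real.log (Fintype.card V) ≤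
          p * (k : ℝ) ^ 2 * ((bigs (bg ξ) univ k).card : ℝ) :=
        hp.trans (mul_le_mul_of_nonneg_left hN (by positivity))
      have hex := expander_fixed p w0 w1 k hk1 (bigs (bg ξ) univ k)
        (bigs_disj (F6b_bg_symm ξ) k) (fun P hP => (mem_bigs.1 hP).1) hn hp'
      refine (PP_mono (isLaw_bern w0 w1) ?_).trans hex
      rintro ζ ⟨_, hζ⟩
      push Not at hζ
      obtain ⟨X, hX1, hX2, hX3⟩ := hζ
      refine ⟨X, hX1, hX2, lt_of_le_of_lt ?_ hX3⟩
      refine Nat.mul_le_mul_left 2 (Finset.card_le_card ?_)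
      intro Q hQ
      obtain ⟨hQ1, P, hP, u, hu, w, hw, huw⟩ := Finset.mem_filter.1 hQ
      refine Finset.mem_filter.2 ⟨hQ1, P, hP, u, hu, w, hw, huw.1, ?_⟩
      simp [huw.2]
    · have e : {ζ : Sym2 V → Bool | (ξ, fun e => ξ e || ζ e) ∈ S} = ∅ := by
        ext ζ
        simp only [Set.mem_ofPred_eq, Set.mem_empty_iff_false, iff_false]
        exact fun h => hN h.1
      rw [e]
      have h0 : PP (bern p) (∅ : Set (Sym2 V → Bool)) = 0 := by
        unfold PP EE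
        simp
      rw [h0]
      positivity

end RST.D
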