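import Pool.Agent.Lib.MP_7946c7_pr.D.Ind

/-!
# MP_7946c7_pr, stream D, job F7a: closed chains, given the components
-/

open Finset

namespace RST.D

variable {V : Type} [Fintype V]

private def F7aK (ξ : Sym2 V → Bool) (l : ℕ) (x : (Fin (l + 1) → V) × (Fin (l + 1) → V)) :
    Set (Sym2 V → Bool) :=
  {ζ | IsClosedChain (bg ξ) (bg fun e => ξ e || ζ e) l
    (fun i => x.1 (Fin.ofNat (l + 1) i)) (fun i => x.2 (Fin.ofNat (l + 1) i))}

omit [Fintype V] in
private theorem F7a_ext (l : ℕ) (a : ℕ → V) (i : ℕ) (hi : i ≤ l) :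
    (fun j : Fin (l + 1) => a j) (Fin.ofNat (l + 1) i) = a i := by
  simp only [Fin.ofNat]
  rw [Nat.mod_eq_of_lt (by omega)]

private theorem F7a_nx (l i : ℕ) (hi : i ≤ l) : nx l i ≤ l := by
  unfold nx
  split_ifs <;> omega

private theorem F7a_chain (Gm GW : V → V → Prop) (l : ℕ) (a b : ℕ → V)
    (h : IsClosedChain Gm GW l a b) :
    IsClosedChain Gm GW l (fun i => (fun j : Fin (l + 1) => a j) (Fin.ofNat (l + 1) i))
      (fun i => (fun j : Fin (l + 1) => b j) (Fin.ofNat (l + 1) i)) := by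
  constructor
  · intro i hi
    simp only [F7a_ext l a i hi, F7a_ext l b i hi]
    exact h.same i hi
  · intro i hi j hj hij
    simp only [F7a_ext l a i hi, F7a_ext l a j hj]
    exact h.distinct i hi j hj hij
  · intro i hi
    simp only [F7a_ext l a i hi, F7a_ext l b _ (F7a_nx l i hi)]
    exact h.window i hi
  · intro i hi j hj hij
    simp only [F7a_ext l a i hi, F7a_ext l b _ (F7a_nx l i hi), F7a_ext l a j hj,
      F7a_ext l b _ (F7a_nx l j hj)]
    exact h.edges i hi j hj hij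

open Classical in
private theorem F7a_card (lm : ℕ) (ξ ζ : Sym2 V → Bool) :
    ((Ecyc (bg ξ) (bg fun e => ξ e || ζ e) lm).card : ℝ) ≤
      ∑ l ∈ range (lm + 1), ∑ x : (Fin (l + 1) → V) × (Fin (l + 1) → V),
        ((l : ℝ) + 1) * (if ζ ∈ F7aK ξ l x then (1 : ℝ) else 0) := by
  have hsub : Ecyc (bg ξ) (bg fun e => ξ e || ζ e) lm ⊆
      (range (lm + 1)).biUnion fun l =>
        (univ.filter fun x : (Fin (l + 1) → V) × (Fin (l + 1) → V) => ζ ∈ F7aK ξ l x).biUnion
          fun x => (range (l + 1)).image fun i =>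
            s(x.1 (Fin.ofNat (l + 1) i), x.2 (Fin.ofNat (l + 1) (nx l i))) := by
    intro e he
    unfold Ecyc at he
    rw [Finset.mem_filter] at he
    obtain ⟨-, l, hl, a, b, hc, i, hi, rfl⟩ := he
    rw [Finset.mem_biUnion]
    refine ⟨l, Finset.mem_range.2 (by omega), ?_⟩
    rw [Finset.mem_biUnion]
    refine ⟨(fun j => a j, fun j => b j), ?_, ?_⟩
    · rw [Finset.mem_filter]
      exact ⟨Finset.mem_univ _, F7a_chain _ _ l a b hc⟩
    · rw [Finset.mem_image]
      refine ⟨i, Finset.mem_range.2 (by omega), ?_⟩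
      have h1 := F7a_ext l a i hi
      have h2 := F7a_ext l b _ (F7a_nx l i hi)
      simp only at h1 h2
      simp only
      rw [h1, h2]
  have h1 := Finset.card_le_card hsub
  have h2 : ((range (lm + 1)).biUnion fun l =>
        (univ.filter fun x : (Fin (l + 1) → V) × (Fin (l + 1) → V) => ζ ∈ F7aK ξ l x).biUnion
          fun x => (range (l + 1)).image fun i =>
            s(x.1 (Fin.ofNat (l + 1) i), x.2 (Fin.ofNat (l + 1) (nx l i)))).card ≤
      ∑ l ∈ range (lm + 1), ∑ _x ∈ univ.filter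
        (fun x : (Fin (l + 1) → V) × (Fin (l + 1) → V) => ζ ∈ F7aK ξ l x), (l + 1) := by
    refine Finset.card_biUnion_le.trans (Finset.sum_le_sum fun l _ => ?_)
    refine Finset.card_biUnion_le.trans (Finset.sum_le_sum fun x _ => ?_)
    refine Finset.card_image_le.trans ?_
    simp
  have h3 : ((Ecyc (bg ξ) (bg fun e => ξ e || ζ e) lm).card : ℝ) ≤
      ((∑ l ∈ range (lm + 1), ∑ _x ∈ univ.filter
        (fun x : (Fin (l + 1) → V) × (Fin (l + 1) → V) => ζ ∈ F7aK ξ l x), (l + 1) : ℕ) : ℝ) := by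
    exact_mod_cast h1.trans h2
  refine h3.trans (le_of_eq ?_)
  push_cast
  apply Finset.sum_congr rfl
  intro l _
  rw [Finset.sum_filter]
  apply Finset.sum_congr rfl
  intro x _
  split_ifs <;> simp

open Classical in
private theorem F7a_prob (p : ℝ) (h0 : 0 ≤ p) (h1 : p ≤ 1) (ξ : Sym2 V → Bool) (l : ℕ)
    (x : (Fin (l + 1) → V) × (Fin (l + 1) → V)) :
    PP (bern p) (F7aK ξ l x) ≤
      p ^ (l + 1) * ∏ i, (if x.2 i ∈ cmp (bg ξ) univ (x.1 i) then (1 : ℝ) else 0) := by
  have hlaw : IsLaw (bern p) := isLaw_bern h0 h1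
  by_cases hemp : ∃ ζ0, ζ0 ∈ F7aK ξ l x
  · obtain ⟨ζ0, hζ0⟩ := hemp
    have hc : IsClosedChain (bg ξ) (bg fun e => ξ e || ζ0 e) l
      (fun i => x.1 (Fin.ofNat (l + 1) i)) (fun i => x.2 (Fin.ofNat (l + 1) i)) := hζ0
    have hprod : ∏ i, (if x.2 i ∈ cmp (bg ξ) univ (x.1 i) then (1 : ℝ) else 0) = 1 := by
      apply Finset.prod_eq_one
      intro i _
      have := hc.same i (by omega)
      simp only [Fin.ofNat_eq_cast, Fin.cast_val_eq_self] at this
      rw [if_pos this]
    rw [hprod, mul_one]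
    set S : Finset (Sym2 V) := (range (l + 1)).image fun i =>
            s(x.1 (Fin.ofNat (l + 1) i), x.2 (Fin.ofNat (l + 1) (nx l i))) with hS
    have hScard : S.card = l + 1 := by
      rw [hS, Finset.card_image_of_injOn, Finset.card_range]
      intro i hi j hj hij
      by_contra hne
      rw [Finset.mem_coe, Finset.mem_range] at hi hj
      exact hc.edges i (by omega) j (by omega) hne hij
    have hsub : F7aK ξ l x ⊆ {ζ : Sym2 V → Bool | ∀ e ∈ S, ζ e = true} := by
      intro ζ hζ e he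
      have hc' : IsClosedChain (bg ξ) (bg fun e => ξ e || ζ e) l
        (fun i => x.1 (Fin.ofNat (l + 1) i)) (fun i => x.2 (Fin.ofNat (l + 1) i)) := hζ
      rw [hS, Finset.mem_image] at he
      obtain ⟨i, hi, rfl⟩ := he
      rw [Finset.mem_range] at hi
      obtain ⟨⟨hne, hw⟩, hw2⟩ := hc'.window i (by omega)
      simp only [Bool.or_eq_true] at hw
      rcases hw with hw | hw
      · exact absurd ⟨hne, hw⟩ hw2
      · exact hw
    refine (PP_mono hlaw hsub).trans ?_
    rw [PP_open h0 h1 S, hScard]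
  · have hempty : F7aK ξ l x ⊆ ∅ := by
      intro ζ hζ
      exact absurd ⟨ζ, hζ⟩ hemp
    have h2 : PP (bern p) (∅ : Set (Sym2 V → Bool)) = 0 := by
      rw [← EE_const (ι := Sym2 V) hlaw 0]
      unfold PP
      congr 1
      funext b
      rw [if_neg (Set.notMem_empty b)]
    refine (PP_mono hlaw hempty).trans ?_
    rw [h2]
    apply mul_nonneg (pow_nonneg h0 _)
    apply Finset.prod_nonneg
    intro i _
    split_ifs <;> norm_num

open Classical in
private theorem F7a_sum (C : V → Finset V) (l : ℕ) :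
    ∑ x : (Fin (l + 1) → V) × (Fin (l + 1) → V),
      ∏ i, (if x.2 i ∈ C (x.1 i) then (1 : ℝ) else 0) =
      (∑ v, ((C v).card : ℝ)) ^ (l + 1) := by
  rw [Fintype.sum_prod_type]
  have h1 : ∀ a : Fin (l + 1) → V, ∑ b : Fin (l + 1) → V,
      ∏ i, (if b i ∈ C (a i) then (1 : ℝ) else 0) = ∏ i, ((C (a i)).card : ℝ) := by
    intro a
    have h2 := Finset.prod_univ_sum (fun _ : Fin (l + 1) => (univ : Finset V))
      (fun i y => if y ∈ C (a i) then (1 : ℝ) else 0)
    rw [Fintype.piFinset_univ] at h2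
    rw [← h2]
    apply Finset.prod_congr rfl
    intro i _
    simp
  simp only [h1]
  have h3 := Finset.prod_univ_sum (fun _ : Fin (l + 1) => (univ : Finset V))
      (fun _ y => ((C y).card : ℝ))
  rw [Fintype.piFinset_univ] at h3
  rw [← h3]
  simp

/-- Given `ξ`, the mean number of edges in closed chains. Proof. For `l ≤ lm` and
`a, b : Fin (l+1) → V` let `K` be the event that `a, b` (extended to `ℕ`, e.g. by
`fun i => a (Fin.ofNat _ i)`) is a closed chain for `bg ξ` and the graph of `ξ || ζ`. The set `Ecyc` is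
contained in the union over `l ≤ lm` and `a, b` with `K` of the `l + 1` edges of the chain, so
`|Ecyc| ≤ ∑ l, ∑ a, b, (l + 1) 1_K`. If `K` holds then `b i ∈ cmp (bg ξ) univ (a i)` for all `i`
(a condition on `ξ`), the `l + 1` edges `s(a i, b (nx l i))` are distinct, and `ζ = true` on them (they
are edges of `ξ || ζ` and not of `ξ`). By `PP_open` the probability of `K` is at most
`p ^ (l + 1) * ∏ i, 1{b i ∈ cmp (bg ξ) univ (a i)}`, and
`∑ a, b, ∏ i, 1{b i ∈ cmp (a i)} = (∑ v, |cmp v|) ^ (l + 1)` (`Finset.prod_univ_sum`,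
`Fintype.piFinset_univ`, used for `a` and `b`, or for `Fin (l+1) → V × V`). -/
theorem ecyc_fixed (p : ℝ) (h0 : 0 ≤ p) (h1 : p ≤ 1) (lm : ℕ) (ξ : Sym2 V → Bool) :
    EE (bern p) (fun ζ : Sym2 V → Bool =>
      ((Ecyc (bg ξ) (bg fun e => ξ e || ζ e) lm).card : ℝ)) ≤
      ∑ l ∈ range (lm + 1), ((l : ℝ) + 1) *
        (p * ∑ v, ((cmp (bg ξ) univ v).card : ℝ)) ^ (l + 1) := by
  classical
  have hlaw : IsLaw (bern p) := isLaw_bern h0 h1
  refine (EE_mono hlaw (fun ζ => F7a_card lm ξ ζ)).trans ?_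
  rw [EE_sum]
  apply Finset.sum_le_sum
  intro l _
  rw [EE_sum]
  have hl : (0 : ℝ) ≤ (l : ℝ) + 1 := by positivity
  have h2 : ∀ x : (Fin (l + 1) → V) × (Fin (l + 1) → V),
      EE (bern p) (fun ζ : Sym2 V → Bool =>
        ((l : ℝ) + 1) * (if ζ ∈ F7aK ξ l x then (1 : ℝ) else 0)) ≤
      ((l : ℝ) + 1) * (p ^ (l + 1) *
        ∏ i, (if x.2 i ∈ cmp (bg ξ) univ (x.1 i) then (1 : ℝ) else 0)) := by
    intro x
    rw [EE_mul_left]
    apply mul_le_mul_of_nonneg_left _ hl
    have := F7a_prob p h0 h1 ξ l x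
    unfold PP at this
    exact this
  refine (Finset.sum_le_sum fun x _ => h2 x).trans ?_
  rw [← Finset.mul_sum, ← Finset.mul_sum, F7a_sum, mul_pow]

end RST.D
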