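import Pool.Agent.Lib.MP_7946c7_pr.D.F1
import Pool.Agent.Lib.MP_7946c7_pr.D.F7a
import Pool.Agent.Lib.MP_7946c7_pr.D.Rounds

/-!
# MP_7946c7_pr, stream D, job F7b: fact D7 (edges in closed chains)
-/

open Finset

namespace RST.D

variable {V : Type} [Fintype V] {B : Type} [Fintype B] [DecidableEq B]

/-- D7. Proof. Let `X(b) = ∑ v, |cmp (adj A b) univ v|`, a function of the first round. By
`mean_sum_cmp` and `PP_markov`, `P(s n / h ≤ X) ≤ 1 / s`. On the other hand the event
`{X < s n / h and t ≤ |Ecyc|}` has probability at most `(∑ l ...) / t` by `two_rounds_le`: given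
`ξ` with `X(ξ) < s n / h`, `PP_markov` and `ecyc_fixed`, monotone in `X ≥ 0`. -/
theorem ecyc_bound {q : B → ℝ} (hq : IsLaw q) (A A' : Finset B) (hA : A ⊆ A') (h : ℝ) (h0 : 0 < h)
    (h1 : h ≤ 1) (hp : Fintype.card V * qs q A ≤ 1 - h) (hlt : qs q A < 1) (lm : ℕ) (s t : ℝ)
    (hs : 0 < s) (ht : 0 < t) (hV : 0 < Fintype.card V) :
    PP q {b : Sym2 V → B | t ≤ ((Ecyc (adj A b) (adj A' b) lm).card : ℝ)} ≤ 1 / s +
      (∑ l ∈ range (lm + 1), ((l : ℝ) + 1) *
        ((qs q A' - qs q A) / (1 - qs q A) * (s * (Fintype.card V / h))) ^ (l + 1)) / t := by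
  classical
  obtain ⟨w0, w1, -⟩ := win_mem hq hA hlt
  set p : ℝ := (qs q A' - qs q A) / (1 - qs q A) with hpdef
  set n : ℝ := (Fintype.card V : ℝ) with hn
  have hn0 : 0 < n := by
    rw [hn]
    exact_mod_cast hV
  have hsn : 0 < s * (n / h) := by positivity
  set c : ℝ := ∑ l ∈ range (lm + 1), ((l : ℝ) + 1) * (p * (s * (n / h))) ^ (l + 1) with hc
  have hc0 : 0 ≤ c := by
    rw [hc]
    refine Finset.sum_nonneg fun l _ => ?_
    positivity
  -- the two events
  have hsub : {b : Sym2 V → B | t ≤ ((Ecyc (adj A b) (adj A' b) lm).card : ℝ)} ⊆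
      {b : Sym2 V → B | s * (n / h) ≤ ∑ v, ((cmp (adj A b) univ v).card : ℝ)} ∪
      {b : Sym2 V → B | ((fun e => decide (b e ∈ A)), fun e => decide (b e ∈ A')) ∈
        {x : (Sym2 V → Bool) × (Sym2 V → Bool) |
          ∑ v, ((cmp (bg x.1) univ v).card : ℝ) < s * (n / h) ∧
          t ≤ ((Ecyc (bg x.1) (bg x.2) lm).card : ℝ)}} := by
    intro b hb
    rw [Set.mem_setOf_eq] at hb
    by_cases hX : s * (n / h) ≤ ∑ v, ((cmp (adj A b) univ v).card : ℝ)
    · exact Or.inl hX
    · refine Or.inr ?_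
      refine ⟨?_, ?_⟩
      · change ∑ v, ((cmp (bg fun e => decide (b e ∈ A)) univ v).card : ℝ) < s * (n / h)
        rw [← adj_eq_bg]
        exact not_le.1 hX
      · change t ≤ ((Ecyc (bg fun e => decide (b e ∈ A)) (bg fun e => decide (b e ∈ A'))
          lm).card : ℝ)
        rw [← adj_eq_bg, ← adj_eq_bg]
        exact hb
  have hP1 : PP q {b : Sym2 V → B | s * (n / h) ≤ ∑ v, ((cmp (adj A b) univ v).card : ℝ)} ≤
      1 / s := by
    refine (PP_markov hq (F := fun b : Sym2 V → B => ∑ v, ((cmp (adj A b) univ v).card : ℝ))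
      (fun b => Finset.sum_nonneg fun v _ => Nat.cast_nonneg _) hsn).trans ?_
    rw [div_le_div_iff₀ hsn hs]
    have := mean_sum_cmp hq A h h0 h1 hp
    have h2 := mul_le_mul_of_nonneg_right this hs.le
    rw [one_mul]
    calc _ ≤ n / h * s := h2
      _ = s * (n / h) := mul_comm _ _
  have hP2 : PP q {b : Sym2 V → B | ((fun e => decide (b e ∈ A)), fun e => decide (b e ∈ A')) ∈
        {x : (Sym2 V → Bool) × (Sym2 V → Bool) |
          ∑ v, ((cmp (bg x.1) univ v).card : ℝ) < s * (n / h) ∧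
          t ≤ ((Ecyc (bg x.1) (bg x.2) lm).card : ℝ)}} ≤ c / t := by
    refine two_rounds_le hq A A' hA hlt _ _ fun ξ => ?_
    have hlaw : IsLaw (bern p) := isLaw_bern w0 w1
    by_cases hX : ∑ v, ((cmp (bg ξ) univ v).card : ℝ) < s * (n / h)
    · have h3 : PP (bern p) {ζ : Sym2 V → Bool | t ≤ ((Ecyc (bg ξ)
          (bg fun e => ξ e || ζ e) lm).card : ℝ)} ≤ c / t := by
        refine (PP_markov hlaw (F := fun ζ : Sym2 V → Bool => ((Ecyc (bg ξ)
          (bg fun e => ξ e || ζ e) lm).card : ℝ)) (fun b => Nat.cast_nonneg _) ht).trans ?_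
        refine div_le_div_of_nonneg_right ?_ ht.le
        refine (ecyc_fixed p w0 w1 lm ξ).trans ?_
        rw [hc]
        refine Finset.sum_le_sum fun l _ => ?_
        refine mul_le_mul_of_nonneg_left ?_ (by positivity)
        have hX0 : 0 ≤ ∑ v, ((cmp (bg ξ) univ v).card : ℝ) :=
          Finset.sum_nonneg fun v _ => Nat.cast_nonneg _
        exact pow_le_pow_left₀ (mul_nonneg w0 hX0) (mul_le_mul_of_nonneg_left hX.le w0) _
      refine (PP_mono hlaw ?_).trans h3
      intro ζ hζ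
      exact hζ.2
    · have h3 : {ζ : Sym2 V → Bool | (ξ, fun e => ξ e || ζ e) ∈
          {x : (Sym2 V → Bool) × (Sym2 V → Bool) |
            ∑ v, ((cmp (bg x.1) univ v).card : ℝ) < s * (n / h) ∧
            t ≤ ((Ecyc (bg x.1) (bg x.2) lm).card : ℝ)}} = ∅ := by
        rw [Set.eq_empty_iff_forall_notMem]
        intro ζ hζ
        exact hX hζ.1
      rw [h3]
      have h4 : PP (bern p) (∅ : Set (Sym2 V → Bool)) = 0 := by
        unfold PP
        simp only [Set.mem_empty_iff_false, if_false]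
        exact EE_const hlaw 0
      rw [h4]
      positivity
  refine (PP_mono hq hsub).trans ((PP_union_le hq _ _).trans ?_)
  exact add_le_add hP1 hP2

end RST.D
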