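import Pool.Agent.Lib.MP_7946c7_pr.D.Ind

/-!
# MP_7946c7_pr, stream D, job F8: fact D8 (window edges with two arms)
-/

open Finset

namespace RST.D

variable {V : Type} [Fintype V] {B : Type} [Fintype B] [DecidableEq B]

omit [Fintype B] [DecidableEq B] in
open Classical in
/-- The arms do not use the edge `s(u, v)`. -/
private theorem F8_arms (A' : Finset B) (u v : V) (huv : u ≠ v) (r : ℕ) (b b₂ : Sym2 V → B)
    (hb : ∀ e, e ≠ s(u, v) → b e = b₂ e)
    (h : DisjArms (adj A' b) univ {u, v} r) : DisjArms (adj A' b₂) univ {u, v} r := by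
  obtain ⟨γ, h1, h2⟩ := h
  have hu0 : γ u 0 = u := (h1 u (by simp)).1
  have hv0 : γ v 0 = v := (h1 v (by simp)).1
  have huv1 : ∀ i ≤ r, γ u i ≠ v := by
    intro i hi h3
    exact h2 u (by simp) v (by simp) huv i hi 0 (Nat.zero_le _) (h3.trans hv0.symm)
  have huv2 : ∀ i ≤ r, γ v i ≠ u := by
    intro i hi h3
    exact h2 v (by simp) u (by simp) huv.symm i hi 0 (Nat.zero_le _) (h3.trans hu0.symm)
  refine ⟨γ, ?_, h2⟩
  intro w hw
  obtain ⟨g1, g2, g3⟩ := h1 w hw
  refine ⟨g1, ⟨?_, g2.2⟩, g3⟩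
  intro i hi
  obtain ⟨k1, k2⟩ := g2.1 i hi
  refine ⟨k1, ?_⟩
  rw [← hb _ ?_]
  · exact k2
  · intro h3
    rw [Sym2.eq_iff] at h3
    have hw2 : w = u ∨ w = v := by simpa using hw
    rcases hw2 with rfl | rfl
    · rcases h3 with h3 | h3
      · exact huv1 (i + 1) hi h3.2
      · exact huv1 i hi.le h3.1
    · rcases h3 with h3 | h3
      · exact huv2 i hi.le h3.1
      · exact huv2 (i + 1) hi h3.2

open Classical in
/-- The event of one pair. -/
private theorem F8_pair {q : B → ℝ} (hq : IsLaw q) (A A' : Finset B) (hA : A ⊆ A') (x : ℝ)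
    (hx0 : 0 ≤ x) (hx1 : x ≤ 1 / 4) (hn : 16 ≤ Fintype.card V)
    (hp' : qs q A' * Fintype.card V ≤ 1 + x) (r : ℕ) (hr : 1 ≤ r) (u v : V) (huv : u ≠ v) :
    PP q {b : Sym2 V → B | b s(u, v) ∈ A' \ A ∧ DisjArms (adj A' b) univ {u, v} r} ≤
      (qs q A' - qs q A) * armB (Fintype.card V) x r ^ 2 := by
  have e0 : {b : Sym2 V → B | b s(u, v) ∈ A' \ A ∧ DisjArms (adj A' b) univ {u, v} r} =
      {b : Sym2 V → B | b s(u, v) ∈ A' \ A} ∩
        {b : Sym2 V → B | DisjArms (adj A' b) univ {u, v} r} := rfl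
  have e1 := PP_indep hq ({s(u, v)} : Set (Sym2 V)) {b : Sym2 V → B | b s(u, v) ∈ A' \ A}
    {b : Sym2 V → B | DisjArms (adj A' b) univ {u, v} r} ?_ ?_
  · rw [e0, e1]
    have e2 : PP q {b : Sym2 V → B | b s(u, v) ∈ A' \ A} = qs q A' - qs q A := by
      have h3 := PP_all hq ({s(u, v)} : Finset (Sym2 V)) (fun _ => A' \ A)
      rw [prod_singleton, qs_sdiff hA] at h3
      rw [← h3]
      congr 1
      ext b
      simp
    have e3 : PP q {b : Sym2 V → B | DisjArms (adj A' b) univ {u, v} r} ≤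
        armB (Fintype.card V) x r ^ 2 := by
      have h3 := PP_marg hq A' {ξ : Sym2 V → Bool | DisjArms (bg ξ) univ {u, v} r}
      have h4 : {b : Sym2 V → B | (fun e => decide (b e ∈ A')) ∈
          {ξ : Sym2 V → Bool | DisjArms (bg ξ) univ {u, v} r}} =
          {b : Sym2 V → B | DisjArms (adj A' b) univ {u, v} r} := by
        ext b
        simp only [Set.mem_ofPred_eq, adj_eq_bg]
      rw [h4] at h3
      rw [h3]
      have h5 := disj_arms (qs q A') x (qs_nonneg hq A') hx0 hx1 hn hp' univ ({u, v} : Finset V)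
        r hr
      rwa [card_pair huv] at h5
    rw [e2]
    exact mul_le_mul_of_nonneg_left e3 (sub_nonneg.2 (qs_mono hq hA))
  · intro b b₂ hb
    have h3 : b s(u, v) = b₂ s(u, v) := hb _ (Set.mem_singleton _)
    simp only [Set.mem_ofPred_eq, h3]
  · intro b b₂ hb
    have h3 : ∀ e, e ≠ s(u, v) → b e = b₂ e := fun e he => hb e (by simpa using he)
    refine propext ⟨fun h => F8_arms A' u v huv r b b₂ h3 h,
      fun h => F8_arms A' u v huv r b₂ b (fun e he => (h3 e he).symm) h⟩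

/-- D8. Proof. `|Ebig| ≤ ∑ a, ∑ b ≠ a, 1{b s(a,b) ∈ A' \ A} 1{DisjArms (adj A' b) univ {a,b} r}`. For
fixed `a ≠ b` the event `DisjArms (adj A' b) univ {a, b} r` does not depend on the value at
`e₀ = s(a, b)`: the arm of `a` does not contain `b` (it is disjoint from the arm of `b`, which contains
`b`) and conversely, so no arm uses `e₀`. By `PP_indep` (`s = {e₀}`), `PP_all`, `qs_sdiff` and
`disj_arms` (after `PP_marg`, `adj_eq_bg`; `({a, b} : Finset V).card = 2`) the mean of the term is at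
most `(q(A') - q(A)) * armB ^ 2`. There are at most `n ^ 2` pairs. -/
theorem ebig_mean {q : B → ℝ} (hq : IsLaw q) (A A' : Finset B) (hA : A ⊆ A') (x : ℝ)
    (hx0 : 0 ≤ x) (hx1 : x ≤ 1 / 4) (hn : 16 ≤ Fintype.card V)
    (hp' : qs q A' * Fintype.card V ≤ 1 + x) (r : ℕ) (hr : 1 ≤ r) :
    EE q (fun b : Sym2 V → B => ((Ebig (adj A b) (adj A' b) r).card : ℝ)) ≤
      (Fintype.card V : ℝ) ^ 2 * (qs q A' - qs q A) * armB (Fintype.card V) x r ^ 2 := by
  classical
  have h1 : EE q (fun b : Sym2 V → B => ((Ebig (adj A b) (adj A' b) r).card : ℝ)) ≤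
      EE q (fun b : Sym2 V → B => ∑ p ∈ (univ : Finset (V × V)), if b ∈ {b : Sym2 V → B |
        p.1 ≠ p.2 ∧ b s(p.1, p.2) ∈ A' \ A ∧ DisjArms (adj A' b) univ {p.1, p.2} r}
        then (1 : ℝ) else 0) := by
    refine EE_mono hq fun b => ?_
    rw [← Finset.sum_filter, Finset.sum_const, nsmul_eq_mul, mul_one]
    refine Nat.cast_le.2 ?_
    refine le_trans (card_le_card ?_) (card_image_le (f := fun p : V × V => s(p.1, p.2)))
    intro e he
    simp only [Ebig, mem_filter, mem_univ, true_and] at he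
    obtain ⟨u, v, rfl, huv, hG, hnG, hD⟩ := he
    refine mem_image.2 ⟨(u, v), ?_, rfl⟩
    refine mem_filter.2 ⟨mem_univ _, huv, ?_, ?_⟩
    · exact mem_sdiff.2 ⟨hG.2, fun h => hnG ⟨huv, h⟩⟩
    · convert hD
  have h2 := EE_sum q (univ : Finset (V × V)) (fun p => fun b : Sym2 V → B =>
    if b ∈ {b : Sym2 V → B |
        p.1 ≠ p.2 ∧ b s(p.1, p.2) ∈ A' \ A ∧ DisjArms (adj A' b) univ {p.1, p.2} r}
        then (1 : ℝ) else 0)
  rw [h2] at h1
  refine h1.trans ?_
  have h3 : ∀ p ∈ (univ : Finset (V × V)), EE q (fun b : Sym2 V → B =>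
    if b ∈ {b : Sym2 V → B |
        p.1 ≠ p.2 ∧ b s(p.1, p.2) ∈ A' \ A ∧ DisjArms (adj A' b) univ {p.1, p.2} r}
        then (1 : ℝ) else 0) ≤ (qs q A' - qs q A) * armB (Fintype.card V) x r ^ 2 := by
    intro p _
    by_cases hp : p.1 = p.2
    · have h4 : (fun b : Sym2 V → B => if b ∈ {b : Sym2 V → B |
          p.1 ≠ p.2 ∧ b s(p.1, p.2) ∈ A' \ A ∧ DisjArms (adj A' b) univ {p.1, p.2} r}
          then (1 : ℝ) else 0) = fun _ => 0 := by
        funext b
        rw [if_neg]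
        exact fun h => h.1 hp
      rw [h4, EE_const hq]
      exact mul_nonneg (sub_nonneg.2 (qs_mono hq hA)) (sq_nonneg _)
    · have h4 := F8_pair hq A A' hA x hx0 hx1 hn hp' r hr p.1 p.2 hp
      refine le_trans (le_of_eq ?_) h4
      unfold PP
      congr 1
      funext b
      have h5 : b ∈ {b : Sym2 V → B |
          p.1 ≠ p.2 ∧ b s(p.1, p.2) ∈ A' \ A ∧ DisjArms (adj A' b) univ {p.1, p.2} r} ↔
          b ∈ {b : Sym2 V → B | b s(p.1, p.2) ∈ A' \ A ∧
            DisjArms (adj A' b) univ {p.1, p.2} r} := by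
        constructor
        · intro h
          refine ⟨h.2.1, ?_⟩
          convert h.2.2
        · intro h
          refine ⟨hp, h.1, ?_⟩
          convert h.2
      by_cases h6 : b ∈ {b : Sym2 V → B | b s(p.1, p.2) ∈ A' \ A ∧
            DisjArms (adj A' b) univ {p.1, p.2} r}
      · rw [if_pos (h5.2 h6), if_pos h6]
      · rw [if_neg (fun h => h6 (h5.1 h)), if_neg h6]
  refine (sum_le_sum h3).trans ?_
  rw [sum_const, nsmul_eq_mul, card_univ, Fintype.card_prod]
  push_cast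
  apply le_of_eq
  ring

end RST.D
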