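import Pool.Agent.Lib.MP_7946c7_pr.D.F1
import Pool.Agent.Lib.MP_7946c7_pr.D.Fac

/-!
# MP_7946c7_pr, stream D, job F9a: fact D9, first part
-/

open Finset

namespace RST.D

variable {V : Type} [Fintype V] {B : Type} [Fintype B] [DecidableEq B]

open Classical in
private lemma F9a_term {q : B → ℝ} (hq : IsLaw q) (A A' : Finset B) (hA : A ⊆ A')
    (hlt : qs q A < 1) (x : ℝ)
    (hx0 : 0 ≤ x) (hx1 : x ≤ 1 / 4) (hn : 16 ≤ Fintype.card V)
    (hp' : qs q A' * Fintype.card V ≤ 1 + x) (r : ℕ) (hr : 1 ≤ r) (a a' c c' : V) (D : Finset V)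
    (ha : a ∈ D) (ha' : a' ∉ D) (hc : c ∈ D) (hc' : c' ∉ D) (hne : a' ≠ c') :
    EE q (fun b : Sym2 V → B => if cmp (adj A b) univ a = D ∧
        ∀ e ∈ ({s(a, a'), s(c, c')} : Finset (Sym2 V)),
        b e ∈ A' then (if DisjArms (adj A' b) (univ \ D) {a', c'} r then (1 : ℝ) else 0) else 0) ≤
      PP q {b : Sym2 V → B | cmp (adj A b) univ a = D} *
        (((qs q A' - qs q A) / (1 - qs q A)) ^ 2 * armB (Fintype.card V) x r ^ 2) := by
  obtain ⟨hdep, hb⟩ := arms_outside hq A' x hx0 hx1 hn hp' D {a', c'} r hr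
  have hS : ∀ e ∈ ({s(a, a'), s(c, c')} : Finset (Sym2 V)), ∃ u ∈ D, ∃ w ∉ D, e = s(u, w) := by
    intro e he
    rcases Finset.mem_insert.1 he with h | h
    · exact ⟨a, ha, a', ha', h⟩
    · exact ⟨c, hc, c', hc', Finset.mem_singleton.1 h⟩
  have h2 := fac_window hq A A' hA hlt a D {s(a, a'), s(c, c')} hS
    (fun b : Sym2 V → B => if DisjArms (adj A' b) (univ \ D) {a', c'} r then (1 : ℝ) else 0)
    (fun b => by split_ifs <;> norm_num) hdep
  refine h2.trans ?_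
  obtain ⟨w0, w1, _⟩ := win_mem hq hA hlt
  have hSne : s(a, a') ≠ s(c, c') := by
    intro h
    rcases Sym2.eq_iff.1 h with ⟨_, h4⟩ | ⟨_, h4⟩
    · exact hne h4
    · exact ha' (h4 ▸ hc)
  rw [Finset.card_pair hne] at hb
  rw [Finset.card_pair hSne, mul_assoc]
  exact mul_le_mul_of_nonneg_left (mul_le_mul_of_nonneg_left hb (by positivity)) (PP_nonneg hq _)

/-- D9, pairs of edges leaving the same component. Proof. `|PPa|` is at most the number of
`(a, a', b, b')` with the stated properties, so `E |PPa|` is at most the sum over `a, a', b, b'` with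
`a' ≠ b'` and over the finite sets `D` with `a, b ∈ D`, `a', b' ∉ D` of
`P(cmp a = D, b s(a,a') ∈ A', b s(b,b') ∈ A', DisjArms (adj A' b) (univ \ D) {a', b'} r)`. By
`fac_window` with `S = {s(a,a'), s(b,b')}` (`|S| = 2` since `a' ≠ b'`, `a', b' ∉ D`, `a, b ∈ D`) and
`arms_outside` this is at most `P(cmp a = D) * p' ^ 2 * armB ^ 2`. The sum over `b ∈ D` gives
`|D|`, the sum over `a', b'` at most `n ^ 2`, the sum over `D` gives `E |cmp a|`
(`sum_cmp_card`), and the sum over `a` gives at most `n / h` (`mean_sum_cmp`). -/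
theorem ppa_mean {q : B → ℝ} (hq : IsLaw q) (A A' : Finset B) (hA : A ⊆ A') (h : ℝ) (h0 : 0 < h)
    (h1 : h ≤ 1) (hp : Fintype.card V * qs q A ≤ 1 - h) (hlt : qs q A < 1) (x : ℝ)
    (hx0 : 0 ≤ x) (hx1 : x ≤ 1 / 4) (hn : 16 ≤ Fintype.card V)
    (hp' : qs q A' * Fintype.card V ≤ 1 + x) (r : ℕ) (hr : 1 ≤ r) :
    EE q (fun b : Sym2 V → B => ((PPa (adj A b) (adj A' b) r).card : ℝ)) ≤
      Fintype.card V / h * (Fintype.card V * ((qs q A' - qs q A) / (1 - qs q A))) ^ 2 *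
        armB (Fintype.card V) x r ^ 2 := by
  classical
  obtain ⟨w0, w1, _⟩ := win_mem hq hA hlt
  set p' := (qs q A' - qs q A) / (1 - qs q A) with hp'def
  set α := armB (Fintype.card V) x r with hα
  -- quadruples `((a, c), (a', c'))`
  set T : (V × V) × (V × V) → Finset V → (Sym2 V → B) → ℝ := fun p D b =>
    if cmp (adj A b) univ p.1.1 = D ∧
      ∀ e ∈ ({s(p.1.1, p.2.1), s(p.1.2, p.2.2)} : Finset (Sym2 V)),
      b e ∈ A' then (if DisjArms (adj A' b) (univ \ D) {p.2.1, p.2.2} r then (1 : ℝ) else 0)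
      else 0 with hT
  set 𝒟 : (V × V) × (V × V) → Finset (Finset V) := fun p =>
    univ.filter fun D => (p.1.1 ∈ D ∧ p.1.2 ∈ D) ∧ p.2.1 ∉ D ∧ p.2.2 ∉ D ∧ p.2.1 ≠ p.2.2 with h𝒟
  have hT0 : ∀ p D b, 0 ≤ T p D b := by
    intro p D b
    simp only [hT]
    split_ifs <;> norm_num
  have hpt : ∀ b : Sym2 V → B, ((PPa (adj A b) (adj A' b) r).card : ℝ) ≤
      ∑ p : (V × V) × (V × V), ∑ D ∈ 𝒟 p, T p D b := by
    intro b
    set G : Finset ((V × V) × (V × V)) := univ.filter fun p =>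
      p.1.2 ∈ cmp (adj A b) univ p.1.1 ∧ adj A' b p.1.1 p.2.1 ∧ adj A' b p.1.2 p.2.2 ∧
      p.2.1 ∉ cmp (adj A b) univ p.1.1 ∧ p.2.2 ∉ cmp (adj A b) univ p.1.1 ∧ p.2.1 ≠ p.2.2 ∧
      DisjArms (adj A' b) (univ \ cmp (adj A b) univ p.1.1) {p.2.1, p.2.2} r with hG
    have hsub : PPa (adj A b) (adj A' b) r ⊆
        G.image fun p => (s(p.1.1, p.2.1), s(p.1.2, p.2.2)) := by
      intro p hp
      obtain ⟨_, a, a', c, c', hpe, g1, g2, g3, g4, g5, g6, g7⟩ := Finset.mem_filter.1 hp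
      refine Finset.mem_image.2 ⟨((a, c), (a', c')), Finset.mem_filter.2
        ⟨Finset.mem_univ _, g1, g2, g3, g4, g5, g6, g7⟩, hpe.symm⟩
    have e0 : ((PPa (adj A b) (adj A' b) r).card : ℝ) ≤ (G.card : ℝ) := by
      exact_mod_cast (Finset.card_le_card hsub).trans Finset.card_image_le
    have e1 : (G.card : ℝ) = ∑ p ∈ G, (1 : ℝ) := by simp
    rw [e1] at e0
    refine e0.trans ?_
    refine (Finset.sum_le_sum fun p hp => ?_).trans
      (Finset.sum_le_sum_of_subset_of_nonneg (Finset.subset_univ _)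
        fun p _ _ => Finset.sum_nonneg fun D _ => hT0 p D b)
    obtain ⟨_, g1, g2, g3, g4, g5, g6, g7⟩ := Finset.mem_filter.1 hp
    have hD : cmp (adj A b) univ p.1.1 ∈ 𝒟 p :=
      Finset.mem_filter.2 ⟨Finset.mem_univ _, ⟨mem_cmp_self _ _, g1⟩, g4, g5, g6⟩
    have h5 : T p (cmp (adj A b) univ p.1.1) b = 1 := by
      have hall : ∀ e ∈ ({s(p.1.1, p.2.1), s(p.1.2, p.2.2)} : Finset (Sym2 V)), b e ∈ A' := by
        intro e he
        rcases Finset.mem_insert.1 he with h | h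
        · rw [h]; exact g2.2
        · rw [Finset.mem_singleton.1 h]; exact g3.2
      simp only [hT]
      rw [if_pos ⟨trivial, hall⟩, if_pos g7]
    rw [← h5]
    exact Finset.single_le_sum (f := fun D => T p D b) (fun D _ => hT0 p D b) hD
  have hsum : EE q (fun b : Sym2 V → B => ∑ p : (V × V) × (V × V), ∑ D ∈ 𝒟 p, T p D b) =
      ∑ p : (V × V) × (V × V), ∑ D ∈ 𝒟 p, EE q (T p D) := by
    rw [EE_sum q univ (fun p (b : Sym2 V → B) => ∑ D ∈ 𝒟 p, T p D b)]
    exact Finset.sum_congr rfl fun p _ => EE_sum q (𝒟 p) (fun D b => T p D b)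
  set P : V → Finset V → ℝ := fun a D => PP q {b : Sym2 V → B | cmp (adj A b) univ a = D} with hP
  have hP0 : ∀ a D, 0 ≤ P a D := fun a D => PP_nonneg hq _
  have hcell : ∀ p : (V × V) × (V × V), ∑ D ∈ 𝒟 p, EE q (T p D) ≤
      (∑ D : Finset V, if p.1.2 ∈ D then P p.1.1 D else 0) * (p' ^ 2 * α ^ 2) := by
    intro p
    calc ∑ D ∈ 𝒟 p, EE q (T p D)
        ≤ ∑ D ∈ 𝒟 p, P p.1.1 D * (p' ^ 2 * α ^ 2) := by
          refine Finset.sum_le_sum fun D hD => ?_
          obtain ⟨_, ⟨g1, g2⟩, g3, g4, g5⟩ := Finset.mem_filter.1 hD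
          exact F9a_term hq A A' hA hlt x hx0 hx1 hn hp' r hr p.1.1 p.2.1 p.1.2 p.2.2 D
            g1 g3 g2 g4 g5
      _ = (∑ D ∈ 𝒟 p, P p.1.1 D) * (p' ^ 2 * α ^ 2) := by rw [← Finset.sum_mul]
      _ ≤ (∑ D : Finset V, if p.1.2 ∈ D then P p.1.1 D else 0) * (p' ^ 2 * α ^ 2) := by
          refine mul_le_mul_of_nonneg_right ?_ (by positivity)
          rw [← Finset.sum_filter]
          refine Finset.sum_le_sum_of_subset_of_nonneg ?_ fun D _ _ => hP0 _ _
          intro D hD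
          obtain ⟨_, ⟨g1, g2⟩, _⟩ := Finset.mem_filter.1 hD
          exact Finset.mem_filter.2 ⟨Finset.mem_univ _, g2⟩
  have hab : ∑ x : V × V, (∑ D : Finset V, if x.2 ∈ D then P x.1 D else 0) ≤
      Fintype.card V / h := by
    rw [Fintype.sum_prod_type]
    calc ∑ a : V, ∑ c : V, (∑ D : Finset V, if c ∈ D then P a D else 0)
        = ∑ a : V, EE q (fun b : Sym2 V → B => ((cmp (adj A b) univ a).card : ℝ)) := by
          refine Finset.sum_congr rfl fun a _ => ?_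
          rw [Finset.sum_comm, ← sum_cmp_card A a]
          refine Finset.sum_congr rfl fun D _ => ?_
          rw [← Finset.sum_filter, Finset.sum_const, nsmul_eq_mul, mul_comm]
          congr 3
          ext c
          simp
      _ = EE q (fun b : Sym2 V → B => ∑ a : V, ((cmp (adj A b) univ a).card : ℝ)) :=
          (EE_sum q univ (fun a (b : Sym2 V → B) => ((cmp (adj A b) univ a).card : ℝ))).symm
      _ ≤ Fintype.card V / h := mean_sum_cmp hq A h h0 h1 hp
  calc EE q (fun b : Sym2 V → B => ((PPa (adj A b) (adj A' b) r).card : ℝ))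
      ≤ ∑ p : (V × V) × (V × V), ∑ D ∈ 𝒟 p, EE q (T p D) := by
        rw [← hsum]
        exact EE_mono hq hpt
    _ ≤ ∑ p : (V × V) × (V × V),
          (∑ D : Finset V, if p.1.2 ∈ D then P p.1.1 D else 0) * (p' ^ 2 * α ^ 2) :=
        Finset.sum_le_sum fun p _ => hcell p
    _ = (∑ x : V × V, (∑ D : Finset V, if x.2 ∈ D then P x.1 D else 0)) *
          ((Fintype.card V : ℝ) ^ 2 * (p' ^ 2 * α ^ 2)) := by
        rw [Fintype.sum_prod_type, Finset.sum_mul]
        refine Finset.sum_congr rfl fun x _ => ?_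
        change ∑ _y : V × V, (∑ D : Finset V, if x.2 ∈ D then P x.1 D else 0) *
          (p' ^ 2 * α ^ 2) = _
        rw [Finset.sum_const, nsmul_eq_mul, Finset.card_univ, Fintype.card_prod]
        push_cast
        ring
    _ ≤ Fintype.card V / h * ((Fintype.card V : ℝ) ^ 2 * (p' ^ 2 * α ^ 2)) :=
        mul_le_mul_of_nonneg_right hab (by positivity)
    _ = Fintype.card V / h * (Fintype.card V * p') ^ 2 * α ^ 2 := by ring

end RST.D
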