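import Pool.Agent.Lib.MP_7946c7_pr.D.F1
import Pool.Agent.Lib.MP_7946c7_pr.D.Fac

/-!
# MP_7946c7_pr, stream D, job F9b: fact D9, second part
-/

open Finset

namespace RST.D

variable {V : Type} [Fintype V] {B : Type} [Fintype B] [DecidableEq B]

open Classical in
/-- The ordered pairs `(b, b')`, `b` in a big component, `b'` outside, with an arm from `b'`
outside. -/
noncomputable def QQo (Gm GW : V → V → Prop) (km r : ℕ) : Finset (V × V) :=
  univ.filter fun p => km ≤ (cmp Gm univ p.1).card ∧ GW p.1 p.2 ∧ p.2 ∉ cmp Gm univ p.1 ∧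
    Arm GW (univ \ cmp Gm univ p.1) p.2 r

/-- The map `(b, b') ↦ (rep (cmp b), s(b, b'))` maps `QQo` onto `QQb`. -/
theorem qqb_le (Gm GW : V → V → Prop) (km r : ℕ) (rep : Finset V → V) :
    (QQb Gm GW km r rep).card ≤ (QQo Gm GW km r).card := by
  classical
  have hsub : QQb Gm GW km r rep ⊆
      (QQo Gm GW km r).image fun p => (rep (cmp Gm univ p.1), s(p.1, p.2)) := by
    intro p hp
    obtain ⟨_, b, b', hpe, h1, h2, h3, h4⟩ := Finset.mem_filter.1 hp
    exact Finset.mem_image.2 ⟨(b, b'), Finset.mem_filter.2 ⟨Finset.mem_univ _, h1, h2, h3, h4⟩,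
      hpe.symm⟩
  exact (Finset.card_le_card hsub).trans Finset.card_image_le

open Classical in
private lemma F9b_sum_PP {ι : Type} [Fintype ι] {κ : Type} (q : B → ℝ)
    (f : (ι → B) → κ) (𝒟 : Finset κ) :
    ∑ D ∈ 𝒟, PP q {b : ι → B | f b = D} = PP q {b : ι → B | f b ∈ 𝒟} := by
  unfold PP
  rw [← EE_sum q 𝒟 (fun D (b : ι → B) => if b ∈ {b : ι → B | f b = D} then (1 : ℝ) else 0)]
  congr 1
  funext b
  simp only [Set.mem_ofPred_eq]
  rw [Finset.sum_ite_eq]
  congr

open Classical in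
private lemma F9b_term {q : B → ℝ} (hq : IsLaw q) (A A' : Finset B) (hA : A ⊆ A')
    (hlt : qs q A < 1) (x : ℝ)
    (hx0 : 0 ≤ x) (hx1 : x ≤ 1 / 4) (hn : 16 ≤ Fintype.card V)
    (hp' : qs q A' * Fintype.card V ≤ 1 + x) (r : ℕ) (hr : 1 ≤ r) (u w : V) (D : Finset V)
    (hu : u ∈ D) (hw : w ∉ D) :
    EE q (fun b : Sym2 V → B => if cmp (adj A b) univ u = D ∧ ∀ e ∈ ({s(u, w)} : Finset (Sym2 V)),
        b e ∈ A' then (if DisjArms (adj A' b) (univ \ D) {w} r then (1 : ℝ) else 0) else 0) ≤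
      PP q {b : Sym2 V → B | cmp (adj A b) univ u = D} *
        (((qs q A' - qs q A) / (1 - qs q A)) * armB (Fintype.card V) x r) := by
  obtain ⟨hdep, hb⟩ := arms_outside hq A' x hx0 hx1 hn hp' D {w} r hr
  have h2 := fac_window hq A A' hA hlt u D {s(u, w)}
    (fun e he => ⟨u, hu, w, hw, Finset.mem_singleton.1 he⟩)
    (fun b : Sym2 V → B => if DisjArms (adj A' b) (univ \ D) {w} r then (1 : ℝ) else 0)
    (fun b => by split_ifs <;> norm_num) hdep
  refine h2.trans ?_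
  obtain ⟨w0, w1, _⟩ := win_mem hq hA hlt
  rw [Finset.card_singleton, pow_one] at hb ⊢
  rw [mul_assoc]
  exact mul_le_mul_of_nonneg_left (mul_le_mul_of_nonneg_left hb w0) (PP_nonneg hq _)

/-- D9, second part. Proof. `E |QQo|` is the sum over `b, b'` and `D` with `b ∈ D`, `b' ∉ D`,
`km ≤ |D|` of `P(cmp b = D, b s(b,b') ∈ A', Arm (adj A' b) (univ \ D) b' r)`, which by `fac_window`
(`S = {s(b,b')}`) and `arms_outside` with `ws = {b'}` (an arm from `b'` is `DisjArms` for `{b'}`) is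
at most `P(cmp b = D) * p' * armB`. Sum over `b'` (`n`), over `D` with `km ≤ |D|`
(`P(km ≤ |cmp b|) ≤ 4 / √km` by `tail_bin`), over `b` (`n`). -/
theorem qqo_mean {q : B → ℝ} (hq : IsLaw q) (A A' : Finset B) (hA : A ⊆ A')
    (hp : Fintype.card V * qs q A ≤ 1) (h4 : qs q A ≤ 1 / 4) (x : ℝ)
    (hx0 : 0 ≤ x) (hx1 : x ≤ 1 / 4) (hn : 16 ≤ Fintype.card V)
    (hp' : qs q A' * Fintype.card V ≤ 1 + x) (km r : ℕ) (hkm : 1 ≤ km) (hr : 1 ≤ r) :
    EE q (fun b : Sym2 V → B => ((QQo (adj A b) (adj A' b) km r).card : ℝ)) ≤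
      Fintype.card V * (4 / Real.sqrt km) *
        (Fintype.card V * ((qs q A' - qs q A) / (1 - qs q A))) * armB (Fintype.card V) x r := by
  classical
  have hlt : qs q A < 1 := by linarith
  obtain ⟨w0, w1, _⟩ := win_mem hq hA hlt
  set p' := (qs q A' - qs q A) / (1 - qs q A) with hp'def
  set α := armB (Fintype.card V) x r with hα
  have hα0 : 0 ≤ α := by rw [hα]; unfold armB; positivity
  set T : V × V → Finset V → (Sym2 V → B) → ℝ := fun p D b =>
    if cmp (adj A b) univ p.1 = D ∧ ∀ e ∈ ({s(p.1, p.2)} : Finset (Sym2 V)),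
      b e ∈ A' then (if DisjArms (adj A' b) (univ \ D) {p.2} r then (1 : ℝ) else 0) else 0 with hT
  set 𝒟 : V × V → Finset (Finset V) := fun p =>
    univ.filter fun D => km ≤ D.card ∧ p.1 ∈ D ∧ p.2 ∉ D with h𝒟
  have hT0 : ∀ p D b, 0 ≤ T p D b := by
    intro p D b
    simp only [hT]
    split_ifs <;> norm_num
  have hpt : ∀ b : Sym2 V → B, ((QQo (adj A b) (adj A' b) km r).card : ℝ) ≤
      ∑ p : V × V, ∑ D ∈ 𝒟 p, T p D b := by
    intro b
    have e1 : ((QQo (adj A b) (adj A' b) km r).card : ℝ) =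
        ∑ p ∈ QQo (adj A b) (adj A' b) km r, (1 : ℝ) := by simp
    rw [e1]
    refine (Finset.sum_le_sum fun p hp => ?_).trans
      (Finset.sum_le_sum_of_subset_of_nonneg (Finset.subset_univ _)
        fun p _ _ => Finset.sum_nonneg fun D _ => hT0 p D b)
    obtain ⟨_, h1, h2, h3, γ, hγ0, hγ1, hγ2⟩ := Finset.mem_filter.1 hp
    have hD : cmp (adj A b) univ p.1 ∈ 𝒟 p :=
      Finset.mem_filter.2 ⟨Finset.mem_univ _, h1, mem_cmp_self _ _, h3⟩
    have h5 : T p (cmp (adj A b) univ p.1) b = 1 := by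
      have hd : DisjArms (adj A' b) (univ \ cmp (adj A b) univ p.1) {p.2} r := by
        refine ⟨fun _ => γ, fun w hw => ?_, fun w hw w' hw' hne => ?_⟩
        · rw [Finset.mem_singleton.1 hw]
          refine ⟨hγ0, hγ1, fun i hi => ?_⟩
          have := hγ2 i hi
          convert this
        · exact absurd ((Finset.mem_singleton.1 hw).trans (Finset.mem_singleton.1 hw').symm) hne
      simp only [hT]
      rw [if_pos ⟨trivial, fun e he => by rw [Finset.mem_singleton.1 he]; exact h2.2⟩, if_pos hd]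
    rw [← h5]
    exact Finset.single_le_sum (f := fun D => T p D b) (fun D _ => hT0 p D b) hD
  have hsum : EE q (fun b : Sym2 V → B => ∑ p : V × V, ∑ D ∈ 𝒟 p, T p D b) =
      ∑ p : V × V, ∑ D ∈ 𝒟 p, EE q (T p D) := by
    rw [EE_sum q univ (fun p (b : Sym2 V → B) => ∑ D ∈ 𝒟 p, T p D b)]
    exact Finset.sum_congr rfl fun p _ => EE_sum q (𝒟 p) (fun D b => T p D b)
  have hcell : ∀ p : V × V, ∑ D ∈ 𝒟 p, EE q (T p D) ≤ 4 / Real.sqrt km * (p' * α) := by
    intro p
    calc ∑ D ∈ 𝒟 p, EE q (T p D)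
        ≤ ∑ D ∈ 𝒟 p, PP q {b : Sym2 V → B | cmp (adj A b) univ p.1 = D} * (p' * α) := by
          refine Finset.sum_le_sum fun D hD => ?_
          obtain ⟨_, _, h6, h7⟩ := Finset.mem_filter.1 hD
          exact F9b_term hq A A' hA hlt x hx0 hx1 hn hp' r hr p.1 p.2 D h6 h7
      _ = PP q {b : Sym2 V → B | cmp (adj A b) univ p.1 ∈ 𝒟 p} * (p' * α) := by
          rw [← Finset.sum_mul, F9b_sum_PP q (fun b : Sym2 V → B => cmp (adj A b) univ p.1) (𝒟 p)]
      _ ≤ 4 / Real.sqrt km * (p' * α) := by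
          refine mul_le_mul_of_nonneg_right ?_ (mul_nonneg w0 hα0)
          refine le_trans (PP_mono hq ?_) (tail_bin hq A hp h4 km hkm p.1)
          intro b hb
          exact (Finset.mem_filter.1 (show cmp (adj A b) univ p.1 ∈ 𝒟 p from hb)).2.1
  calc EE q (fun b : Sym2 V → B => ((QQo (adj A b) (adj A' b) km r).card : ℝ))
      ≤ ∑ p : V × V, ∑ D ∈ 𝒟 p, EE q (T p D) := by
        rw [← hsum]
        exact EE_mono hq hpt
    _ ≤ ∑ _p : V × V, 4 / Real.sqrt km * (p' * α) := Finset.sum_le_sum fun p _ => hcell p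
    _ = Fintype.card V * (4 / Real.sqrt km) * (Fintype.card V * p') * α := by
        rw [Finset.sum_const, nsmul_eq_mul, Finset.card_univ, Fintype.card_prod]
        push_cast
        ring

end RST.D
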