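import Pool.Agent.Lib.MP_7946c7_pr.DefsW

/-!
# MP_7946c7_pr, stream D: the good events (definitions only)
-/

open Finset

namespace RST.D

variable {V : Type} [Fintype V]

def GD1 (Gm : V → V → Prop) (lmax : ℕ) : Prop :=
  ∀ (γ : ℕ → V) (ℓ : ℕ), IsSAW Gm γ ℓ → ℓ < lmax

open Classical in
def GD3 (Gm GW : V → V → Prop) (r' k₀ : ℕ) : Prop :=
  ∀ (γ : ℕ → V) (ℓ : ℕ), IsSAW GW γ ℓ → ℓ ≤ r' →
    ((range ℓ).filter fun i => ¬ Gm (γ i) (γ (i + 1))).card ≤ k₀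

open Classical in
def GD4 (Gm GW : V → V → Prop) (r'' ab : ℕ) : Prop :=
  ∀ (v : V) (ws : Finset V), (∀ w ∈ ws, w ∉ cmp Gm univ v ∧ ∃ u ∈ cmp Gm univ v, GW u w) →
    DisjArms GW (univ \ cmp Gm univ v) ws r'' → ws.card ≤ ab

open Classical in
def GD6 (Gm GA : V → V → Prop) (km : ℕ) : Prop :=
  ∀ X ⊆ bigs Gm univ km, 2 * X.card ≤ (bigs Gm univ km).card →
    X.card ≤ 2 * ((bigs Gm univ km \ X).filter fun Q => ∃ P ∈ X, cadj GA P Q).card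

def GD10 (Gm : V → V → Prop) (km r'' : ℕ) : Prop :=
  ∀ v, km ≤ (cmp Gm univ v).card → Arm Gm univ v r''

end RST.D
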