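import Pool.Agent.Lib.MP_7946c7_pr.G.Defs
import Pool.Agent.Lib.MP_7946c7_pr.H.HDefs

/-!
# MP_7946c7_pr, stream D: the good events of D11 (definitions only)
-/

open Finset

namespace RST.D

variable {V : Type} [Fintype V]

open Classical in
def GR (G0 G1 : V → V → Prop) (R V₀ : ℕ) : Prop :=
  ∀ γ : ℕ → V, IsSAW G1 γ R →
    V₀ < (expl G0 ((range (R + 1)).image γ) (univ \ (range (R + 1)).image γ)).card

def GS (G0 G1 G2 : V → V → Prop) (k r V₀ : ℕ) : Prop :=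
  ∀ z, V₀ < (ball G1 z r).card → ∃ u ∈ ball G1 z r, ∃ w ∈ gg G0 univ k, u = w ∨ G2 u w

def GC (G1 : V → V → Prop) (kg : ℕ) : Prop :=
  ∀ u ∈ gg G1 univ kg, ∀ v ∈ gg G1 univ kg, Rch G1 univ u v

end RST.D
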