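import Pool.Agent.Lib.MP_7946c7_pr.D.NumB

/-!
# MP_7946c7_pr, stream D, job X1: numerical facts for D11
-/

open Finset

namespace RST.D

noncomputable def h2N (n : ℕ) (x : ℝ) : ℝ := x / (C1 * Real.log n)
noncomputable def RN (n : ℕ) (x : ℝ) : ℕ := ⌈3 * Real.log n ^ 3 / x⌉₊
noncomputable def VN (n : ℕ) (x : ℝ) : ℕ := ⌈Real.log n ^ 3 / x ^ 2⌉₊
noncomputable def lm2N (n : ℕ) (x : ℝ) : ℕ := ⌈5 * Real.log n / h2N n x⌉₊

structure XFacts (δ c₀ : ℝ) (n : ℕ) (h x : ℝ) : Prop where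
  bs : Base δ c₀ n h
  log_huge : 10 ^ 21 ≤ Real.log n
  x_pos : 0 < x
  x_small : x ≤ 1 / 1000
  x_eq : x = C1 * Real.log n * h2N n x
  h2_pos : 0 < h2N n x
  h2_x : h2N n x ≤ x / 1000
  h2N3 : (n : ℝ) ^ δ ≤ h2N n x ^ 3 * n
  V_le : (VN n x : ℝ) ≤ x * n / 1000
  kst_le : (kst δ n h : ℝ) ≤ h2N n x * n / 10 ^ 6
  kst_le' : (kst δ n h : ℝ) ≤ h * n / 1000
  len : ((2 * (RN n x + lm2N n x + 1) + (8 * Nat.clog 2 n + 8) * (lm2N n x + 1) : ℕ) : ℝ) ≤
    Real.log n ^ 5 / h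

private lemma X1_clog (n : ℕ) (hn : 2 ≤ n) : ((Nat.clog 2 n : ℕ) : ℝ) ≤ 2 * Real.log n + 1 := by
  have h1 : 2 ^ (Nat.clog 2 n).pred < n := Nat.pow_pred_clog_lt_self (by norm_num) (by omega)
  have h2 : ((2 : ℝ)) ^ (Nat.clog 2 n).pred < n := by exact_mod_cast h1
  have h3 := Real.log_lt_log (by positivity) h2
  rw [Real.log_pow] at h3
  have h4 : (0.6931471803 : ℝ) < Real.log 2 := Real.log_two_gt_d9
  have h5 : ((Nat.clog 2 n : ℕ) : ℝ) ≤ ((Nat.clog 2 n).pred : ℕ) + 1 := by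
    have : Nat.clog 2 n ≤ (Nat.clog 2 n).pred + 1 := by
      simp only [Nat.pred_eq_sub_one]; omega
    exact_mod_cast this
  have h6 : (0 : ℝ) ≤ ((Nat.clog 2 n).pred : ℕ) := Nat.cast_nonneg _
  nlinarith

/-- Proof. `Base` by `base`; `log n ≥ 10^21` by `log_ge`; `x ≤ 2 LL h ≤ 1/1000`. `C1 log n ≥ 1000` gives
`h2_x`. `h2 ≥ h / (C1 log n)`, `h2³ n ≥ n ^ (3δ) / (C1 log n)³ ≥ n ^ δ` for `n` large
(`log_pow_le` with `m = 3`, `a = 2 δ`). `VN ≤ (log n)³ / x² + 1 ≤ x n / 1000` because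
`x³ n ≥ n ^ (3δ) ≥ 2000 (log n)³`, and `1 ≤ x n / 2000`. `kst ≤ n ^ (δ/2) / h² + 1 ≤
2 n ^ (δ/2) / h²` and `h2 n h² ≥ h³ n / (C1 log n) ≥ n ^ (3δ) / (C1 log n) ≥
2 · 10 ^ 6 n ^ (δ / 2)`; the same for `kst_le'`. `len`: with `ℓ = log n`, `RN ≤ 3 ℓ³ / h + 1`,
`lm2N ≤ 5 C1 ℓ² / h + 1`, `Nat.clog 2 n ≤ 2 ℓ + 1` (`2 ^ (clog 2 n - 1) < n`), `1 ≤ 1 / h`,
`C1 = 2 · 10 ^ 11`, `ℓ ≥ 10^21`. -/
theorem xfacts (δ c₀ : ℝ) (hδ : 0 < δ) (hδ1 : δ ≤ 1 / 10) (hc : 0 < c₀) (hc1 : c₀ ≤ 1) :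
    ∃ n₀ : ℕ, ∀ n : ℕ, n₀ ≤ n → ∀ h : ℝ, R2Par δ n h → ∀ x : ℝ, h ≤ x →
    x ≤ 2 * LL c₀ n * h → XFacts δ c₀ n h x := by
  obtain ⟨n₁, hn₁⟩ := base δ c₀ hδ hδ1 hc hc1
  obtain ⟨n₂, hn₂⟩ := log_ge (10 ^ 21)
  obtain ⟨n₃, hn₃⟩ := log_pow_le (C1 ^ 3) (2 * δ) 3 (by linarith)
  obtain ⟨n₄, hn₄⟩ := log_pow_le 2000 (3 * δ) 3 (by linarith)
  obtain ⟨n₅, hn₅⟩ := log_pow_le (2 * 10 ^ 6 * C1) (5 * δ / 2) 1 (by linarith)
  refine ⟨max n₁ (max n₂ (max n₃ (max n₄ n₅))), fun n hn h hR x hhx hxL => ?_⟩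
  simp only [max_le_iff] at hn
  obtain ⟨N1, N2, N3, N4, N5⟩ := hn
  have Bs := hn₁ n N1 h hR
  have hlog := hn₂ n N2
  have e3 := hn₃ n N3
  have e4 := hn₄ n N4
  have e5 := hn₅ n N5
  rw [pow_one] at e5
  have hC1 : C1 = 2 * 10 ^ 11 := rfl
  have hh := Bs.h_pos
  have hL0 : 0 < Real.log n := lt_of_lt_of_le (by norm_num) hlog
  have hx0 : 0 < x := lt_of_lt_of_le hh hhx
  have hn0 : (0 : ℝ) < n := by have := Bs.n_big; linarith
  have hLh := Bs.Lh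
  have hxs : x ≤ 1 / 1000 := by
    have : 2 * LL c₀ n * h = 2 * (LL c₀ n * h) := by ring
    linarith
  have hCL : 0 < C1 * Real.log n := by rw [hC1]; positivity
  have hCL1000 : 1000 ≤ C1 * Real.log n := by rw [hC1]; linarith
  have hh2 : 0 < h2N n x := div_pos hx0 hCL
  have hh2x : h2N n x ≤ x / 1000 := by
    unfold h2N
    exact div_le_div_of_nonneg_left hx0.le (by norm_num) hCL1000
  have hh2h : h / (C1 * Real.log n) ≤ h2N n x := by
    unfold h2N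
    exact div_le_div_of_nonneg_right hhx hCL.le
  have hN3 := Bs.N3
  have hx3 : h ^ 3 * n ≤ x ^ 3 * n :=
    mul_le_mul_of_nonneg_right (pow_le_pow_left₀ hh.le hhx 3) hn0.le
  have h2000 : (2000 : ℝ) ≤ (n : ℝ) ^ (3 * δ) := by
    refine le_trans ?_ e4
    have : (1 : ℝ) ≤ Real.log n ^ 3 := one_le_pow₀ (by linarith)
    linarith
  have hnhalf : (1 : ℝ) ≤ (n : ℝ) ^ (δ / 2) :=
    Real.one_le_rpow (by have := Bs.n_big; linarith) (by linarith)
  have hh1 : h ≤ 1 := by have := Bs.h_small; linarith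
  -- kst
  have hkst : (kst δ n h : ℝ) ≤ 2 * (n : ℝ) ^ (δ / 2) / h ^ 2 := by
    unfold kst
    refine (Nat.ceil_lt_add_one (by positivity)).le.trans ?_
    have h1 : (1 : ℝ) ≤ (n : ℝ) ^ (δ / 2) / h ^ 2 := by
      rw [le_div_iff₀ (by positivity)]
      have : h ^ 2 ≤ 1 := pow_le_one₀ hh.le hh1
      linarith
    have h2 : 2 * (n : ℝ) ^ (δ / 2) / h ^ 2 =
        (n : ℝ) ^ (δ / 2) / h ^ 2 + (n : ℝ) ^ (δ / 2) / h ^ 2 := by ring
    rw [h2]
    linarith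
  have hkst2 : 2 * (n : ℝ) ^ (δ / 2) / h ^ 2 ≤ h / (C1 * Real.log n) * n / 10 ^ 6 := by
    rw [div_le_iff₀ (by positivity)]
    have h1 : 2 * 10 ^ 6 * C1 * Real.log n * (n : ℝ) ^ (δ / 2) ≤ h ^ 3 * n := by
      refine le_trans ?_ hN3
      have h2 : (n : ℝ) ^ (3 * δ) = (n : ℝ) ^ (5 * δ / 2) * (n : ℝ) ^ (δ / 2) := by
        rw [← Real.rpow_add hn0]; congr 1; ring
      rw [h2]
      exact mul_le_mul_of_nonneg_right e5 (by positivity)
    have h3 : h / (C1 * Real.log n) * n / 10 ^ 6 * h ^ 2 =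
        h ^ 3 * n / (10 ^ 6 * C1 * Real.log n) := by
      field_simp
    rw [h3, le_div_iff₀ (by rw [hC1]; positivity)]
    linarith
  refine
    { bs := Bs
      log_huge := hlog
      x_pos := hx0
      x_small := hxs
      x_eq := by unfold h2N; field_simp
      h2_pos := hh2
      h2_x := hh2x
      h2N3 := ?_
      V_le := ?_
      kst_le := ?_
      kst_le' := ?_
      len := ?_ }
  · have h1 : (h / (C1 * Real.log n)) ^ 3 ≤ h2N n x ^ 3 := pow_le_pow_left₀ (by positivity) hh2h 3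
    have h2 : (h / (C1 * Real.log n)) ^ 3 * n ≤ h2N n x ^ 3 * n :=
      mul_le_mul_of_nonneg_right h1 hn0.le
    refine le_trans ?_ h2
    have h3 : (h / (C1 * Real.log n)) ^ 3 * n = h ^ 3 * n / (C1 ^ 3 * Real.log n ^ 3) := by
      field_simp
    rw [h3, le_div_iff₀ (by rw [hC1]; positivity)]
    refine le_trans ?_ hN3
    have h4 : (n : ℝ) ^ (3 * δ) = (n : ℝ) ^ δ * (n : ℝ) ^ (2 * δ) := by
      rw [← Real.rpow_add hn0]; congr 1; ring
    rw [h4]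
    exact mul_le_mul_of_nonneg_left e3 (by positivity)
  · unfold VN
    refine (Nat.ceil_lt_add_one (by positivity)).le.trans ?_
    have h1 : Real.log n ^ 3 / x ^ 2 ≤ x * n / 2000 := by
      rw [div_le_iff₀ (by positivity)]
      have : 2000 * Real.log n ^ 3 ≤ x ^ 3 * n := e4.trans (hN3.trans hx3)
      nlinarith
    have h2 : 1 ≤ x * n / 2000 := by
      rw [le_div_iff₀ (by norm_num)]
      have h3 : x ^ 3 * n ≤ x * n := by
        refine mul_le_mul_of_nonneg_right ?_ hn0.le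
        have : x ^ 2 ≤ 1 := pow_le_one₀ hx0.le (by linarith)
        nlinarith
      linarith [h2000.trans (hN3.trans (hx3.trans h3))]
    linarith
  · refine hkst.trans (hkst2.trans ?_)
    have : h / (C1 * Real.log n) * n ≤ h2N n x * n := mul_le_mul_of_nonneg_right hh2h hn0.le
    linarith
  · refine hkst.trans (hkst2.trans ?_)
    have h1 : h / (C1 * Real.log n) ≤ h := div_le_self hh.le (by linarith)
    have h2 : h / (C1 * Real.log n) * n ≤ h * n := mul_le_mul_of_nonneg_right h1 hn0.le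
    have h3 : 0 ≤ h * n := by positivity
    linarith
  · push_cast
    set L := Real.log n with hL
    have h1 : (RN n x : ℝ) ≤ 3 * L ^ 3 / h + 1 := by
      unfold RN
      refine (Nat.ceil_lt_add_one (by positivity)).le.trans ?_
      have : 3 * L ^ 3 / x ≤ 3 * L ^ 3 / h :=
        div_le_div_of_nonneg_left (by positivity) hh hhx
      linarith
    have h2 : (lm2N n x : ℝ) ≤ 5 * C1 * L ^ 2 / h + 1 := by
      unfold lm2N
      refine (Nat.ceil_lt_add_one (by positivity)).le.trans ?_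
      have h3 : 5 * L / h2N n x ≤ 5 * L / (h / (C1 * L)) :=
        div_le_div_of_nonneg_left (by positivity) (by positivity) hh2h
      have h4 : 5 * L / (h / (C1 * L)) = 5 * C1 * L ^ 2 / h := by
        field_simp
      linarith
    have hn2 : 2 ≤ n := by
      have : ((2 : ℕ) : ℝ) ≤ n := by push_cast; have := Bs.n_big; linarith
      exact_mod_cast this
    have h3 := X1_clog n hn2
    have hinv : 1 ≤ 1 / h := by
      rw [le_div_iff₀ hh]; linarith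
    set H := 1 / h with hH
    have h1' : (RN n x : ℝ) ≤ (3 * L ^ 3 + 1) * H := by
      have : 3 * L ^ 3 / h = 3 * L ^ 3 * H := by rw [hH]; ring
      rw [this] at h1
      linarith
    have h2' : (lm2N n x : ℝ) + 1 ≤ (5 * C1 * L ^ 2 + 2) * H := by
      have : 5 * C1 * L ^ 2 / h = 5 * C1 * L ^ 2 * H := by rw [hH]; ring
      rw [this] at h2
      linarith
    have h5 : L ^ 5 / h = L ^ 5 * H := by rw [hH]; ring
    rw [h5]
    have hc8 : 8 * ((Nat.clog 2 n : ℕ) : ℝ) + 8 ≤ 16 * L + 16 := by linarith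
    have hc80 : (0 : ℝ) ≤ 8 * ((Nat.clog 2 n : ℕ) : ℝ) + 8 := by positivity
    have h6 : (8 * ((Nat.clog 2 n : ℕ) : ℝ) + 8) * ((lm2N n x : ℝ) + 1) ≤
        (16 * L + 16) * ((5 * C1 * L ^ 2 + 2) * H) :=
      mul_le_mul hc8 h2' (by positivity) (by positivity)
    have h7 : 2 * ((RN n x : ℝ) + lm2N n x + 1) ≤
        (2 * (3 * L ^ 3 + 1) + 2 * (5 * C1 * L ^ 2 + 2)) * H := by linarith
    have h8 : 2 * (3 * L ^ 3 + 1) + 2 * (5 * C1 * L ^ 2 + 2) +
        (16 * L + 16) * (5 * C1 * L ^ 2 + 2) ≤ L ^ 5 := by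
      rw [hC1]
      have hL2 : (10 : ℝ) ^ 42 ≤ L ^ 2 := by
        have := pow_le_pow_left₀ (by norm_num) hlog 2
        linarith
      have hL1 : (1 : ℝ) ≤ L := by linarith
      have hL23 : L ^ 2 ≤ L ^ 3 := pow_le_pow_right₀ hL1 (by norm_num)
      have hL13 : L ≤ L ^ 3 := by
        calc L = L ^ 1 := (pow_one L).symm
          _ ≤ L ^ 3 := pow_le_pow_right₀ hL1 (by norm_num)
      have hL03 : 1 ≤ L ^ 3 := one_le_pow₀ hL1
      have hL53 : 10 ^ 42 * L ^ 3 ≤ L ^ 5 := by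
        have : L ^ 5 = L ^ 2 * L ^ 3 := by ring
        rw [this]
        exact mul_le_mul_of_nonneg_right hL2 (by positivity)
      have e : 2 * (3 * L ^ 3 + 1) + 2 * (5 * (2 * 10 ^ 11) * L ^ 2 + 2) +
          (16 * L + 16) * (5 * (2 * 10 ^ 11) * L ^ 2 + 2) =
          (6 + 16 * (10 ^ 12)) * L ^ 3 + (2 * 10 ^ 12 + 16 * 10 ^ 12) * L ^ 2 + 32 * L + 38 := by
        ring
      rw [e]
      nlinarith
    have hH0 : 0 ≤ H := by positivity
    calc 2 * ((RN n x : ℝ) + lm2N n x + 1) + (8 * ((Nat.clog 2 n : ℕ) : ℝ) + 8) *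
          ((lm2N n x : ℝ) + 1)
        ≤ (2 * (3 * L ^ 3 + 1) + 2 * (5 * C1 * L ^ 2 + 2)) * H +
          (16 * L + 16) * ((5 * C1 * L ^ 2 + 2) * H) := add_le_add h7 h6
      _ = (2 * (3 * L ^ 3 + 1) + 2 * (5 * C1 * L ^ 2 + 2) +
          (16 * L + 16) * (5 * C1 * L ^ 2 + 2)) * H := by ring
      _ ≤ L ^ 5 * H := mul_le_mul_of_nonneg_right h8 hH0

private lemma X1_log (d : ℝ) (h0 : 0 ≤ d) (h1 : d ≤ 1 / 2) :
    Real.exp (-(d + d ^ 2 / 2 + 2 * d ^ 3)) ≤ 1 - d := by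
  have h2 : 0 < 1 - d := by linarith
  rw [← Real.le_log_iff_exp_le h2]
  have h3 := Real.abs_log_sub_add_sum_range_le (x := d) (by rw [abs_of_nonneg h0]; linarith) 2
  rw [abs_of_nonneg h0, Finset.sum_range_succ, Finset.sum_range_succ, Finset.sum_range_zero] at h3
  have h4 := (abs_le.mp h3).1
  have h5 : d ^ (2 + 1) / (1 - d) ≤ 2 * d ^ 3 := by
    rw [div_le_iff₀ h2]
    have h6 : 0 ≤ d ^ 3 := by positivity
    have h7 : 0 ≤ d ^ 3 * (1 - 2 * d) := mul_nonneg h6 (by linarith)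
    have h8 : d ^ (2 + 1) = d ^ 3 := by norm_num
    rw [h8]
    linarith
  norm_num at h4 h5
  linarith

/-- Check of the hypothesis of `r1_bound`, with `y = 1 - 1.9 x`, `z = exp (- 2 x²)`,
`q(A) = (1 - h2) / n`. Proof: `(1 - p + p y) ^ (n - t) = (1 - 1.9 x p) ^ (n - t) ≤
exp (- 1.9 x (1 - h2) (1 - t / n))` and `log (1 - d) ≥ - d - d² / 2 - d³` for `0 ≤ d ≤ 1/2`
(`d = 1.9 x`), so it is enough that `1.9 x (h2 + t / n) + 1.805 x² + 6.859 x³ ≤ 2 x²`, true since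
`h2, t / n ≤ x / 1000` and `x ≤ 1/1000`. -/
theorem yz_check (n t : ℕ) (x h2 : ℝ) (hn : 1 ≤ n) (hx0 : 0 < x) (hx1 : x ≤ 1 / 1000)
    (hh0 : 0 < h2) (hh : h2 ≤ x / 1000) (ht : (t : ℝ) ≤ x * n / 1000) :
    Real.exp (-(2 * x ^ 2)) * (1 - (1 - h2) / n + (1 - h2) / n * (1 - 19 / 10 * x)) ^ (n - t) ≤
      1 - 19 / 10 * x := by
  have hn0 : (0 : ℝ) < n := by exact_mod_cast hn
  have htn : t ≤ n := by
    have : (t : ℝ) ≤ n := by nlinarith
    exact_mod_cast this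
  set u := (1 - h2) / n * (19 / 10 * x) with hu
  have hp1 : (1 - h2) / n ≤ 1 := by
    rw [div_le_one hn0]
    have : (1 : ℝ) ≤ n := by exact_mod_cast hn
    linarith
  have hp0 : 0 ≤ (1 - h2) / n := div_nonneg (by linarith) hn0.le
  have e1 : 1 - (1 - h2) / n + (1 - h2) / n * (1 - 19 / 10 * x) = 1 - u := by rw [hu]; ring
  have hu1 : u ≤ 1 := by
    rw [hu]; nlinarith
  have h3 : (1 - u) ^ (n - t) ≤ Real.exp (-(u * (n - t))) := by
    have h4 : 1 - u ≤ Real.exp (-u) := by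
      have := Real.add_one_le_exp (-u)
      linarith
    have h5 : (1 - u) ^ (n - t) ≤ Real.exp (-u) ^ (n - t) := pow_le_pow_left₀ (by linarith) h4 _
    have h6 : Real.exp (-u) ^ (n - t) = Real.exp (-(u * (n - t))) := by
      rw [← Real.exp_nat_mul, Nat.cast_sub htn]
      congr 1
      ring
    rw [← h6]
    exact h5
  rw [e1]
  have h7 : Real.exp (-(2 * x ^ 2)) * (1 - u) ^ (n - t) ≤
      Real.exp (-(2 * x ^ 2) + -(u * (n - t))) := by
    rw [Real.exp_add]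
    exact mul_le_mul_of_nonneg_left h3 (Real.exp_pos _).le
  refine h7.trans (le_trans (Real.exp_le_exp.mpr ?_) (X1_log (19 / 10 * x) (by linarith)
    (by linarith)))
  have h8 : (1 - x / 1000) * (1 - x / 1000) ≤ (1 - h2) / n * (n - t) := by
    have h9 : (1 - h2) / n * (n - t) = (1 - h2) * ((n - t) / n) := by ring
    rw [h9]
    have h10 : 1 - x / 1000 ≤ ((n : ℝ) - t) / n := by
      rw [le_div_iff₀ hn0]
      nlinarith
    exact mul_le_mul (by linarith) h10 (by linarith) (by linarith)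
  have h11 : u * (n - t) = 19 / 10 * x * ((1 - h2) / n * (n - t)) := by rw [hu]; ring
  rw [h11]
  have h12 : 19 / 10 * x * ((1 - x / 1000) * (1 - x / 1000)) ≤
      19 / 10 * x * ((1 - h2) / n * (n - t)) :=
    mul_le_mul_of_nonneg_left h8 (by linarith)
  have h13 : 0 ≤ x ^ 2 := by positivity
  have h14 : x ^ 3 ≤ x ^ 2 / 1000 := by
    have : x ^ 3 = x ^ 2 * x := by ring
    rw [this]
    nlinarith
  nlinarith

/-- The final bound: `(1 + x) ^ R ≤ exp (x R)`, `(1 - 1.9 x) ^ (R + 1) ≤ exp (- 1.9 x R)`,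
`x R ≥ 3 ℓ³`, `x² V ≤ ℓ³ + x²`: the exponent is at most
`ℓ + x R - 1.9 x R + 2 x² V ≤ ℓ - 2.7 ℓ³ + 2 ℓ³ + 2 x² ≤ - 3 ℓ` (`ℓ = log n`). -/
theorem yz_final (n : ℕ) (x : ℝ) (hn : 1 ≤ n) (hx0 : 0 < x) (hx1 : x ≤ 1 / 1000)
    (hl : 100 ≤ Real.log n) :
    (n : ℝ) * (1 + x) ^ RN n x * ((1 - 19 / 10 * x) ^ (RN n x + 1) /
      Real.exp (-(2 * x ^ 2)) ^ VN n x) ≤ 1 / (n : ℝ) ^ 3 := by
  have hn0 : (0 : ℝ) < n := by exact_mod_cast hn
  set L := Real.log n with hL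
  have hR : 3 * L ^ 3 ≤ x * RN n x := by
    have h1 : 3 * L ^ 3 / x ≤ RN n x := by
      unfold RN
      exact Nat.le_ceil _
    rw [div_le_iff₀ hx0] at h1
    linarith
  have hV : x ^ 2 * VN n x ≤ L ^ 3 + x ^ 2 := by
    have h1 : (VN n x : ℝ) ≤ L ^ 3 / x ^ 2 + 1 := by
      unfold VN
      exact (Nat.ceil_lt_add_one (by positivity)).le
    have h2 : x ^ 2 * VN n x ≤ x ^ 2 * (L ^ 3 / x ^ 2 + 1) :=
      mul_le_mul_of_nonneg_left h1 (by positivity)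
    have h3 : x ^ 2 * (L ^ 3 / x ^ 2 + 1) = L ^ 3 + x ^ 2 := by field_simp
    linarith
  have e1 : (1 + x) ^ RN n x ≤ Real.exp (x * RN n x) := by
    have h1 : 1 + x ≤ Real.exp x := by have := Real.add_one_le_exp x; linarith
    have h2 := pow_le_pow_left₀ (by linarith) h1 (RN n x)
    rw [← Real.exp_nat_mul] at h2
    rwa [mul_comm x]
  have e2 : (1 - 19 / 10 * x) ^ (RN n x + 1) ≤ Real.exp (-(19 / 10 * x * RN n x)) := by
    have h1 : 1 - 19 / 10 * x ≤ Real.exp (-(19 / 10 * x)) := by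
      have := Real.add_one_le_exp (-(19 / 10 * x)); linarith
    have h0 : 0 ≤ 1 - 19 / 10 * x := by linarith
    have h2 := pow_le_pow_left₀ h0 h1 (RN n x)
    rw [← Real.exp_nat_mul] at h2
    have h3 : (1 - 19 / 10 * x) ^ (RN n x + 1) ≤ (1 - 19 / 10 * x) ^ RN n x :=
      pow_le_pow_of_le_one h0 (by linarith) (Nat.le_succ _)
    refine h3.trans (h2.trans (le_of_eq ?_))
    congr 1
    ring
  have e3 : Real.exp (-(2 * x ^ 2)) ^ VN n x = Real.exp (-(2 * (x ^ 2 * VN n x))) := by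
    rw [← Real.exp_nat_mul]
    congr 1
    ring
  have e4 : (n : ℝ) = Real.exp L := (Real.exp_log hn0).symm
  have e5 : 1 / (n : ℝ) ^ 3 = Real.exp (-(3 * L)) := by
    rw [Real.exp_neg, one_div]
    congr 1
    rw [e4, ← Real.exp_nat_mul]
    norm_num
  rw [e5, e3, div_eq_mul_inv, ← Real.exp_neg, neg_neg]
  have h0 : 0 ≤ 1 - 19 / 10 * x := by linarith
  calc (n : ℝ) * (1 + x) ^ RN n x * ((1 - 19 / 10 * x) ^ (RN n x + 1) *
        Real.exp (2 * (x ^ 2 * VN n x)))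
      ≤ (Real.exp L * Real.exp (x * RN n x)) * (Real.exp (-(19 / 10 * x * RN n x)) *
        Real.exp (2 * (x ^ 2 * VN n x))) := by
        refine mul_le_mul ?_ ?_ (by positivity) (by positivity)
        · rw [← e4]
          exact mul_le_mul_of_nonneg_left e1 hn0.le
        · exact mul_le_mul_of_nonneg_right e2 (Real.exp_pos _).le
    _ = Real.exp (L + x * RN n x + (-(19 / 10 * x * RN n x) + 2 * (x ^ 2 * VN n x))) := by
        rw [Real.exp_add, Real.exp_add, Real.exp_add]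
    _ ≤ Real.exp (-(3 * L)) := by
        apply Real.exp_le_exp.mpr
        have hx2 : x ^ 2 ≤ 1 := pow_le_one₀ hx0.le (by linarith)
        have hL3 : 10000 * L ≤ L ^ 3 := by
          have : L ^ 3 = L ^ 2 * L := by ring
          rw [this]
          have h2 : (10000 : ℝ) ≤ L ^ 2 := by nlinarith
          exact mul_le_mul_of_nonneg_right h2 (by linarith)
        nlinarith

end RST.D
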