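import Pool.Agent.Lib.MP_7946c7_pr.D.F1
import Pool.Agent.Lib.MP_7946c7_pr.D.Pred
import Pool.Agent.Lib.MP_7946c7_pr.D.PredG
import Pool.Agent.Lib.MP_7946c7_pr.D.X1
import Pool.Agent.Lib.MP_7946c7_pr.H.Main

/-!
# MP_7946c7_pr, stream D, job G1: D11, walks in the hubs, number of hubs, connectedness of the giants
-/

open Finset

namespace RST.D

private theorem g1_mono {ι B : Type*} [Fintype ι] [Fintype B] {q : B → ℝ} (hq : IsLaw q)
    {S T : Set (ι → B)} (h : S ⊆ T) : PP q S ≤ PP q T := by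
  unfold PP EE
  apply Finset.sum_le_sum
  intro b _
  apply mul_le_mul_of_nonneg_left _ (Finset.prod_nonneg fun e _ => hq.nonneg _)
  beta_reduce
  by_cases hS : b ∈ S
  · rw [if_pos hS, if_pos (h hS)]
  · rw [if_neg hS]
    split_ifs
    · exact zero_le_one
    · exact le_rfl

/-- `d1_bound` with `m = lm2N n x`, `h2 m ≥ 5 log n`: `n exp (- 5 log n) ≤ 1 / n³`. -/
theorem g1_walk (δ c₀ : ℝ) (n : ℕ) (h x : ℝ) (X : XFacts δ c₀ n h x)
    (B : Type) [Fintype B] [DecidableEq B] (q : B → ℝ) (A : Finset B) (hq : IsLaw q)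
    (ha : qs q A = (1 - h2N n x) / n) :
    PP q {b : Sym2 (Fin n) → B | ¬ GD1 (adj A b) (lm2N n x)} ≤ 1 / (n : ℝ) ^ 3 := by
  have hnb := X.bs.n_big
  have hnpos : (0 : ℝ) < n := by linarith
  have h2pos := X.h2_pos
  have h2le : h2N n x ≤ 1 := by linarith [X.h2_x, X.x_small]
  have hp : (Fintype.card (Fin n) : ℝ) * qs q A ≤ 1 - h2N n x := by
    rw [Fintype.card_fin, ha, mul_div_cancel₀ _ hnpos.ne']
  have key := d1_bound (V := Fin n) hq A (h2N n x) h2le hp (lm2N n x)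
  rw [Fintype.card_fin] at key
  have hm : 5 * Real.log n ≤ h2N n x * lm2N n x := by
    have h1 : 5 * Real.log n / h2N n x ≤ lm2N n x := by
      unfold lm2N
      exact Nat.le_ceil _
    rw [div_le_iff₀ h2pos] at h1
    linarith
  refine le_trans (g1_mono hq ?_) (key.trans ?_)
  · intro b hb
    rw [Set.mem_ofPred_eq] at hb ⊢
    unfold GD1 at hb
    push Not at hb
    obtain ⟨γ, m, h1, h2⟩ := hb
    exact ⟨γ, m, h2, h1⟩
  · have h1 : Real.exp (-(h2N n x * lm2N n x)) ≤ Real.exp (-(5 * Real.log n)) :=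
      Real.exp_le_exp.mpr (by linarith)
    have h2 : Real.exp (-(5 * Real.log n)) = 1 / (n : ℝ) ^ 5 := by
      rw [Real.exp_neg, mul_comm 5 (Real.log n), Real.exp_mul, Real.exp_log hnpos, one_div]
      norm_num
    rw [h2] at h1
    calc (n : ℝ) * Real.exp (-(h2N n x * lm2N n x)) ≤ n * (1 / (n : ℝ) ^ 5) :=
          mul_le_mul_of_nonneg_left h1 hnpos.le
      _ = 1 / (n : ℝ) ^ 4 := by field_simp
      _ ≤ 1 / (n : ℝ) ^ 3 := by
          apply one_div_le_one_div_of_le (by positivity)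
          exact pow_le_pow_right₀ (by linarith) (by norm_num)

/-- `macro_comps` at `h2`, `W = univ` (after `PP_marg`, `adj_eq_bg`): `C₀ ≤ n ^ δ ≤ h2³ n`,
`exp (- h2³ n / 500) ≤ exp (- n ^ δ / 500) ≤ exp (- 3 log n)` for `n` large. -/
theorem g1_macro (δ : ℝ) (hδ : 0 < δ) : ∃ n₀ : ℕ, ∀ n : ℕ, n₀ ≤ n → ∀ c₀ h x : ℝ,
    XFacts δ c₀ n h x →
    ∀ (B : Type) [Fintype B] [DecidableEq B] (q : B → ℝ) (A : Finset B), IsLaw q →
      qs q A = (1 - h2N n x) / n →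
      PP q {b : Sym2 (Fin n) → B | ¬ h2N n x ^ 3 * n / 100 ≤
        ((bigs (adj A b) univ (kh (h2N n x))).card : ℝ)} ≤ 1 / (n : ℝ) ^ 3 := by
  obtain ⟨C₀, hC₀⟩ := macro_comps
  obtain ⟨n1, hn1⟩ := rpow_ge C₀ δ hδ
  obtain ⟨n2, hn2⟩ := log_pow_le 1500 δ 1 hδ
  refine ⟨max n1 n2, ?_⟩
  intro n hn c₀ h x X B _ _ q A hq ha
  have e1 := hn1 n (le_trans (le_max_left _ _) hn)
  have e2 := hn2 n (le_trans (le_max_right _ _) hn)
  rw [pow_one] at e2
  have hnb := X.bs.n_big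
  have hnpos : (0 : ℝ) < n := by linarith
  have h2pos := X.h2_pos
  have h2le : h2N n x ≤ 1 / 100 := by linarith [X.h2_x, X.x_small]
  have h3 := X.h2N3
  have key := hC₀ (Fin n) (h2N n x) univ h2pos h2le
    (by rw [Fintype.card_fin]; linarith) (by linarith)
    (by
      rw [Finset.card_univ, Fintype.card_fin]
      nlinarith [mul_pos h2pos hnpos])
  rw [Fintype.card_fin, ← ha, ← PP_marg hq A] at key
  refine le_trans (g1_mono hq ?_) (key.trans ?_)
  · intro b hb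
    rw [Set.mem_ofPred_eq] at hb ⊢
    rw [Set.mem_ofPred_eq, ← adj_eq_bg]
    rw [not_le] at hb
    exact hb.le
  · have h4 : Real.exp (-(h2N n x ^ 3 * n / 500)) ≤ Real.exp (-(3 * Real.log n)) :=
      Real.exp_le_exp.mpr (by linarith)
    have h5 : Real.exp (-(3 * Real.log n)) = 1 / (n : ℝ) ^ 3 := by
      rw [Real.exp_neg, mul_comm 3 (Real.log n), Real.exp_mul, Real.exp_log hnpos, one_div]
      norm_num
    rw [h5] at h4
    exact h4

/-- `gg_conn` (IfH) with `a = δ`, `xs = h`, `k = kst δ n h` (after `PP_marg`, `adj_eq_bg`); `HPar`: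
`lo`, `hi` are `R2Par`, `klo` is `Nat.le_ceil`, `khi` is `kst_le'`. `x ≤ 1/1000 ≤ 4 log n`. -/
theorem g1_conn (δ : ℝ) (hδ : 0 < δ) (hδ1 : δ ≤ 1 / 10) : ∃ n₀ : ℕ, ∀ n : ℕ, n₀ ≤ n →
    ∀ c₀ h x : ℝ, R2Par δ n h → h ≤ x → XFacts δ c₀ n h x →
    ∀ (B : Type) [Fintype B] [DecidableEq B] (q : B → ℝ) (A : Finset B), IsLaw q →
      qs q A = (1 + x) / n →
      PP q {b : Sym2 (Fin n) → B | ¬ GC (adj A b) (kst δ n h)} ≤ 1 / (n : ℝ) ^ 4 := by
  obtain ⟨n1, hn1⟩ := gg_conn δ hδ hδ1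
  refine ⟨n1, ?_⟩
  intro n hn c₀ h x hh hx X B _ _ q A hq ha
  have hnb := X.bs.n_big
  have hnpos : (0 : ℝ) < n := by linarith
  have hpar : HPar δ (Fintype.card (Fin n)) h (kst δ n h) := by
    rw [Fintype.card_fin]
    refine ⟨hh.lo, hh.hi, ?_, X.kst_le'⟩
    unfold kst
    exact Nat.le_ceil _
  have hxl : x ≤ 4 * Real.log (Fintype.card (Fin n)) := by
    rw [Fintype.card_fin]
    linarith [X.x_small, X.bs.log_big]
  have key := hn1 (Fin n) (by rw [Fintype.card_fin]; exact hn) h x (kst δ n h) hpar hx hxl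
  rw [Fintype.card_fin, ← ha, ← PP_marg hq A] at key
  refine le_trans (g1_mono hq ?_) key
  intro b hb
  rw [Set.mem_ofPred_eq] at hb ⊢
  rw [Set.mem_ofPred_eq, ← adj_eq_bg]
  unfold GC at hb
  push Not at hb
  exact hb

open Classical in
/-- Deterministic: volume of the hubs. `gg G univ k` contains the union of the disjoint sets of
`bigs G univ k` (`bigs_disj`, `card_disj`, `cmp_symm`), of size at least
`kh h2 * |bigs| ≥ 10⁻⁴ / h2² * h2³ n / 100` (`kh_facts`). -/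
theorem hub_volume {V : Type} [Fintype V] (G : V → V → Prop) (hG : ∀ u v, G u v → G v u)
    (h2 : ℝ) (h0 : 0 < h2) (h1 : h2 ≤ 1 / 1000) (N : ℝ)
    (hN : h2 ^ 3 * N / 100 ≤ ((bigs G univ (kh h2)).card : ℝ)) :
    h2 * N / 10 ^ 6 ≤ ((gg G univ (kh h2)).card : ℝ) := by
  obtain ⟨hk1, hk2, _⟩ := kh_facts h2 h0 h1
  have hsub : (bigs G univ (kh h2)).biUnion id ⊆ gg G univ (kh h2) := by
    intro v hv
    rw [mem_biUnion] at hv
    obtain ⟨P, hP, hvP⟩ := hv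
    rw [mem_bigs] at hP
    obtain ⟨hk, w, rfl⟩ := hP
    unfold gg
    rw [mem_filter]
    refine ⟨mem_univ _, ?_⟩
    rw [cmp_symm hG hvP]
    exact hk
  have hcd := card_disj (bigs G univ (kh h2)) (kh h2) (bigs_disj hG (kh h2))
    (fun P hP => (mem_bigs.1 hP).1)
  have hcard := hcd.trans (card_le_card hsub)
  have hcardR : (kh h2 : ℝ) * ((bigs G univ (kh h2)).card : ℝ) ≤
      ((gg G univ (kh h2)).card : ℝ) := by exact_mod_cast hcard
  have ha : 0 ≤ 1 / 10 ^ 4 / h2 ^ 2 := by positivity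
  calc h2 * N / 10 ^ 6 = 1 / 10 ^ 4 / h2 ^ 2 * (h2 ^ 3 * N / 100) := by
        field_simp
        ring
    _ ≤ 1 / 10 ^ 4 / h2 ^ 2 * ((bigs G univ (kh h2)).card : ℝ) :=
        mul_le_mul_of_nonneg_left hN ha
    _ ≤ (kh h2 : ℝ) * ((bigs G univ (kh h2)).card : ℝ) :=
        mul_le_mul_of_nonneg_right hk2 (by positivity)
    _ ≤ _ := hcardR

end RST.D
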