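import Pool.Agent.Lib.MP_7946c7_pr.D.Ind

/-!
# MP_7946c7_pr, stream D, job R1: a long walk of G(x) meets many vertices of G(-h2)-components
-/

open Finset

namespace RST.D

variable {V : Type} [Fintype V] {B : Type} [Fintype B] [DecidableEq B]

open Classical in
/-- The set explored from `Q` does not depend on the edges inside `Q`. (A path from `Q` to
`w ∉ Q` in `expl R Q W` uses one edge from `Q` to `W` and then edges inside `W`, `W` disjoint
from `Q`.) -/
theorem expl_dependsOn (A : Finset B) (Q W : Finset V) (hQW : Disjoint Q W) :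
    DependsOn (fun b : Sym2 V → B => expl (adj A b) Q W) {e | ∃ w ∈ W, w ∈ e} := by
  intro b b' hbb
  have key : ∀ b b' : Sym2 V → B, (∀ e ∈ {e : Sym2 V | ∃ w ∈ W, w ∈ e}, b e = b' e) →
      expl (adj A b) Q W ⊆ expl (adj A b') Q W := by
    intro b b' hbb
    have hstep : ∀ x y, y ∈ W → adj A b x y → adj A b' x y := by
      intro x y hy h
      refine ⟨h.1, ?_⟩
      rw [← hbb s(x, y) ⟨y, hy, by simp⟩]
      exact h.2
    intro w hw
    unfold expl at hw ⊢
    rw [mem_union] at hw ⊢
    rcases hw with hw | hw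
    · exact Or.inl hw
    · right
      rw [mem_filter] at hw ⊢
      obtain ⟨hwW, q, hq, u, hu, hqu, huw⟩ := hw
      refine ⟨hwW, q, hq, u, hu, hstep _ _ hu hqu, ?_⟩
      exact Relation.ReflTransGen.mono (fun x y h => ⟨hstep _ _ h.2.2 h.1, h.2⟩) _ _ huw
  exact Finset.Subset.antisymm (key b b' hbb) (key b' b fun e he => (hbb e he).symm)

open Classical in
private theorem r1_tail {p : ℝ} (hp0 : 0 ≤ p) (hp1 : p ≤ 1) (t : ℕ) (z y : ℝ) (hz : 0 < z)
    (hz1 : z ≤ 1) (hy0 : 0 < y) (hy1 : y ≤ 1) (ht : t ≤ Fintype.card V)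
    (h : z * (1 - p + p * y) ^ (Fintype.card V - t) ≤ y) (Q : Finset V) :
    PP (bern p) {ξ : Sym2 V → Bool | (expl (bg ξ) Q (univ \ Q)).card ≤ t} ≤
      y ^ Q.card / z ^ t := by
  have h1 := laplace_budget p z y (Fintype.card V - t) t hp0 hp1 hz hy0 hy1 h Q (univ \ Q)
    disjoint_sdiff (by
      have := Finset.card_sdiff_add_card_eq_card (subset_univ Q)
      rw [Finset.card_univ] at this
      omega)
  rw [le_div_iff₀ (pow_pos hz t)]
  refine le_trans ?_ h1
  unfold PP
  rw [mul_comm, ← EE_mul_left]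
  apply EE_mono (isLaw_bern hp0 hp1)
  intro ξ
  simp only [Set.mem_setOf_eq]
  split_ifs with h2
  · rw [mul_one]
    exact pow_le_pow_of_le_one hz.le hz1 h2
  · rw [mul_zero]

private theorem r1_edges_inj {R : ℕ} {γ : Fin (R + 1) → V} (hγ : Function.Injective γ) :
    Function.Injective fun i : Fin R => s(γ i.castSucc, γ i.succ) := by
  intro i j hij
  simp only [Sym2.eq_iff] at hij
  rcases hij with ⟨h1, _⟩ | ⟨h1, h2⟩
  · exact Fin.castSucc_injective R (hγ h1)
  · have e1 := hγ h1
    have e2 := hγ h2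
    have f1 : (i : ℕ) = j + 1 := by
      have := congrArg Fin.val e1
      simpa using this
    have f2 : (i : ℕ) + 1 = j := by
      have := congrArg Fin.val e2
      simpa using this
    omega

open Classical in
/-- Proof. `n = |V|`. Union bound over injective `γ : Fin (R+1) → V` (at most `n ^ (R+1)`): the event
`∀ i : Fin R, b s(γ i, γ (i+1)) ∈ A'` depends on the edges inside `Q = image of γ`, has probability
`q(A') ^ R` (`PP_all`, the edges are distinct), and by `PP_indep` and `expl_dependsOn` it is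
independent of `|expl (adj A b) Q (univ \ Q)| ≤ t`, whose probability is at most `y ^ (R+1) / z ^ t`:
`z ^ t 1{|expl| ≤ t} ≤ z ^ |expl| 1{|expl| ≤ t}` and `laplace_budget` with `N = n - t`,
`W = univ \ Q` (`|W| + |Q| = n`), `|Q| = R + 1`, after `PP_marg`/`marginal` and `adj_eq_bg`. -/
theorem r1_bound {q : B → ℝ} (hq : IsLaw q) (A A' : Finset B) (R t : ℕ) (z y : ℝ) (hz : 0 < z)
    (hz1 : z ≤ 1) (hy0 : 0 < y) (hy1 : y ≤ 1) (ht : t ≤ Fintype.card V)
    (h : z * (1 - qs q A + qs q A * y) ^ (Fintype.card V - t) ≤ y) :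
    PP q {b : Sym2 V → B | ∃ γ : ℕ → V, IsSAW (adj A' b) γ R ∧
      (expl (adj A b) ((range (R + 1)).image γ) (univ \ (range (R + 1)).image γ)).card ≤ t} ≤
      Fintype.card V * (Fintype.card V * qs q A') ^ R * (y ^ (R + 1) / z ^ t) := by
  obtain ⟨Ev, hEv⟩ : ∃ Ev : (Fin (R + 1) → V) → Set (Sym2 V → B), ∀ γ b, b ∈ Ev γ ↔
      (∀ e ∈ (univ : Finset (Fin R)).image (fun i => s(γ i.castSucc, γ i.succ)), b e ∈ A') ∧
        (expl (adj A b) (univ.image γ) (univ \ univ.image γ)).card ≤ t :=
    ⟨fun γ => {b | (∀ e ∈ (univ : Finset (Fin R)).image (fun i => s(γ i.castSucc, γ i.succ)),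
      b e ∈ A') ∧ (expl (adj A b) (univ.image γ) (univ \ univ.image γ)).card ≤ t},
      fun _ _ => Iff.rfl⟩
  have hsub : {b : Sym2 V → B | ∃ γ : ℕ → V, IsSAW (adj A' b) γ R ∧
      (expl (adj A b) ((range (R + 1)).image γ) (univ \ (range (R + 1)).image γ)).card ≤ t} ⊆
      {b | ∃ γ ∈ (univ : Finset (Fin (R + 1) → V)).filter Function.Injective, b ∈ Ev γ} := by
    rintro b ⟨γ, hγ, hexp⟩
    refine ⟨fun i => γ i, ?_, ?_⟩
    · rw [mem_filter]
      refine ⟨mem_univ _, ?_⟩
      intro i j hij
      exact Fin.ext (hγ.2 i (by omega) j (by omega) hij)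
    · rw [hEv]
      have himg : (univ : Finset (Fin (R + 1))).image (fun i : Fin (R + 1) => γ i) =
          (range (R + 1)).image γ := by
        ext x
        simp only [mem_image, mem_univ, true_and, mem_range]
        constructor
        · rintro ⟨i, rfl⟩
          exact ⟨i, i.2, rfl⟩
        · rintro ⟨i, hi, rfl⟩
          exact ⟨⟨i, hi⟩, rfl⟩
      rw [himg]
      refine ⟨?_, hexp⟩
      intro e he
      rw [mem_image] at he
      obtain ⟨i, _, rfl⟩ := he
      exact (hγ.1 i i.2).2
  refine (PP_mono hq hsub).trans ((PP_exists_le hq _ _).trans ?_)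
  have hbound : ∀ γ ∈ (univ : Finset (Fin (R + 1) → V)).filter Function.Injective,
      PP q (Ev γ) ≤ qs q A' ^ R * (y ^ (R + 1) / z ^ t) := by
    intro γ hγ
    rw [mem_filter] at hγ
    have hγi := hγ.2
    have hQc : (univ.image γ).card = R + 1 := by
      rw [card_image_of_injective _ hγi, card_univ, Fintype.card_fin]
    have hE : Ev γ = {b | ∀ e ∈ (univ : Finset (Fin R)).image
        (fun i => s(γ i.castSucc, γ i.succ)), b e ∈ A'} ∩
        {b | (expl (adj A b) (univ.image γ) (univ \ univ.image γ)).card ≤ t} := by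
      ext b
      rw [hEv]
      rfl
    rw [hE, PP_indep hq {e | ∃ w ∈ univ \ univ.image γ, w ∈ e}ᶜ]
    · have h1 : PP q {b : Sym2 V → B | ∀ e ∈ (univ : Finset (Fin R)).image
          (fun i => s(γ i.castSucc, γ i.succ)), b e ∈ A'} = qs q A' ^ R := by
        rw [PP_all hq _ (fun _ => A'), prod_const,
          card_image_of_injective _ (r1_edges_inj hγi), card_univ, Fintype.card_fin]
      have h2 : PP q {b : Sym2 V → B |
          (expl (adj A b) (univ.image γ) (univ \ univ.image γ)).card ≤ t} ≤
          y ^ (R + 1) / z ^ t := by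
        have h3 := PP_marg (ι := Sym2 V) hq A
          {ξ : Sym2 V → Bool | (expl (bg ξ) (univ.image γ) (univ \ univ.image γ)).card ≤ t}
        have h4 : {b : Sym2 V → B | (fun e => decide (b e ∈ A)) ∈ {ξ : Sym2 V → Bool |
            (expl (bg ξ) (univ.image γ) (univ \ univ.image γ)).card ≤ t}} =
            {b : Sym2 V → B |
              (expl (adj A b) (univ.image γ) (univ \ univ.image γ)).card ≤ t} := by
          ext b
          simp only [Set.mem_setOf_eq]
          rw [adj_eq_bg]
        rw [← h4, h3]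
        have h5 := r1_tail (V := V) (qs_nonneg hq A) (qs_le_one hq A) t z y hz hz1 hy0 hy1 ht h
          (univ.image γ)
        rw [hQc] at h5
        exact h5
      rw [h1]
      exact mul_le_mul_of_nonneg_left h2 (pow_nonneg (qs_nonneg hq A') R)
    · intro b b' hbb
      simp only [Set.mem_setOf_eq, eq_iff_iff]
      have key : ∀ e ∈ (univ : Finset (Fin R)).image (fun i => s(γ i.castSucc, γ i.succ)),
          b e = b' e := by
        intro e he
        apply hbb
        rw [mem_image] at he
        obtain ⟨i, _, rfl⟩ := he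
        rintro ⟨w, hw, hwe⟩
        rw [mem_sdiff] at hw
        apply hw.2
        rw [Sym2.mem_iff] at hwe
        rcases hwe with rfl | rfl
        · exact mem_image_of_mem γ (mem_univ _)
        · exact mem_image_of_mem γ (mem_univ _)
      constructor
      · intro h e he
        rw [← key e he]
        exact h e he
      · intro h e he
        rw [key e he]
        exact h e he
    · rw [compl_compl]
      intro b b' hbb
      simp only [Set.mem_setOf_eq, eq_iff_iff]
      have := expl_dependsOn A (univ.image γ) (univ \ univ.image γ) disjoint_sdiff hbb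
      simp only at this
      rw [this]
  refine (Finset.sum_le_sum hbound).trans ?_
  rw [sum_const, nsmul_eq_mul]
  have hcard : (((univ : Finset (Fin (R + 1) → V)).filter Function.Injective).card : ℝ) ≤
      (Fintype.card V : ℝ) ^ (R + 1) := by
    have h1 : ((univ : Finset (Fin (R + 1) → V)).filter Function.Injective).card ≤
        (univ : Finset (Fin (R + 1) → V)).card := card_filter_le _ _
    rw [card_univ, Fintype.card_fun, Fintype.card_fin] at h1
    exact_mod_cast h1
  have hnn : 0 ≤ qs q A' ^ R * (y ^ (R + 1) / z ^ t) :=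
    mul_nonneg (pow_nonneg (qs_nonneg hq A') R) (by positivity)
  calc (((univ : Finset (Fin (R + 1) → V)).filter Function.Injective).card : ℝ) *
        (qs q A' ^ R * (y ^ (R + 1) / z ^ t))
      ≤ (Fintype.card V : ℝ) ^ (R + 1) * (qs q A' ^ R * (y ^ (R + 1) / z ^ t)) :=
        mul_le_mul_of_nonneg_right hcard hnn
    _ = Fintype.card V * (Fintype.card V * qs q A') ^ R * (y ^ (R + 1) / z ^ t) := by
        rw [pow_succ, mul_pow]
        ring

end RST.D
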