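import Pool.Agent.Lib.MP_7946c7_pr.D.Ind
import Pool.Agent.Lib.MP_7946c7_pr.D.Rounds

/-!
# MP_7946c7_pr, stream D, job Spr: sprinkling
-/

open Finset

namespace RST.D

variable {V : Type} [Fintype V] {B : Type} [Fintype B] [DecidableEq B]

/-- `S` depends on the second graph, `T` on the first one. Proof. Union bound over `z`
(`PP_exists_le`); for fixed `z`, `three_rounds_le`: given the first two rounds, the sets `S, T` are
fixed and disjoint, with `|S| |T| ≥ s t`, and for all `u ∈ S`, `w ∈ T` the third round is closed at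
`s(u, w)` (otherwise `adj A₂ b u w`, `u ≠ w` by disjointness). The map `(u, w) ↦ s(u, w)` is
injective on `S × T`, so `PP_none` gives `exp (- p'' |S| |T|) ≤ exp (- p'' s t)`. -/
theorem sprinkle {q : B → ℝ} (hq : IsLaw q) (A₀ A₁ A₂ : Finset B) (h01 : A₀ ⊆ A₁)
    (h12 : A₁ ⊆ A₂) (h1 : qs q A₁ < 1) (S : (V → V → Prop) → V → Finset V)
    (T : (V → V → Prop) → Finset V) (s t : ℝ) (hs : 0 ≤ s) (ht : 0 ≤ t) :
    PP q {b : Sym2 V → B | ∃ z : V, s ≤ ((S (adj A₁ b) z).card : ℝ) ∧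
      t ≤ ((T (adj A₀ b)).card : ℝ) ∧ Disjoint (S (adj A₁ b) z) (T (adj A₀ b)) ∧
      ∀ u ∈ S (adj A₁ b) z, ∀ w ∈ T (adj A₀ b), ¬ adj A₂ b u w} ≤
      Fintype.card V * Real.exp (-((qs q A₂ - qs q A₁) / (1 - qs q A₁) * (s * t))) := by
  classical
  obtain ⟨hp0, hp1, -⟩ := win_mem hq h12 h1
  set p := (qs q A₂ - qs q A₁) / (1 - qs q A₁) with hp
  set Ev : V → Set ((Sym2 V → Bool) × (Sym2 V → Bool) × (Sym2 V → Bool)) := fun z =>
    {x | s ≤ ((S (bg x.2.1) z).card : ℝ) ∧ t ≤ ((T (bg x.1)).card : ℝ) ∧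
      Disjoint (S (bg x.2.1) z) (T (bg x.1)) ∧
      ∀ u ∈ S (bg x.2.1) z, ∀ w ∈ T (bg x.1), ¬ bg x.2.2 u w} with hEv
  have hsub : PP q {b : Sym2 V → B | ∃ z : V, s ≤ ((S (adj A₁ b) z).card : ℝ) ∧
      t ≤ ((T (adj A₀ b)).card : ℝ) ∧ Disjoint (S (adj A₁ b) z) (T (adj A₀ b)) ∧
      ∀ u ∈ S (adj A₁ b) z, ∀ w ∈ T (adj A₀ b), ¬ adj A₂ b u w} ≤
      PP q {b : Sym2 V → B | ∃ z ∈ (univ : Finset V), b ∈ {b : Sym2 V → B |
        ((fun e => decide (b e ∈ A₀)), (fun e => decide (b e ∈ A₁)),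
          fun e => decide (b e ∈ A₂)) ∈ Ev z}} := by
    refine PP_mono hq ?_
    rintro b ⟨z, h1', h2', h3', h4'⟩
    refine ⟨z, Finset.mem_univ z, ?_⟩
    simp only [adj_eq_bg] at h1' h2' h3' h4'
    exact ⟨h1', h2', h3', h4'⟩
  refine hsub.trans ((PP_exists_le hq univ _).trans ?_)
  have hone : ∀ z ∈ (univ : Finset V), PP q {b : Sym2 V → B |
        ((fun e => decide (b e ∈ A₀)), (fun e => decide (b e ∈ A₁)),
          fun e => decide (b e ∈ A₂)) ∈ Ev z} ≤ Real.exp (-(p * (s * t))) := by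
    intro z _
    refine three_rounds_le hq A₀ A₁ A₂ h01 h12 h1 (Ev z) _ ?_
    intro ξ ζ
    rw [← hp]
    set ξ' : Sym2 V → Bool := fun e => ξ e || ζ e with hξ'
    by_cases hc : s ≤ ((S (bg ξ') z).card : ℝ) ∧ t ≤ ((T (bg ξ)).card : ℝ) ∧
      Disjoint (S (bg ξ') z) (T (bg ξ))
    · obtain ⟨c1, c2, c3⟩ := hc
      set E : Finset (Sym2 V) := (S (bg ξ') z ×ˢ T (bg ξ)).image fun x => s(x.1, x.2) with hE
      have hEcard : E.card = (S (bg ξ') z).card * (T (bg ξ)).card := by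
        rw [hE, Finset.card_image_of_injOn, Finset.card_product]
        intro x hx y hy hxy
        simp only [Finset.coe_product, Set.mem_prod, Finset.mem_coe] at hx hy
        rcases Sym2.eq_iff.mp hxy with h | h
        · exact Prod.ext h.1 h.2
        · exfalso
          exact Finset.disjoint_left.mp c3 hx.1 (h.1 ▸ hy.2)
      have h5 : PP (bern p) {η : Sym2 V → Bool | (ξ, ξ', fun e => ξ e || ζ e || η e) ∈ Ev z} ≤
          PP (bern p) {η : Sym2 V → Bool | ∀ e ∈ E, η e = false} := by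
        refine PP_mono (isLaw_bern hp0 hp1) ?_
        intro η hη e he
        obtain ⟨x, hx, rfl⟩ := Finset.mem_image.mp he
        rw [Finset.mem_product] at hx
        have h6 := hη.2.2.2 x.1 hx.1 x.2 hx.2
        have hne : x.1 ≠ x.2 := fun h => Finset.disjoint_left.mp c3 hx.1 (h ▸ hx.2)
        by_contra h7
        have h8 : η s(x.1, x.2) = true := by simpa using h7
        refine h6 ⟨hne, ?_⟩
        simp [h8]
      refine h5.trans ((PP_none hp0 hp1 E).trans ?_)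
      rw [hEcard]
      apply Real.exp_le_exp.mpr
      have h9 : s * t ≤ (((S (bg ξ') z).card * (T (bg ξ)).card : ℕ) : ℝ) := by
        push_cast
        exact mul_le_mul c1 c2 ht (le_trans hs c1)
      have := mul_le_mul_of_nonneg_left h9 hp0
      linarith
    · have h5 : {η : Sym2 V → Bool | (ξ, ξ', fun e => ξ e || ζ e || η e) ∈ Ev z} = ∅ := by
        ext η
        simp only [Set.mem_setOf_eq, Set.mem_empty_iff_false, iff_false]
        intro h6
        exact hc ⟨h6.1, h6.2.1, h6.2.2.1⟩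
      rw [h5]
      have h6 : PP (bern p) (∅ : Set (Sym2 V → Bool)) = 0 := by
        unfold PP
        simp [EE]
      rw [h6]
      exact (Real.exp_pos _).le
  refine (Finset.sum_le_sum hone).trans (le_of_eq ?_)
  rw [Finset.sum_const, Finset.card_univ, nsmul_eq_mul]

end RST.D
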