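import Pool.Agent.Lib.MP_7946c7_pr.D.PredG
import Pool.Agent.Lib.MP_7946c7_pr.D.R1
import Pool.Agent.Lib.MP_7946c7_pr.D.Spr
import Pool.Agent.Lib.MP_7946c7_pr.D.X1

/-!
# MP_7946c7_pr, stream D, job G4: D11, long walks and sprinkling, probability
-/

open Finset

namespace RST.D

/-- `r1_bound` with `R = RN n x`, `t = VN n x`, `z = exp (- 2 x²)`, `y = 1 - 1.9 x`: hypothesis by
`yz_check` (`h2_x`, `V_le`), `n q(A') = 1 + x`, conclusion by `yz_final`. -/
theorem g4_walk (δ c₀ : ℝ) (n : ℕ) (h x : ℝ) (X : XFacts δ c₀ n h x)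
    (B : Type) [Fintype B] [DecidableEq B] (q : B → ℝ) (A A' : Finset B) (hq : IsLaw q)
    (hA : A ⊆ A') (ha : qs q A = (1 - h2N n x) / n) (ha' : qs q A' = (1 + x) / n) :
    PP q {b : Sym2 (Fin n) → B | ¬ GR (adj A b) (adj A' b) (RN n x) (VN n x)} ≤
      1 / (n : ℝ) ^ 3 := by
  classical
  have hcard : Fintype.card (Fin n) = n := Fintype.card_fin n
  have hn1000 := X.bs.n_big
  have hn0 : (0 : ℝ) < n := by linarith
  have hn1 : 1 ≤ n := by
    have : (0 : ℝ) < n := hn0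
    exact_mod_cast this
  have hx0 := X.x_pos
  have hx1 := X.x_small
  have htn : VN n x ≤ n := by
    have : (VN n x : ℝ) ≤ n := X.V_le.trans (by nlinarith)
    exact_mod_cast this
  have hmain := r1_bound (V := Fin n) hq A A' (RN n x) (VN n x) (Real.exp (-(2 * x ^ 2)))
    (1 - 19 / 10 * x) (Real.exp_pos _) (Real.exp_le_one_iff.mpr (by nlinarith [sq_nonneg x]))
    (by linarith) (by linarith) (by rw [hcard]; exact htn)
    (by rw [hcard, ha]; exact yz_check n (VN n x) x (h2N n x) hn1 hx0 hx1 X.h2_pos X.h2_x X.V_le)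
  rw [hcard, ha'] at hmain
  have e1 : (n : ℝ) * ((1 + x) / n) = 1 + x := by field_simp
  rw [e1] at hmain
  refine le_trans ?_ (hmain.trans (yz_final n x hn1 hx0 hx1 (by
    have := X.log_huge
    linarith)))
  refine PP_mono hq ?_
  intro b hb
  simp only [GR, Set.mem_setOf_eq, not_forall, not_lt] at hb
  obtain ⟨γ, hγ, hc⟩ := hb
  exact ⟨γ, hγ, by convert hc⟩

/-- `sprinkle` with `S R z = ball R z r`, `T R = gg R univ (kh h2)`, `s = VN n x`,
`t = h2 n / 10 ^ 6`. If `GS` fails, there is `z` with `VN < |ball|` and for all `u ∈ ball`,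
`w ∈ gg`: `u ≠ w` and `¬ G2 u w`. The window probability is at least
`q(A₂) - q(A₁) = x / (100 n)` (`win_mem`), so the exponent is at least
`(x / (100 n)) (ℓ³ / x²) (h2 n / 10 ^ 6) = 10⁻⁸ ℓ³ h2 / x = 10⁻⁸ ℓ² / C1 ≥ 4 ℓ`, where
`ℓ = log n ≥ 10^21` and `C1 = 2 · 10^11`. So the bound is `n exp (- 4 ℓ) = n ^ (-3)`. -/
theorem g4_spr (δ c₀ : ℝ) (n : ℕ) (h x : ℝ) (X : XFacts δ c₀ n h x) (r : ℕ)
    (B : Type) [Fintype B] [DecidableEq B] (q : B → ℝ) (A₀ A₁ A₂ : Finset B) (hq : IsLaw q)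
    (h01 : A₀ ⊆ A₁) (h12 : A₁ ⊆ A₂) (ha : qs q A₀ = (1 - h2N n x) / n)
    (ha1 : qs q A₁ = (1 + x) / n) (ha2 : qs q A₂ = (1 + 101 / 100 * x) / n) :
    PP q {b : Sym2 (Fin n) → B |
      h2N n x * n / 10 ^ 6 ≤ ((gg (adj A₀ b) univ (kh (h2N n x))).card : ℝ) ∧
      ¬ GS (adj A₀ b) (adj A₁ b) (adj A₂ b) (kh (h2N n x)) r (VN n x)} ≤ 1 / (n : ℝ) ^ 3 := by
  classical
  have hcard : Fintype.card (Fin n) = n := Fintype.card_fin n
  have hn1000 := X.bs.n_big
  have hn0 : (0 : ℝ) < n := by linarith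
  have hx0 := X.x_pos
  have hx1 := X.x_small
  have hh0 := X.h2_pos
  have hL := X.log_huge
  have h1 : qs q A₁ < 1 := by
    rw [ha1, div_lt_one hn0]; linarith
  have hmain := sprinkle (V := Fin n) hq A₀ A₁ A₂ h01 h12 h1 (fun R z => ball R z r)
    (fun R => gg R univ (kh (h2N n x))) (VN n x) (h2N n x * n / 10 ^ 6) (Nat.cast_nonneg _)
    (by positivity)
  rw [hcard] at hmain
  refine le_trans ?_ (hmain.trans ?_)
  · refine PP_mono hq ?_
    rintro b ⟨hb1, hb2⟩
    simp only [GS, not_forall, not_exists, not_and, not_or] at hb2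
    obtain ⟨z, hz, hz2⟩ := hb2
    refine ⟨z, ?_, hb1, ?_, ?_⟩
    · exact_mod_cast hz.le
    · rw [Finset.disjoint_left]
      intro u hu hu'
      exact (hz2 u hu u hu').1 rfl
    · intro u hu w hw
      exact (hz2 u hu w hw).2
  · set L := Real.log n with hLdef
    have hL0 : 0 < L := lt_of_lt_of_le (by norm_num) hL
    obtain ⟨-, -, hwin⟩ := win_mem hq h12 h1
    have hw : x / (100 * n) ≤ (qs q A₂ - qs q A₁) / (1 - qs q A₁) := by
      refine le_trans (le_of_eq ?_) hwin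
      rw [ha1, ha2]
      field_simp
      ring
    have hV : L ^ 3 / x ^ 2 ≤ VN n x := by
      unfold VN
      exact Nat.le_ceil _
    have hexp : 4 * L ≤ (qs q A₂ - qs q A₁) / (1 - qs q A₁) *
        ((VN n x : ℝ) * (h2N n x * n / 10 ^ 6)) := by
      have e1 : x / (100 * n) * (L ^ 3 / x ^ 2 * (h2N n x * n / 10 ^ 6)) ≤
          (qs q A₂ - qs q A₁) / (1 - qs q A₁) * ((VN n x : ℝ) * (h2N n x * n / 10 ^ 6)) := by
        refine mul_le_mul hw (mul_le_mul_of_nonneg_right hV (by positivity)) (by positivity)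
          (le_trans (by positivity) hw)
      refine le_trans ?_ e1
      have e2 : x / (100 * n) * (L ^ 3 / x ^ 2 * (h2N n x * n / 10 ^ 6)) =
          L ^ 2 / (C1 * 10 ^ 8) := by
        have hC : C1 ≠ 0 := by unfold C1; norm_num
        unfold h2N
        rw [← hLdef]
        field_simp
        norm_num
      rw [e2, le_div_iff₀ (by unfold C1; norm_num)]
      unfold C1
      nlinarith
    have e4 : (n : ℝ) = Real.exp L := (Real.exp_log hn0).symm
    have e5 : 1 / (n : ℝ) ^ 3 = Real.exp (-(3 * L)) := by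
      rw [Real.exp_neg, one_div]
      congr 1
      rw [e4, ← Real.exp_nat_mul]
      norm_num
    rw [e5]
    calc (n : ℝ) * Real.exp (-((qs q A₂ - qs q A₁) / (1 - qs q A₁) *
          ((VN n x : ℝ) * (h2N n x * n / 10 ^ 6))))
        ≤ Real.exp L * Real.exp (-(4 * L)) := by
          rw [← e4]
          exact mul_le_mul_of_nonneg_left (Real.exp_le_exp.mpr (by linarith)) hn0.le
      _ = Real.exp (-(3 * L)) := by
          rw [← Real.exp_add]
          congr 1
          ring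

end RST.D
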