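import Pool.Agent.Lib.MP_7946c7_pr.D.Wk

/-!
# MP_7946c7_pr, stream D, job Hub: the hubs are at small distance (deterministic)
-/

open Finset

namespace RST.D

variable {V : Type} [Fintype V]

open Classical in
private noncomputable def Hub_step (G0 G1 : V → V → Prop) (k : ℕ) (X : Finset (Finset V)) :
    Finset (Finset V) :=
  X ∪ (bigs G0 univ k \ X).filter fun Q => ∃ P ∈ X, cadj G1 P Q

private noncomputable def Hub_B (G0 G1 : V → V → Prop) (k : ℕ) (P : Finset V) :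
    ℕ → Finset (Finset V)
  | 0 => {P}
  | m + 1 => Hub_step G0 G1 k (Hub_B G0 G1 k P m)

private lemma Hub_sub (G0 G1 : V → V → Prop) (k : ℕ) (P : Finset V) (hP : P ∈ bigs G0 univ k)
    (m : ℕ) : Hub_B G0 G1 k P m ⊆ bigs G0 univ k := by
  classical
  induction m with
  | zero => simpa [Hub_B] using hP
  | succ m ih =>
    intro Q hQ
    simp only [Hub_B, Hub_step, mem_union, mem_filter, mem_sdiff] at hQ
    rcases hQ with hQ | hQ
    · exact ih hQ
    · exact hQ.1.1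

open Classical in
private lemma Hub_card (G0 G1 : V → V → Prop) (k : ℕ)
    (hexp : ∀ X ⊆ bigs G0 univ k, 2 * X.card ≤ (bigs G0 univ k).card →
      X.card ≤ 2 * ((bigs G0 univ k \ X).filter fun Q => ∃ P ∈ X, cadj G1 P Q).card)
    (P : Finset V) (hP : P ∈ bigs G0 univ k) (m : ℕ) :
    (bigs G0 univ k).card < 2 * (Hub_B G0 G1 k P m).card ∨
      3 ^ m ≤ 2 ^ m * (Hub_B G0 G1 k P m).card := by
  induction m with
  | zero => right; simp [Hub_B]
  | succ m ih =>
    have hsub := Hub_sub G0 G1 k P hP m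
    have hcard : (Hub_B G0 G1 k P (m + 1)).card = (Hub_B G0 G1 k P m).card +
        ((bigs G0 univ k \ Hub_B G0 G1 k P m).filter fun Q =>
          ∃ P' ∈ Hub_B G0 G1 k P m, cadj G1 P' Q).card := by
      rw [Hub_B, Hub_step, card_union_of_disjoint]
      rw [disjoint_left]
      intro Q hQ hQ'
      simp only [mem_filter, mem_sdiff] at hQ'
      exact hQ'.1.2 hQ
    by_cases hc : (bigs G0 univ k).card < 2 * (Hub_B G0 G1 k P m).card
    · left; omega
    · have ih' := ih.resolve_left hc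
      right
      have h1 := hexp _ hsub (by omega)
      rw [hcard]
      set a := (Hub_B G0 G1 k P m).card
      set b := ((bigs G0 univ k \ Hub_B G0 G1 k P m).filter fun Q =>
          ∃ P' ∈ Hub_B G0 G1 k P m, cadj G1 P' Q).card
      calc 3 ^ (m + 1) = 3 * 3 ^ m := by ring
        _ ≤ 3 * (2 ^ m * a) := by gcongr
        _ = 2 ^ m * (3 * a) := by ring
        _ ≤ 2 ^ m * (2 * (a + b)) := Nat.mul_le_mul_left _ (by omega)
        _ = 2 ^ (m + 1) * (a + b) := by ring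

private lemma Hub_bigs_card (G0 : V → V → Prop) (k : ℕ) :
    (bigs G0 univ k).card ≤ Fintype.card V := by
  classical
  unfold bigs
  refine (card_filter_le _ _).trans ?_
  exact card_image_le

private lemma Hub_half (G0 G1 : V → V → Prop) (k : ℕ) [Nonempty V]
    (hexp : open Classical in ∀ X ⊆ bigs G0 univ k, 2 * X.card ≤ (bigs G0 univ k).card →
      X.card ≤ 2 * ((bigs G0 univ k \ X).filter fun Q => ∃ P ∈ X, cadj G1 P Q).card)
    (P : Finset V) (hP : P ∈ bigs G0 univ k) :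
    (bigs G0 univ k).card <
      2 * (Hub_B G0 G1 k P (2 * Nat.clog 2 (Fintype.card V) + 1)).card := by
  classical
  rcases Hub_card G0 G1 k hexp P hP (2 * Nat.clog 2 (Fintype.card V) + 1) with h | h
  · exact h
  · by_contra hc
    set c := Nat.clog 2 (Fintype.card V) with hcdef
    set a := (Hub_B G0 G1 k P (2 * c + 1)).card with ha
    have h1 : Fintype.card V ≤ 2 ^ c := Nat.le_pow_clog (by norm_num) _
    have h2 : 2 * a ≤ 2 ^ c := by
      have := Hub_bigs_card G0 k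
      omega
    have h3 : 2 * 3 ^ (2 * c + 1) ≤ 2 ^ (2 * c + 1) * 2 ^ c := by
      calc 2 * 3 ^ (2 * c + 1) ≤ 2 * (2 ^ (2 * c + 1) * a) := by gcongr
        _ = 2 ^ (2 * c + 1) * (2 * a) := by ring
        _ ≤ 2 ^ (2 * c + 1) * 2 ^ c := by gcongr
    have h4 : 2 ^ (2 * c + 1) * 2 ^ c = 2 * 8 ^ c := by
      rw [show (8 : ℕ) = 2 ^ 3 by norm_num, ← pow_mul]
      rw [← pow_add, ← pow_succ']
      congr 1
      ring
    have h5 : 2 * 3 ^ (2 * c + 1) = 6 * 9 ^ c := by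
      rw [pow_succ, pow_mul]
      norm_num
      ring
    have h6 : 8 ^ c ≤ 9 ^ c := Nat.pow_le_pow_left (by norm_num) _
    have h7 : 0 < 9 ^ c := by positivity
    omega

private lemma Hub_inner (G0 G1 : V → V → Prop) (h0 : ∀ u v, G0 u v → G0 v u)
    (hle : ∀ u v, G0 u v → G1 u v) (k lm : ℕ)
    (hlm : ∀ (γ : ℕ → V) (ℓ : ℕ), IsSAW G0 γ ℓ → ℓ < lm) (Q : Finset V)
    (hQ : Q ∈ bigs G0 univ k) (x y : V) (hx : x ∈ Q) (hy : y ∈ Q) : WkLe G1 lm x y := by
  obtain ⟨-, w, rfl⟩ := mem_bigs.mp hQ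
  rw [← cmp_symm h0 hx] at hy
  exact (cmp_wk hlm hy).mono hle le_rfl

private lemma Hub_walk (G0 G1 : V → V → Prop) (h0 : ∀ u v, G0 u v → G0 v u)
    (hle : ∀ u v, G0 u v → G1 u v) (k lm : ℕ)
    (hlm : ∀ (γ : ℕ → V) (ℓ : ℕ), IsSAW G0 γ ℓ → ℓ < lm) (P : Finset V)
    (hP : P ∈ bigs G0 univ k) (m : ℕ) (Q : Finset V) (hQ : Q ∈ Hub_B G0 G1 k P m) (x y : V)
    (hx : x ∈ P) (hy : y ∈ Q) : WkLe G1 (m * (lm + 1) + lm) x y := by
  classical
  induction m generalizing Q y with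
  | zero =>
    simp only [Hub_B, mem_singleton] at hQ
    subst hQ
    have := Hub_inner G0 G1 h0 hle k lm hlm Q hP x y hx hy
    simpa using this
  | succ m ih =>
    simp only [Hub_B, Hub_step, mem_union, mem_filter, mem_sdiff] at hQ
    rcases hQ with hQ | ⟨⟨hQ, -⟩, P', hP', a, ha, b, hb, hab⟩
    · refine (ih Q hQ y hy).mono (fun _ _ h => h) ?_
      have : m * (lm + 1) ≤ (m + 1) * (lm + 1) := Nat.mul_le_mul_right _ (by omega)
      omega
    · have e1 := ih P' hP' a ha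
      have e2 := WkLe.single hab
      have e3 := Hub_inner G0 G1 h0 hle k lm hlm Q hQ b y hb hy
      refine ((e1.trans e2).trans e3).mono (fun _ _ h => h) ?_
      have : (m + 1) * (lm + 1) = m * (lm + 1) + (lm + 1) := by ring
      omega

open Classical in
/-- Proof. `N = |bigs| ≤ n`. For `P ∈ bigs` let `B 0 = {P}` and
`B (m+1) = B m ∪ (bigs \ B m).filter (∃ P' ∈ B m, cadj G1 P' Q)`. While `2 |B m| ≤ N`:
`3 |B m| ≤ 2 |B (m+1)|` by `hexp`. Hence if `2 |B m| ≤ N` then `3 ^ m ≤ 2 ^ m |B m| `, and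
`(3/2) ^ (2 c) ≥ 2 ^ c ≥ n` for `c = Nat.clog 2 n`; so for `m = 2 c + 1`, `2 |B m| > N` (otherwise
`|B m| ≥ (3/2)^(2c+1) ≥ 3 n / 2 > N`). For two elements `P, Q` of `bigs` the sets `B m` of `P` and
of `Q` intersect. For every `Q' ∈ B m`, `x ∈ P`, `y ∈ Q'` there is a walk of `G1` of length at most
`m (lm + 1) + lm` from `x` to `y`: induction on `m`, using `cmp_wk` inside each component
(a vertex `x ∈ P' = cmp G0 univ v` has `cmp G0 univ x = P'`, `cmp_symm`) and one edge of `G1` for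
`cadj`. Adding the two halves: at most `2 (m (lm + 1) + lm) ≤ (4 c + 4) (lm + 1)`. -/
theorem hub_conn (G0 G1 : V → V → Prop) (h0 : ∀ u v, G0 u v → G0 v u)
    (h1 : ∀ u v, G1 u v → G1 v u) (hle : ∀ u v, G0 u v → G1 u v) (k lm : ℕ) (hk : 1 ≤ k)
    (hlm : ∀ (γ : ℕ → V) (ℓ : ℕ), IsSAW G0 γ ℓ → ℓ < lm)
    (hexp : ∀ X ⊆ bigs G0 univ k, 2 * X.card ≤ (bigs G0 univ k).card →
      X.card ≤ 2 * ((bigs G0 univ k \ X).filter fun Q => ∃ P ∈ X, cadj G1 P Q).card)
    (u v : V) (hu : k ≤ (cmp G0 univ u).card) (hv : k ≤ (cmp G0 univ v).card) :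
    WkLe G1 ((8 * Nat.clog 2 (Fintype.card V) + 8) * (lm + 1)) u v := by
  have : Nonempty V := ⟨u⟩
  have hPu : cmp G0 univ u ∈ bigs G0 univ k := mem_bigs.mpr ⟨hu, u, rfl⟩
  have hPv : cmp G0 univ v ∈ bigs G0 univ k := mem_bigs.mpr ⟨hv, v, rfl⟩
  set c := Nat.clog 2 (Fintype.card V) with hc
  have hBu := Hub_half G0 G1 k hexp _ hPu
  have hBv := Hub_half G0 G1 k hexp _ hPv
  rw [← hc] at hBu hBv
  have hsu := Hub_sub G0 G1 k _ hPu (2 * c + 1)
  have hsv := Hub_sub G0 G1 k _ hPv (2 * c + 1)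
  have hne : (Hub_B G0 G1 k (cmp G0 univ u) (2 * c + 1) ∩
      Hub_B G0 G1 k (cmp G0 univ v) (2 * c + 1)).Nonempty := by
    by_contra hemp
    rw [not_nonempty_iff_eq_empty, ← disjoint_iff_inter_eq_empty] at hemp
    have h1 := card_union_of_disjoint hemp
    have h2 := card_le_card (union_subset hsu hsv)
    omega
  obtain ⟨Q, hQ⟩ := hne
  rw [mem_inter] at hQ
  have hQb := hsu hQ.1
  have hQne : Q.Nonempty := by
    rw [← card_pos]
    have := (mem_bigs.mp hQb).1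
    omega
  obtain ⟨y, hy⟩ := hQne
  have w1 := Hub_walk G0 G1 h0 hle k lm hlm _ hPu _ Q hQ.1 u y (mem_cmp_self _ _) hy
  have w2 := Hub_walk G0 G1 h0 hle k lm hlm _ hPv _ Q hQ.2 v y (mem_cmp_self _ _) hy
  refine (w1.trans (w2.symm h1)).mono (fun _ _ h => h) ?_
  have : (2 * c + 1) * (lm + 1) + lm + ((2 * c + 1) * (lm + 1) + lm) ≤
      (8 * c + 8) * (lm + 1) := by
    have e : (8 * c + 8) * (lm + 1) =
        (2 * c + 1) * (lm + 1) + (lm + 1) + ((2 * c + 1) * (lm + 1) + (lm + 1)) +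
          (4 * c + 4) * (lm + 1) := by ring
    have : 0 ≤ (4 * c + 4) * (lm + 1) := Nat.zero_le _
    omega
  exact this

end RST.D
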