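import Pool.Agent.Lib.MP_7946c7_pr.H.Mono

/-!
# MP_7946c7_pr, stream D, job Ind: independence tools
-/

open Finset

namespace RST.D

variable {ι B : Type} [Fintype ι] [DecidableEq ι] [Fintype B] [DecidableEq B]

theorem isLaw_bern {p : ℝ} (h0 : 0 ≤ p) (h1 : p ≤ 1) : IsLaw (bern p) := by
  refine ⟨?_, ?_⟩
  · intro x
    cases x
    · simp only [bern]; simp; exact h1
    · simp only [bern]; simp; exact h0
  · rw [Fintype.sum_bool]
    simp [bern]

theorem qs_nonneg {q : B → ℝ} (hq : IsLaw q) (A : Finset B) : 0 ≤ qs q A := by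
  exact sum_nonneg fun x _ => hq.nonneg x

theorem qs_mono {q : B → ℝ} (hq : IsLaw q) {A A' : Finset B} (hA : A ⊆ A') :
    qs q A ≤ qs q A' := by
  exact sum_le_sum_of_subset_of_nonneg hA fun x _ _ => hq.nonneg x

theorem qs_le_one {q : B → ℝ} (hq : IsLaw q) (A : Finset B) : qs q A ≤ 1 := by
  rw [← hq.sum_one]
  exact qs_mono hq (subset_univ A)

theorem qs_sdiff {q : B → ℝ} {A A' : Finset B} (hA : A ⊆ A') :
    qs q (A' \ A) = qs q A' - qs q A := by
  have := sum_sdiff (f := q) hA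
  rw [qs, qs, qs]
  linarith

/-- The window probability `(q(A') - q(A)) / (1 - q(A))` is in `[0,1]`. -/
theorem win_mem {q : B → ℝ} (hq : IsLaw q) {A A' : Finset B} (hA : A ⊆ A') (h1 : qs q A < 1) :
    0 ≤ (qs q A' - qs q A) / (1 - qs q A) ∧ (qs q A' - qs q A) / (1 - qs q A) ≤ 1 ∧
      qs q A' - qs q A ≤ (qs q A' - qs q A) / (1 - qs q A) := by
  have h2 := qs_mono hq hA
  have h3 := qs_le_one hq A'
  have h4 := qs_nonneg hq A
  have h5 : 0 < 1 - qs q A := by linarith
  refine ⟨div_nonneg (by linarith) h5.le, ?_, ?_⟩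
  · rw [div_le_one h5]; linarith
  · rw [le_div_iff₀ h5]
    have h6 : 0 ≤ (qs q A' - qs q A) * qs q A := mul_nonneg (by linarith) h4
    linarith

private theorem Ind_EE_def (q : B → ℝ) (F : (ι → B) → ℝ) :
    EE q F = ∑ b : ι → B, (∏ e, q (b e)) * F b := by
  unfold EE
  refine Finset.sum_congr ?_ fun _ _ => rfl
  ext b
  simp

/-- Product formula. Proof: `PP q {...} = ∑ b, ∏ e, q (b e) * (if e ∈ S → b e ∈ A e then 1 else 0)`,
which is `∏ e, ∑ x, q x * (if e ∈ S → x ∈ A e then 1 else 0)` (`Finset.prod_univ_sum` /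
`Fintype.piFinset_univ`), and the factor is `qs q (A e)` for `e ∈ S` and `1` otherwise. -/
theorem PP_all {q : B → ℝ} (hq : IsLaw q) (S : Finset ι) (A : ι → Finset B) :
    PP q {b : ι → B | ∀ e ∈ S, b e ∈ A e} = ∏ e ∈ S, qs q (A e) := by
  classical
  rw [PP, Ind_EE_def]
  have h1 : ∀ b : ι → B, (∏ e, q (b e)) * (if b ∈ {b : ι → B | ∀ e ∈ S, b e ∈ A e} then (1 : ℝ)
      else 0) = ∏ e, q (b e) * (if e ∈ S → b e ∈ A e then (1 : ℝ) else 0) := by
    intro b
    rw [prod_mul_distrib]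
    congr 1
    rw [prod_ite_zero]
    simp
  have h2 : ∏ e : ι, ∑ x : B, q x * (if e ∈ S → x ∈ A e then (1 : ℝ) else 0) =
      ∏ e ∈ S, qs q (A e) := by
    have h3 : ∀ e : ι, ∑ x : B, q x * (if e ∈ S → x ∈ A e then (1 : ℝ) else 0) =
        if e ∈ S then qs q (A e) else 1 := by
      intro e
      by_cases he : e ∈ S
      · rw [if_pos he, qs]
        rw [← Finset.sum_filter_add_sum_filter_not univ (fun x => x ∈ A e)]
        rw [Finset.sum_congr rfl (g := fun x => q x) (fun x hx => by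
          rw [mem_filter] at hx
          rw [if_pos (fun _ => hx.2), mul_one])]
        rw [Finset.sum_eq_zero (s := univ.filter fun x => ¬ x ∈ A e) (fun x hx => by
          rw [mem_filter] at hx
          rw [if_neg (fun h => hx.2 (h he)), mul_zero]), add_zero]
        congr 1
        ext x
        simp
      · rw [if_neg he]
        have h4 : ∑ x : B, q x * (if e ∈ S → x ∈ A e then (1 : ℝ) else 0) = ∑ x : B, q x :=
          Finset.sum_congr rfl fun x _ => by
            rw [if_pos (fun h => absurd h he), mul_one]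
        rw [h4, hq.sum_one]
    rw [Finset.prod_congr rfl (fun e _ => h3 e), prod_ite]
    simp
  rw [← h2, Finset.prod_univ_sum, Fintype.piFinset_univ]
  refine Finset.sum_congr rfl fun b _ => ?_
  rw [← h1 b]
  congr

theorem PP_open {p : ℝ} (h0 : 0 ≤ p) (h1 : p ≤ 1) (S : Finset ι) :
    PP (bern p) {ξ : ι → Bool | ∀ e ∈ S, ξ e = true} = p ^ S.card := by
  have h := PP_all (ι := ι) (isLaw_bern h0 h1) S (fun _ => {true})
  simp only [mem_singleton] at h
  rw [h]
  have h2 : qs (bern p) {true} = p := by simp [qs, bern]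
  rw [h2, prod_const]

/-- Probability `(1 - p) ^ S.card ≤ exp (- p * S.card)`. -/
theorem PP_none {p : ℝ} (h0 : 0 ≤ p) (h1 : p ≤ 1) (S : Finset ι) :
    PP (bern p) {ξ : ι → Bool | ∀ e ∈ S, ξ e = false} ≤ Real.exp (-(p * S.card)) := by
  have h := PP_all (ι := ι) (isLaw_bern h0 h1) S (fun _ => {false})
  simp only [mem_singleton] at h
  rw [h]
  have h2 : qs (bern p) {false} = 1 - p := by simp [qs, bern]
  rw [h2, prod_const]
  have h3 : (1 - p) ^ S.card ≤ (Real.exp (-p)) ^ S.card :=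
    pow_le_pow_left₀ (by linarith) (Real.one_sub_le_exp_neg p) _
  refine h3.trans (le_of_eq ?_)
  rw [← Real.exp_nat_mul]
  congr 1
  ring

/-- Independence of events (from `EE_indep`). -/
theorem PP_indep {q : B → ℝ} (hq : IsLaw q) (s : Set ι) (S T : Set (ι → B))
    (hS : DependsOn (fun b => b ∈ S) s) (hT : DependsOn (fun b => b ∈ T) sᶜ) :
    PP q (S ∩ T) = PP q S * PP q T := by
  classical
  rw [PP, PP, PP]
  rw [← EE_indep hq s]
  · congr 1
    funext b
    by_cases h1 : b ∈ S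
    · by_cases h2 : b ∈ T
      · simp [h1, h2]
      · simp [h1, h2]
    · simp [h1]
  · intro x y hxy
    have h1 : (x ∈ S) = (y ∈ S) := hS hxy
    simp only [h1]
  · intro x y hxy
    have h1 : (x ∈ T) = (y ∈ T) := hT hxy
    simp only [h1]

/-- Marginal of one set of bins, for events (from `marginal`). -/
theorem PP_marg {q : B → ℝ} (hq : IsLaw q) (A : Finset B) (S : Set (ι → Bool)) :
    PP q {b : ι → B | (fun e => decide (b e ∈ A)) ∈ S} = PP (bern (qs q A)) S := by
  classical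
  rw [PP, PP, ← marginal hq A]
  rfl

theorem adj_eq_bg {V : Type} (A : Finset B) (b : Sym2 V → B) :
    adj A b = bg (fun e => decide (b e ∈ A)) := by
  funext u v
  simp [adj, bg]

/-- `|S| ≤ n` for a family of nonempty pairwise disjoint sets, and `k |S| ≤ |⋃ S|`. -/
theorem card_disj {V : Type} [Fintype V] [DecidableEq V] (F : Finset (Finset V)) (k : ℕ)
    (hd : ∀ P ∈ F, ∀ Q ∈ F, P ≠ Q → Disjoint P Q) (hk : ∀ P ∈ F, k ≤ P.card) :
    k * F.card ≤ (F.biUnion id).card := by
  have h1 : (F.biUnion id).card = ∑ P ∈ F, P.card :=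
    card_biUnion (t := id) (fun P hP Q hQ h => hd P hP Q hQ h)
  rw [h1, mul_comm, ← smul_eq_mul]
  exact card_nsmul_le_sum F _ k (fun P hP => hk P hP)

end RST.D
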