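import Pool.Agent.Lib.MP_7946c7_pr.D.NumT
import Pool.Agent.Lib.MP_7946c7_pr.DefsW
import Pool.Agent.Lib.MP_7946c7_pr.G.Defs
import Pool.Agent.Lib.MP_7946c7_pr.Params

/-!
# MP_7946c7_pr, stream D, job NumB: basic numerical facts of regime 2
-/

open Finset

namespace RST.D

structure Base (δ c₀ : ℝ) (n : ℕ) (h : ℝ) : Prop where
  n_big : (1000 : ℝ) ≤ n
  log_big : 100 ≤ Real.log n
  h_pos : 0 < h
  h_small : h ≤ 1 / 1000
  n_inv : (n : ℝ) ^ (-(1 / 3 : ℝ)) ≤ h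
  L_ge : 150 / c₀ * Real.log n ≤ LL c₀ n
  L_le : LL c₀ n + 1 ≤ 200 / c₀ * Real.log n
  L_one : 1 ≤ LL c₀ n
  Lh : LL c₀ n * h ≤ 1 / 2000
  N3 : (n : ℝ) ^ (3 * δ) ≤ h ^ 3 * n

private theorem numB_LL (c₀ : ℝ) (n : ℕ) (hc : 0 < c₀) (hc1 : c₀ ≤ 1)
    (hl : 100 ≤ Real.log n) :
    165 / c₀ * Real.log n ≤ LL c₀ n ∧ LL c₀ n ≤ 693 / 4 / c₀ * Real.log n := by
  obtain ⟨l, hldef⟩ : ∃ l, l = Real.log n := ⟨_, rfl⟩
  obtain ⟨Y, hY⟩ : ∃ Y, Y = 150 / c₀ * l ^ (3 / 4 : ℝ) := ⟨_, rfl⟩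
  obtain ⟨a, ha⟩ : ∃ a, a = Real.log (21 / 20) := ⟨_, rfl⟩
  have hJdef : JN c₀ n = ⌈Real.log Y / a⌉₊ := by
    unfold JN
    rw [hY, ha, hldef]
  have hLLdef : LL c₀ n = 11 / 10 * ((21 / 20) ^ JN c₀ n * l ^ (1 / 4 : ℝ)) := by
    unfold LL
    rw [hldef]
  rw [← hldef] at hl ⊢
  have hl0 : 0 < l := by linarith
  have hl1 : (1 : ℝ) ≤ l ^ (3 / 4 : ℝ) := Real.one_le_rpow (by linarith) (by norm_num)
  have hc2 : 150 ≤ 150 / c₀ := by
    rw [le_div_iff₀ hc]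
    linarith
  have hY1 : 1 ≤ Y := by
    rw [hY]
    nlinarith
  have hY0 : 0 < Y := by linarith
  have ha0 : 0 < a := by
    rw [ha]
    exact Real.log_pos (by norm_num)
  have ht0 : 0 ≤ Real.log Y / a := div_nonneg (Real.log_nonneg hY1) ha0.le
  have hJ1 := Nat.le_ceil (Real.log Y / a)
  have hJ2 := Nat.ceil_lt_add_one ht0
  rw [← hJdef] at hJ1 hJ2
  have hpow : ((21 : ℝ) / 20) ^ JN c₀ n = Real.exp (JN c₀ n * a) := by
    rw [Real.exp_nat_mul, ha, Real.exp_log (by norm_num)]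
  have h1 : Y ≤ ((21 : ℝ) / 20) ^ JN c₀ n := by
    rw [hpow]
    conv_lhs => rw [← Real.exp_log hY0]
    apply Real.exp_le_exp.2
    rw [div_le_iff₀ ha0] at hJ1
    exact hJ1
  have h2 : ((21 : ℝ) / 20) ^ JN c₀ n ≤ Y * (21 / 20) := by
    rw [hpow]
    have e : Y * (21 / 20) = Real.exp (Real.log Y + a) := by
      rw [Real.exp_add, Real.exp_log hY0, ha, Real.exp_log (by norm_num)]
    rw [e]
    apply Real.exp_le_exp.2
    have h3 : ((JN c₀ n : ℕ) : ℝ) * a ≤ (Real.log Y / a + 1) * a :=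
      mul_le_mul_of_nonneg_right hJ2.le ha0.le
    rw [add_mul, one_mul, div_mul_cancel₀ _ ha0.ne'] at h3
    exact h3
  have h4 : l ^ (3 / 4 : ℝ) * l ^ (1 / 4 : ℝ) = l := by
    rw [← Real.rpow_add hl0]
    norm_num
  have h5 : 0 < l ^ (1 / 4 : ℝ) := Real.rpow_pos_of_pos hl0 _
  have hYl : Y * l ^ (1 / 4 : ℝ) = 150 / c₀ * l := by
    rw [hY, mul_assoc, h4]
  rw [hLLdef]
  constructor
  · have := mul_le_mul_of_nonneg_right h1 h5.le
    rw [hYl] at this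
    calc 165 / c₀ * l = 11 / 10 * (150 / c₀ * l) := by ring
      _ ≤ 11 / 10 * ((21 / 20) ^ JN c₀ n * l ^ (1 / 4 : ℝ)) := by linarith
  · have := mul_le_mul_of_nonneg_right h2 h5.le
    calc 11 / 10 * ((21 / 20) ^ JN c₀ n * l ^ (1 / 4 : ℝ))
        ≤ 11 / 10 * (Y * (21 / 20) * l ^ (1 / 4 : ℝ)) := by linarith
      _ = 11 / 10 * (21 / 20) * (Y * l ^ (1 / 4 : ℝ)) := by ring
      _ = 693 / 4 / c₀ * l := by
        rw [hYl]
        ring

/-- Proof. `(21/20) ^ J` is between `150 / c₀ (log n) ^ (3/4)` and `21/20` times this (definition of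
`J = JN c₀ n` as the ceiling of a quotient of logarithms, the quotient is nonnegative because
`150 / c₀ (log n) ^ (3/4) ≥ 1`), so `LL c₀ n` is between `165 / c₀ * log n` and
`173.25 / c₀ * log n`. `h ≤ n ^ (-δ)` and `K log n ≤ n ^ δ` (NumT) give `Lh`, `h_small`;
`h ≥ n ^ (-1/3+δ)` gives `n_inv` and `h ^ 3 n ≥ n ^ (3 δ)`. -/
theorem base (δ c₀ : ℝ) (hδ : 0 < δ) (hδ1 : δ ≤ 1 / 10) (hc : 0 < c₀) (hc1 : c₀ ≤ 1) :
    ∃ n₀ : ℕ, ∀ n : ℕ, n₀ ≤ n → ∀ h : ℝ, R2Par δ n h → Base δ c₀ n h := by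
  obtain ⟨n1, hn1⟩ := log_ge 100
  obtain ⟨n2, hn2⟩ := rpow_ge 1000 δ hδ
  obtain ⟨n3, hn3⟩ := log_pow_small (200 / c₀) δ (1 / 2000) 1 hδ (by norm_num)
  refine ⟨max (max 1000 n1) (max n2 n3), ?_⟩
  intro n hn h hh
  have hn0 : 1000 ≤ n := le_trans (le_trans (le_max_left _ _) (le_max_left _ _)) hn
  have hlog := hn1 n (le_trans (le_trans (le_max_right _ _) (le_max_left _ _)) hn)
  have hnd := hn2 n (le_trans (le_trans (le_max_left _ _) (le_max_right _ _)) hn)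
  have hsm := hn3 n (le_trans (le_trans (le_max_right _ _) (le_max_right _ _)) hn)
  rw [pow_one] at hsm
  have hnR : (1000 : ℝ) ≤ n := by exact_mod_cast hn0
  have hnpos : (0 : ℝ) < n := by linarith
  have hpos : 0 < h := lt_of_lt_of_le (Real.rpow_pos_of_pos hnpos _) hh.lo
  obtain ⟨hL1, hL2⟩ := numB_LL c₀ n hc hc1 hlog
  have hlpos : 0 < Real.log n := by linarith
  have hci : 1 ≤ 1 / c₀ := by
    rw [le_div_iff₀ hc]
    linarith
  have hcl : 100 ≤ 1 / c₀ * Real.log n := by nlinarith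
  have e1 : 165 / c₀ * Real.log n = 165 * (1 / c₀ * Real.log n) := by ring
  have e2 : 693 / 4 / c₀ * Real.log n = 693 / 4 * (1 / c₀ * Real.log n) := by ring
  have e3 : 150 / c₀ * Real.log n = 150 * (1 / c₀ * Real.log n) := by ring
  have e4 : 200 / c₀ * Real.log n = 200 * (1 / c₀ * Real.log n) := by ring
  have hL_le : LL c₀ n + 1 ≤ 200 / c₀ * Real.log n := by
    rw [e4]
    rw [e2] at hL2
    linarith
  refine ⟨hnR, hlog, hpos, ?_, ?_, ?_, hL_le, ?_, ?_, ?_⟩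
  · refine hh.hi.trans ?_
    rw [Real.rpow_neg hnpos.le, one_div]
    exact inv_anti₀ (by norm_num) hnd
  · refine le_trans ?_ hh.lo
    apply Real.rpow_le_rpow_of_exponent_le (by linarith)
    linarith
  · rw [e3]
    rw [e1] at hL1
    linarith
  · rw [e1] at hL1
    linarith
  · have h1 : LL c₀ n * h ≤ 200 / c₀ * Real.log n * (n : ℝ) ^ (-δ) := by
      apply mul_le_mul _ hh.hi hpos.le (by rw [e4]; linarith)
      linarith
    linarith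
  · have h1 : ((n : ℝ) ^ (-(1 / 3 : ℝ) + δ)) ^ 3 ≤ h ^ 3 :=
      pow_le_pow_left₀ (Real.rpow_pos_of_pos hnpos _).le hh.lo 3
    have h2 : ((n : ℝ) ^ (-(1 / 3 : ℝ) + δ)) ^ 3 * n = (n : ℝ) ^ (3 * δ) := by
      rw [← Real.rpow_natCast ((n : ℝ) ^ (-(1 / 3 : ℝ) + δ)) 3, ← Real.rpow_mul hnpos.le]
      conv_lhs => rw [← Real.rpow_one (n : ℝ)]
      rw [← Real.rpow_mul hnpos.le, ← Real.rpow_add hnpos]
      congr 1
      push_cast
      ring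
    rw [← h2]
    exact mul_le_mul_of_nonneg_right h1 hnpos.le

/-- `n p' ≤ 2 (L + 1) h` for the window probability `p'`. -/
theorem win_le (n : ℕ) (hn : 2 ≤ n) (h L a a' : ℝ) (h0 : 0 ≤ h) (h1 : h ≤ 1) (hL : 0 ≤ L)
    (ha : a = (1 - h) / n) (ha' : a' = (1 + L * h) / n) :
    n * ((a' - a) / (1 - a)) ≤ 2 * (L + 1) * h := by
  have hnR : (2 : ℝ) ≤ n := by exact_mod_cast hn
  have hnpos : (0 : ℝ) < n := by linarith
  have e1 : a' - a = (L + 1) * h / n := by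
    rw [ha, ha']
    field_simp
    ring
  have e2 : 1 - a = (n - 1 + h) / n := by
    rw [ha]
    field_simp
    ring
  have hpos : 0 < (n : ℝ) - 1 + h := by linarith
  have e3 : n * ((a' - a) / (1 - a)) = (L + 1) * h * (n / (n - 1 + h)) := by
    rw [e1, e2]
    field_simp
  rw [e3]
  have h1n : n / (n - 1 + h) ≤ (2 : ℝ) := by
    rw [div_le_iff₀ hpos]
    linarith
  have h2n : 0 ≤ (L + 1) * h := by positivity
  calc (L + 1) * h * (n / (n - 1 + h)) ≤ (L + 1) * h * 2 := mul_le_mul_of_nonneg_left h1n h2n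
    _ = 2 * (L + 1) * h := by ring

structure RFacts (θ c₀ : ℝ) (n : ℕ) (h : ℝ) : Prop where
  r_two : 2 ≤ rN θ n h
  r_le : (rN θ n h : ℝ) * h ≤ (n : ℝ) ^ (-θ)
  r_half : 1 ≤ rN θ n h / 2
  r_half_le : ((rN θ n h / 2 : ℕ) : ℝ) * h ≤ (n : ℝ) ^ (-θ) / 2
  arm : armB n (LL c₀ n * h) (rN θ n h / 2) ≤ 30 * (n : ℝ) ^ θ * h

/-- Proof. `n ^ (-θ) / h ≥ n ^ (δ - θ) ≥ n ^ (9 δ / 10)` is big, so the floor `rN` is at least
`2` and `rN / 2` (natural number division) is at least `n ^ (-θ) / (2 h) - 1 ≥ n ^ (-θ) / (2.5 h)`,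
so `8 / (rN / 2) ≤ 20 n ^ θ h`. `armB n x r = 8 / r + 4 (x + 4 / n)`, `x = LL h`:
`4 LL h ≤ 800 / c₀ log n h ≤ 5 n ^ θ h` for large `n`, `16 / n ≤ h` since
`h ≥ n ^ (-1/3)`. -/
theorem rfacts (δ θ c₀ : ℝ) (hδ : 0 < δ) (hδ1 : δ ≤ 1 / 10) (hθ : 0 < θ) (hθ1 : θ ≤ δ / 10)
    (hc : 0 < c₀) (hc1 : c₀ ≤ 1) :
    ∃ n₀ : ℕ, ∀ n : ℕ, n₀ ≤ n → ∀ h : ℝ, R2Par δ n h → RFacts θ c₀ n h := by
  obtain ⟨n1, hn1⟩ := base δ c₀ hδ hδ1 hc hc1
  obtain ⟨n2, hn2⟩ := rpow_ge 100 (9 / 10 * δ) (by positivity)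
  obtain ⟨n3, hn3⟩ := log_pow_le (160 / c₀) θ 1 hθ
  refine ⟨max n1 (max n2 n3), ?_⟩
  intro n hn h hh
  have B := hn1 n (le_trans (le_max_left _ _) hn) h hh
  have h100 := hn2 n (le_trans (le_trans (le_max_left _ _) (le_max_right _ _)) hn)
  have hlt := hn3 n (le_trans (le_trans (le_max_right _ _) (le_max_right _ _)) hn)
  rw [pow_one] at hlt
  have hnR := B.n_big
  have hnpos : (0 : ℝ) < n := by linarith
  have hpos := B.h_pos
  obtain ⟨v, hv⟩ : ∃ v, v = (n : ℝ) ^ (-θ) / h := ⟨_, rfl⟩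
  have hnt : 0 < (n : ℝ) ^ (-θ) := Real.rpow_pos_of_pos hnpos _
  have hv100 : 100 ≤ v := by
    rw [hv, le_div_iff₀ hpos]
    have h1 : 100 * h ≤ (n : ℝ) ^ (9 / 10 * δ) * (n : ℝ) ^ (-δ) :=
      mul_le_mul h100 hh.hi hpos.le (by positivity)
    rw [← Real.rpow_add hnpos] at h1
    refine h1.trans ?_
    apply Real.rpow_le_rpow_of_exponent_le (by linarith)
    linarith
  have hrdef : rN θ n h = ⌊v⌋₊ := by
    unfold rN
    rw [hv]
  obtain ⟨r, hr⟩ : ∃ r, r = rN θ n h := ⟨_, rfl⟩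
  have hr1 : (r : ℝ) ≤ v := by
    rw [hr, hrdef]
    exact Nat.floor_le (by linarith)
  have hr2 : v < r + 1 := by
    rw [hr, hrdef]
    exact Nat.lt_floor_add_one v
  have hr99 : 99 < (r : ℝ) := by linarith
  have hr99' : 99 < r := by exact_mod_cast hr99
  have hvh : v * h = (n : ℝ) ^ (-θ) := by
    rw [hv, div_mul_cancel₀ _ hpos.ne']
  have hhalf1 : ((r / 2 : ℕ) : ℝ) ≤ r / 2 := by
    have := Nat.cast_div_le (m := r) (n := 2) (α := ℝ)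
    simpa using this
  have hhalf2 : (r : ℝ) / 2 - 1 / 2 ≤ ((r / 2 : ℕ) : ℝ) := by
    have h1 : r ≤ 2 * (r / 2) + 1 := by omega
    have h2 : (r : ℝ) ≤ 2 * ((r / 2 : ℕ) : ℝ) + 1 := by exact_mod_cast h1
    linarith
  refine ⟨?_, ?_, ?_, ?_, ?_⟩
  · rw [← hr]
    omega
  · rw [← hr, ← hvh]
    exact mul_le_mul_of_nonneg_right hr1 hpos.le
  · rw [← hr]
    omega
  · rw [← hr]
    calc ((r / 2 : ℕ) : ℝ) * h ≤ r / 2 * h := mul_le_mul_of_nonneg_right hhalf1 hpos.le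
      _ ≤ v / 2 * h := by
        apply mul_le_mul_of_nonneg_right _ hpos.le
        linarith
      _ = (n : ℝ) ^ (-θ) / 2 := by
        rw [← hvh]
        ring
  · rw [← hr]
    have hnt1 : 1 ≤ (n : ℝ) ^ θ := Real.one_le_rpow (by linarith) hθ.le
    have hnn : (n : ℝ) ^ θ * (n : ℝ) ^ (-θ) = 1 := by
      rw [← Real.rpow_add hnpos]
      simp
    have hv1 : (n : ℝ) ^ θ * h * v = 1 := by
      rw [mul_assoc, mul_comm h v, hvh, hnn]
    have hr'pos : 0 < ((r / 2 : ℕ) : ℝ) := by linarith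
    have ha : 8 / ((r / 2 : ℕ) : ℝ) ≤ 20 * ((n : ℝ) ^ θ * h) := by
      rw [div_le_iff₀ hr'pos]
      have h1 : 2 / 5 * v ≤ ((r / 2 : ℕ) : ℝ) := by linarith
      have h2 : 0 < (n : ℝ) ^ θ * h := by positivity
      have h3 := mul_le_mul_of_nonneg_left h1 h2.le
      nlinarith
    have hb : 4 * (LL c₀ n * h) ≤ 5 * ((n : ℝ) ^ θ * h) := by
      have h1 : LL c₀ n ≤ 200 / c₀ * Real.log n := by linarith [B.L_le]
      have h2 : 200 / c₀ * Real.log n = 5 / 4 * (160 / c₀ * Real.log n) := by ring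
      have h3 : 4 * LL c₀ n ≤ 5 * (n : ℝ) ^ θ := by
        rw [h2] at h1
        linarith
      nlinarith
    have hcc : 16 / (n : ℝ) ≤ (n : ℝ) ^ θ * h := by
      have h1 : 16 / (n : ℝ) ≤ h := by
        by_contra hcon
        rw [not_le, lt_div_iff₀ hnpos] at hcon
        have h2 : h ^ 3 * n < 1 := by
          have h4 : h < 16 / 1000 := by
            rw [lt_div_iff₀ (by norm_num)]
            nlinarith
          have h5 : h ^ 2 < 1 / 16 := by nlinarith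
          have : h ^ 3 * n = h ^ 2 * (h * n) := by ring
          rw [this]
          nlinarith [mul_pos hpos hnpos, sq_nonneg h]
        have h6 : 1 ≤ (n : ℝ) ^ (3 * δ) := Real.one_le_rpow (by linarith) (by linarith)
        linarith [B.N3]
      calc 16 / (n : ℝ) ≤ h := h1
        _ = 1 * h := (one_mul h).symm
        _ ≤ (n : ℝ) ^ θ * h := mul_le_mul_of_nonneg_right hnt1 hpos.le
    unfold armB
    have e : 8 / ((r / 2 : ℕ) : ℝ) + 4 * (LL c₀ n * h + 4 / n) =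
        8 / ((r / 2 : ℕ) : ℝ) + 4 * (LL c₀ n * h) + 16 / n := by ring
    rw [e]
    have : 0 < (n : ℝ) ^ θ * h := by positivity
    linarith

/-- The size threshold: `10⁻⁴ / h² ≤ kh h ≤ 2 · 10⁻⁴ / h²`, for `h ≤ 1/1000`. -/
theorem kh_facts (h : ℝ) (h0 : 0 < h) (h1 : h ≤ 1 / 1000) :
    1 ≤ kh h ∧ 1 / 10 ^ 4 / h ^ 2 ≤ kh h ∧ (kh h : ℝ) ≤ 2 / 10 ^ 4 / h ^ 2 := by
  have hh : 0 < h ^ 2 := by positivity
  have hh1 : h ^ 2 ≤ 1 / 10 ^ 6 := by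
    have : h ^ 2 ≤ (1 / 1000) ^ 2 := pow_le_pow_left₀ h0.le h1 2
    refine this.trans (by norm_num)
  have hv : 100 ≤ 1 / 10 ^ 4 / h ^ 2 := by
    rw [le_div_iff₀ hh]
    calc 100 * h ^ 2 ≤ 100 * (1 / 10 ^ 6) := by linarith
      _ = 1 / 10 ^ 4 := by norm_num
  have h2 : 1 / 10 ^ 4 / h ^ 2 ≤ (kh h : ℝ) := by
    unfold kh
    exact Nat.le_ceil _
  have h3 : (kh h : ℝ) < 1 / 10 ^ 4 / h ^ 2 + 1 := by
    unfold kh
    exact Nat.ceil_lt_add_one (by linarith)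
  refine ⟨?_, h2, ?_⟩
  · have : (1 : ℝ) ≤ kh h := by linarith
    exact_mod_cast this
  · have : 2 / 10 ^ 4 / h ^ 2 = 1 / 10 ^ 4 / h ^ 2 + 1 / 10 ^ 4 / h ^ 2 := by ring
    rw [this]
    linarith

end RST.D
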