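import Pool.Agent.Lib.MP_7946c7_pr.D.F1
import Pool.Agent.Lib.MP_7946c7_pr.D.F10
import Pool.Agent.Lib.MP_7946c7_pr.D.NumB
import Pool.Agent.Lib.MP_7946c7_pr.D.Pred

/-!
# MP_7946c7_pr, stream D, job P1: D1 and D10, probability
-/

open Finset

namespace RST.D

/-- `d1_bound` with `m = lmN n h = ⌈3 log n / h⌉`: `n exp (- h m) ≤ n ^ (-2)`. (`¬ GD1` gives a walk
of length at least `lmN`.) -/
theorem d1_prob (δ ε : ℝ) (hδ : 0 < δ) (hδ1 : δ ≤ 1 / 10) (hε : 0 < ε) :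
    ∃ n₀ : ℕ, ∀ n : ℕ, n₀ ≤ n → ∀ h : ℝ, R2Par δ n h →
    ∀ (B : Type) [Fintype B] [DecidableEq B] (q : B → ℝ) (A : Finset B), IsLaw q →
      qs q A = (1 - h) / n →
      PP q {b : Sym2 (Fin n) → B | ¬ GD1 (adj A b) (lmN n h)} ≤ ε := by
  obtain ⟨n₁, hn₁⟩ := base δ 1 hδ hδ1 one_pos le_rfl
  obtain ⟨n₂, hn₂⟩ := exists_nat_ge (1 / ε)
  refine ⟨max n₁ n₂, ?_⟩
  intro n hn h hR B _ _ q A hq hA
  have hb := hn₁ n (le_of_max_le_left hn) h hR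
  have hn1 : (1000 : ℝ) ≤ n := hb.n_big
  have hn0 : (0 : ℝ) < n := by linarith
  have hε2 : 1 / ε ≤ (n : ℝ) := hn₂.trans (by exact_mod_cast le_of_max_le_right hn)
  have hh0 := hb.h_pos
  have hh1 := hb.h_small
  have hp : (Fintype.card (Fin n) : ℝ) * qs q A ≤ 1 - h := by
    rw [Fintype.card_fin, hA, mul_div_cancel₀ _ hn0.ne']
  have h1 := d1_bound (V := Fin n) hq A h (by linarith) hp (lmN n h)
  have h2 : {b : Sym2 (Fin n) → B | ¬ GD1 (adj A b) (lmN n h)} ⊆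
      {b : Sym2 (Fin n) → B | ∃ (γ : ℕ → Fin n) (ℓ : ℕ), lmN n h ≤ ℓ ∧ IsSAW (adj A b) γ ℓ} := by
    intro b hb'
    have hb2 : ¬ GD1 (adj A b) (lmN n h) := hb'
    unfold GD1 at hb2
    push Not at hb2
    obtain ⟨γ, ℓ, h3, h4⟩ := hb2
    exact ⟨γ, ℓ, h4, h3⟩
  refine (PP_mono hq h2).trans (h1.trans ?_)
  rw [Fintype.card_fin]
  have h3 : 3 * Real.log n ≤ h * (lmN n h : ℝ) := by
    have h4 : 3 * Real.log n / h ≤ (lmN n h : ℝ) := Nat.le_ceil _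
    rw [div_le_iff₀ hh0] at h4
    linarith
  have h5 : Real.exp (-(h * (lmN n h : ℝ))) ≤ ((n : ℝ) ^ 3)⁻¹ := by
    have h6 : Real.exp (3 * Real.log n) = (n : ℝ) ^ 3 := by
      have h7 := Real.exp_nat_mul (Real.log n) 3
      rw [Real.exp_log hn0] at h7
      exact_mod_cast h7
    rw [← h6, ← Real.exp_neg]
    exact Real.exp_le_exp.2 (by linarith)
  calc (n : ℝ) * Real.exp (-(h * (lmN n h : ℝ))) ≤ n * ((n : ℝ) ^ 3)⁻¹ :=
        mul_le_mul_of_nonneg_left h5 hn0.le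
    _ = 1 / (n : ℝ) * (1 / n) := by
        field_simp
    _ ≤ 1 / (n : ℝ) * 1 := by
        apply mul_le_mul_of_nonneg_left _ (by positivity)
        rw [div_le_one hn0]
        linarith
    _ = 1 / (n : ℝ) := mul_one _
    _ ≤ ε := by
        rw [div_le_iff₀ hn0]
        rw [div_le_iff₀ hε] at hε2
        linarith

/-- `d10_bound` with `k = kh h ≥ 10⁻⁴ / h²`, `r = rN / 2`, `r h ≤ n ^ (-θ) / 2` (`rfacts`):
`k / (32 r²) ≥ 10⁻⁴ n ^ (2θ) / 8`, and `n * 2 * exp (- 10⁻⁵ n ^ (2θ))` is small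
(`exp_rpow_small`, or `10⁻⁵ n^(2θ) ≥ n^θ`). -/
theorem d10_prob (δ θ ε : ℝ) (hδ : 0 < δ) (hδ1 : δ ≤ 1 / 10) (hθ : 0 < θ) (hθ1 : θ ≤ δ / 10)
    (hε : 0 < ε) :
    ∃ n₀ : ℕ, ∀ n : ℕ, n₀ ≤ n → ∀ h : ℝ, R2Par δ n h →
    ∀ (B : Type) [Fintype B] [DecidableEq B] (q : B → ℝ) (A : Finset B), IsLaw q →
      qs q A = (1 - h) / n →
      PP q {b : Sym2 (Fin n) → B | ¬ GD10 (adj A b) (kh h) (rN θ n h / 2)} ≤ ε := by
  obtain ⟨n₁, hn₁⟩ := base δ 1 hδ hδ1 one_pos le_rfl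
  obtain ⟨n₂, hn₂⟩ := rfacts δ θ 1 hδ hδ1 hθ hθ1 one_pos le_rfl
  obtain ⟨n₃, hn₃⟩ := rpow_ge (8 * 10 ^ 4) θ hθ
  obtain ⟨n₄, hn₄⟩ := exp_rpow_small 2 θ 1 ε hθ hε
  refine ⟨max (max n₁ n₂) (max n₃ n₄), ?_⟩
  intro n hn h hR B _ _ q A hq hA
  have hb := hn₁ n ((le_max_left _ _).trans ((le_max_left _ _).trans hn)) h hR
  have hr := hn₂ n ((le_max_right _ _).trans ((le_max_left _ _).trans hn)) h hR
  have h3 := hn₃ n ((le_max_left _ _).trans ((le_max_right _ _).trans hn))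
  have h4 := hn₄ n ((le_max_right _ _).trans ((le_max_right _ _).trans hn))
  have hn1 : (1000 : ℝ) ≤ n := hb.n_big
  have hn0 : (0 : ℝ) < n := by linarith
  have hh0 := hb.h_pos
  have hh1 := hb.h_small
  have hp : qs q A * (Fintype.card (Fin n) : ℝ) ≤ 1 := by
    rw [Fintype.card_fin, hA, div_mul_cancel₀ _ hn0.ne']
    linarith
  have h1 := d10_bound (V := Fin n) hq A hp (rN θ n h / 2) (kh h) hr.r_half
  have h2 : {b : Sym2 (Fin n) → B | ¬ GD10 (adj A b) (kh h) (rN θ n h / 2)} ⊆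
      {b : Sym2 (Fin n) → B | ∃ v, kh h ≤ (cmp (adj A b) univ v).card ∧
        ¬ Arm (adj A b) univ v (rN θ n h / 2)} := by
    intro b hb'
    have hb2 : ¬ GD10 (adj A b) (kh h) (rN θ n h / 2) := hb'
    unfold GD10 at hb2
    push Not at hb2
    exact hb2
  refine (PP_mono hq h2).trans (h1.trans ?_)
  rw [Fintype.card_fin]
  set r : ℝ := ((rN θ n h / 2 : ℕ) : ℝ) with hrdef
  have hr1 : 1 ≤ r := by
    rw [hrdef]
    exact_mod_cast hr.r_half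
  have hr2 : r * h ≤ (n : ℝ) ^ (-θ) / 2 := hr.r_half_le
  have hx0 : 0 < (n : ℝ) ^ θ := Real.rpow_pos_of_pos hn0 θ
  have hxi : (n : ℝ) ^ (-θ) = ((n : ℝ) ^ θ)⁻¹ := Real.rpow_neg hn0.le θ
  set x : ℝ := (n : ℝ) ^ θ with hxdef
  have hrh : 2 * (r * h) * x ≤ 1 := by
    rw [hxi] at hr2
    have h5 : r * h * x ≤ x⁻¹ / 2 * x := mul_le_mul_of_nonneg_right hr2 hx0.le
    have h6 : x⁻¹ / 2 * x = 1 / 2 := by
      field_simp
    linarith
  have hk := (kh_facts h hh0 hh1).2.1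
  have hkey : x ≤ (kh h : ℝ) / (32 * r ^ 2) := by
    rw [le_div_iff₀ (by positivity)]
    refine le_trans ?_ hk
    rw [le_div_iff₀ (by positivity)]
    have h7 : (2 * (r * h) * x) ^ 2 ≤ 1 := by
      apply pow_le_one₀ (by positivity) hrh
    have h8 : x * (32 * r ^ 2) * h ^ 2 * x = 8 * (2 * (r * h) * x) ^ 2 := by ring
    have h9 : x * (32 * r ^ 2) * h ^ 2 * x ≤ 8 := by
      rw [h8]
      linarith
    have h10 : 0 ≤ x * (32 * r ^ 2) * h ^ 2 := by positivity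
    have h11 : x * (32 * r ^ 2) * h ^ 2 * (8 * 10 ^ 4) ≤ 8 :=
      (mul_le_mul_of_nonneg_left h3 h10).trans h9
    linarith
  have h12 : Real.exp (-((kh h : ℝ) / (32 * r ^ 2))) ≤ Real.exp (-x) :=
    Real.exp_le_exp.2 (by linarith)
  rw [Real.rpow_one] at h4
  calc (n : ℝ) * (2 * Real.exp (-((kh h : ℝ) / (32 * r ^ 2)))) ≤ n * (2 * Real.exp (-x)) := by
        apply mul_le_mul_of_nonneg_left _ hn0.le
        linarith
    _ = 2 * (n * Real.exp (-x)) := by ring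
    _ ≤ ε := h4

end RST.D
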