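import Pool.Agent.Lib.MP_7946c7_pr.D.NumB
import Pool.Agent.Lib.MP_7946c7_pr.D.Pred
import Pool.Agent.Lib.MP_7946c7_pr.D.Saw

/-!
# MP_7946c7_pr, stream D, job P2: D2, probability
-/

open Finset

namespace RST.D

private theorem p2_mono {ι B : Type*} [Fintype ι] [Fintype B] {q : B → ℝ} (hq : IsLaw q)
    {S T : Set (ι → B)} (h : S ⊆ T) : PP q S ≤ PP q T := by
  unfold PP EE
  apply Finset.sum_le_sum
  intro b _
  apply mul_le_mul_of_nonneg_left _ (Finset.prod_nonneg fun e _ => hq.nonneg _)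
  beta_reduce
  by_cases hS : b ∈ S
  · rw [if_pos hS, if_pos (h hS)]
  · rw [if_neg hS]
    split_ifs
    · exact zero_le_one
    · exact le_rfl

/-- The analytic estimate. -/
private theorem p2_num (c₀ h L : ℝ) (n Cr : ℕ) (hc : 0 < c₀)
    (hl : 3 + 400 / c₀ ≤ Real.log n) (hn : (1000 : ℝ) ≤ n)
    (hpos : 0 < h) (hnin : (n : ℝ) ^ (-(1 / 3 : ℝ)) ≤ h) (hL0 : 0 ≤ L)
    (hL : L ≤ 200 / c₀ * Real.log n) (hlog : Real.log n ^ Cr ≤ (n : ℝ) ^ (1 / 3 : ℝ))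
    (w : ℝ) (hw : w = 2 / c₀ * Real.log n * h) :
    ((⌊Real.log n ^ Cr / h⌋₊ : ℝ) + 1) * (n * (1 + 2 * L * h) ^ ⌊Real.log n ^ Cr / h⌋₊ *
      ((⌊Real.log n ^ Cr / h⌋₊ * w) ^ (⌊Real.log n ^ (Cr + 4)⌋₊ + 1) /
        ((⌊Real.log n ^ (Cr + 4)⌋₊ + 1).factorial : ℝ))) ≤ 1 / n := by
  obtain ⟨l, hldef⟩ : ∃ l, l = Real.log n := ⟨_, rfl⟩
  rw [← hldef] at hl hL hlog hw ⊢
  have hnpos : (0 : ℝ) < n := by linarith
  have hc4 : 0 < 400 / c₀ := by positivity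
  have hl3 : 3 < l := by linarith
  have hl0 : 0 < l := by linarith
  have hl1 : 1 ≤ l := by linarith
  obtain ⟨R, hR⟩ : ∃ R, R = ⌊l ^ Cr / h⌋₊ := ⟨_, rfl⟩
  obtain ⟨k, hk⟩ : ∃ k, k = ⌊l ^ (Cr + 4)⌋₊ + 1 := ⟨_, rfl⟩
  rw [← hR, ← hk]
  have hRle : (R : ℝ) ≤ l ^ Cr / h := by
    rw [hR]
    exact Nat.floor_le (by positivity)
  have hRh : (R : ℝ) * h ≤ l ^ Cr := by
    rwa [le_div_iff₀ hpos] at hRle
  have hkge : l ^ (Cr + 4) ≤ k := by
    rw [hk]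
    push_cast
    exact (Nat.lt_floor_add_one _).le
  have hk1 : 1 ≤ k := by omega
  have hle : l ≤ l ^ (Cr + 1) := by
    calc l = l ^ 1 := (pow_one l).symm
      _ ≤ l ^ (Cr + 1) := pow_le_pow_right₀ hl1 (by omega)
  have hl3' : l ≤ l ^ 3 := by
    calc l = l ^ 1 := (pow_one l).symm
      _ ≤ l ^ 3 := pow_le_pow_right₀ hl1 (by omega)
  have hP : 0 < l ^ (Cr + 1) := by positivity
  have hbig : (3 + 400 / c₀) * l ^ (Cr + 1) ≤ l ^ (Cr + 4) := by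
    have e : l ^ (Cr + 4) = l ^ 3 * l ^ (Cr + 1) := by ring
    rw [e]
    exact mul_le_mul_of_nonneg_right (hl.trans hl3') hP.le
  -- the number of edges
  have hRn : (R : ℝ) + 1 ≤ n := by
    obtain ⟨t, ht⟩ : ∃ t, t = (n : ℝ) ^ (1 / 3 : ℝ) := ⟨_, rfl⟩
    have ht0 : 0 < t := by
      rw [ht]
      exact Real.rpow_pos_of_pos hnpos _
    have ht3 : t ^ 3 = n := by
      rw [ht, ← Real.rpow_natCast, ← Real.rpow_mul hnpos.le]
      norm_num
    have ht10 : 10 ≤ t := by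
      by_contra hcon
      rw [not_le] at hcon
      have h1 : t ^ 3 < 10 ^ 3 := pow_lt_pow_left₀ hcon ht0.le (by norm_num)
      rw [ht3] at h1
      linarith
    have hinv : t⁻¹ ≤ h := by
      refine le_trans (le_of_eq ?_) hnin
      rw [Real.rpow_neg hnpos.le, ← ht]
    rw [← ht] at hlog
    have h1 : l ^ Cr / h ≤ t * t := by
      rw [div_le_iff₀ hpos]
      have h2 : 1 ≤ t * h := by
        have := mul_le_mul_of_nonneg_left hinv ht0.le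
        rwa [mul_inv_cancel₀ ht0.ne'] at this
      calc l ^ Cr ≤ t := hlog
        _ = t * 1 := (mul_one t).symm
        _ ≤ t * (t * h) := mul_le_mul_of_nonneg_left h2 ht0.le
        _ = t * t * h := by ring
    have h3 : t * t + 1 ≤ n := by
      rw [← ht3]
      nlinarith [mul_pos ht0 ht0]
    linarith
  -- the power
  have hLh : 0 ≤ 2 * L * h := by positivity
  have hXR : (1 + 2 * L * h) ^ R ≤ Real.exp (400 / c₀ * l ^ (Cr + 1)) := by
    have h1 : 1 + 2 * L * h ≤ Real.exp (2 * L * h) := by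
      linarith [Real.add_one_le_exp (2 * L * h)]
    calc (1 + 2 * L * h) ^ R ≤ Real.exp (2 * L * h) ^ R :=
          pow_le_pow_left₀ (by linarith) h1 R
      _ = Real.exp (R * (2 * L * h)) := by rw [← Real.exp_nat_mul]
      _ ≤ Real.exp (400 / c₀ * l ^ (Cr + 1)) := by
        apply Real.exp_le_exp.mpr
        have h2 : (R : ℝ) * (2 * L * h) = 2 * L * (R * h) := by ring
        rw [h2]
        calc 2 * L * (R * h) ≤ 2 * L * l ^ Cr :=
              mul_le_mul_of_nonneg_left hRh (by positivity)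
          _ ≤ 2 * (200 / c₀ * l) * l ^ Cr := by
              apply mul_le_mul_of_nonneg_right _ (by positivity)
              linarith
          _ = 400 / c₀ * l ^ (Cr + 1) := by ring
  -- the factorial
  obtain ⟨M, hM⟩ : ∃ M, M = 2 / c₀ * l ^ (Cr + 1) := ⟨_, rfl⟩
  have hM0 : 0 ≤ M := by
    rw [hM]
    positivity
  have hw0 : 0 ≤ w := by
    rw [hw]
    positivity
  have hRw : (R : ℝ) * w ≤ M := by
    rw [hw, hM]
    calc (R : ℝ) * (2 / c₀ * l * h) = 2 / c₀ * l * (R * h) := by ring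
      _ ≤ 2 / c₀ * l * l ^ Cr := mul_le_mul_of_nonneg_left hRh (by positivity)
      _ = 2 / c₀ * l ^ (Cr + 1) := by ring
  have he2 : Real.exp 2 ≤ 8 := by
    have h1 : Real.exp 2 = Real.exp 1 * Real.exp 1 := by
      rw [← Real.exp_add]
      norm_num
    rw [h1]
    have h2 := Real.exp_one_lt_d9
    have h3 := Real.exp_pos 1
    nlinarith
  have hMk : Real.exp 2 * M ≤ k := by
    refine le_trans ?_ hkge
    refine le_trans ?_ hbig
    rw [hM]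
    calc Real.exp 2 * (2 / c₀ * l ^ (Cr + 1)) ≤ 8 * (2 / c₀ * l ^ (Cr + 1)) :=
          mul_le_mul_of_nonneg_right he2 (by positivity)
      _ = (16 / c₀) * l ^ (Cr + 1) := by ring
      _ ≤ (3 + 400 / c₀) * l ^ (Cr + 1) := by
          apply mul_le_mul_of_nonneg_right _ hP.le
          have : 16 / c₀ ≤ 400 / c₀ := div_le_div_of_nonneg_right (by norm_num) hc.le
          linarith
  have hfac : ((R : ℝ) * w) ^ k / (k.factorial : ℝ) ≤ Real.exp (-l ^ (Cr + 4)) := by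
    calc ((R : ℝ) * w) ^ k / (k.factorial : ℝ) ≤ M ^ k / (k.factorial : ℝ) := by
          apply div_le_div_of_nonneg_right _ (by positivity)
          exact pow_le_pow_left₀ (by positivity) hRw k
      _ ≤ Real.exp (-k) := pow_div_factorial_exp M hM0 k hk1 hMk
      _ ≤ Real.exp (-l ^ (Cr + 4)) := by
          apply Real.exp_le_exp.mpr
          linarith
  have hfac0 : 0 ≤ ((R : ℝ) * w) ^ k / (k.factorial : ℝ) := by positivity
  have hX0 : 0 ≤ (1 + 2 * L * h) ^ R := by positivity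
  have hn_exp : (n : ℝ) = Real.exp l := by
    rw [hldef, Real.exp_log hnpos]
  calc ((R : ℝ) + 1) * (n * (1 + 2 * L * h) ^ R * (((R : ℝ) * w) ^ k / (k.factorial : ℝ)))
      ≤ n * (n * Real.exp (400 / c₀ * l ^ (Cr + 1)) * Real.exp (-l ^ (Cr + 4))) := by
        apply mul_le_mul hRn _ (by positivity) hnpos.le
        apply mul_le_mul _ hfac hfac0 (by positivity)
        exact mul_le_mul_of_nonneg_left hXR hnpos.le
    _ ≤ 1 / n := by
        rw [hn_exp, one_div, ← Real.exp_neg, ← Real.exp_add, ← Real.exp_add, ← Real.exp_add]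
        apply Real.exp_le_exp.mpr
        nlinarith

/-- Proof. `window_saw` with `k = ⌊(log n) ^ (Cr + 4)⌋ + 1`, `R = ⌊(log n) ^ Cr / h⌋`,
`X = 1 + 2 L h`, `L = LL c₀ n` (`1 + x ≤ X`). Write `ℓ = log n`. `n (q(A') - q(A)) =
(2 / c₀) ℓ h`. `X ^ R ≤ exp (2 L h R) ≤ exp (2 L ℓ ^ Cr) ≤ exp (400 / c₀ ℓ ^ (Cr + 1))`;
`R * (2 / c₀) ℓ h ≤ M = (2 / c₀) ℓ ^ (Cr + 1)`, `exp 2 * M ≤ k`, so
`M ^ k / k! ≤ exp (- k) ≤ exp (- ℓ ^ (Cr + 4))` (`pow_div_factorial_exp`); `R + 1 ≤ n`. Total at most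
`n ^ 2 exp (400 / c₀ ℓ ^ (Cr + 1) - ℓ ^ (Cr + 4)) ≤ 1 / n` for `n` large
(`3 ℓ + 400 / c₀ ℓ ^ (Cr+1) ≤ ℓ ^ (Cr + 4)` when `ℓ ^ 3 ≥ 3 + 400 / c₀`, `ℓ ≥ 1`). -/
theorem d2_prob (δ c₀ : ℝ) (hδ : 0 < δ) (hδ1 : δ ≤ 1 / 10) (hc : 0 < c₀) (hc1 : c₀ ≤ 1)
    (Cr : ℕ) :
    ∃ n₀ : ℕ, ∀ n : ℕ, n₀ ≤ n → ∀ h : ℝ, R2Par δ n h → ∀ x : ℝ, -h ≤ x →
    x ≤ 2 * LL c₀ n * h →
    ∀ (B : Type) [Fintype B] [DecidableEq B] (q : B → ℝ) (A A' : Finset B), IsLaw q → A ⊆ A' →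
      qs q A = (1 + (x - 2 / c₀ * Real.log n * h)) / n → qs q A' = (1 + x) / n →
      PP q {b : Sym2 (Fin n) → B | ¬ GD3 (adj A b) (adj A' b) ⌊(Real.log n) ^ Cr / h⌋₊
        ⌊(Real.log n) ^ (Cr + 4)⌋₊} ≤ 1 / n := by
  obtain ⟨n1, hn1⟩ := base δ c₀ hδ hδ1 hc hc1
  obtain ⟨n2, hn2⟩ := log_ge (3 + 400 / c₀)
  obtain ⟨n3, hn3⟩ := log_pow_le 1 (1 / 3) Cr (by norm_num)
  refine ⟨max n1 (max n2 n3), ?_⟩
  intro n hn h hh x _ hx B _ _ q A A' hq hA hqA hqA'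
  have Bs := hn1 n (le_trans (le_max_left _ _) hn) h hh
  have hl := hn2 n (le_trans (le_trans (le_max_left _ _) (le_max_right _ _)) hn)
  have hlp := hn3 n (le_trans (le_trans (le_max_right _ _) (le_max_right _ _)) hn)
  rw [one_mul] at hlp
  have hnpos : (0 : ℝ) < n := by linarith [Bs.n_big]
  have hpos := Bs.h_pos
  have hL0 : 0 ≤ LL c₀ n := by linarith [Bs.L_one]
  have hX1 : 1 ≤ 1 + 2 * LL c₀ n * h := by
    have : 0 ≤ 2 * LL c₀ n * h := by positivity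
    linarith
  have hX : (Fintype.card (Fin n) : ℝ) * qs q A' ≤ 1 + 2 * LL c₀ n * h := by
    rw [Fintype.card_fin, hqA', mul_div_cancel₀ _ hnpos.ne']
    linarith
  have hwd : (Fintype.card (Fin n) : ℝ) * (qs q A' - qs q A) = 2 / c₀ * Real.log n * h := by
    rw [Fintype.card_fin, hqA', hqA]
    field_simp
    ring
  have key := window_saw (V := Fin n) hq A A' hA (⌊Real.log n ^ (Cr + 4)⌋₊ + 1)
    ⌊Real.log n ^ Cr / h⌋₊ (1 + 2 * LL c₀ n * h) hX1 hX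
  rw [hwd, Fintype.card_fin] at key
  have hnum := p2_num c₀ h (LL c₀ n) n Cr hc hl Bs.n_big hpos Bs.n_inv hL0
    (by linarith [Bs.L_le]) hlp _ rfl
  refine le_trans (p2_mono hq ?_) (key.trans hnum)
  intro b hb
  rw [Set.mem_ofPred_eq] at hb ⊢
  unfold GD3 at hb
  push Not at hb
  obtain ⟨γ, m, h1, h2, h3⟩ := hb
  exact ⟨γ, m, h2, h1, h3⟩

end RST.D
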