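import Pool.Agent.Lib.MP_7946c7_pr.D.NumB
import Pool.Agent.Lib.MP_7946c7_pr.D.Pred
import Pool.Agent.Lib.MP_7946c7_pr.D.Saw

/-!
# MP_7946c7_pr, stream D, job P3: D3, probability
-/

open Finset

namespace RST.D

/-- Proof. `window_saw` with `k = k0N θ + 1`, `R = rN θ n h`, `X = 1 + L h`, `L = LL c₀ n`. Here
`n (q(A') - q(A)) = (L + 1) h`. `R h ≤ n ^ (-θ)` (`rfacts`), so `X ^ R ≤ exp (L h R) ≤
exp (L n ^ (-θ)) ≤ 3` for `n` large, `(R (L + 1) h) ^ k ≤ (L + 1) ^ k n ^ (-θ k)`,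
`θ k ≥ 3 + 3 θ > 3` because `k0N θ = ⌈3/θ⌉ + 2`, `R + 1 ≤ n` (`R ≤ n ^ (1/3)`). Total at most
`n * n * 3 * (200 / c₀ log n) ^ k n ^ (-3) ≤ ε` (`log_pow_small` with `a = 1`). -/
theorem d3_prob (δ θ c₀ ε : ℝ) (hδ : 0 < δ) (hδ1 : δ ≤ 1 / 10) (hθ : 0 < θ) (hθ1 : θ ≤ δ / 10)
    (hc : 0 < c₀) (hc1 : c₀ ≤ 1) (hε : 0 < ε) :
    ∃ n₀ : ℕ, ∀ n : ℕ, n₀ ≤ n → ∀ h : ℝ, R2Par δ n h →
    ∀ (B : Type) [Fintype B] [DecidableEq B] (q : B → ℝ) (A A' : Finset B), IsLaw q → A ⊆ A' →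
      qs q A = (1 - h) / n → qs q A' = (1 + LL c₀ n * h) / n →
      PP q {b : Sym2 (Fin n) → B | ¬ GD3 (adj A b) (adj A' b) (rN θ n h) (k0N θ)} ≤ ε := by
  obtain ⟨n₁, hn₁⟩ := base δ c₀ hδ hδ1 hc hc1
  obtain ⟨n₂, hn₂⟩ := rfacts δ θ c₀ hδ hδ1 hθ hθ1 hc hc1
  obtain ⟨n₃, hn₃⟩ := log_pow_small (3 * (200 / c₀) ^ (k0N θ + 1)) 1 ε (k0N θ + 1) one_pos hε
  obtain ⟨n₄, hn₄⟩ := log_pow_small (200 / c₀) θ 1 1 hθ one_pos
  obtain ⟨n₅, hn₅⟩ := rpow_ge 2 (2 / 3) (by norm_num)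
  refine ⟨max n₁ (max n₂ (max n₃ (max n₄ n₅))), fun n hn h hR B _ _ q A A' hq hAA' hA hA' => ?_⟩
  simp only [max_le_iff] at hn
  obtain ⟨hnn₁, hnn₂, hnn₃, hnn₄, hnn₅⟩ := hn
  have hb := hn₁ n hnn₁ h hR
  have hr := hn₂ n hnn₂ h hR
  have h3 := hn₃ n hnn₃
  have h4 := hn₄ n hnn₄
  have h5 := hn₅ n hnn₅
  obtain ⟨b1, b2, b3, b4, b5, b6, b7, b8, b9, b10⟩ := hb
  obtain ⟨r1, r2, r3, r4, r5⟩ := hr
  set L := LL c₀ n with hLdef
  set R := rN θ n h with hRdef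
  set k := k0N θ + 1 with hkdef
  have hn0 : (0 : ℝ) < n := by linarith
  have hlog0 : 0 < Real.log n := by linarith
  have hL0 : 0 ≤ L := by linarith
  have hLh0 : 0 ≤ L * h := mul_nonneg hL0 b3.le
  have hR0 : (0 : ℝ) ≤ (R : ℝ) := Nat.cast_nonneg R
  -- the set is contained in the event of window_saw
  classical
  have hsub : {b : Sym2 (Fin n) → B | ¬ GD3 (adj A b) (adj A' b) R (k0N θ)} ⊆
      {b : Sym2 (Fin n) → B | ∃ (γ : ℕ → Fin n) (ℓ : ℕ), ℓ ≤ R ∧ IsSAW (adj A' b) γ ℓ ∧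
        k ≤ ((range ℓ).filter fun i => ¬ adj A b (γ i) (γ (i + 1))).card} := by
    intro b hbm
    simp only [Set.mem_ofPred_eq] at hbm ⊢
    unfold GD3 at hbm
    push Not at hbm
    obtain ⟨γ, ℓ, hs, hl, hc'⟩ := hbm
    refine ⟨γ, ℓ, hl, hs, ?_⟩
    have hc2 := Nat.succ_le_of_lt hc'
    convert hc2
  refine (PP_mono hq hsub).trans ?_
  have hX1 : (1 : ℝ) ≤ 1 + L * h := by linarith
  have hX : (Fintype.card (Fin n) : ℝ) * qs q A' ≤ 1 + L * h := by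
    rw [Fintype.card_fin, hA']
    apply le_of_eq
    field_simp
  have hw := window_saw (V := Fin n) hq A A' hAA' k R (1 + L * h) hX1 hX
  refine hw.trans ?_
  rw [Fintype.card_fin]
  have hdiff : (n : ℝ) * (qs q A' - qs q A) = (L + 1) * h := by
    rw [hA, hA']
    field_simp
    ring
  rw [hdiff]
  -- bounds
  have hnθ0 : 0 < (n : ℝ) ^ (-θ) := Real.rpow_pos_of_pos hn0 _
  have hnθ1 : (n : ℝ) ^ (-θ) ≤ 1 := by
    apply Real.rpow_le_one_of_one_le_of_nonpos (by linarith) (by linarith)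
  have hLle : L ≤ 200 / c₀ * Real.log n := by linarith
  have hXR : (1 + L * h) ^ R ≤ 3 := by
    have e1 : (1 + L * h) ^ R ≤ Real.exp (L * (R * h)) := by
      have : 1 + L * h ≤ Real.exp (L * h) := by
        have := Real.add_one_le_exp (L * h)
        linarith
      calc (1 + L * h) ^ R ≤ (Real.exp (L * h)) ^ R := pow_le_pow_left₀ (by linarith) this R
        _ = Real.exp (L * (R * h)) := by
            rw [← Real.exp_nat_mul]
            congr 1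
            ring
    have e2 : L * (R * h) ≤ 1 := by
      calc L * (R * h) ≤ (200 / c₀ * Real.log n) * (n : ℝ) ^ (-θ) := by
            apply mul_le_mul hLle r2 (mul_nonneg hR0 b3.le)
            exact hL0.trans hLle
        _ ≤ 1 := by
            rw [pow_one] at h4
            exact h4
    calc (1 + L * h) ^ R ≤ Real.exp (L * (R * h)) := e1
      _ ≤ Real.exp 1 := Real.exp_le_exp.mpr e2
      _ ≤ 3 := by
          have := Real.exp_one_lt_d9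
          linarith
  have hRn : (R : ℝ) + 1 ≤ n := by
    have e0 : 0 < (n : ℝ) ^ (-(1 / 3 : ℝ)) := Real.rpow_pos_of_pos hn0 _
    have e1 : (R : ℝ) * (n : ℝ) ^ (-(1 / 3 : ℝ)) ≤ 1 := by
      calc (R : ℝ) * (n : ℝ) ^ (-(1 / 3 : ℝ)) ≤ R * h := mul_le_mul_of_nonneg_left b5 hR0
        _ ≤ (n : ℝ) ^ (-θ) := r2
        _ ≤ 1 := hnθ1
    have e2 : (n : ℝ) ^ (2 / 3 : ℝ) = n * (n : ℝ) ^ (-(1 / 3 : ℝ)) := by
      have : (2 / 3 : ℝ) = 1 + (-(1 / 3)) := by norm_num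
      rw [this, Real.rpow_add hn0, Real.rpow_one]
    have e3 : 2 * (R : ℝ) ≤ n := by
      calc 2 * (R : ℝ) ≤ (n : ℝ) ^ (2 / 3 : ℝ) * R := mul_le_mul_of_nonneg_right h5 hR0
        _ = n * (R * (n : ℝ) ^ (-(1 / 3 : ℝ))) := by rw [e2]; ring
        _ ≤ n * 1 := mul_le_mul_of_nonneg_left e1 hn0.le
        _ = n := mul_one _
    linarith
  have hk : 3 ≤ θ * k := by
    have e1 : 3 / θ ≤ (⌈3 / θ⌉₊ : ℝ) := Nat.le_ceil _
    have e2 : (k : ℝ) = (⌈3 / θ⌉₊ : ℝ) + 3 := by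
      rw [hkdef]
      unfold k0N
      push_cast
      ring
    rw [e2]
    have e3 : θ * (3 / θ) = 3 := by field_simp
    nlinarith [mul_le_mul_of_nonneg_left e1 hθ.le]
  have hpow : ((R : ℝ) * ((L + 1) * h)) ^ k ≤ (200 / c₀ * Real.log n) ^ k * (n : ℝ) ^ (-(3 : ℝ)) := by
    have e1 : (R : ℝ) * ((L + 1) * h) ≤ (200 / c₀ * Real.log n) * (n : ℝ) ^ (-θ) := by
      calc (R : ℝ) * ((L + 1) * h) = (L + 1) * (R * h) := by ring
        _ ≤ (200 / c₀ * Real.log n) * (n : ℝ) ^ (-θ) := by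
            apply mul_le_mul b7 r2 (mul_nonneg hR0 b3.le)
            linarith
    calc ((R : ℝ) * ((L + 1) * h)) ^ k ≤ ((200 / c₀ * Real.log n) * (n : ℝ) ^ (-θ)) ^ k := by
          apply pow_le_pow_left₀ _ e1
          exact mul_nonneg hR0 (mul_nonneg (by linarith) b3.le)
      _ = (200 / c₀ * Real.log n) ^ k * (n : ℝ) ^ (-(θ * k)) := by
          rw [mul_pow, ← Real.rpow_natCast ((n : ℝ) ^ (-θ)) k, ← Real.rpow_mul hn0.le]
          congr 2
          ring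
      _ ≤ (200 / c₀ * Real.log n) ^ k * (n : ℝ) ^ (-(3 : ℝ)) := by
          apply mul_le_mul_of_nonneg_left
          · apply Real.rpow_le_rpow_of_exponent_le (by linarith)
            linarith
          · apply pow_nonneg
            linarith
  have hfac : ((R : ℝ) * ((L + 1) * h)) ^ k / (k.factorial : ℝ) ≤
      (200 / c₀ * Real.log n) ^ k * (n : ℝ) ^ (-(3 : ℝ)) := by
    refine (div_le_self ?_ ?_).trans hpow
    · apply pow_nonneg
      exact mul_nonneg hR0 (mul_nonneg (by linarith) b3.le)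
    · exact_mod_cast Nat.one_le_iff_ne_zero.mpr (Nat.factorial_ne_zero k)
  have hlogk0 : 0 ≤ (200 / c₀ * Real.log n) ^ k := by
    apply pow_nonneg
    linarith
  have hn3 : 0 < (n : ℝ) ^ (-(3 : ℝ)) := Real.rpow_pos_of_pos hn0 _
  have hfac0 : 0 ≤ ((R : ℝ) * ((L + 1) * h)) ^ k / (k.factorial : ℝ) := by
    apply div_nonneg
    · apply pow_nonneg
      exact mul_nonneg hR0 (mul_nonneg (by linarith) b3.le)
    · exact Nat.cast_nonneg _
  calc ((R : ℝ) + 1) * (n * (1 + L * h) ^ R * (((R : ℝ) * ((L + 1) * h)) ^ k / (k.factorial : ℝ)))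
      ≤ n * (n * 3 * ((200 / c₀ * Real.log n) ^ k * (n : ℝ) ^ (-(3 : ℝ)))) := by
        apply mul_le_mul hRn _ _ hn0.le
        · apply mul_le_mul _ hfac hfac0 (by positivity)
          exact mul_le_mul_of_nonneg_left hXR hn0.le
        · apply mul_nonneg _ hfac0
          apply mul_nonneg hn0.le
          apply pow_nonneg
          linarith
    _ = 3 * (200 / c₀) ^ k * Real.log n ^ k * (n : ℝ) ^ (-(1 : ℝ)) := by
        rw [mul_pow]
        have : (n : ℝ) ^ (-(1 : ℝ)) = n * n * (n : ℝ) ^ (-(3 : ℝ)) := by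
          have e : (-(1 : ℝ)) = 1 + 1 + (-3) := by norm_num
          rw [e, Real.rpow_add hn0, Real.rpow_add hn0, Real.rpow_one]
        rw [this]
        ring
    _ ≤ ε := h3

end RST.D
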