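import Pool.Agent.Lib.MP_7946c7_pr.D.F4
import Pool.Agent.Lib.MP_7946c7_pr.D.NumB
import Pool.Agent.Lib.MP_7946c7_pr.D.Pred

/-!
# MP_7946c7_pr, stream D, job P4: D4, probability
-/

open Finset

namespace RST.D

/-- Proof. `d4_bound` with `x = L h`, `L = LL c₀ n`, `r = rN / 2`, `k = abN θ n + 1`,
`s = 6 log n / h²`. (`¬ GD4` gives `ws` with `abN + 1 ≤ |ws|`.) First term:
`2 n exp (- 3 log n) = 2 n ^ (-2)`. Second term: `n p' ≤ 2 (L + 1) h` (`win_le`) and
`armB ≤ 30 n ^ θ h` (`rfacts`), so the base of the power is at most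
`M = (6 log n / h²) (2 (L + 1) h) (30 n ^ θ h) = 360 (L + 1) log n n ^ θ ≤ 72000 / c₀ (log n)² n ^ θ`,
and `exp 2 * M ≤ n ^ (2θ) ≤ k` for `n` large (`log_pow_le` with `a = θ`), so
`n * M ^ k / k! ≤ n exp (- n ^ (2θ))` (`pow_div_factorial_exp`) is small (`exp_rpow_small`). -/
theorem d4_prob (δ θ c₀ ε : ℝ) (hδ : 0 < δ) (hδ1 : δ ≤ 1 / 10) (hθ : 0 < θ) (hθ1 : θ ≤ δ / 10)
    (hc : 0 < c₀) (hc1 : c₀ ≤ 1) (hε : 0 < ε) :
    ∃ n₀ : ℕ, ∀ n : ℕ, n₀ ≤ n → ∀ h : ℝ, R2Par δ n h →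
    ∀ (B : Type) [Fintype B] [DecidableEq B] (q : B → ℝ) (A A' : Finset B), IsLaw q → A ⊆ A' →
      qs q A = (1 - h) / n → qs q A' = (1 + LL c₀ n * h) / n →
      PP q {b : Sym2 (Fin n) → B | ¬ GD4 (adj A b) (adj A' b) (rN θ n h / 2) (abN θ n)} ≤ ε := by
  obtain ⟨n₁, hn₁⟩ := base δ c₀ hδ hδ1 hc hc1
  obtain ⟨n₂, hn₂⟩ := rfacts δ θ c₀ hδ hδ1 hθ hθ1 hc hc1
  obtain ⟨n₃, hn₃⟩ := log_pow_le (Real.exp 2 * (72000 / c₀)) θ 2 hθ
  obtain ⟨n₄, hn₄⟩ := log_pow_small 2 2 (ε / 2) 0 two_pos (half_pos hε)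
  obtain ⟨n₅, hn₅⟩ := exp_rpow_small 1 (2 * θ) 1 (ε / 2) (by linarith) (half_pos hε)
  refine ⟨max n₁ (max n₂ (max n₃ (max n₄ n₅))), fun n hn h hR B _ _ q A A' hq hAA' hA hA' => ?_⟩
  simp only [max_le_iff] at hn
  obtain ⟨hnn₁, hnn₂, hnn₃, hnn₄, hnn₅⟩ := hn
  have hb := hn₁ n hnn₁ h hR
  have hr := hn₂ n hnn₂ h hR
  have h3 := hn₃ n hnn₃
  have h4 := hn₄ n hnn₄
  have h5 := hn₅ n hnn₅
  obtain ⟨b1, b2, b3, b4, b5, b6, b7, b8, b9, b10⟩ := hb
  obtain ⟨r1, r2, r3, r4, r5⟩ := hr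
  set L := LL c₀ n with hLdef
  set r := rN θ n h / 2 with hrdef
  set k := abN θ n + 1 with hkdef
  have hn0 : (0 : ℝ) < n := by linarith
  have hlog0 : 0 < Real.log n := by linarith
  have hL0 : 0 ≤ L := by linarith
  have hLh0 : 0 ≤ L * h := mul_nonneg hL0 b3.le
  have hnθ0 : 0 < (n : ℝ) ^ θ := Real.rpow_pos_of_pos hn0 _
  have hnat16 : 16 ≤ n := by
    have : (16 : ℝ) ≤ (n : ℝ) := by linarith
    exact_mod_cast this
  classical
  set s : ℝ := 6 * Real.log n / h ^ 2 with hsdef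
  have hh2 : 0 < h ^ 2 := by positivity
  have hs0 : 0 ≤ s := by
    rw [hsdef]
    apply div_nonneg _ hh2.le
    linarith
  have hp : (Fintype.card (Fin n) : ℝ) * qs q A ≤ 1 - h := by
    rw [Fintype.card_fin, hA]
    apply le_of_eq
    field_simp
  have hqA0 : qs q A = (1 - h) / n := hA
  have hlt : qs q A < 1 := by
    rw [hA, div_lt_one hn0]
    linarith
  have hp' : qs q A' * (Fintype.card (Fin n) : ℝ) ≤ 1 + L * h := by
    rw [Fintype.card_fin, hA']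
    apply le_of_eq
    field_simp
  have hmain := d4_bound (V := Fin n) hq A A' hAA' h b3 (by linarith) hp hlt (L * h) hLh0
    (by linarith) (by rw [Fintype.card_fin]; exact hnat16) hp' r k r3 s hs0
  refine (PP_mono hq ?_).trans (hmain.trans ?_)
  · intro b hbm
    simp only [Set.mem_ofPred_eq] at hbm ⊢
    unfold GD4 at hbm
    push Not at hbm
    obtain ⟨v, ws, hw1, hw2, hw3⟩ := hbm
    exact ⟨v, ws, Nat.succ_le_of_lt hw3, hw1, hw2⟩
  rw [Fintype.card_fin]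
  -- first term
  have hfirst : (n : ℝ) * (2 * Real.exp (-(h ^ 2 * s / 2))) ≤ ε / 2 := by
    have e1 : h ^ 2 * s / 2 = 3 * Real.log n := by
      rw [hsdef]
      field_simp
      norm_num
    have e2 : Real.exp (-(3 * Real.log n)) = (n : ℝ) ^ (-(3 : ℝ)) := by
      rw [Real.rpow_def_of_pos hn0]
      congr 1
      ring
    rw [e1, e2]
    have e3 : (n : ℝ) ^ (-(2 : ℝ)) = n * (n : ℝ) ^ (-(3 : ℝ)) := by
      have e : (-(2 : ℝ)) = 1 + (-3) := by norm_num
      rw [e, Real.rpow_add hn0, Real.rpow_one]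
    calc (n : ℝ) * (2 * (n : ℝ) ^ (-(3 : ℝ))) = 2 * Real.log n ^ 0 * (n : ℝ) ^ (-(2 : ℝ)) := by
          rw [e3, pow_zero]
          ring
      _ ≤ ε / 2 := h4
  -- second term
  have hwin : (n : ℝ) * ((qs q A' - qs q A) / (1 - qs q A)) ≤ 2 * (L + 1) * h :=
    win_le n (by omega) h L (qs q A) (qs q A') b3.le (by linarith) hL0 hA hA'
  have hwin0 : 0 ≤ (n : ℝ) * ((qs q A' - qs q A) / (1 - qs q A)) := by
    apply mul_nonneg hn0.le
    apply div_nonneg
    · rw [hA, hA', ← sub_div]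
      apply div_nonneg _ hn0.le
      linarith
    · linarith
  have harm0 : 0 ≤ armB (n : ℕ) (L * h) r := by
    unfold armB
    positivity
  set M : ℝ := s * (n * ((qs q A' - qs q A) / (1 - qs q A))) * armB n (L * h) r with hMdef
  have hM0 : 0 ≤ M := mul_nonneg (mul_nonneg hs0 hwin0) harm0
  have hMle : M ≤ 72000 / c₀ * Real.log n ^ 2 * (n : ℝ) ^ θ := by
    calc M ≤ s * (2 * (L + 1) * h) * (30 * (n : ℝ) ^ θ * h) := by
          apply mul_le_mul _ r5 harm0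
          · apply mul_nonneg hs0
            apply mul_nonneg _ b3.le
            linarith
          · exact mul_le_mul_of_nonneg_left hwin hs0
      _ = 360 * (L + 1) * Real.log n * (n : ℝ) ^ θ := by
          rw [hsdef]
          field_simp
          norm_num
      _ ≤ 360 * (200 / c₀ * Real.log n) * Real.log n * (n : ℝ) ^ θ := by
          apply mul_le_mul_of_nonneg_right _ hnθ0.le
          apply mul_le_mul_of_nonneg_right _ hlog0.le
          linarith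
      _ = 72000 / c₀ * Real.log n ^ 2 * (n : ℝ) ^ θ := by ring
  have hexpM : Real.exp 2 * M ≤ k := by
    have e0 : (0 : ℝ) < Real.exp 2 := Real.exp_pos 2
    have e1 : Real.exp 2 * M ≤ (n : ℝ) ^ (2 * θ) := by
      calc Real.exp 2 * M ≤ Real.exp 2 * (72000 / c₀ * Real.log n ^ 2 * (n : ℝ) ^ θ) :=
            mul_le_mul_of_nonneg_left hMle e0.le
        _ = (Real.exp 2 * (72000 / c₀) * Real.log n ^ 2) * (n : ℝ) ^ θ := by ring
        _ ≤ (n : ℝ) ^ θ * (n : ℝ) ^ θ := mul_le_mul_of_nonneg_right h3 hnθ0.le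
        _ = (n : ℝ) ^ (2 * θ) := by
            rw [← Real.rpow_add hn0]
            congr 1
            ring
    have e2 : (n : ℝ) ^ (2 * θ) ≤ k := by
      have := (Nat.lt_floor_add_one ((n : ℝ) ^ (2 * θ))).le
      rw [hkdef]
      unfold abN
      push_cast
      exact this
    exact e1.trans e2
  have hk1 : 1 ≤ k := by omega
  have hexp := pow_div_factorial_exp M hM0 k hk1 hexpM
  have hsecond : (n : ℝ) * (M ^ k / (k.factorial : ℝ)) ≤ ε / 2 := by
    have e2 : (n : ℝ) ^ (2 * θ) ≤ k := by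
      have := (Nat.lt_floor_add_one ((n : ℝ) ^ (2 * θ))).le
      rw [hkdef]
      unfold abN
      push_cast
      exact this
    calc (n : ℝ) * (M ^ k / (k.factorial : ℝ)) ≤ n * Real.exp (-k) :=
          mul_le_mul_of_nonneg_left hexp hn0.le
      _ ≤ n * Real.exp (-((n : ℝ) ^ (2 * θ))) := by
          apply mul_le_mul_of_nonneg_left _ hn0.le
          apply Real.exp_le_exp.mpr
          linarith
      _ = 1 * ((n : ℝ) ^ (1 : ℝ) * Real.exp (-((n : ℝ) ^ (2 * θ)))) := by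
          rw [Real.rpow_one, one_mul]
      _ ≤ ε / 2 := h5
  linarith

end RST.D
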