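import Pool.Agent.Lib.MP_7946c7_pr.D.F1
import Pool.Agent.Lib.MP_7946c7_pr.D.NumB

/-!
# MP_7946c7_pr, stream D, job P5: D5 (number of big components), probability
-/

open Finset

namespace RST.D

/-- Lower bound. `macro_comps` with `W = univ` (after `PP_marg`, `adj_eq_bg`), `C₀ ≤ n ^ (3δ) ≤ h³ n`,
and `exp (- h³ n / 500) ≤ ε`. -/
theorem d5_lower (δ ε : ℝ) (hδ : 0 < δ) (hδ1 : δ ≤ 1 / 10) (hε : 0 < ε) :
    ∃ n₀ : ℕ, ∀ n : ℕ, n₀ ≤ n → ∀ h : ℝ, R2Par δ n h →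
    ∀ (B : Type) [Fintype B] [DecidableEq B] (q : B → ℝ) (A : Finset B), IsLaw q →
      qs q A = (1 - h) / n →
      PP q {b : Sym2 (Fin n) → B | ¬ h ^ 3 * n / 100 ≤ ((bigs (adj A b) univ (kh h)).card : ℝ)} ≤
        ε := by
  obtain ⟨C₀, hC⟩ := macro_comps
  obtain ⟨n₁, h₁⟩ := base δ 1 hδ hδ1 one_pos le_rfl
  obtain ⟨n₂, h₂⟩ := rpow_ge C₀ (3 * δ) (by positivity)
  obtain ⟨n₃, h₃⟩ := rpow_ge (-(500 * Real.log ε)) (3 * δ) (by positivity)
  refine ⟨max n₁ (max n₂ n₃), ?_⟩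
  intro n hn h hh B _ _ q A hq hA
  have hb := h₁ n (le_trans (le_max_left _ _) hn) h hh
  have e2 := h₂ n (le_trans (le_trans (le_max_left _ _) (le_max_right _ _)) hn)
  have e3 := h₃ n (le_trans (le_trans (le_max_right _ _) (le_max_right _ _)) hn)
  have hN3 := hb.N3
  have hh0 := hb.h_pos
  have hhs := hb.h_small
  have hnr : (0 : ℝ) < n := lt_of_lt_of_le (by norm_num) hb.n_big
  have hmc := hC (Fin n) h univ hh0 (by linarith) (by rw [Fintype.card_fin]; linarith)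
    (by linarith) (by
      rw [Finset.card_univ, Fintype.card_fin]
      have : (n : ℝ) * (1 - h / 40) ≤ n * 1 := mul_le_mul_of_nonneg_left (by linarith) hnr.le
      linarith)
  rw [Fintype.card_fin] at hmc
  have hsub : {b : Sym2 (Fin n) → B | ¬ h ^ 3 * n / 100 ≤
      ((bigs (adj A b) univ (kh h)).card : ℝ)} ⊆
      {b : Sym2 (Fin n) → B | (fun e => decide (b e ∈ A)) ∈ {ξ : Sym2 (Fin n) → Bool |
        ((bigs (bg ξ) univ (kh h)).card : ℝ) ≤ h ^ 3 * n / 100}} := by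
    intro b hb'
    have hb'' : ¬ h ^ 3 * n / 100 ≤ ((bigs (adj A b) univ (kh h)).card : ℝ) := hb'
    show ((bigs (bg (fun e => decide (b e ∈ A))) univ (kh h)).card : ℝ) ≤ h ^ 3 * n / 100
    rw [← adj_eq_bg A b]
    linarith
  refine le_trans (PP_mono hq hsub) ?_
  rw [PP_marg hq A, hA]
  refine le_trans hmc ?_
  rw [← Real.le_log_iff_exp_le hε]
  linarith

/-- Upper bound. `bigs_mean` with `k = kh h ≥ 10⁻⁴ / h²`: the mean of `|bigs|` is at most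
`4 n / (k √k) ≤ 4 · 10 ^ 6 h³ n`, and `PP_markov` gives `4 · 10 ^ 6 n ^ (-θ) ≤ ε`. -/
theorem d5_upper (δ θ ε : ℝ) (hδ : 0 < δ) (hδ1 : δ ≤ 1 / 10) (hθ : 0 < θ) (hθ1 : θ ≤ δ / 10)
    (hε : 0 < ε) :
    ∃ n₀ : ℕ, ∀ n : ℕ, n₀ ≤ n → ∀ h : ℝ, R2Par δ n h →
    ∀ (B : Type) [Fintype B] [DecidableEq B] (q : B → ℝ) (A : Finset B), IsLaw q →
      qs q A = (1 - h) / n →
      PP q {b : Sym2 (Fin n) → B | ¬ ((bigs (adj A b) univ (kh h)).card : ℝ) ≤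
        (n : ℝ) ^ θ * (h ^ 3 * n)} ≤ ε := by
  obtain ⟨n₁, h₁⟩ := base δ 1 hδ hδ1 one_pos le_rfl
  obtain ⟨n₂, h₂⟩ := rpow_ge (4 * 10 ^ 6 / ε) θ hθ
  refine ⟨max n₁ n₂, ?_⟩
  intro n hn h hh B _ _ q A hq hA
  have hb := h₁ n (le_trans (le_max_left _ _) hn) h hh
  have e2 := h₂ n (le_trans (le_max_right _ _) hn)
  have hh0 := hb.h_pos
  have hhs := hb.h_small
  have hnb := hb.n_big
  have hnr : (0 : ℝ) < n := lt_of_lt_of_le (by norm_num) hnb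
  obtain ⟨hk1, hk2, -⟩ := kh_facts h hh0 hhs
  have hmean := bigs_mean (V := Fin n) hq A
    (by
      rw [Fintype.card_fin, hA, mul_div_cancel₀ _ hnr.ne']
      linarith)
    (by
      rw [hA, div_le_iff₀ hnr]
      linarith) (kh h) hk1
  rw [Fintype.card_fin] at hmean
  set M : ℝ := EE q (fun b : Sym2 (Fin n) → B => ((bigs (adj A b) univ (kh h)).card : ℝ)) with hM
  have hM0 : 0 ≤ M := EE_nonneg hq (fun b => Nat.cast_nonneg _)
  have hkr : (0 : ℝ) < kh h := by exact_mod_cast hk1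
  have hsq : 1 / 100 / h ≤ Real.sqrt (kh h) := by
    apply Real.le_sqrt_of_sq_le
    have e0 : (1 / 100 / h : ℝ) ^ 2 = 1 / 10 ^ 4 / h ^ 2 := by
      rw [div_pow]
      norm_num
    rw [e0]
    exact hk2
  have hsq0 : 0 < Real.sqrt (kh h) := Real.sqrt_pos.mpr hkr
  have hMle : M ≤ 4 * 10 ^ 6 * (h ^ 3 * n) := by
    have e4 : M * (kh h * Real.sqrt (kh h)) ≤ 4 * n := by
      have e5 : n * (4 / Real.sqrt (kh h)) * Real.sqrt (kh h) = 4 * n := by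
        field_simp
      calc M * (kh h * Real.sqrt (kh h)) = (kh h * M) * Real.sqrt (kh h) := by ring
        _ ≤ (n * (4 / Real.sqrt (kh h))) * Real.sqrt (kh h) :=
          mul_le_mul_of_nonneg_right hmean hsq0.le
        _ = 4 * n := e5
    have e6 : 1 / 10 ^ 6 / h ^ 3 ≤ kh h * Real.sqrt (kh h) := by
      have e0 : (1 / 10 ^ 6 / h ^ 3 : ℝ) = (1 / 10 ^ 4 / h ^ 2) * (1 / 100 / h) := by
        field_simp
        norm_num
      rw [e0]
      exact mul_le_mul hk2 hsq (by positivity) hkr.le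
    have e7 : M * (1 / 10 ^ 6 / h ^ 3) ≤ 4 * n :=
      le_trans (mul_le_mul_of_nonneg_left e6 hM0) e4
    have h3 : 0 < h ^ 3 := by positivity
    have e8 : M * (1 / 10 ^ 6 / h ^ 3) = M / (10 ^ 6 * h ^ 3) := by
      field_simp
    rw [e8, div_le_iff₀ (by positivity)] at e7
    linarith
  have ha : 0 < (n : ℝ) ^ θ * (h ^ 3 * n) := by positivity
  have hsub : {b : Sym2 (Fin n) → B | ¬ ((bigs (adj A b) univ (kh h)).card : ℝ) ≤
      (n : ℝ) ^ θ * (h ^ 3 * n)} ⊆ {b : Sym2 (Fin n) → B | (n : ℝ) ^ θ * (h ^ 3 * n) ≤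
        ((bigs (adj A b) univ (kh h)).card : ℝ)} := by
    intro b hb'
    have hb'' : ¬ ((bigs (adj A b) univ (kh h)).card : ℝ) ≤ (n : ℝ) ^ θ * (h ^ 3 * n) := hb'
    show (n : ℝ) ^ θ * (h ^ 3 * n) ≤ ((bigs (adj A b) univ (kh h)).card : ℝ)
    linarith
  refine le_trans (PP_mono hq hsub) ?_
  refine le_trans (PP_markov hq (F := fun b : Sym2 (Fin n) → B =>
    ((bigs (adj A b) univ (kh h)).card : ℝ)) (fun b => Nat.cast_nonneg _) ha) ?_
  rw [div_le_iff₀ ha]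
  have e9 : 4 * 10 ^ 6 ≤ ε * (n : ℝ) ^ θ := by
    rw [div_le_iff₀ hε] at e2
    linarith
  have e10 : 0 ≤ h ^ 3 * (n : ℝ) := by positivity
  calc M ≤ 4 * 10 ^ 6 * (h ^ 3 * n) := hMle
    _ ≤ (ε * (n : ℝ) ^ θ) * (h ^ 3 * n) := mul_le_mul_of_nonneg_right e9 e10
    _ = ε * ((n : ℝ) ^ θ * (h ^ 3 * n)) := by ring

end RST.D
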