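import Pool.Agent.Lib.MP_7946c7_pr.D.F6b
import Pool.Agent.Lib.MP_7946c7_pr.D.NumB
import Pool.Agent.Lib.MP_7946c7_pr.D.Pred

/-!
# MP_7946c7_pr, stream D, job P6: D6, probability
-/

open Finset

namespace RST.D

private lemma P6_aux (n : ℕ) (hn : 3 ≤ n) (h w : ℝ) (hh : 0 < h) (hh1 : h ≤ 1 / 1000)
    (hlog : 1 ≤ Real.log n) (hw : w = C1 * Real.log n * h)
    (B : Type) [Fintype B] [DecidableEq B] (q : B → ℝ) (A A' : Finset B) (hq : IsLaw q)
    (hA : A ⊆ A') (ha : qs q A = (1 - h) / n) (ha' : qs q A' = (1 + w) / n) :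
    PP q {b : Sym2 (Fin n) → B | h ^ 3 * n / 100 ≤ ((bigs (adj A b) univ (kh h)).card : ℝ) ∧
        ¬ GD6 (adj A b) (adj A' b) (kh h)} ≤ 2 / (n : ℝ) ^ 2 := by
  classical
  have hn0 : (0 : ℝ) < n := by
    have : 0 < n := by omega
    exact_mod_cast this
  have hn1 : (1 : ℝ) < n := by
    have : 1 < n := by omega
    exact_mod_cast this
  have h1 : qs q A < 1 := by
    rw [ha, div_lt_one hn0]
    linarith
  obtain ⟨hk1, hk2, -⟩ := kh_facts h hh hh1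
  obtain ⟨-, -, hwin⟩ := win_mem hq hA h1
  have hcard : Fintype.card (Fin n) = n := Fintype.card_fin n
  have key : 16 * Real.log (Fintype.card (Fin n)) ≤
      (qs q A' - qs q A) / (1 - qs q A) * (kh h : ℝ) ^ 2 * (h ^ 3 * n / 100) := by
    rw [hcard]
    have e1 : (C1 * Real.log n + 1) * (h / n) ≤ (qs q A' - qs q A) / (1 - qs q A) := by
      refine le_trans (le_of_eq ?_) hwin
      rw [ha, ha', hw]
      field_simp
      ring
    have e2 : (1 / 10 ^ 4 / h ^ 2) ^ 2 ≤ (kh h : ℝ) ^ 2 :=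
      pow_le_pow_left₀ (by positivity) hk2 2
    have e3 : (C1 * Real.log n + 1) * (h / n) * (1 / 10 ^ 4 / h ^ 2) ^ 2 ≤
        (qs q A' - qs q A) / (1 - qs q A) * (kh h : ℝ) ^ 2 := by
      have hC : (0 : ℝ) ≤ C1 * Real.log n + 1 := by unfold C1; positivity
      exact mul_le_mul e1 e2 (by positivity) (le_trans (by positivity) e1)
    have e4 : (C1 * Real.log n + 1) * (h / n) * (1 / 10 ^ 4 / h ^ 2) ^ 2 * (h ^ 3 * n / 100) =
        (C1 * Real.log n + 1) / 10 ^ 10 := by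
      field_simp
      norm_num
    have e5 : 16 * Real.log n ≤ (C1 * Real.log n + 1) / 10 ^ 10 := by
      unfold C1
      rw [le_div_iff₀ (by norm_num)]
      linarith
    rw [← e4] at e5
    exact e5.trans (mul_le_mul_of_nonneg_right e3 (by positivity))
  have hmain := expander (V := Fin n) hq A A' hA h1 (kh h) hk1 (by rw [hcard]; exact hn)
    (h ^ 3 * n / 100) key
  rw [hcard] at hmain
  exact hmain

/-- Proof. `expander` with `k = kh h`, `N₀ = h³ n / 100`. With `a = C1 log n`, the window probability is at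
least `q(A') - q(A) = (a + 1) h / n` (`win_mem`), and `k ^ 2 ≥ 10⁻⁸ / h⁴` (`kh_facts`), so
`p' k² N₀ ≥ (a + 1) 10⁻¹⁰ ≥ 2 · 10 ^ 11 · 10⁻¹⁰ log n = 20 log n ≥ 16 log n`. The bound
`2 / n² ≤ ε`. -/
theorem d6_prob (δ ε : ℝ) (hδ : 0 < δ) (hδ1 : δ ≤ 1 / 10) (hε : 0 < ε) :
    ∃ n₀ : ℕ, ∀ n : ℕ, n₀ ≤ n → ∀ h : ℝ, R2Par δ n h →
    ∀ (B : Type) [Fintype B] [DecidableEq B] (q : B → ℝ) (A A' : Finset B), IsLaw q → A ⊆ A' →
      qs q A = (1 - h) / n → qs q A' = (1 + C1 * Real.log n * h) / n →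
      PP q {b : Sym2 (Fin n) → B | h ^ 3 * n / 100 ≤ ((bigs (adj A b) univ (kh h)).card : ℝ) ∧
        ¬ GD6 (adj A b) (adj A' b) (kh h)} ≤ ε := by
  obtain ⟨n₁, hn₁⟩ := base δ 1 hδ hδ1 one_pos le_rfl
  obtain ⟨n₂, hn₂⟩ := rpow_ge (2 / ε) 1 one_pos
  refine ⟨max n₁ n₂, fun n hn h hR B _ _ q A A' hq hA ha ha' => ?_⟩
  simp only [max_le_iff] at hn
  have Bs := hn₁ n hn.1 h hR
  have hn3 : 3 ≤ n := by
    have h1 := Bs.n_big
    have h2 : ((3 : ℕ) : ℝ) ≤ n := by push_cast; linarith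
    exact_mod_cast h2
  refine (P6_aux n hn3 h _ Bs.h_pos Bs.h_small (by have := Bs.log_big; linarith) rfl B q A A' hq
    hA ha ha').trans ?_
  have h3 := hn₂ n hn.2
  rw [Real.rpow_one, div_le_iff₀ hε] at h3
  have h4 := Bs.n_big
  rw [div_le_iff₀ (by positivity)]
  nlinarith

/-- The same for D11: base scale `h2 = x / (C1 log n)`, window `(-h2, x]`, of width at least
`x = C1 log n h2`; only the hypotheses written are needed (`n` with `log n ≥ 1`, `h2 ≤ 1/1000`). -/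
theorem d6_prob_hub (n : ℕ) (hn : 3 ≤ n) (h2 x : ℝ) (hh : 0 < h2) (hh1 : h2 ≤ 1 / 1000)
    (hx : x = C1 * Real.log n * h2) (hlog : 1 ≤ Real.log n) (hxn : x ≤ 1)
    (B : Type) [Fintype B] [DecidableEq B] (q : B → ℝ) (A A' : Finset B) (hq : IsLaw q)
    (hA : A ⊆ A') (ha : qs q A = (1 - h2) / n) (ha' : qs q A' = (1 + x) / n) :
    PP q {b : Sym2 (Fin n) → B | h2 ^ 3 * n / 100 ≤ ((bigs (adj A b) univ (kh h2)).card : ℝ) ∧
        ¬ GD6 (adj A b) (adj A' b) (kh h2)} ≤ 2 / (n : ℝ) ^ 2 :=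
  P6_aux n hn h2 x hh hh1 hlog hx B q A A' hq hA ha ha'

end RST.D
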