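import Pool.Agent.Lib.MP_7946c7_pr.D.F7b
import Pool.Agent.Lib.MP_7946c7_pr.D.NumB

/-!
# MP_7946c7_pr, stream D, job P7: D7, probability
-/

open Finset

namespace RST.D

/-- Proof. `ecyc_bound` with `t = n ^ θ` (`¬ |Ecyc| ≤ ⌊n ^ θ⌋` gives `n ^ θ ≤ |Ecyc|`) and
`s = n ^ θ'`, `θ' = θ / (2 (lm + 1))`. By `win_le`, `p' (s n / h) ≤ 2 (L + 1) s`, so for `l ≤ lm`
`(p' (s n / h)) ^ (l + 1) ≤ (400 / c₀ log n * n ^ θ') ^ (lm + 1) =
(400 / c₀ log n) ^ (lm + 1) n ^ (θ / 2)` (the base is at least 1). The sum has `lm + 1` terms with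
factors `l + 1 ≤ lm + 1`. Total at most `n ^ (-θ') + (lm + 1)² (400 / c₀ log n) ^ (lm + 1)
n ^ (-θ / 2) ≤ ε` (`log_pow_small`, `rpow_ge`). -/
theorem d7_prob (δ θ c₀ ε : ℝ) (hδ : 0 < δ) (hδ1 : δ ≤ 1 / 10) (hθ : 0 < θ) (hθ1 : θ ≤ δ / 10)
    (hc : 0 < c₀) (hc1 : c₀ ≤ 1) (hε : 0 < ε) (lm : ℕ) :
    ∃ n₀ : ℕ, ∀ n : ℕ, n₀ ≤ n → ∀ h : ℝ, R2Par δ n h →
    ∀ (B : Type) [Fintype B] [DecidableEq B] (q : B → ℝ) (A A' : Finset B), IsLaw q → A ⊆ A' →
      qs q A = (1 - h) / n → qs q A' = (1 + LL c₀ n * h) / n →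
      PP q {b : Sym2 (Fin n) → B | ¬ (Ecyc (adj A b) (adj A' b) lm).card ≤ ebN θ n} ≤ ε := by
  classical
  set m : ℕ := lm + 1 with hm
  have hm1 : (1 : ℝ) ≤ m := by
    rw [hm]
    push_cast
    have := Nat.cast_nonneg (α := ℝ) lm
    linarith
  set θ' : ℝ := θ / (2 * m) with hθ'
  have hθp : 0 < θ' := by positivity
  obtain ⟨n1, hn1⟩ := base δ c₀ hδ hδ1 hc hc1
  obtain ⟨n2, hn2⟩ := log_pow_small ((m : ℝ) ^ 2 * (400 / c₀) ^ m) (θ / 2) (ε / 2) m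
    (by positivity) (by positivity)
  obtain ⟨n3, hn3⟩ := rpow_ge (2 / ε) θ' hθp
  refine ⟨max n1 (max n2 n3), fun n hn h hR B _ _ q A A' hq hA ha ha' => ?_⟩
  have hb := hn1 n (le_trans (le_max_left _ _) hn) h hR
  have h2 := hn2 n (le_trans (le_trans (le_max_left _ _) (le_max_right _ _)) hn)
  have h3 := hn3 n (le_trans (le_trans (le_max_right _ _) (le_max_right _ _)) hn)
  have hnb := hb.n_big
  have hlog := hb.log_big
  have hh := hb.h_pos
  have hh1 : h ≤ 1 := le_trans hb.h_small (by norm_num)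
  have hLp : 0 ≤ LL c₀ n := by linarith [hb.L_one]
  have hn0 : (0 : ℝ) < n := by linarith
  have hnN : 0 < n := by exact_mod_cast hn0
  have hn2' : 2 ≤ n := by
    have : (2 : ℝ) ≤ n := by linarith
    exact_mod_cast this
  have hs : 0 < (n : ℝ) ^ θ' := Real.rpow_pos_of_pos hn0 _
  have ht : 0 < (n : ℝ) ^ θ := Real.rpow_pos_of_pos hn0 _
  have hqA : (n : ℝ) * qs q A = 1 - h := by
    rw [ha]
    field_simp
  have hqA1 : qs q A < 1 := by
    rw [ha, div_lt_one hn0]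
    linarith
  have key := ecyc_bound (V := Fin n) hq A A' hA h hh hh1 (by rw [Fintype.card_fin, hqA]) hqA1 lm
    ((n : ℝ) ^ θ') ((n : ℝ) ^ θ) hs ht (by rw [Fintype.card_fin]; exact hnN)
  rw [Fintype.card_fin] at key
  have hsub : {b : Sym2 (Fin n) → B | ¬ (Ecyc (adj A b) (adj A' b) lm).card ≤ ebN θ n} ⊆
      {b : Sym2 (Fin n) → B | (n : ℝ) ^ θ ≤ ((Ecyc (adj A b) (adj A' b) lm).card : ℝ)} := by
    intro b hbm
    have h4 : ebN θ n < (Ecyc (adj A b) (adj A' b) lm).card := not_le.1 hbm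
    unfold ebN at h4
    exact ((Nat.floor_lt ht.le).1 h4).le
  refine le_trans (PP_mono hq hsub) (le_trans key ?_)
  -- the window probability
  have hw := win_le n hn2' h (LL c₀ n) (qs q A) (qs q A') hh.le hh1 hLp ha ha'
  set p' : ℝ := (qs q A' - qs q A) / (1 - qs q A) with hp'
  have hqAA : qs q A ≤ qs q A' := by
    rw [ha, ha']
    have h5 : 1 - h ≤ 1 + LL c₀ n * h := by nlinarith [mul_nonneg hLp hh.le]
    gcongr
  have hp0 : 0 ≤ p' := div_nonneg (by linarith) (by linarith)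
  set D : ℝ := 400 / c₀ * Real.log n * (n : ℝ) ^ θ' with hD
  have hx : p' * ((n : ℝ) ^ θ' * (n / h)) ≤ D := by
    have h6 : p' * ((n : ℝ) ^ θ' * (n / h)) = (n * p') * ((n : ℝ) ^ θ' / h) := by ring
    rw [h6]
    calc (n * p') * ((n : ℝ) ^ θ' / h) ≤ (2 * (LL c₀ n + 1) * h) * ((n : ℝ) ^ θ' / h) :=
          mul_le_mul_of_nonneg_right hw (by positivity)
      _ = 2 * (LL c₀ n + 1) * (n : ℝ) ^ θ' := by
          field_simp
      _ ≤ 2 * (200 / c₀ * Real.log n) * (n : ℝ) ^ θ' := by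
          have := hb.L_le
          gcongr
      _ = D := by rw [hD]; ring
  have hn1r : (1 : ℝ) ≤ n := by linarith
  have hs1 : 1 ≤ (n : ℝ) ^ θ' := Real.one_le_rpow hn1r hθp.le
  have hD1 : 1 ≤ D := by
    have h7 : 1 ≤ 400 / c₀ := by
      rw [le_div_iff₀ hc]
      linarith
    have h8 : 1 ≤ 400 / c₀ * Real.log n := by nlinarith
    rw [hD]
    nlinarith
  have hx0 : 0 ≤ p' * ((n : ℝ) ^ θ' * (n / h)) := by positivity
  have hsum : (∑ l ∈ range (lm + 1), ((l : ℝ) + 1) * (p' * ((n : ℝ) ^ θ' * (n / h))) ^ (l + 1)) ≤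
      (m : ℝ) ^ 2 * D ^ m := by
    calc (∑ l ∈ range (lm + 1), ((l : ℝ) + 1) * (p' * ((n : ℝ) ^ θ' * (n / h))) ^ (l + 1))
        ≤ ∑ l ∈ range (lm + 1), (m : ℝ) * D ^ m := by
          refine Finset.sum_le_sum fun l hl => ?_
          have hl' : l + 1 ≤ m := by
            have := Finset.mem_range.1 hl
            omega
          have h9 : ((l : ℝ) + 1) ≤ m := by exact_mod_cast hl'
          have h10 : (p' * ((n : ℝ) ^ θ' * (n / h))) ^ (l + 1) ≤ D ^ m :=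
            le_trans (pow_le_pow_left₀ hx0 hx _) (pow_le_pow_right₀ hD1 hl')
          exact mul_le_mul h9 h10 (by positivity) (by positivity)
      _ = (m : ℝ) ^ 2 * D ^ m := by
          rw [Finset.sum_const, Finset.card_range, nsmul_eq_mul]
          ring
  have hDm : D ^ m = (400 / c₀) ^ m * Real.log n ^ m * (n : ℝ) ^ (θ / 2) := by
    rw [hD, mul_pow, mul_pow, ← Real.rpow_natCast ((n : ℝ) ^ θ') m, ← Real.rpow_mul hn0.le]
    congr 2
    rw [hθ']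
    field_simp
  have hfin1 : 1 / (n : ℝ) ^ θ' ≤ ε / 2 := by
    rw [div_le_iff₀ hs]
    have h11 : 2 / ε * (ε / 2) = 1 := by field_simp
    nlinarith [mul_le_mul_of_nonneg_right h3 (show 0 ≤ ε / 2 by positivity)]
  have hfin2 : (∑ l ∈ range (lm + 1), ((l : ℝ) + 1) * (p' * ((n : ℝ) ^ θ' * (n / h))) ^ (l + 1)) /
      (n : ℝ) ^ θ ≤ ε / 2 := by
    calc (∑ l ∈ range (lm + 1), ((l : ℝ) + 1) * (p' * ((n : ℝ) ^ θ' * (n / h))) ^ (l + 1)) /
        (n : ℝ) ^ θ ≤ (m : ℝ) ^ 2 * D ^ m / (n : ℝ) ^ θ := by gcongr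
      _ = (m : ℝ) ^ 2 * (400 / c₀) ^ m * Real.log n ^ m * (n : ℝ) ^ (-(θ / 2)) := by
          rw [hDm, Real.rpow_neg hn0.le]
          have h12 : (n : ℝ) ^ θ = (n : ℝ) ^ (θ / 2) * (n : ℝ) ^ (θ / 2) := by
            rw [← Real.rpow_add hn0]
            congr 1
            ring
          have h13 : (n : ℝ) ^ (θ / 2) ≠ 0 := (Real.rpow_pos_of_pos hn0 _).ne'
          rw [h12]
          field_simp
      _ ≤ ε / 2 := h2
  linarith

end RST.D
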