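import Pool.Agent.Lib.MP_7946c7_pr.D.F8
import Pool.Agent.Lib.MP_7946c7_pr.D.F9a
import Pool.Agent.Lib.MP_7946c7_pr.D.F9b
import Pool.Agent.Lib.MP_7946c7_pr.D.NumB

/-!
# MP_7946c7_pr, stream D, job P8: D8 and D9, probability
-/

open Finset

namespace RST.D

/-- Common facts. -/
private lemma P8_common (δ θ c₀ : ℝ) (hδ : 0 < δ) (hδ1 : δ ≤ 1 / 10) (hθ : 0 < θ)
    (hθ1 : θ ≤ δ / 10) (hc : 0 < c₀) (hc1 : c₀ ≤ 1) :
    ∃ n₀ : ℕ, ∀ n : ℕ, n₀ ≤ n → ∀ h : ℝ, R2Par δ n h → Base δ c₀ n h ∧ RFacts θ c₀ n h := by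
  obtain ⟨n₁, h₁⟩ := base δ c₀ hδ hδ1 hc hc1
  obtain ⟨n₂, h₂⟩ := rfacts δ θ c₀ hδ hδ1 hθ hθ1 hc hc1
  exact ⟨max n₁ n₂, fun n hn h hh =>
    ⟨h₁ n (le_trans (le_max_left _ _) hn) h hh, h₂ n (le_trans (le_max_right _ _) hn) h hh⟩⟩

/-- Numerical consequences used by the three proofs. -/
private lemma P8_num {δ θ c₀ : ℝ} {n : ℕ} {h : ℝ} (hb : Base δ c₀ n h) (hr : RFacts θ c₀ n h)
    {B : Type} [Fintype B] [DecidableEq B] {q : B → ℝ} {A A' : Finset B}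
    (hqA : qs q A = (1 - h) / n) (hqA' : qs q A' = (1 + LL c₀ n * h) / n) :
    0 ≤ LL c₀ n * h ∧ LL c₀ n * h ≤ 1 / 4 ∧ 16 ≤ Fintype.card (Fin n) ∧
    qs q A' * Fintype.card (Fin n) ≤ 1 + LL c₀ n * h ∧
    (Fintype.card (Fin n) : ℝ) * qs q A ≤ 1 - h ∧ qs q A < 1 ∧ qs q A ≤ 1 / 4 ∧
    (n : ℝ) * ((qs q A' - qs q A) / (1 - qs q A)) ≤ 2 * (LL c₀ n + 1) * h ∧
    0 ≤ (n : ℝ) * ((qs q A' - qs q A) / (1 - qs q A)) ∧
    (n : ℝ) ^ 2 * (qs q A' - qs q A) = n * ((LL c₀ n + 1) * h) ∧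
    0 ≤ armB n (LL c₀ n * h) (rN θ n h / 2) := by
  have hn0 : (0 : ℝ) < n := lt_of_lt_of_le (by norm_num) hb.n_big
  have hn1 : (1000 : ℝ) ≤ n := hb.n_big
  have hnn : 1000 ≤ n := by exact_mod_cast hb.n_big
  have hh0 := hb.h_pos
  have hh1 := hb.h_small
  have hL1 := hb.L_one
  have hLh := hb.Lh
  have hLh0 : 0 ≤ LL c₀ n * h := mul_nonneg (by linarith) hh0.le
  have hqA1 : qs q A < 1 := by
    rw [hqA, div_lt_one hn0]
    linarith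
  have hqA4 : qs q A ≤ 1 / 4 := by
    rw [hqA, div_le_iff₀ hn0]
    linarith
  have hwin : (n : ℝ) * ((qs q A' - qs q A) / (1 - qs q A)) ≤ 2 * (LL c₀ n + 1) * h :=
    win_le n (by omega) h (LL c₀ n) (qs q A) (qs q A') hh0.le (by linarith) (by linarith) hqA hqA'
  have hdiff : qs q A' - qs q A = (LL c₀ n + 1) * h / n := by
    rw [hqA, hqA']
    field_simp
    ring
  refine ⟨hLh0, by linarith, by rw [Fintype.card_fin]; omega, ?_, ?_, hqA1, hqA4, hwin, ?_, ?_, ?_⟩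
  · rw [Fintype.card_fin, hqA']
    rw [div_mul_cancel₀ _ hn0.ne']
  · rw [Fintype.card_fin, hqA, mul_div_cancel₀ _ hn0.ne']
  · apply mul_nonneg hn0.le
    apply div_nonneg _ (by linarith)
    rw [hdiff]
    positivity
  · rw [hdiff]
    field_simp
  · unfold armB
    positivity

/-- Proof. `ebig_mean` with `x = L h`, `r = rN / 2`: the mean is at most
`n² ((L + 1) h / n) (30 n ^ θ h)² = 900 (L + 1) n ^ (2θ) h³ n ≤ 180000 / c₀ log n n ^ (2θ) h³ n`;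
`PP_markov` gives `180000 / c₀ log n n ^ (-θ) ≤ ε`. -/
theorem d8_prob (δ θ c₀ ε : ℝ) (hδ : 0 < δ) (hδ1 : δ ≤ 1 / 10) (hθ : 0 < θ) (hθ1 : θ ≤ δ / 10)
    (hc : 0 < c₀) (hc1 : c₀ ≤ 1) (hε : 0 < ε) :
    ∃ n₀ : ℕ, ∀ n : ℕ, n₀ ≤ n → ∀ h : ℝ, R2Par δ n h →
    ∀ (B : Type) [Fintype B] [DecidableEq B] (q : B → ℝ) (A A' : Finset B), IsLaw q → A ⊆ A' →
      qs q A = (1 - h) / n → qs q A' = (1 + LL c₀ n * h) / n →
      PP q {b : Sym2 (Fin n) → B | ¬ ((Ebig (adj A b) (adj A' b) (rN θ n h / 2)).card : ℝ) ≤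
        (n : ℝ) ^ (3 * θ) * (h ^ 3 * n)} ≤ ε := by
  obtain ⟨n₁, h₁⟩ := P8_common δ θ c₀ hδ hδ1 hθ hθ1 hc hc1
  obtain ⟨n₂, h₂⟩ := log_pow_small (180000 / c₀) θ ε 1 hθ hε
  refine ⟨max n₁ n₂, fun n hn h hh B _ _ q A A' hq hA hqA hqA' => ?_⟩
  obtain ⟨hb, hr⟩ := h₁ n (le_trans (le_max_left _ _) hn) h hh
  have h3 := h₂ n (le_trans (le_max_right _ _) hn)
  obtain ⟨a1, a2, a3, a4, a5, a6, a7, a8, a9, a10, a11⟩ := P8_num hb hr hqA hqA'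
  have hmean := ebig_mean hq A A' hA (LL c₀ n * h) a1 a2 a3 a4 (rN θ n h / 2) hr.r_half
  rw [Fintype.card_fin, a10] at hmean
  have hn0 : (0 : ℝ) < n := lt_of_lt_of_le (by norm_num) hb.n_big
  have hh0 := hb.h_pos
  have hL1 := hb.L_one
  obtain ⟨T, hT, hTd⟩ : ∃ T : ℝ, 0 < T ∧ T = (n : ℝ) ^ θ := ⟨_, Real.rpow_pos_of_pos hn0 θ, rfl⟩
  have hT3 : (n : ℝ) ^ (3 * θ) = T ^ 3 := by
    rw [hTd, mul_comm, Real.rpow_mul hn0.le]
    exact_mod_cast Real.rpow_natCast _ 3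
  have hTi : (n : ℝ) ^ (-θ) = T⁻¹ := by rw [hTd, Real.rpow_neg hn0.le]
  have harm := hr.arm
  rw [← hTd] at harm
  rw [hTi] at h3
  have hpos : 0 < T ^ 3 * (h ^ 3 * n) := by positivity
  have hsub : {b : Sym2 (Fin n) → B | ¬ ((Ebig (adj A b) (adj A' b) (rN θ n h / 2)).card : ℝ) ≤
        (n : ℝ) ^ (3 * θ) * (h ^ 3 * n)} ⊆
      {b : Sym2 (Fin n) → B | T ^ 3 * (h ^ 3 * n) ≤
        ((Ebig (adj A b) (adj A' b) (rN θ n h / 2)).card : ℝ)} := by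
    intro b hbb
    simp only [Set.mem_setOf_eq, not_le] at hbb ⊢
    rw [hT3] at hbb
    exact hbb.le
  have hmk := PP_markov (q := q) hq
    (F := fun b : Sym2 (Fin n) → B => ((Ebig (adj A b) (adj A' b) (rN θ n h / 2)).card : ℝ))
    (fun b => Nat.cast_nonneg _) hpos
  refine (PP_mono hq hsub).trans (hmk.trans ?_)
  rw [div_le_iff₀ hpos]
  refine hmean.trans ?_
  have hsq : armB n (LL c₀ n * h) (rN θ n h / 2) ^ 2 ≤ (30 * T * h) ^ 2 :=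
    pow_le_pow_left₀ a11 harm 2
  have hL := hb.L_le
  have e1 : (n : ℝ) * ((LL c₀ n + 1) * h) * armB n (LL c₀ n * h) (rN θ n h / 2) ^ 2 ≤
      n * ((200 / c₀ * Real.log n) * h) * (30 * T * h) ^ 2 := by
    apply mul_le_mul _ hsq (by positivity)
    · have := hb.log_big
      positivity
    · apply mul_le_mul_of_nonneg_left _ hn0.le
      exact mul_le_mul_of_nonneg_right hL hh0.le
  refine e1.trans ?_
  have e2 : (n : ℝ) * ((200 / c₀ * Real.log n) * h) * (30 * T * h) ^ 2 =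
      (180000 / c₀ * Real.log n ^ 1 * T⁻¹) * (T ^ 3 * (h ^ 3 * n)) := by
    field_simp
    ring
  rw [e2]
  exact mul_le_mul_of_nonneg_right h3 hpos.le

/-- Proof. `ppa_mean`: the mean is at most `n / h (2 (L + 1) h)² (30 n ^ θ h)² =
3600 (L + 1)² n ^ (2θ) h³ n`; `PP_markov` gives `3600 (200 / c₀ log n)² n ^ (-2θ) ≤ ε`. -/
theorem d9a_prob (δ θ c₀ ε : ℝ) (hδ : 0 < δ) (hδ1 : δ ≤ 1 / 10) (hθ : 0 < θ) (hθ1 : θ ≤ δ / 10)
    (hc : 0 < c₀) (hc1 : c₀ ≤ 1) (hε : 0 < ε) :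
    ∃ n₀ : ℕ, ∀ n : ℕ, n₀ ≤ n → ∀ h : ℝ, R2Par δ n h →
    ∀ (B : Type) [Fintype B] [DecidableEq B] (q : B → ℝ) (A A' : Finset B), IsLaw q → A ⊆ A' →
      qs q A = (1 - h) / n → qs q A' = (1 + LL c₀ n * h) / n →
      PP q {b : Sym2 (Fin n) → B | ¬ ((PPa (adj A b) (adj A' b) (rN θ n h / 2)).card : ℝ) ≤
        (n : ℝ) ^ (4 * θ) * (h ^ 3 * n)} ≤ ε := by
  obtain ⟨n₁, h₁⟩ := P8_common δ θ c₀ hδ hδ1 hθ hθ1 hc hc1
  obtain ⟨n₂, h₂⟩ := log_pow_small (3600 * (200 / c₀) ^ 2) (2 * θ) ε 2 (by linarith) hε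
  refine ⟨max n₁ n₂, fun n hn h hh B _ _ q A A' hq hA hqA hqA' => ?_⟩
  obtain ⟨hb, hr⟩ := h₁ n (le_trans (le_max_left _ _) hn) h hh
  have h3 := h₂ n (le_trans (le_max_right _ _) hn)
  obtain ⟨a1, a2, a3, a4, a5, a6, a7, a8, a9, a10, a11⟩ := P8_num hb hr hqA hqA'
  have hmean := ppa_mean hq A A' hA h hb.h_pos (by linarith [hb.h_small]) a5 a6 (LL c₀ n * h)
    a1 a2 a3 a4 (rN θ n h / 2) hr.r_half
  rw [Fintype.card_fin] at hmean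
  have hn0 : (0 : ℝ) < n := lt_of_lt_of_le (by norm_num) hb.n_big
  have hh0 := hb.h_pos
  have hL1 := hb.L_one
  obtain ⟨T, hT, hTd⟩ : ∃ T : ℝ, 0 < T ∧ T = (n : ℝ) ^ θ := ⟨_, Real.rpow_pos_of_pos hn0 θ, rfl⟩
  have hT4 : (n : ℝ) ^ (4 * θ) = T ^ 4 := by
    rw [hTd, mul_comm, Real.rpow_mul hn0.le]
    exact_mod_cast Real.rpow_natCast _ 4
  have hTi : (n : ℝ) ^ (-(2 * θ)) = (T ^ 2)⁻¹ := by
    rw [hTd, Real.rpow_neg hn0.le, mul_comm, Real.rpow_mul hn0.le]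
    congr 1
    exact_mod_cast Real.rpow_natCast _ 2
  have harm := hr.arm
  rw [← hTd] at harm
  rw [hTi] at h3
  have hpos : 0 < T ^ 4 * (h ^ 3 * n) := by positivity
  have hsub : {b : Sym2 (Fin n) → B | ¬ ((PPa (adj A b) (adj A' b) (rN θ n h / 2)).card : ℝ) ≤
        (n : ℝ) ^ (4 * θ) * (h ^ 3 * n)} ⊆
      {b : Sym2 (Fin n) → B | T ^ 4 * (h ^ 3 * n) ≤
        ((PPa (adj A b) (adj A' b) (rN θ n h / 2)).card : ℝ)} := by
    intro b hbb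
    simp only [Set.mem_setOf_eq, not_le] at hbb ⊢
    rw [hT4] at hbb
    exact hbb.le
  have hmk := PP_markov (q := q) hq
    (F := fun b : Sym2 (Fin n) → B => ((PPa (adj A b) (adj A' b) (rN θ n h / 2)).card : ℝ))
    (fun b => Nat.cast_nonneg _) hpos
  refine (PP_mono hq hsub).trans (hmk.trans ?_)
  rw [div_le_iff₀ hpos]
  refine hmean.trans ?_
  have hsq : armB n (LL c₀ n * h) (rN θ n h / 2) ^ 2 ≤ (30 * T * h) ^ 2 :=
    pow_le_pow_left₀ a11 harm 2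
  have hL := hb.L_le
  have hwin : (n : ℝ) * ((qs q A' - qs q A) / (1 - qs q A)) ≤ 2 * (200 / c₀ * Real.log n) * h := by
    refine a8.trans ?_
    apply mul_le_mul_of_nonneg_right _ hh0.le
    linarith
  have hwsq : ((n : ℝ) * ((qs q A' - qs q A) / (1 - qs q A))) ^ 2 ≤
      (2 * (200 / c₀ * Real.log n) * h) ^ 2 := pow_le_pow_left₀ a9 hwin 2
  have e1 : (n : ℝ) / h * ((n : ℝ) * ((qs q A' - qs q A) / (1 - qs q A))) ^ 2 *
      armB n (LL c₀ n * h) (rN θ n h / 2) ^ 2 ≤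
      n / h * (2 * (200 / c₀ * Real.log n) * h) ^ 2 * (30 * T * h) ^ 2 := by
    apply mul_le_mul _ hsq (by positivity) (by positivity)
    exact mul_le_mul_of_nonneg_left hwsq (by positivity)
  refine e1.trans ?_
  have e2 : (n : ℝ) / h * (2 * (200 / c₀ * Real.log n) * h) ^ 2 * (30 * T * h) ^ 2 =
      (3600 * (200 / c₀) ^ 2 * Real.log n ^ 2 * (T ^ 2)⁻¹) * (T ^ 4 * (h ^ 3 * n)) := by
    field_simp
    ring
  rw [e2]
  exact mul_le_mul_of_nonneg_right h3 hpos.le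

/-- Proof. `qqb_le` and `qqo_mean` with `km = kh h ≥ 10⁻⁴ / h²`, `4 / √km ≤ 400 h`: the mean of `|QQo|` is at most
`n (400 h) (2 (L + 1) h) (30 n ^ θ h) = 24000 (L + 1) n ^ θ h³ n`; `PP_markov` gives
`24000 * 200 / c₀ log n n ^ (-2θ) ≤ ε`. -/
theorem d9b_prob (δ θ c₀ ε : ℝ) (hδ : 0 < δ) (hδ1 : δ ≤ 1 / 10) (hθ : 0 < θ) (hθ1 : θ ≤ δ / 10)
    (hc : 0 < c₀) (hc1 : c₀ ≤ 1) (hε : 0 < ε) :
    ∃ n₀ : ℕ, ∀ n : ℕ, n₀ ≤ n → ∀ h : ℝ, R2Par δ n h →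
    ∀ (B : Type) [Fintype B] [DecidableEq B] (q : B → ℝ) (A A' : Finset B), IsLaw q → A ⊆ A' →
      qs q A = (1 - h) / n → qs q A' = (1 + LL c₀ n * h) / n →
      PP q {b : Sym2 (Fin n) → B | ¬ ∀ rep : Finset (Fin n) → Fin n,
        ((QQb (adj A b) (adj A' b) (kh h) (rN θ n h / 2) rep).card : ℝ) ≤
        (n : ℝ) ^ (3 * θ) * (h ^ 3 * n)} ≤ ε := by
  obtain ⟨n₁, h₁⟩ := P8_common δ θ c₀ hδ hδ1 hθ hθ1 hc hc1
  obtain ⟨n₂, h₂⟩ := log_pow_small (24000 * (200 / c₀)) (2 * θ) ε 1 (by linarith) hε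
  refine ⟨max n₁ n₂, fun n hn h hh B _ _ q A A' hq hA hqA hqA' => ?_⟩
  obtain ⟨hb, hr⟩ := h₁ n (le_trans (le_max_left _ _) hn) h hh
  have h3 := h₂ n (le_trans (le_max_right _ _) hn)
  obtain ⟨a1, a2, a3, a4, a5, a6, a7, a8, a9, a10, a11⟩ := P8_num hb hr hqA hqA'
  obtain ⟨k1, k2, k3⟩ := kh_facts h hb.h_pos hb.h_small
  have hh0 := hb.h_pos
  have hmean := qqo_mean hq A A' hA (by linarith) a7 (LL c₀ n * h)
    a1 a2 a3 a4 (kh h) (rN θ n h / 2) k1 hr.r_half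
  rw [Fintype.card_fin] at hmean
  have hn0 : (0 : ℝ) < n := lt_of_lt_of_le (by norm_num) hb.n_big
  have hL1 := hb.L_one
  obtain ⟨T, hT, hTd⟩ : ∃ T : ℝ, 0 < T ∧ T = (n : ℝ) ^ θ := ⟨_, Real.rpow_pos_of_pos hn0 θ, rfl⟩
  have hT3 : (n : ℝ) ^ (3 * θ) = T ^ 3 := by
    rw [hTd, mul_comm, Real.rpow_mul hn0.le]
    exact_mod_cast Real.rpow_natCast _ 3
  have hTi : (n : ℝ) ^ (-(2 * θ)) = (T ^ 2)⁻¹ := by
    rw [hTd, Real.rpow_neg hn0.le, mul_comm, Real.rpow_mul hn0.le]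
    congr 1
    exact_mod_cast Real.rpow_natCast _ 2
  have harm := hr.arm
  rw [← hTd] at harm
  rw [hTi] at h3
  have hpos : 0 < T ^ 3 * (h ^ 3 * n) := by positivity
  have hsub : {b : Sym2 (Fin n) → B | ¬ ∀ rep : Finset (Fin n) → Fin n,
        ((QQb (adj A b) (adj A' b) (kh h) (rN θ n h / 2) rep).card : ℝ) ≤
        (n : ℝ) ^ (3 * θ) * (h ^ 3 * n)} ⊆
      {b : Sym2 (Fin n) → B | T ^ 3 * (h ^ 3 * n) ≤
        ((QQo (adj A b) (adj A' b) (kh h) (rN θ n h / 2)).card : ℝ)} := by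
    intro b hbb
    simp only [Set.mem_setOf_eq, not_forall, not_le] at hbb ⊢
    obtain ⟨rep, hrep⟩ := hbb
    rw [hT3] at hrep
    refine hrep.le.trans ?_
    exact_mod_cast qqb_le (adj A b) (adj A' b) (kh h) (rN θ n h / 2) rep
  have hmk := PP_markov (q := q) hq
    (F := fun b : Sym2 (Fin n) → B =>
      ((QQo (adj A b) (adj A' b) (kh h) (rN θ n h / 2)).card : ℝ))
    (fun b => Nat.cast_nonneg _) hpos
  refine (PP_mono hq hsub).trans (hmk.trans ?_)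
  rw [div_le_iff₀ hpos]
  refine hmean.trans ?_
  have hL := hb.L_le
  have hwin : (n : ℝ) * ((qs q A' - qs q A) / (1 - qs q A)) ≤ 2 * (200 / c₀ * Real.log n) * h := by
    refine a8.trans ?_
    apply mul_le_mul_of_nonneg_right _ hh0.le
    linarith
  have hlog := hb.log_big
  have hsq : 4 / Real.sqrt (kh h : ℝ) ≤ 400 * h := by
    have hs : 1 / (100 * h) ≤ Real.sqrt (kh h : ℝ) := by
      apply Real.le_sqrt_of_sq_le
      refine le_trans (le_of_eq ?_) k2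
      field_simp
      norm_num
    have hp : (0 : ℝ) < 1 / (100 * h) := by positivity
    calc 4 / Real.sqrt (kh h : ℝ) ≤ 4 / (1 / (100 * h)) :=
          div_le_div_of_nonneg_left (by norm_num) hp hs
      _ = 400 * h := by
          field_simp
          norm_num
  have e1 : (n : ℝ) * (4 / Real.sqrt (kh h : ℝ)) *
      ((n : ℝ) * ((qs q A' - qs q A) / (1 - qs q A))) * armB n (LL c₀ n * h) (rN θ n h / 2) ≤
      n * (400 * h) * (2 * (200 / c₀ * Real.log n) * h) * (30 * T * h) := by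
    apply mul_le_mul _ harm a11 (by positivity)
    apply mul_le_mul _ hwin a9 (by positivity)
    exact mul_le_mul_of_nonneg_left hsq hn0.le
  refine e1.trans ?_
  have e2 : (n : ℝ) * (400 * h) * (2 * (200 / c₀ * Real.log n) * h) * (30 * T * h) =
      (24000 * (200 / c₀) * Real.log n ^ 1 * (T ^ 2)⁻¹) * (T ^ 3 * (h ^ 3 * n)) := by
    field_simp
    ring
  rw [e2]
  exact mul_le_mul_of_nonneg_right h3 hpos.le

end RST.D
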