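import Pool.Agent.Lib.MP_7946c7_pr.D.Det
import Pool.Agent.Lib.MP_7946c7_pr.D.G1
import Pool.Agent.Lib.MP_7946c7_pr.D.G4
import Pool.Agent.Lib.MP_7946c7_pr.D.P1
import Pool.Agent.Lib.MP_7946c7_pr.D.P2
import Pool.Agent.Lib.MP_7946c7_pr.D.P3
import Pool.Agent.Lib.MP_7946c7_pr.D.P4
import Pool.Agent.Lib.MP_7946c7_pr.D.P5
import Pool.Agent.Lib.MP_7946c7_pr.D.P6
import Pool.Agent.Lib.MP_7946c7_pr.D.P7
import Pool.Agent.Lib.MP_7946c7_pr.D.P8

/-!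
# MP_7946c7_pr, stream D: assembly (helper99)
-/

open Finset MeasureTheory

namespace RST

namespace D

theorem gr_symm {V : Type} (lab : Sym2 V → ℝ) (x : ℝ) : ∀ u v, gr lab x u v → gr lab x v u := by
  intro u v h
  refine ⟨h.1.symm, ?_⟩
  rw [Sym2.eq_swap]; exact h.2

theorem gr_mono {V : Type} (lab : Sym2 V → ℝ) {x y : ℝ} (hxy : x ≤ y) :
    ∀ u v, gr lab x u v → gr lab y u v := fun _ _ h => ⟨h.1, h.2.trans hxy⟩

theorem lowBins_mono {K : ℕ} {i j : Fin K} (h : i ≤ j) : lowBins i ⊆ lowBins j := by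
  intro b hb
  simp only [lowBins, mem_filter, mem_univ, true_and] at hb ⊢
  exact hb.trans h

/-- Transfer, complement form. -/
theorem transfer_good (n : ℕ) (hn : 0 < n) (K : ℕ) (x : Fin K → ℝ) (hx : Monotone x)
    (h0 : ∀ k, -1 ≤ x k) (h1 : ∀ k, x k ≤ n - 1) (Φ : Set (Fin K → Fin n → Fin n → Prop)) (ε : ℝ)
    (hb : ∀ q : Fin (K + 1) → ℝ, IsLaw q → (∀ k : Fin K, qs q (lowBins k) = (1 + x k) / n) →
      PP q {b : Sym2 (Fin n) → Fin (K + 1) | ¬ (fun k : Fin K => adj (lowBins k) b) ∈ Φ} ≤ ε) :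
    ∃ A : Set (Sym2 (Fin n) → ℝ), MeasurableSet A ∧ (labLaw n Aᶜ).toReal ≤ ε ∧
      ∀ ω ∈ A, (fun k => gr (xlab n ω) (x k)) ∈ Φ := by
  obtain ⟨q, hq, hqs, hΦ⟩ := transfer n hn K x hx h0 h1
  refine ⟨{ω | (fun k => gr (xlab n ω) (x k)) ∈ Φ}, (hΦ Φ).1, ?_, fun ω hω => hω⟩
  have h2 := (hΦ Φᶜ).2
  have h3 : ({ω | (fun k => gr (xlab n ω) (x k)) ∈ Φ}ᶜ : Set (Sym2 (Fin n) → ℝ)) =
      {ω | (fun k => gr (xlab n ω) (x k)) ∈ Φᶜ} := rfl
  rw [h3, h2]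
  exact hb q hq hqs

theorem PP_union_of {ι B : Type} [Fintype ι] [Fintype B] {q : B → ℝ} (hq : IsLaw q)
    {T U : Set (ι → B)} {a b : ℝ} (hT : PP q T ≤ a) (hU : PP q U ≤ b) : PP q (T ∪ U) ≤ a + b :=
  (PP_union_le hq T U).trans (add_le_add hT hU)

end D

open D

/-- D1, D3, D4, D6, D7, D10 and the counts D5, D8, D9. -/
theorem dfacts_prob (δ θ c₀ ε : ℝ) (hδ : 0 < δ) (hδ1 : δ ≤ 1 / 10) (hθ : 0 < θ) (hθ1 : θ ≤ δ / 10)
    (hc : 0 < c₀) (hc1 : c₀ * C1 ≤ 1) (hε : 0 < ε) : ∃ n₀ : ℕ, ∀ n : ℕ, n₀ ≤ n → ∀ h : ℝ,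
    R2Par δ n h → ∃ A : Set (Sym2 (Fin n) → ℝ), MeasurableSet A ∧ (labLaw n Aᶜ).toReal ≤ ε ∧
    ∀ ω ∈ A,
      DFacts (gr (xlab n ω) (-h)) (gr (xlab n ω) (C1 * Real.log n * h))
        (gr (xlab n ω) (LL c₀ n * h)) (kh h) (lmN n h) (rN θ n h) (rN θ n h / 2) (k0N θ)
        (2 * k0N θ + 4) (abN θ n) (ebN θ n) ∧
      h ^ 3 * n / 100 ≤ (bigs (gr (xlab n ω) (-h)) univ (kh h)).card ∧
      ((bigs (gr (xlab n ω) (-h)) univ (kh h)).card : ℝ) ≤ (n : ℝ) ^ θ * (h ^ 3 * n) ∧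
      ((Ebig (gr (xlab n ω) (-h)) (gr (xlab n ω) (LL c₀ n * h)) (rN θ n h / 2)).card : ℝ) ≤
        (n : ℝ) ^ (3 * θ) * (h ^ 3 * n) ∧
      ((PPa (gr (xlab n ω) (-h)) (gr (xlab n ω) (LL c₀ n * h)) (rN θ n h / 2)).card : ℝ) ≤
        (n : ℝ) ^ (4 * θ) * (h ^ 3 * n) ∧
      ∀ rep : Finset (Fin n) → Fin n,
        ((QQb (gr (xlab n ω) (-h)) (gr (xlab n ω) (LL c₀ n * h)) (kh h) (rN θ n h / 2) rep).card
          : ℝ) ≤ (n : ℝ) ^ (3 * θ) * (h ^ 3 * n) := by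
  have hC1 : (1 : ℝ) ≤ C1 := by norm_num [C1]
  have hc1' : c₀ ≤ 1 := by nlinarith
  have he : (0 : ℝ) < ε / 11 := by positivity
  obtain ⟨m0, H0⟩ := base δ c₀ hδ hδ1 hc hc1'
  obtain ⟨m1, H1⟩ := d1_prob δ (ε / 11) hδ hδ1 he
  obtain ⟨m2, H2⟩ := d10_prob δ θ (ε / 11) hδ hδ1 hθ hθ1 he
  obtain ⟨m3, H3⟩ := d3_prob δ θ c₀ (ε / 11) hδ hδ1 hθ hθ1 hc hc1' he
  obtain ⟨m4, H4⟩ := d4_prob δ θ c₀ (ε / 11) hδ hδ1 hθ hθ1 hc hc1' he
  obtain ⟨m5, H5⟩ := d5_lower δ (ε / 11) hδ hδ1 he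
  obtain ⟨m6, H6⟩ := d5_upper δ θ (ε / 11) hδ hδ1 hθ hθ1 he
  obtain ⟨m7, H7⟩ := d6_prob δ (ε / 11) hδ hδ1 he
  obtain ⟨m8, H8⟩ := d7_prob δ θ c₀ (ε / 11) hδ hδ1 hθ hθ1 hc hc1' he (2 * k0N θ + 4)
  obtain ⟨m9, H9⟩ := d8_prob δ θ c₀ (ε / 11) hδ hδ1 hθ hθ1 hc hc1' he
  obtain ⟨m10, H10⟩ := d9a_prob δ θ c₀ (ε / 11) hδ hδ1 hθ hθ1 hc hc1' he
  obtain ⟨m11, H11⟩ := d9b_prob δ θ c₀ (ε / 11) hδ hδ1 hθ hθ1 hc hc1' he
  refine ⟨m0 + m1 + m2 + m3 + m4 + m5 + m6 + m7 + m8 + m9 + m10 + m11, fun n hn h hR => ?_⟩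
  have Bs := H0 n (by omega) h hR
  have K1 := H1 n (by omega) h hR
  have K2 := H2 n (by omega) h hR
  have K3 := H3 n (by omega) h hR
  have K4 := H4 n (by omega) h hR
  have K5 := H5 n (by omega) h hR
  have K6 := H6 n (by omega) h hR
  have K7 := H7 n (by omega) h hR
  have K8 := H8 n (by omega) h hR
  have K9 := H9 n (by omega) h hR
  have K10 := H10 n (by omega) h hR
  have K11 := H11 n (by omega) h hR
  have hn0 : 0 < n := by
    have := Bs.n_big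
    rcases Nat.eq_zero_or_pos n with h0 | h0
    · subst h0; norm_num at this
    · exact h0
  have hlog := Bs.log_big
  have hAL : C1 * Real.log n ≤ LL c₀ n := by
    have h1 : C1 ≤ 1 / c₀ := by rw [le_div_iff₀ hc]; linarith
    have h2 : C1 * Real.log n ≤ 1 / c₀ * Real.log n := by gcongr
    have h3 : 1 / c₀ * Real.log n ≤ 150 / c₀ * Real.log n := by gcongr; norm_num
    linarith [Bs.L_ge]
  have hlog0 : 0 ≤ C1 * Real.log n := by positivity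
  have hh0 := Bs.h_pos
  have hAh : C1 * Real.log n * h ≤ LL c₀ n * h := by gcongr
  have hAh0 : 0 ≤ C1 * Real.log n * h := by positivity
  have e0 : ∀ x : Fin 3, (![-h, C1 * Real.log n * h, LL c₀ n * h] : Fin 3 → ℝ) x ≤ n - 1 := by
    intro x
    have := Bs.n_big; have := Bs.Lh
    fin_cases x <;> simp <;> linarith
  have e1 : ∀ x : Fin 3, -1 ≤ (![-h, C1 * Real.log n * h, LL c₀ n * h] : Fin 3 → ℝ) x := by
    intro x
    have := Bs.h_small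
    fin_cases x <;> simp <;> linarith
  have e2 : Monotone (![-h, C1 * Real.log n * h, LL c₀ n * h] : Fin 3 → ℝ) := by
    rw [Fin.monotone_iff_le_succ]
    intro i
    fin_cases i
    · show -h ≤ C1 * Real.log n * h
      linarith
    · show C1 * Real.log n * h ≤ LL c₀ n * h
      exact hAh
  have T := transfer_good n hn0 3 _ e2 e1 e0
    {G | GD1 (G 0) (lmN n h) ∧ GD10 (G 0) (kh h) (rN θ n h / 2) ∧
      GD3 (G 0) (G 2) (rN θ n h) (k0N θ) ∧ GD4 (G 0) (G 2) (rN θ n h / 2) (abN θ n) ∧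
      h ^ 3 * n / 100 ≤ ((bigs (G 0) univ (kh h)).card : ℝ) ∧
      ((bigs (G 0) univ (kh h)).card : ℝ) ≤ (n : ℝ) ^ θ * (h ^ 3 * n) ∧
      GD6 (G 0) (G 1) (kh h) ∧ (Ecyc (G 0) (G 2) (2 * k0N θ + 4)).card ≤ ebN θ n ∧
      ((Ebig (G 0) (G 2) (rN θ n h / 2)).card : ℝ) ≤ (n : ℝ) ^ (3 * θ) * (h ^ 3 * n) ∧
      ((PPa (G 0) (G 2) (rN θ n h / 2)).card : ℝ) ≤ (n : ℝ) ^ (4 * θ) * (h ^ 3 * n) ∧
      ∀ rep : Finset (Fin n) → Fin n,
        ((QQb (G 0) (G 2) (kh h) (rN θ n h / 2) rep).card : ℝ) ≤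
          (n : ℝ) ^ (3 * θ) * (h ^ 3 * n)} ε
  obtain ⟨A, hA1, hA2, hA3⟩ := T (by
    intro q hq hqs
    have q0 : qs q (lowBins (0 : Fin 3)) = (1 - h) / n := by
      rw [hqs 0]; simp [sub_eq_add_neg]
    have q1 : qs q (lowBins (1 : Fin 3)) = (1 + C1 * Real.log n * h) / n := by
      rw [hqs 1]; simp
    have q2 : qs q (lowBins (2 : Fin 3)) = (1 + LL c₀ n * h) / n := by
      rw [hqs 2]; simp
    have s01 : lowBins (0 : Fin 3) ⊆ lowBins 1 := lowBins_mono (by decide)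
    have s02 : lowBins (0 : Fin 3) ⊆ lowBins 2 := lowBins_mono (by decide)
    have L1 := K1 _ q _ hq q0
    have L2 := K2 _ q _ hq q0
    have L3 := K3 _ q _ _ hq s02 q0 q2
    have L4 := K4 _ q _ _ hq s02 q0 q2
    have L5 := K5 _ q _ hq q0
    have L6 := K6 _ q _ hq q0
    have L7 := K7 _ q _ _ hq s01 q0 q1
    have L8 := K8 _ q _ _ hq s02 q0 q2
    have L9 := K9 _ q _ _ hq s02 q0 q2
    have L10 := K10 _ q _ _ hq s02 q0 q2
    have L11 := K11 _ q _ _ hq s02 q0 q2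
    have U11 := L11
    have U10 := PP_union_of hq L10 U11
    have U9 := PP_union_of hq L9 U10
    have U8 := PP_union_of hq L8 U9
    have U7 := PP_union_of hq L7 U8
    have U6 := PP_union_of hq L6 U7
    have U5 := PP_union_of hq L5 U6
    have U4 := PP_union_of hq L4 U5
    have U3 := PP_union_of hq L3 U4
    have U2 := PP_union_of hq L2 U3
    have U1 := PP_union_of hq L1 U2
    refine (PP_mono hq ?_).trans (U1.trans (by linarith))
    intro b hb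
    simp only [Set.mem_ofPred_eq] at hb ⊢
    by_contra hcon
    simp only [Set.mem_union, Set.mem_ofPred_eq, not_or, not_not, not_and] at hcon
    tauto)
  · refine ⟨A, hA1, hA2, fun ω hω => ?_⟩
    obtain ⟨g1, g10, g3, g4, g5, g5', g6, g7, g8, g9, g9'⟩ := hA3 ω hω
    refine ⟨?_, g5, g5', g8, g9, g9'⟩
    exact
      { symm_m := gr_symm _ _
        symm_A := gr_symm _ _
        symm_L := gr_symm _ _
        irr := fun u hu => hu.1 rfl
        le_A := gr_mono _ (by linarith)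
        le_L := gr_mono _ hAh
        d1 := g1
        d3 := g3
        d4 := g4
        d6 := g6
        d7 := g7
        d10 := g10 }

open Classical in
/-- D2. Number of edges with a recent label on self-avoiding walks of polylogarithmic length. -/
theorem recent_edges (δ c₀ : ℝ) (hδ : 0 < δ) (hδ1 : δ ≤ 1 / 10) (hc : 0 < c₀) (hc1 : c₀ ≤ 1)
    (Cr : ℕ) : ∃ Cr' n₀ : ℕ, ∀ n : ℕ, n₀ ≤ n → ∀ h : ℝ, R2Par δ n h → ∀ x : ℝ, -h ≤ x →
    x ≤ 2 * LL c₀ n * h → ∃ A : Set (Sym2 (Fin n) → ℝ), MeasurableSet A ∧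
      (labLaw n Aᶜ).toReal ≤ 1 / n ∧ ∀ ω ∈ A, ∀ (γ : ℕ → Fin n) (ℓ : ℕ),
        IsSAW (gr (xlab n ω) x) γ ℓ → (ℓ : ℝ) ≤ (Real.log n) ^ Cr / h →
        ((range ℓ).filter fun i => x - 2 / c₀ * Real.log n * h < xlab n ω s(γ i, γ (i + 1))).card ≤
          (Real.log n) ^ Cr' := by
  obtain ⟨m0, H0⟩ := base δ c₀ hδ hδ1 hc hc1
  obtain ⟨m1, H1⟩ := d2_prob δ c₀ hδ hδ1 hc hc1 Cr
  refine ⟨Cr + 4, m0 + m1, fun n hn h hR x hx1 hx2 => ?_⟩
  have Bs := H0 n (by omega) h hR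
  have hn0 : 0 < n := by
    have := Bs.n_big
    rcases Nat.eq_zero_or_pos n with h0 | h0
    · subst h0; norm_num at this
    · exact h0
  have hlog := Bs.log_big
  have hh0 := Bs.h_pos
  have hw0 : 0 ≤ 2 / c₀ * Real.log n * h := by positivity
  have hw : 2 / c₀ * Real.log n * h ≤ 1 / 2000 := by
    have h1 : 2 / c₀ * Real.log n ≤ 150 / c₀ * Real.log n := by gcongr; norm_num
    have h2 : 2 / c₀ * Real.log n * h ≤ LL c₀ n * h := by
      gcongr; linarith [Bs.L_ge]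
    linarith [Bs.Lh]
  have e0 : ∀ k : Fin 2, (![x - 2 / c₀ * Real.log n * h, x] : Fin 2 → ℝ) k ≤ n - 1 := by
    intro k
    have := Bs.n_big; have := Bs.Lh
    fin_cases k <;> simp <;> linarith
  have e1 : ∀ k : Fin 2, -1 ≤ (![x - 2 / c₀ * Real.log n * h, x] : Fin 2 → ℝ) k := by
    intro k
    have := Bs.h_small
    fin_cases k <;> simp <;> linarith
  have e2 : Monotone (![x - 2 / c₀ * Real.log n * h, x] : Fin 2 → ℝ) := by
    rw [Fin.monotone_iff_le_succ]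
    intro i
    fin_cases i
    show x - 2 / c₀ * Real.log n * h ≤ x
    linarith
  have T := transfer_good n hn0 2 _ e2 e1 e0
    {G | GD3 (G 0) (G 1) ⌊(Real.log n) ^ Cr / h⌋₊ ⌊(Real.log n) ^ (Cr + 4)⌋₊} (1 / n)
  obtain ⟨A, hA1, hA2, hA3⟩ := T (by
    intro q hq hqs
    exact H1 n (by omega) h hR x hx1 hx2 _ q _ _ hq (lowBins_mono (by decide))
      (by rw [hqs 0]; simp) (by rw [hqs 1]; simp))
  · refine ⟨A, hA1, hA2, fun ω hω γ ℓ hγ hℓ => ?_⟩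
    have g := hA3 ω hω γ ℓ hγ (Nat.le_floor hℓ)
    have hpos : (0 : ℝ) ≤ Real.log n ^ (Cr + 4) := by positivity
    refine (Nat.cast_le.2 (le_trans (card_le_card ?_) g)).trans (Nat.floor_le hpos)
    intro i hi
    simp only [mem_filter, mem_range] at hi ⊢
    refine ⟨hi.1, fun hgr => ?_⟩
    have := hgr.2
    simp only [Matrix.cons_val_zero] at this
    linarith [hi.2]

/-- D11. Diameter of the giants. -/
theorem giant_diam (δ c₀ : ℝ) (hδ : 0 < δ) (hδ1 : δ ≤ 1 / 10) (hc : 0 < c₀) (hc1 : c₀ ≤ 1) :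
    ∃ Cr n₀ : ℕ, ∀ n : ℕ, n₀ ≤ n → ∀ h : ℝ, R2Par δ n h → ∀ x : ℝ, h ≤ x →
    x ≤ 2 * LL c₀ n * h → ∃ A : Set (Sym2 (Fin n) → ℝ), MeasurableSet A ∧
      (labLaw n Aᶜ).toReal ≤ 1 / n ∧ ∀ ω ∈ A, ∀ u ∈ gg (gr (xlab n ω) x) univ (kst δ n h),
        ∀ v ∈ gg (gr (xlab n ω) x) univ (kst δ n h), ∃ (γ : ℕ → Fin n) (ℓ : ℕ),
          IsSAW (gr (xlab n ω) (101 / 100 * x)) γ ℓ ∧ γ 0 = u ∧ γ ℓ = v ∧
          (ℓ : ℝ) ≤ (Real.log n) ^ Cr / h := by
  obtain ⟨m0, H0⟩ := xfacts δ c₀ hδ hδ1 hc hc1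
  obtain ⟨m1, H1⟩ := g1_macro δ hδ
  obtain ⟨m2, H2⟩ := g1_conn δ hδ hδ1
  refine ⟨5, m0 + m1 + m2, fun n hn h hR x hx1 hx2 => ?_⟩
  have X := H0 n (by omega) h hR x hx1 hx2
  have Bs := X.bs
  have hn0 : 0 < n := by
    have := Bs.n_big
    rcases Nat.eq_zero_or_pos n with h0 | h0
    · subst h0; norm_num at this
    · exact h0
  have hn' := Bs.n_big
  have hx0 := X.x_pos
  have hx3 := X.x_small
  have hh2 := X.h2_pos
  have hh2x := X.h2_x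
  have e0 : ∀ k : Fin 3, (![-h2N n x, x, 101 / 100 * x] : Fin 3 → ℝ) k ≤ n - 1 := by
    intro k
    fin_cases k <;> simp <;> linarith
  have e1 : ∀ k : Fin 3, -1 ≤ (![-h2N n x, x, 101 / 100 * x] : Fin 3 → ℝ) k := by
    intro k
    fin_cases k <;> simp <;> linarith
  have e2 : Monotone (![-h2N n x, x, 101 / 100 * x] : Fin 3 → ℝ) := by
    rw [Fin.monotone_iff_le_succ]
    intro i
    fin_cases i
    · show -h2N n x ≤ x
      linarith
    · show x ≤ 101 / 100 * x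
      linarith
  have T := transfer_good n hn0 3 _ e2 e1 e0
    {G | GD1 (G 0) (lm2N n x) ∧
      h2N n x ^ 3 * n / 100 ≤ ((bigs (G 0) univ (kh (h2N n x))).card : ℝ) ∧
      GC (G 1) (kst δ n h) ∧ GD6 (G 0) (G 1) (kh (h2N n x)) ∧
      GR (G 0) (G 1) (RN n x) (VN n x) ∧
      GS (G 0) (G 1) (G 2) (kh (h2N n x)) (RN n x + lm2N n x) (VN n x) ∧
      ((∀ u v, G 0 u v → G 0 v u) → True)} (1 / n)
  obtain ⟨A, hA1, hA2, hA3⟩ := T (by
    intro q hq hqs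
    have q0 : qs q (lowBins (0 : Fin 3)) = (1 - h2N n x) / n := by
      rw [hqs 0]; simp [sub_eq_add_neg]
    have q1 : qs q (lowBins (1 : Fin 3)) = (1 + x) / n := by
      rw [hqs 1]; simp
    have q2 : qs q (lowBins (2 : Fin 3)) = (1 + 101 / 100 * x) / n := by
      rw [hqs 2]; simp
    have s01 : lowBins (0 : Fin 3) ⊆ lowBins 1 := lowBins_mono (by decide)
    have s12 : lowBins (1 : Fin 3) ⊆ lowBins 2 := lowBins_mono (by decide)
    have hn3 : 3 ≤ n := by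
      have : (3 : ℝ) ≤ n := by linarith
      exact_mod_cast this
    have L1 := g1_walk δ c₀ n h x X _ q _ hq q0
    have L2 := H1 n (by omega) c₀ h x X _ q _ hq q0
    have L3 := H2 n (by omega) c₀ h x hR hx1 X _ q _ hq q1
    have L4 := d6_prob_hub n hn3 (h2N n x) x hh2 (by linarith) X.x_eq (by linarith [Bs.log_big])
      (by linarith) _ q _ _ hq s01 q0 q1
    have L5 := g4_walk δ c₀ n h x X _ q _ _ hq s01 q0 q1
    have L6 := g4_spr δ c₀ n h x X (RN n x + lm2N n x) _ q _ _ _ hq s01 s12 q0 q1 q2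
    have U5 := PP_union_of hq L5 L6
    have U4 := PP_union_of hq L4 U5
    have U3 := PP_union_of hq L3 U4
    have U2 := PP_union_of hq L2 U3
    have U1 := PP_union_of hq L1 U2
    refine (PP_mono hq ?_).trans (U1.trans ?_)
    · intro b hb
      simp only [Set.mem_ofPred_eq] at hb ⊢
      by_contra hcon
      simp only [Set.mem_union, Set.mem_ofPred_eq, not_or, not_not, not_and] at hcon
      obtain ⟨c1, c2, c3, c4, c5, c6⟩ := hcon
      have hvol := hub_volume (adj (lowBins (0 : Fin 3)) b) (fun u v huv =>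
        ⟨huv.1.symm, by rw [Sym2.eq_swap]; exact huv.2⟩) (h2N n x) hh2 (by linarith) n c2
      exact hb ⟨c1, c2, c3, c4 c2, c5, c6 hvol, fun _ => trivial⟩
    · have hN : (0 : ℝ) < n := by linarith
      have a1 : 1 / (n : ℝ) ^ 3 ≤ 1 / 1000 * (1 / n) := by
        rw [div_mul_div_comm, div_le_div_iff₀ (by positivity) (by positivity)]
        nlinarith [mul_pos hN hN, mul_self_nonneg ((n : ℝ) - 1000)]
      have a2 : 2 / (n : ℝ) ^ 2 ≤ 1 / 500 * (1 / n) := by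
        rw [div_mul_div_comm, div_le_div_iff₀ (by positivity) (by positivity)]
        nlinarith
      have a3 : 1 / (n : ℝ) ^ 4 ≤ 1 / 1000 * (1 / n) := by
        refine le_trans ?_ a1
        apply one_div_le_one_div_of_le (by positivity)
        exact pow_le_pow_right₀ (by linarith) (by norm_num)
      have a4 : (0 : ℝ) ≤ 1 / n := by positivity
      linarith)
  · refine ⟨A, hA1, hA2, fun ω hω u hu v hv => ?_⟩
    obtain ⟨g1, g2, g3, g4, g5, g6, -⟩ := hA3 ω hω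
    have hkf := kh_facts (h2N n x) hh2 (by linarith)
    have hvol := hub_volume (gr (xlab n ω) (-h2N n x)) (gr_symm _ _) (h2N n x) hh2 (by linarith) n g2
    have hkg : kst δ n h ≤ (gg (gr (xlab n ω) (-h2N n x)) univ (kh (h2N n x))).card := by
      have := X.kst_le
      exact_mod_cast this.trans hvol
    have hne : (gg (gr (xlab n ω) (-h2N n x)) univ (kh (h2N n x))).Nonempty := by
      rw [← Finset.card_pos]
      have h1 : (0 : ℝ) < h2N n x * n / 10 ^ 6 := by positivity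
      exact_mod_cast h1.trans_le hvol
    obtain ⟨γ, ℓ, a1, a2, a3, a4⟩ := giant_diam_det (gr (xlab n ω) (-h2N n x)) (gr (xlab n ω) x)
      (gr (xlab n ω) (101 / 100 * x)) (gr_symm _ _) (gr_symm _ _) (gr_symm _ _)
      (gr_mono _ (by linarith)) (gr_mono _ (by linarith)) (kh (h2N n x)) (kst δ n h) (lm2N n x)
      (RN n x) (VN n x) hkf.1 g1 g4 hne hkg g5 g6 g3 u v hu hv
    refine ⟨γ, ℓ, a1, a2, a3, ?_⟩
    rw [Fintype.card_fin] at a4
    exact (Nat.cast_le.2 a4).trans X.len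

end RST
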