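import Mathlib

/-!
# MP_7946c7_pr, stream D, job NumT: asymptotic toolbox (pure Mathlib)
-/

open Finset

namespace RST.D

private lemma NumT_ev {P : ℝ → Prop} (h : ∀ᶠ x : ℝ in Filter.atTop, P x) :
    ∃ n₀ : ℕ, ∀ n : ℕ, n₀ ≤ n → P (n : ℝ) :=
  Filter.eventually_atTop.mp (tendsto_natCast_atTop_atTop.eventually h)

theorem log_pow_le (K a : ℝ) (m : ℕ) (ha : 0 < a) :
    ∃ n₀ : ℕ, ∀ n : ℕ, n₀ ≤ n → K * Real.log n ^ m ≤ (n : ℝ) ^ a := by
  refine NumT_ev (P := fun x => K * Real.log x ^ m ≤ x ^ a) ?_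
  have h1 := isLittleO_log_rpow_rpow_atTop (m : ℝ) ha
  have h2 := h1.bound (show (0 : ℝ) < 1 / (|K| + 1) by positivity)
  filter_upwards [h2, Filter.eventually_ge_atTop (1 : ℝ)] with x hx hx1
  simp only [Real.rpow_natCast, Real.norm_eq_abs] at hx
  have hxa : |x ^ a| = x ^ a := abs_of_nonneg (by positivity)
  rw [hxa] at hx
  have h3 : K * Real.log x ^ m ≤ |K| * |Real.log x ^ m| := by
    rw [← abs_mul]; exact le_abs_self _
  have h4 : |K| * |Real.log x ^ m| ≤ (|K| + 1) * (1 / (|K| + 1) * x ^ a) :=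
    mul_le_mul (by linarith) hx (abs_nonneg _) (by positivity)
  have h5 : (|K| + 1) * (1 / (|K| + 1) * x ^ a) = x ^ a := by field_simp
  linarith

theorem log_ge (K : ℝ) : ∃ n₀ : ℕ, ∀ n : ℕ, n₀ ≤ n → K ≤ Real.log n :=
  NumT_ev (P := fun x => K ≤ Real.log x) (Real.tendsto_log_atTop.eventually_ge_atTop K)

theorem rpow_ge (K a : ℝ) (ha : 0 < a) : ∃ n₀ : ℕ, ∀ n : ℕ, n₀ ≤ n → K ≤ (n : ℝ) ^ a :=
  NumT_ev (P := fun x => K ≤ x ^ a) ((tendsto_rpow_atTop ha).eventually_ge_atTop K)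

/-- `K exp (- n^a) n^b` is eventually small. -/
theorem exp_rpow_small (K a b ε : ℝ) (ha : 0 < a) (hε : 0 < ε) :
    ∃ n₀ : ℕ, ∀ n : ℕ, n₀ ≤ n → K * ((n : ℝ) ^ b * Real.exp (-((n : ℝ) ^ a))) ≤ ε := by
  refine NumT_ev (P := fun x => K * (x ^ b * Real.exp (-(x ^ a))) ≤ ε) ?_
  have h1 : Filter.Tendsto (fun y : ℝ => y ^ (b / a) * Real.exp (-1 * y)) Filter.atTop
      (nhds 0) := tendsto_rpow_mul_exp_neg_mul_atTop_nhds_zero (b / a) 1 one_pos
  have h2 : Filter.Tendsto (fun x : ℝ => (x ^ a) ^ (b / a) * Real.exp (-1 * x ^ a)) Filter.atTop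
      (nhds 0) := h1.comp (tendsto_rpow_atTop ha)
  have h3 : Filter.Tendsto (fun x : ℝ => K * ((x ^ a) ^ (b / a) * Real.exp (-1 * x ^ a)))
      Filter.atTop (nhds (K * 0)) := h2.const_mul K
  rw [mul_zero] at h3
  have h4 := h3.eventually (ge_mem_nhds hε)
  filter_upwards [h4, Filter.eventually_ge_atTop (0 : ℝ)] with x hx hx0
  have e1 : (x ^ a) ^ (b / a) = x ^ b := by
    rw [← Real.rpow_mul hx0]
    congr 1
    field_simp
  rw [e1] at hx
  have e2 : -(x ^ a) = -1 * x ^ a := by ring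
  rw [e2]
  exact hx

/-- `K (log n)^m n^(-a)` is eventually small. -/
theorem log_pow_small (K a ε : ℝ) (m : ℕ) (ha : 0 < a) (hε : 0 < ε) :
    ∃ n₀ : ℕ, ∀ n : ℕ, n₀ ≤ n → K * Real.log n ^ m * (n : ℝ) ^ (-a) ≤ ε := by
  obtain ⟨n₀, h₀⟩ := log_pow_le (K / ε) a m ha
  refine ⟨max n₀ 1, fun n hn => ?_⟩
  simp only [max_le_iff] at hn
  have h1 := h₀ n hn.1
  have hn0 : (0 : ℝ) < n := by exact_mod_cast hn.2
  have h2 : (0 : ℝ) < (n : ℝ) ^ a := by positivity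
  rw [Real.rpow_neg hn0.le, ← div_eq_mul_inv, div_le_iff₀ h2]
  have h3 : K * Real.log n ^ m = ε * (K / ε * Real.log n ^ m) := by field_simp
  rw [h3]
  exact mul_le_mul_of_nonneg_left h1 hε.le

/-- `(k / e) ^ k ≤ k!`, in the form used below: `M ^ k / k! ≤ (exp 1 * M / k) ^ k`. -/
theorem pow_div_factorial_le (M : ℝ) (hM : 0 ≤ M) (k : ℕ) (hk : 1 ≤ k) :
    M ^ k / k.factorial ≤ (Real.exp 1 * M / k) ^ k := by
  have hk0 : (0 : ℝ) < k := by exact_mod_cast hk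
  have h1 : (k : ℝ) ^ k / k.factorial ≤ Real.exp k :=
    Real.pow_div_factorial_le_exp (k : ℝ) hk0.le k
  have hf : (0 : ℝ) < k.factorial := by exact_mod_cast Nat.factorial_pos k
  rw [div_le_iff₀ hf] at h1
  have h2 : Real.exp (k : ℝ) = Real.exp 1 ^ k := by
    rw [← Real.exp_nat_mul]; simp
  rw [div_pow, mul_pow, div_le_div_iff₀ hf (by positivity)]
  calc M ^ k * (k : ℝ) ^ k ≤ M ^ k * (Real.exp k * k.factorial) :=
        mul_le_mul_of_nonneg_left h1 (by positivity)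
    _ = Real.exp 1 ^ k * M ^ k * k.factorial := by rw [h2]; ring

/-- If `exp 2 * M ≤ k` then `M ^ k / k! ≤ exp (-k)`. -/
theorem pow_div_factorial_exp (M : ℝ) (hM : 0 ≤ M) (k : ℕ) (hk : 1 ≤ k)
    (h : Real.exp 2 * M ≤ k) : M ^ k / k.factorial ≤ Real.exp (-k) := by
  have hk0 : (0 : ℝ) < k := by exact_mod_cast hk
  refine (pow_div_factorial_le M hM k hk).trans ?_
  have h1 : Real.exp 1 * M / k ≤ Real.exp (-1) := by
    rw [div_le_iff₀ hk0]
    have h2 : Real.exp (-1) * (Real.exp 2 * M) ≤ Real.exp (-1) * k :=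
      mul_le_mul_of_nonneg_left h (Real.exp_pos _).le
    have h3 : Real.exp (-1) * (Real.exp 2 * M) = Real.exp 1 * M := by
      rw [← mul_assoc, ← Real.exp_add]; norm_num
    linarith
  have h4 : Real.exp (-(k : ℝ)) = Real.exp (-1) ^ k := by
    rw [← Real.exp_nat_mul]
    congr 1
    ring
  rw [h4]
  exact pow_le_pow_left₀ (by positivity) h1 k

end RST.D
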